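import Pool.Agent.Mg.F4168de.Gfd1a75

section

/-! Chains of tiles, the inflation of chains, boxes. -/

namespace Pool.Agent.MP_4168de_an.G

open Set Filter Topology Shift Matrix

/-- The chain of one tile. -/
noncomputable def tile {A : Type} [DecidableEq A] {d : ℕ} (t : A × Lat d) : A → Rg d :=
  Pi.single t.1 (mono t.2)

/-- The coefficient of a tile in a chain. -/
def co {A : Type} {d : ℕ} (t : A × Lat d) : (A → Rg d) →+ ℤ where
  toFun z := (z t.1).coeff t.2
  map_zero' := by simp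
  map_add' z z' := by simp

lemma co_apply {A : Type} {d : ℕ} (t : A × Lat d) (z : A → Rg d) :
    co t z = (z t.1).coeff t.2 := rfl

lemma co_tile {A : Type} [DecidableEq A] {d : ℕ} (t t' : A × Lat d) :
    co t (tile t') = if t' = t then 1 else 0 := by
  obtain ⟨a, v⟩ := t
  obtain ⟨a', v'⟩ := t'
  by_cases h : a = a'
  · subst h
    simp [co_apply, tile, mono, Finsupp.single_apply]
  · simp [co_apply, tile, h, Ne.symm h]

lemma ext_co {A : Type} {d : ℕ} {z z' : A → Rg d} (h : ∀ t, co t z = co t z') : z = z' := by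
  ext a v
  exact h (a, v)

lemma co_mono_smul {A : Type} {d : ℕ} (v : Lat d) (z : A → Rg d) (t : A × Lat d) :
    co (t.1, t.2 + v) (mono v • z) = co t z := by
  simp [co_apply, mono, AddMonoidAlgebra.coeff_single_mul_apply]

lemma tile_add {A : Type} [DecidableEq A] {d : ℕ} (a : A) (v w : Lat d) :
    tile (a, v + w) = mono w • tile (a, v) := by
  simp only [tile, ← Pi.single_smul, smul_eq_mul, mono_add, mul_comm]

lemma chain_induction {A : Type} [Fintype A] [DecidableEq A] {d : ℕ} {P : (A → Rg d) → Prop}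
    (h0 : P 0) (h1 : ∀ t, P (tile t)) (h2 : ∀ z z', P z → P z' → P (z + z'))
    (h3 : ∀ z, P z → P (-z)) (z : A → Rg d) : P z := by
  have h4 : ∀ (n : ℤ) z, P z → P (n • z) := fun n z hz => by
    induction n using Int.induction_on with
    | zero => simpa using h0
    | succ n ih => rw [add_smul, one_smul]; exact h2 _ _ ih hz
    | pred n ih => rw [sub_smul, one_smul, sub_eq_add_neg]; exact h2 _ _ ih (h3 _ hz)
  refine Pi.single_induction P z h0 h2 fun a r => ?_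
  induction r using AddMonoidAlgebra.induction_linear with
  | zero => simpa using h0
  | add f g hf hg => rw [Pi.single_add]; exact h2 _ _ hf hg
  | single v n =>
    have : (Pi.single a (AddMonoidAlgebra.single v n) : A → Rg d) = n • tile (a, v) := by
      simp [tile, mono, ← Pi.single_smul]
    rw [this]
    exact h4 _ _ (h1 _)

/-- The total length of a chain. -/
noncomputable def len {A : Type} [Fintype A] {d : ℕ} (ℓ : A → ℝ) (z : A → Rg d) : ℝ :=
  ∑ x, ∑ v ∈ (z x).coeff.support, |((z x).coeff v : ℝ)| * ℓ x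

variable {A : Type} [Fintype A] [DecidableEq A] [TopologicalSpace A] {D : Shift A} {ℓ : A → ℝ}
  {c : ℝ} {σ : DSub D ℓ c} {d e : ℕ}

namespace Cover

variable (C : Cover σ d e)

/-- The chain of the tiles of a strand from index `0` to index `n`. -/
noncomputable def ch (y : D.X × Lat d) (n : ℤ) : A → Rg d :=
  isum (fun i => tile (lab (C.s i y))) n

/-- The matrix of the inflation. -/
noncomputable def J : Matrix A A (Rg d) :=
  fun b x => C.ch (C.S ((C.occ x).choose, 0)) (σ.r (C.occ x).choose.1) b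

/-- The inflation of chains. -/
noncomputable def E : (A → Rg d) →+ (A → Rg d) where
  toFun z := C.J *ᵥ fun x => mu C.Bz (z x)
  map_zero' := by simp [← Pi.zero_def]
  map_add' z z' := by
    rw [← Matrix.mulVec_add]
    simp [Pi.add_def]

/-- The boundary of a chain. -/
noncomputable def bd : (A → Rg d) →ₗ[Rg d] (A → Rg d) := (bdM C.st C.en C.δ).mulVecLin

/-- The start vertex of the tile of a lifted point. -/
noncomputable def vtx (y : D.X × Lat d) : A → Rg d := tile (C.st (y.1.1 0), y.2)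

/-- Chains that are asymptotically cancelled by the inflation. -/
def Null (z : A → Rg d) : Prop := Tendsto (fun k => len ℓ (C.E^[k] z) / c ^ k) atTop (𝓝 0)

lemma E_apply (z : A → Rg d) : C.E z = C.J *ᵥ fun x => mu C.Bz (z x) := rfl

lemma bd_apply (z : A → Rg d) : C.bd z = bdM C.st C.en C.δ *ᵥ z := rfl

lemma E_smul (P : Rg d) (z : A → Rg d) : C.E (P • z) = mu C.Bz P • C.E z := by
  rw [E_apply, E_apply, ← Matrix.mulVec_smul]
  simp [Pi.smul_def]

@[simp] lemma ch_zero (y : D.X × Lat d) : C.ch y 0 = 0 := isum_zero _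

lemma ch_succ (y : D.X × Lat d) (n : ℤ) : C.ch y (n + 1) = C.ch y n + tile (lab (C.s n y)) :=
  isum_succ _ _

lemma ch_one (y : D.X × Lat d) : C.ch y 1 = tile (lab y) := by simp [ch]

lemma ch_add (y : D.X × Lat d) (m n : ℤ) : C.ch y (m + n) = C.ch y m + C.ch (C.s m y) n := by
  simp only [ch, isum_add_index, s_s]

lemma ch_tr (v : Lat d) (y : D.X × Lat d) (n : ℤ) : C.ch (tr v y) n = mono v • C.ch y n := by
  have := map_isum (DistribSMul.toAddMonoidHom (A → Rg d) (mono v))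
    (fun i => tile (lab (C.s i y))) n
  simp only [DistribSMul.toAddMonoidHom_apply] at this
  simp only [ch, this, s_tr]
  exact isum_congr fun i _ _ => tile_add _ _ _

lemma lab_S_congr {y y' : D.X × Lat d} (h : lab y = lab y') {i : ℤ} (h0 : 0 ≤ i)
    (h1 : i < σ.r y.1.1) : lab (C.s i (C.S y)) = lab (C.s i (C.S y')) := by
  have h2 : y.1.1 0 = y'.1.1 0 := congrArg Prod.fst h
  have h3 : y.2 = y'.2 := congrArg (Prod.snd : A × Lat d → Lat d) h
  have h4 := σ.loc _ _ h2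
  refine Prod.ext (by simpa [lab, s, S] using h4 i h0 h1) ?_
  simp only [lab, s, S, h2, h3, add_right_inj, bs]
  exact isum_congr fun j a b => by
    simp only [τ_val, DSub.T_val, sh_apply, zero_add]
    rw [h4 j (by omega) (by omega)]

lemma E_tile (y : D.X × Lat d) : C.E (tile (lab y)) = C.ch (C.S y) (σ.r y.1.1) := by
  set x := (C.occ (y.1.1 0)).choose with hx
  have h1 : x.1 0 = y.1.1 0 := (C.occ (y.1.1 0)).choose_spec
  have h2 : lab (tr y.2 (x, 0)) = lab y := by simp [lab, tr, h1]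
  have h3 : C.ch (C.S y) (σ.r y.1.1) = C.ch (C.S (tr y.2 (x, 0))) (σ.r x.1) := by
    rw [σ.r_loc _ _ h1]
    have := σ.r_pos y.1.1
    exact isum_congr fun i a b => by rw [C.lab_S_congr h2.symm (by omega) (by omega)]
  rw [h3, S_tr, ch_tr, E_apply]
  have h4 : (fun a => mu C.Bz (tile (lab y) a)) = Pi.single (y.1.1 0) (mono (C.Bz y.2)) := by
    ext1 a
    by_cases h : a = y.1.1 0
    · simp [tile, lab, h]
    · simp [tile, lab, h]
  rw [h4, Matrix.mulVec_single]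
  ext1 b
  simp [J, hx, mul_comm]

lemma E_ch (y : D.X × Lat d) (n : ℤ) : C.E (C.ch y n) = C.ch (C.S y) (σ.cc y.1.1 n) := by
  rw [ch, map_isum]
  refine (eq_isum (F := fun n => C.ch (C.S y) (σ.cc y.1.1 n)) (by simp) (fun n => ?_) n).symm
  rw [RSub.cc_succ, ch_add, E_tile, S_s]
  rfl

lemma iter_E_ch (k : ℕ) (y : D.X × Lat d) (n : ℤ) :
    C.E^[k] (C.ch y n) = C.ch (C.S^[k] y) (C.ix y n k) := by
  induction k with
  | zero => rfl
  | succ k ih => rw [Function.iterate_succ_apply', ih, E_ch, Function.iterate_succ_apply']; rfl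

include C in
lemma exists_lab (t : A × Lat d) : ∃ y : D.X × Lat d, lab y = t := by
  obtain ⟨x, hx⟩ := C.occ t.1
  exact ⟨(x, t.2), by simp [lab, hx]⟩

lemma aug_J (b x : A) : aug (C.J b x) = C.Mx b x := by
  have h := C.hasMat (C.occ x).choose.1 b
  rw [(C.occ x).choose_spec] at h
  rw [← h]
  change aug (Pi.evalAddMonoidHom (fun _ : A => Rg d) b (isum _ _)) = _
  rw [map_isum, map_isum]
  refine isum_congr fun i _ _ => ?_
  simp only [Pi.evalAddMonoidHom_apply, tile, lab, s_letter, S, DSub.T_val]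
  by_cases h : σ.S (C.occ x).choose.1 i = b
  · simp [h]
  · simp [h, Ne.symm h]

lemma bd_tile (y : D.X × Lat d) : C.bd (tile (lab y)) = C.vtx (C.s 1 y) - C.vtx y := by
  rw [bd_apply, tile, Matrix.mulVec_single, s_one]
  ext1 q
  simp only [vtx, tile, lab, τ_val, sh_apply, zero_add, ← C.st_en, mono_add, Pi.sub_apply,
    Pi.single_apply, Matrix.col, MulOpposite.smul_eq_mul_unop, MulOpposite.unop_op, Pi.smul_apply,
    Matrix.transpose_apply, bdM, mul_sub, mul_ite, mul_zero, mul_one, eq_comm (a := q), mul_comm]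

lemma bd_ch (y : D.X × Lat d) (n : ℤ) : C.bd (C.ch y n) = C.vtx (C.s n y) - C.vtx y := by
  rw [ch, map_isum]
  simp only [bd_tile, s_s]
  simpa using isum_tel (fun i => C.vtx (C.s i y)) n

lemma bd_E {z : A → Rg d} (h : C.bd z = 0) : C.bd (C.E z) = 0 := by
  let F : (A → Rg d) →+ (A → Rg d) :=
    { toFun := fun z => ∑ q, mu C.Bz (z q) • tile (C.f q, C.κ q)
      map_zero' := by simp
      map_add' := fun z z' => by simp [add_smul, Finset.sum_add_distrib] }
  have h1 : ∀ y, F (C.vtx y) = C.vtx (C.S y) := fun y => by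
    simp only [F, vtx, AddMonoidHom.coe_mk, ZeroHom.coe_mk, S, C.hf, add_comm (C.Bz _), tile_add]
    rw [Finset.sum_eq_single (C.st (y.1.1 0)) (fun q _ hq => by simp [tile, hq]) (by simp)]
    simp [tile]
  have h2 : ∀ z, C.bd (C.E z) = F (C.bd z) := fun z => by
    induction z using chain_induction with
    | h0 => simp
    | h1 t =>
      obtain ⟨y, rfl⟩ := C.exists_lab t
      rw [E_tile, bd_ch, bd_tile, map_sub, h1, h1, S_s, RSub.cc_one]
    | h2 z z' a b => simp only [map_add, a, b]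
    | h3 z a => simp only [map_neg, a]
  rw [h2, h, map_zero]

open Classical in
lemma co_ch (y : D.X × Lat d) {m n : ℤ} (h : m ≤ n) (t : A × Lat d) :
    co t (C.ch y n - C.ch y m) = if ∃ j, m ≤ j ∧ j < n ∧ lab (C.s j y) = t then 1 else 0 := by
  rw [ch, ch, ← sum_Ico_eq_isum _ h, map_sum]
  simp only [co_tile]
  split_ifs with h1
  · obtain ⟨j, a1, a2, a3⟩ := h1
    rw [Finset.sum_eq_single j (fun i _ hi => if_neg fun h2 => hi (C.lab_s_inj y (h2.trans a3.symm)))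
      (fun h2 => absurd (Finset.mem_Ico.2 ⟨a1, a2⟩) h2), if_pos a3]
  · exact Finset.sum_eq_zero fun i hi => if_neg fun h2 =>
      h1 ⟨i, (Finset.mem_Ico.1 hi).1, (Finset.mem_Ico.1 hi).2, h2⟩

open Classical in
/-- The inflated piece of a strand consists of the tiles that start in the inflated window. -/
lemma co_piece (k : ℕ) (y : D.X × Lat d) {m n : ℤ} (h : m ≤ n) (t : A × Lat d) :
    co t (C.E^[k] (C.ch y n - C.ch y m)) = if C.On (C.S^[k] y) t ∧
      c ^ k * C.p (C.s m y) ≤ C.tm t ∧ C.tm t < c ^ k * C.p (C.s n y) then 1 else 0 := by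
  have h0 := C.p_s_strictMono (C.S^[k] y)
  have h1 : C.ix y m k ≤ C.ix y n k := h0.le_iff_le.1 (by
    simp only [p_ix]
    exact mul_le_mul_of_nonneg_left ((C.p_s_strictMono y).monotone h)
      (pow_nonneg (by linarith [C.one_lt]) k))
  rw [iterate_map_sub, iter_E_ch, iter_E_ch, C.co_ch _ h1, ← p_ix, ← p_ix]
  refine if_congr ⟨?_, ?_⟩ rfl rfl
  · rintro ⟨j, a1, a2, rfl⟩
    exact ⟨⟨j, rfl⟩, h0.monotone a1, h0 a2⟩
  · rintro ⟨⟨j, rfl⟩, a1, a2⟩
    exact ⟨j, h0.le_iff_le.1 a1, h0.lt_iff_lt.1 a2, rfl⟩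

/-- Locality of the inflation. -/
lemma on_loc {k : ℕ} {y y' : D.X × Lat d} (h : lab y = lab y') {t : A × Lat d}
    (h1 : C.On (C.S^[k] y) t) (h2 : c ^ k * C.p y ≤ C.tm t)
    (h3 : C.tm t < c ^ k * (C.p y + ℓ (y.1.1 0))) : C.On (C.S^[k] y') t := by
  have a1 := C.co_piece k y (m := 0) (n := 0 + 1) (by omega) t
  have a2 := C.co_piece k y' (m := 0) (n := 0 + 1) (by omega) t
  rw [p_s_succ, s_zero, if_pos ⟨h1, h2, h3⟩] at a1
  simp only [zero_add, ch_one, ch_zero, sub_zero] at a1 a2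
  rw [← h, a1] at a2
  by_contra hh
  simp [hh] at a2

/-- A box over which the set of tiles is constant and of least size. -/
structure Box where
  α : ℝ
  β : Fin e → ℝ
  ρ : ℝ
  ρ_pos : 0 < ρ
  least : ∀ α' β', (C.Lab α β).ncard ≤ (C.Lab α' β').ncard
  inner : ∀ t ∈ C.Lab α β, C.tm t + 2 * ρ ≤ α ∧ α + 2 * ρ ≤ C.tm t + ℓ t.1
  const : ∀ α' β', |α' - α| < ρ → ‖β' - β‖ < ρ → C.Lab α' β' = C.Lab α β

/-- The number of tiles over the box. -/
noncomputable def Box.m {C : Cover σ d e} (Q : C.Box) : ℕ := (C.Lab Q.α Q.β).ncard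

lemma Box.m_pos [DiscreteTopology A] {C : Cover σ d e} (Q : C.Box) : 0 < Q.m := by
  obtain ⟨x⟩ : Nonempty D.X := inferInstance
  obtain ⟨v, hv⟩ := C.dense_b.exists_dist_lt (Q.β - C.M x) Q.ρ_pos
  obtain ⟨n, hn⟩ := C.exists_K (x, v) Q.α
  refine (ncard_pos (C.finite_Lab _ _)).2 ?_
  rw [← Q.const Q.α (C.z (x, v)) (by simpa using Q.ρ_pos) (by
    rw [dist_comm, dist_eq_norm] at hv
    rwa [show C.z (x, v) - Q.β = C.b v - (Q.β - C.M x) by simp only [z]; abel])]
  exact ⟨_, _, hn, rfl⟩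

/-- The point of the torus with the given coordinates. -/
noncomputable def Et (α : ℝ) (β : Fin e → ℝ) : UnitAddTorus (Fin d) :=
  fun i => ((C.L.Ψ (α, β) i : ℝ) : UnitAddCircle)

end Cover

end Pool.Agent.MP_4168de_an.G

end

section

/-! The dynamical statements. -/

namespace Pool.Agent.MP_4168de_an.G

open Set Filter Topology Shift Matrix MeasureTheory

/-- A property of all covers. -/
def AllCovers (P : ∀ {A : Type} [Fintype A] [DecidableEq A] [TopologicalSpace A]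
    [DiscreteTopology A] {D : Shift A} {ℓ : A → ℝ} {c : ℝ} {σ : DSub D ℓ c} {d e : ℕ},
    Cover σ d e → Prop) : Prop :=
  ∀ (A : Type) [Fintype A] [DecidableEq A] [TopologicalSpace A] [DiscreteTopology A]
    (D : Shift A) (ℓ : A → ℝ) (c : ℝ) (σ : DSub D ℓ c) (d e : ℕ) (C : Cover σ d e), P C

/-- Boxes exist. -/
def BoxStmt : Prop := AllCovers fun C => Nonempty C.Box

/-- Lattice points with prescribed approximate internal coordinate are relatively dense. -/
def RecStmt : Prop := AllCovers fun C => ∀ ρ : ℝ, 0 < ρ → ∃ L : ℝ, ∀ t β, ∃ v,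
  |C.a v - t| ≤ L ∧ ‖C.b v - β‖ < ρ

/-- Stacks exist over every internal point. -/
def StackStmt : Prop := AllCovers fun C => ∀ (Q : C.Box) β,
  ∃ y : Fin Q.m → _, C.Stack β y

/-- Some internal point carries two stacks with different tiles. -/
def TwoStmt : Prop := AllCovers fun C => ∀ Q : C.Box, ∃ (β : _) (y y' : Fin Q.m → _) (t : _),
  C.Stack β y ∧ C.Stack β y' ∧ (∃ i, C.On (y i) t) ∧ ∀ i, ¬ C.On (y' i) t

/-- At a box time a stack exhausts all tiles. -/
def AgreeStmt : Prop := AllCovers fun C => ∀ (Q : C.Box) β (y : Fin Q.m → _), C.Stack β y →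
  ∀ α v, |α + C.a v - Q.α| < Q.ρ → ‖β + C.b v - Q.β‖ < Q.ρ →
    ∀ t ∈ C.Lab α β, ∃ i, C.On (y i) t

/-- Decreasing porous sets have vanishing relative measure. -/
def PorousStmt : Prop :=
  ∀ (c L ε : ℝ) (Z : ℕ → Set ℝ), 1 < c → 0 < ε → (∀ k, MeasurableSet (Z k)) →
    (∀ k α, c * α ∈ Z (k + 1) → α ∈ Z k) →
    (∀ k t, ∃ t', |t' - t| ≤ L ∧ ∀ α, |α - t'| < ε → α ∉ Z k) →
    ∀ t₁ t₂ : ℝ, Tendsto (fun k => (volume (Z k ∩ Icc (c ^ k * t₁) (c ^ k * t₂))).toReal / c ^ k)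
      atTop (𝓝 0)

/-- Properties of the length and of null chains, in particular saturation. -/
def NullStmt : Prop := AllCovers fun {_} _ _ _ _ {_ ℓ c _ d _} C =>
  (∀ z z' : _ → Rg d, len ℓ (z + z') ≤ len ℓ z + len ℓ z') ∧
  (∀ z : _ → Rg d, len ℓ (-z) = len ℓ z) ∧
  (∀ (v : Lat d) (z : _ → Rg d), len ℓ (mono v • z) = len ℓ z) ∧
  (∀ z, len ℓ (C.E z) ≤ c * len ℓ z) ∧
  C.Null 0 ∧ (∀ z z', C.Null z → C.Null z' → C.Null (z + z')) ∧
  (∀ (P : Rg d) z, C.Null z → C.Null (P • z)) ∧ (∀ z, C.Null z → C.Null (C.E z)) ∧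
  ∀ (P : Rg d) z, P ≠ 0 → C.Null (P • z) → C.Null z

/-- There is a nonzero null cycle. -/
def NonzeroStmt : Prop := AllCovers fun C => ∀ _Q : C.Box, ∃ z, z ≠ 0 ∧ C.bd z = 0 ∧ C.Null z

/-- Any two vertices of the cover are joined by a chain, of bounded length if they are close. -/
def ConnStmt : Prop := AllCovers fun {_} _ _ _ _ {_ ℓ _ _ _ _} C => ∀ R : ℝ, ∃ R' : ℝ, ∀ y y',
  |C.p y - C.p y'| ≤ R → C.z y = C.z y' → ∃ z, C.bd z = C.vtx y - C.vtx y' ∧ len ℓ z ≤ R'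

/-- If every cycle is null then there is one tile over the box. -/
def OneStmt : Prop := AllCovers fun C => ∀ Q : C.Box, (∀ z, C.bd z = 0 → C.Null z) → Q.m = 1

/-- Every cycle is null. -/
def FullStmt : Prop := AllCovers fun C => IsUnit C.Mx.det → ∀ _Q : C.Box, ∀ z, C.bd z = 0 →
  C.Null z

/-- Basic facts on the torus parametrisation. -/
def TorStmt : Prop := AllCovers fun C =>
  (∀ α β α' β', C.Et (α + α') (β + β') = C.Et α β + C.Et α' β') ∧
  (Continuous fun q : ℝ × _ => C.Et q.1 q.2) ∧ (IsOpenMap fun q : ℝ × _ => C.Et q.1 q.2) ∧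
  (∀ α β v, C.Et (α + C.a v) (β + C.b v) = C.Et α β) ∧
  (∀ α β α' β', C.Et α β = C.Et α' β' → ∃ v, α' = α + C.a v ∧ β' = β + C.b v) ∧
  (∀ g, ∃ α β, C.Et α β = g) ∧ DenseRange fun t : ℝ => C.Et t 0

/-- With one tile over the box, points whose backward orbit visits the box infinitely often have
at most one preimage. -/
def FibreStmt : Prop := AllCovers fun {_} _ _ _ _ {_ _ c _ _ _} C => ∀ Q : C.Box, Q.m = 1 →
  ∀ α β, (∃ᶠ k in atTop, ∃ v, |α / c ^ k + C.a v - Q.α| < Q.ρ ∧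
    ‖C.L.B'.symm^[k] β + C.b v - Q.β‖ < Q.ρ) → ∀ α', (C.K α' β).Subsingleton

/-- Almost every fibre is a single point. -/
def AeStmt : Prop := AllCovers fun {_} _ _ _ _ {_ _ _ _ d _} C => ∀ Q : C.Box, Q.m = 1 →
  ∀ (ν : Measure (UnitAddTorus (Fin d))) [IsProbabilityMeasure ν],
    (∀ t, MeasurePreserving (C.Et t 0 + ·) ν ν) →
    ∀ᵐ g ∂ν, ∀ α β, C.Et α β = g → (C.K α β).Subsingleton

/-- Pure point spectrum. -/
def SpecStmt : Prop := AllCovers fun {A} _ _ _ _ {D ℓ _ _ _ _} C => ∀ Q : C.Box, Q.m = 1 →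
  ∀ (l₁ : ℝ) (Ω : Set (Patch A)), (∀ a, ℓ a ≤ l₁) →
    Ω = (fun q : (ℤ → A) × ℝ => θ ℓ q.1 q.2) '' (D.X ×ˢ Icc 0 l₁) →
    ∀ (μ : Measure (Patch A)) [IsProbabilityMeasure μ], μ Ωᶜ = 0 →
      (∀ t, MeasurePreserving (translate t) μ μ) → PurePoint μ

end Pool.Agent.MP_4168de_an.G

end

section

/-! Length of chains, null chains and saturation. -/

namespace Pool.Agent.MP_4168de_an.G

open Set Filter Topology Shift Matrix

section lw

variable {A : Type} {d : ℕ}

/-- Weighted length. -/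
noncomputable def lw_Null (ω : A × Lat d → ℝ) (z : A → Rg d) : ℝ := ∑' t, |(co t z : ℝ)| * ω t

theorem shift_Null (ω : A × Lat d → ℝ) (v : Lat d) (z : A → Rg d) :
    lw_Null ω (mono v • z) = lw_Null (fun t => ω (t.1, t.2 + v)) z := by
  rw [lw_Null, ← ((Equiv.refl A).prodCongr (Equiv.addRight v)).tsum_eq]
  refine tsum_congr fun t => ?_
  rw [← co_mono_smul v z t]
  rfl

theorem zsmul_Null (ω : A × Lat d → ℝ) (n : ℤ) (z : A → Rg d) :
    lw_Null ω (n • z) = |(n : ℝ)| * lw_Null ω z := by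
  simp only [lw_Null, map_zsmul, smul_eq_mul, Int.cast_mul, abs_mul, mul_assoc, tsum_mul_left]

theorem neg_Null (ω : A × Lat d → ℝ) (z : A → Rg d) : lw_Null ω (-z) = lw_Null ω z := by
  simp only [lw_Null, map_neg, Int.cast_neg, abs_neg]

theorem zero_Null (ω : A × Lat d → ℝ) : lw_Null ω 0 = 0 := by simp [lw_Null]

theorem nonneg_Null {ω : A × Lat d → ℝ} (h : ∀ t, 0 ≤ ω t) (z : A → Rg d) : 0 ≤ lw_Null ω z :=
  tsum_nonneg fun t => mul_nonneg (abs_nonneg _) (h t)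

theorem congr_Null {ω ω' : A × Lat d → ℝ} {z : A → Rg d} (h : ∀ t, co t z ≠ 0 → ω t = ω' t) :
    lw_Null ω z = lw_Null ω' z :=
  tsum_congr fun t => by
    by_cases h0 : co t z = 0
    · simp [h0]
    · rw [h t h0]

theorem tile_Null [DecidableEq A] (ω : A × Lat d → ℝ) (t : A × Lat d) :
    lw_Null ω (tile t) = ω t := by
  rw [lw_Null, tsum_eq_single t fun t' h => by simp [co_tile, h.symm]]
  simp [co_tile]

variable [Fintype A]

theorem fin_Null (z : A → Rg d) : {t | co t z ≠ 0}.Finite :=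
  ((finite_univ (α := A)).prod
    (Finset.univ.biUnion fun x => (z x).coeff.support).finite_toSet).subset fun t ht =>
      ⟨trivial, by simpa using ⟨t.1, ht⟩⟩

theorem summ_Null (ω : A × Lat d → ℝ) (z : A → Rg d) : Summable fun t => |(co t z : ℝ)| * ω t :=
  summable_of_hasFiniteSupport ((fin_Null z).subset fun t ht h => ht (by simp [h]))

theorem len_Null (ℓ : A → ℝ) (z : A → Rg d) : len ℓ z = lw_Null (fun t => ℓ t.1) z := by
  rw [lw_Null, (summ_Null _ z).tsum_prod, tsum_fintype, len]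
  refine Finset.sum_congr rfl fun x _ => (tsum_eq_sum
    (f := fun v => |((z x).coeff v : ℝ)| * ℓ x) fun v hv => ?_).symm
  rw [Finsupp.notMem_support_iff.1 hv, Int.cast_zero, abs_zero, zero_mul]

theorem mono_Null {ω ω' : A × Lat d → ℝ} (h : ∀ t, ω t ≤ ω' t) (z : A → Rg d) :
    lw_Null ω z ≤ lw_Null ω' z :=
  (summ_Null _ z).tsum_le_tsum (fun t => mul_le_mul_of_nonneg_left (h t) (abs_nonneg _))
    (summ_Null _ z)

theorem add_Null {ω : A × Lat d → ℝ} (h : ∀ t, 0 ≤ ω t) (z z' : A → Rg d) :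
    lw_Null ω (z + z') ≤ lw_Null ω z + lw_Null ω z' := by
  rw [lw_Null, lw_Null, lw_Null, ← (summ_Null _ z).tsum_add (summ_Null _ z')]
  refine (summ_Null _ _).tsum_le_tsum (fun t => ?_) ((summ_Null _ z).add (summ_Null _ z'))
  rw [← add_mul, map_add, Int.cast_add]
  exact mul_le_mul_of_nonneg_right (abs_add_le _ _) (h t)

theorem sum_Null {ω : A × Lat d → ℝ} (h : ∀ t, 0 ≤ ω t) {ι : Type} (s : Finset ι)
    (z : ι → A → Rg d) : lw_Null ω (∑ i ∈ s, z i) ≤ ∑ i ∈ s, lw_Null ω (z i) :=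
  Finset.le_sum_of_subadditive (lw_Null ω) (zero_Null ω).le (add_Null h) s z

theorem dec_Null [DecidableEq A] (z : A → Rg d) :
    z = ∑ t ∈ (fin_Null z).toFinset, co t z • tile t := by
  refine ext_co fun t => ?_
  simp only [map_sum, map_zsmul, co_tile, smul_eq_mul, mul_ite, mul_one, mul_zero,
    Finset.sum_ite_eq', Set.Finite.mem_toFinset, mem_ofPred_eq]
  split_ifs with h
  · rfl
  · exact not_not.1 h

end lw

theorem poly_Null {d : ℕ} (P : Rg d) : P = ∑ v ∈ P.coeff.support, P.coeff v • mono v := by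
  conv_lhs => rw [← AddMonoidAlgebra.sum_coeff_single P]
  simp [mono, Finsupp.sum]

variable {A : Type} [Fintype A] [DecidableEq A] [TopologicalSpace A] {D : Shift A} {ℓ : A → ℝ}
  {c : ℝ} {σ : DSub D ℓ c} {d e : ℕ} (C : Cover σ d e)

theorem ch_Null (y : D.X × Lat d) (n : ℕ) :
    lw_Null (fun t => ℓ t.1) (C.ch y n) ≤ pos ℓ y.1.1 n := by
  induction n with
  | zero => simp [zero_Null]
  | succ n ih =>
    rw [Nat.cast_succ, C.ch_succ, pos_succ]
    refine (add_Null (fun t => (C.ℓ_pos _).le) _ _).trans (add_le_add ih ?_)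
    rw [tile_Null]
    exact (congrArg ℓ (C.s_letter _ _)).le

theorem lenE_Null (z : A → Rg d) : len ℓ (C.E z) ≤ c * len ℓ z := by
  have h : ∀ t, lw_Null (fun t => ℓ t.1) (C.E (tile t)) ≤ c * ℓ t.1 := by
    intro t
    obtain ⟨y, rfl⟩ := C.exists_lab t
    obtain ⟨n, hn⟩ := Int.eq_ofNat_of_zero_le (zero_le_one.trans (σ.r_pos y.1.1))
    rw [C.E_tile, hn]
    refine (ch_Null C _ n).trans_eq ?_
    rw [← hn]
    exact σ.len y.1.1
  have h2 : lw_Null (fun t => ℓ t.1) z = ∑ t ∈ (fin_Null z).toFinset, |(co t z : ℝ)| * ℓ t.1 :=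
    tsum_eq_sum fun t ht => by simp at ht; simp [ht]
  rw [len_Null, len_Null, h2, Finset.mul_sum]
  conv_lhs => rw [dec_Null z, map_sum]
  refine (sum_Null (fun t => (C.ℓ_pos _).le) _ _).trans (Finset.sum_le_sum fun t _ => ?_)
  rw [map_zsmul, zsmul_Null, mul_left_comm]
  exact mul_le_mul_of_nonneg_left (h t) (abs_nonneg _)

theorem iter_mono_Null (k : ℕ) (v : Lat d) (z : A → Rg d) :
    C.E^[k] (mono v • z) = mono (C.Bz^[k] v) • C.E^[k] z := by
  induction k with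
  | zero => rfl
  | succ k ih => simp only [Function.iterate_succ_apply', ih, C.E_smul, mu_mono]

theorem iter_poly_Null (k : ℕ) (P : Rg d) (z : A → Rg d) :
    C.E^[k] (P • z) = ∑ v ∈ P.coeff.support, P.coeff v • mono (C.Bz^[k] v) • C.E^[k] z := by
  let F : AddMonoid.End (A → Rg d) := C.E
  have h : ∀ x, C.E^[k] x = (F ^ k) x := fun x => by
    rw [AddMonoid.End.coe_pow]; rfl
  conv_lhs => rw [poly_Null P, Finset.sum_smul, h, map_sum]
  refine Finset.sum_congr rfl fun v _ => ?_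
  rw [smul_assoc, map_zsmul, ← h, iter_mono_Null]

theorem a_iter_Null (k : ℕ) (v : Lat d) : C.a (C.Bz^[k] v) = c ^ k * C.a v := by
  induction k with
  | zero => simp
  | succ k ih => rw [Function.iterate_succ_apply', C.a_Bz, ih, pow_succ', mul_assoc]

theorem loc_Null (z : A → Rg d) : ∃ t₀ t₁ : ℝ, ∀ k t, co t (C.E^[k] z) ≠ 0 →
    c ^ k * t₀ ≤ C.tm t ∧ C.tm t < c ^ k * t₁ := by
  have hc : ∀ k : ℕ, 0 ≤ c ^ k := fun k => pow_nonneg (by linarith [C.one_lt]) k
  induction z using chain_induction with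
  | h0 => exact ⟨0, 0, fun k t h => absurd (by simp) h⟩
  | h1 t =>
    obtain ⟨y, rfl⟩ := C.exists_lab t
    refine ⟨C.p (C.s 0 y), C.p (C.s 1 y), fun k t h => ?_⟩
    have := C.co_piece k y (m := 0) (n := 1) zero_le_one t
    rw [C.ch_one, C.ch_zero, sub_zero] at this
    by_contra h1
    exact h (this.trans (if_neg fun x => h1 x.2))
  | h2 z z' a b =>
    obtain ⟨a0, a1, a⟩ := a
    obtain ⟨b0, b1, b⟩ := b
    refine ⟨min a0 b0, max a1 b1, fun k t h => ?_⟩
    rw [iterate_map_add, map_add] at h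
    by_cases h1 : co t (C.E^[k] z) = 0
    · rw [h1, zero_add] at h
      exact ⟨(mul_le_mul_of_nonneg_left (min_le_right _ _) (hc k)).trans (b k t h).1,
        (b k t h).2.trans_le (mul_le_mul_of_nonneg_left (le_max_right _ _) (hc k))⟩
    · exact ⟨(mul_le_mul_of_nonneg_left (min_le_left _ _) (hc k)).trans (a k t h1).1,
        (a k t h1).2.trans_le (mul_le_mul_of_nonneg_left (le_max_left _ _) (hc k))⟩
  | h3 z a =>
    obtain ⟨a0, a1, a⟩ := a
    refine ⟨a0, a1, fun k t h => a k t ?_⟩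
    rwa [iterate_map_neg, map_neg, neg_ne_zero] at h

/-- The weight of the tiles that start late. -/
noncomputable def W_Null (s : ℝ) (k : ℕ) (t : A × Lat d) : ℝ :=
  if c ^ k * s ≤ C.tm t then ℓ t.1 else 0

theorem W0_Null (s : ℝ) (k : ℕ) (t : A × Lat d) : 0 ≤ W_Null C s k t ∧ W_Null C s k t ≤ ℓ t.1 := by
  have := C.ℓ_pos t.1
  unfold W_Null
  split_ifs <;> constructor <;> linarith

theorem W1_Null {s s' : ℝ} (h : s ≤ s') (k : ℕ) (t : A × Lat d) :
    W_Null C s' k t ≤ W_Null C s k t := by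
  have h1 := mul_le_mul_of_nonneg_left h (pow_nonneg (by linarith [C.one_lt] : 0 ≤ c) k)
  have := C.ℓ_pos t.1
  unfold W_Null
  split_ifs <;> linarith

theorem W2_Null (s : ℝ) (k : ℕ) (v : Lat d) (z : A → Rg d) :
    lw_Null (W_Null C s k) (mono (C.Bz^[k] v) • z) = lw_Null (W_Null C (s - C.a v) k) z := by
  rw [shift_Null]
  congr 1
  funext t
  simp only [W_Null, Cover.tm, map_add, a_iter_Null, mul_sub, sub_le_iff_le_add, add_assoc]

theorem sat_Null (P : Rg d) (z : A → Rg d) (hP : P ≠ 0) (h : C.Null (P • z)) : C.Null z := by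
  have hc : ∀ k : ℕ, 0 < c ^ k := fun k => pow_pos (by linarith [C.one_lt]) k
  obtain ⟨t₀, t₁, hl⟩ := loc_Null C z
  obtain ⟨γ, hγ, hm⟩ := Finset.exists_max_image P.coeff.support C.a
    (Finsupp.support_nonempty_iff.2 fun h0 => hP (AddMonoidAlgebra.coeff_eq_zero.1 h0))
  obtain ⟨η, hη, hv⟩ : ∃ η : ℝ, 0 < η ∧ ∀ v ∈ P.coeff.support.erase γ, η ≤ C.a γ - C.a v := by
    refine (((eventually_all_finset _).2 fun v hv => ?_).and self_mem_nhdsWithin
      (f := 𝓝[>] (0 : ℝ))).exists.imp fun η x => ⟨x.2, x.1⟩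
    have h1 := Finset.mem_erase.1 hv
    exact eventually_nhdsWithin_of_eventually_nhds (eventually_le_nhds
      (sub_pos.2 (lt_of_le_of_ne (hm v h1.2) fun x => h1.1 (C.a_inj x))))
  let Z : ℝ → Prop := fun s =>
    Tendsto (fun k => lw_Null (W_Null C s k) (C.E^[k] z) / c ^ k) atTop (𝓝 0)
  have step : ∀ s, Z s → Z (s - η) := by
    intro s hs
    have h1 := h.add (hs.const_mul (∑ v ∈ P.coeff.support.erase γ, |(P.coeff v : ℝ)|))
    rw [mul_zero, add_zero] at h1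
    refine squeeze_zero (fun k => div_nonneg (nonneg_Null (fun t => (W0_Null C _ k t).1) _)
      (hc k).le) (fun k => ?_) h1
    rw [← mul_div_assoc, ← add_div]
    refine div_le_div_of_nonneg_right ?_ (hc k).le
    have h0 := fun t => (W0_Null C (s - η + C.a γ) k t).1
    have e1 : P.coeff γ • mono (C.Bz^[k] γ) • C.E^[k] z = C.E^[k] (P • z) +
        -∑ v ∈ P.coeff.support.erase γ, P.coeff v • mono (C.Bz^[k] v) • C.E^[k] z := by
      rw [iter_poly_Null, ← Finset.add_sum_erase _ _ hγ, add_neg_cancel_right]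
    have e2 := congrArg (lw_Null (W_Null C (s - η + C.a γ) k)) e1
    rw [zsmul_Null, W2_Null, add_sub_cancel_right] at e2
    have e3 : (1 : ℝ) ≤ |(P.coeff γ : ℝ)| := by
      exact_mod_cast Int.one_le_abs (Finsupp.mem_support_iff.1 hγ)
    refine (le_mul_of_one_le_left (nonneg_Null (fun t => (W0_Null C _ k t).1) _) e3).trans
      (e2.trans_le ((add_Null h0 _ _).trans (add_le_add ?_ ?_)))
    · rw [len_Null]
      exact mono_Null (fun t => (W0_Null C _ k t).2) _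
    · rw [neg_Null, Finset.sum_mul]
      refine (sum_Null h0 _ _).trans (Finset.sum_le_sum fun v x => ?_)
      rw [zsmul_Null, W2_Null]
      exact mul_le_mul_of_nonneg_left (mono_Null (W1_Null C (by linarith [hv v x]) k) _)
        (abs_nonneg _)
  have all : ∀ j : ℕ, Z (t₁ - j * η) := by
    intro j
    induction j with
    | zero =>
      refine tendsto_const_nhds.congr fun k => ?_
      rw [congr_Null (ω := W_Null C _ k) (ω' := fun _ => 0)
        fun t ht => if_neg (by simpa using (hl k t ht).2)]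
      simp [lw_Null]
    | succ j ih =>
      have := step _ ih
      rwa [show t₁ - j * η - η = t₁ - (j + 1 : ℕ) * η by push_cast; ring] at this
  obtain ⟨j, hj⟩ := exists_nat_ge ((t₁ - t₀) / η)
  rw [div_le_iff₀ hη] at hj
  refine (all j).congr fun k => ?_
  rw [len_Null, congr_Null (ω := W_Null C _ k) (ω' := fun t => ℓ t.1) fun t ht => if_pos
    ((mul_le_mul_of_nonneg_left (by linarith) (hc k).le).trans (hl k t ht).1)]

theorem null_stmt : NullStmt := by
  intro A _ _ _ _ D ℓ c σ d e C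
  have hc : ∀ k : ℕ, 0 < c ^ k := fun k => pow_pos (by linarith [C.one_lt]) k
  have h0 : ∀ t : A × Lat d, 0 ≤ ℓ t.1 := fun t => (C.ℓ_pos _).le
  have hn : ∀ (z : A → Rg d) k, 0 ≤ len ℓ z / c ^ k := fun z k =>
    div_nonneg (by rw [len_Null]; exact nonneg_Null h0 z) (hc k).le
  have a1 : ∀ z z' : A → Rg d, len ℓ (z + z') ≤ len ℓ z + len ℓ z' := fun z z' => by
    simp only [len_Null, add_Null h0]
  have a3 : ∀ (v : Lat d) (z : A → Rg d), len ℓ (mono v • z) = len ℓ z := fun v z => by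
    simp only [len_Null, shift_Null]
  refine ⟨a1, fun z => by simp only [len_Null, neg_Null], a3, lenE_Null C, ?_,
    fun z z' h h' => ?_, fun P z h => ?_, fun z h => ?_, sat_Null C⟩
  · refine tendsto_const_nhds.congr fun k => ?_
    simp [len_Null, zero_Null]
  · have h1 := h.add h'
    rw [add_zero] at h1
    refine squeeze_zero (fun k => hn _ k) (fun k => ?_) h1
    rw [← add_div, iterate_map_add]
    exact div_le_div_of_nonneg_right (a1 _ _) (hc k).le
  · have h1 := h.const_mul (∑ v ∈ P.coeff.support, |(P.coeff v : ℝ)|)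
    rw [mul_zero] at h1
    refine squeeze_zero (fun k => hn _ k) (fun k => ?_) h1
    rw [← mul_div_assoc, iter_poly_Null, Finset.sum_mul, len_Null]
    refine div_le_div_of_nonneg_right ((sum_Null h0 _ _).trans_eq
      (Finset.sum_congr rfl fun v _ => ?_)) (hc k).le
    rw [zsmul_Null, ← len_Null, a3]
  · have h1 := ((tendsto_add_atTop_iff_nat 1).2 h).const_mul c
    rw [mul_zero] at h1
    refine h1.congr fun k => ?_
    have := (hc 1).ne'
    rw [pow_one] at this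
    rw [Function.iterate_succ_apply, pow_succ]
    field_simp

end Pool.Agent.MP_4168de_an.G

end

section

/-! The theorem from the statements, without a minimality hypothesis. -/

namespace Pool.Agent.MP_4168de_an.G

open Set Filter Topology MeasureTheory

lemma pow_entries_pos {A : Type} [Fintype A] [DecidableEq A] [Nonempty A] {P : Matrix A A ℤ}
    (h : ∀ a b, 0 < P a b) (k : ℕ) : ∀ a b, 0 < (P ^ (k + 1)) a b := by
  induction k with
  | zero => simpa using h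
  | succ k ih =>
    intro a b
    rw [pow_succ, Matrix.mul_apply]
    exact Finset.sum_pos (fun j _ => mul_pos (ih a j) (h j b)) Finset.univ_nonempty

theorem glue2 (hP : PisotStmt) (hL : LinStmt) (hC : Cech2Stmt) (hM : MatStmt) (hG : GraphStmt)
    (hV : CoverStmt) (hB : BoxStmt) (hO : OneStmt) (hF : FullStmt) (hS : SpecStmt)
    (hX : LimitStmt) (hN : OrbitStmt)
    {A : Type} [Fintype A] [DecidableEq A] (σ : A → List A) (M : Matrix A A ℤ)
    (hσM : ∀ i j, M i j = (σ j).count i) (hprim : M.IsPrimitive) (hdet : IsUnit M.det)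
    {c : ℝ} {d : ℕ} (hc : IsPisot c d) {ℓ : A → ℝ}
    (hℓ : ∀ i, 0 < ℓ i) (heig : ∀ a, ((σ a).map ℓ).sum = c * ℓ a) {T₀ : Patch A}
    (htil : IsTiling ℓ T₀) (hfix : ∃ k, 0 < k ∧ (inflate σ ℓ c)^[k] T₀ = T₀)
    (hnp : ∀ t, translate t T₀ = T₀ → t = 0) (hrank : cechRank (hull T₀) = d)
    (μ : Measure (Patch A)) [IsProbabilityMeasure μ] (hμ : μ (hull T₀)ᶜ = 0)
    (hinv : ∀ t, MeasurePreserving (translate t) μ μ) : PurePoint μ := by
  let : TopologicalSpace A := ⊥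
  have : DiscreteTopology A := ⟨rfl⟩
  have hc1 := hc.one_lt
  obtain ⟨x₀, t₀, rfl⟩ := htil.exists_θ
  have : Nonempty A := ⟨x₀ 0⟩
  obtain ⟨l₀, l₁, h0, h1, h2⟩ := exists_len_bounds hℓ
  have hσ : ∀ a, σ a ≠ [] := fun a h => by
    have := heig a
    rw [h] at this
    exact (mul_pos (by linarith) (hℓ a)).ne this
  obtain ⟨k, hk, hfix⟩ := hfix
  rw [inflate_iterate σ hσ heig] at hfix
  obtain ⟨m, hm, hm'⟩ := θ_eq hℓ hfix
  obtain ⟨m1, m2, -⟩ := hM A ℓ c
  have hm1 := m2 _ M k (m1 σ hσ heig M hσM)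
  have hck : 1 < c ^ k := one_lt_pow₀ hc1 hk.ne'
  obtain ⟨N, -, hN'⟩ := hprim.exists_pos_pow
  obtain ⟨D, τ, hτ, hD, occ, hdec⟩ := hX A ℓ _ _ _ x₀ t₀ m N hℓ hck hm1 (by
    obtain ⟨k', rfl⟩ := Nat.exists_eq_succ_of_ne_zero hk.ne'
    rw [← pow_mul, mul_comm, pow_mul]
    exact pow_entries_pos hN' k') hm hm'
  have hm2 : HasMat τ.toRSub (M ^ k) := hτ ▸ hm1
  obtain ⟨j, hj⟩ := pow_unbounded_of_one_lt (l₁ / l₀) hck
  have hl : 0 < l₁ := (hℓ _).trans_le (h2 (x₀ 0))
  have hj1 : 1 < (c ^ k) ^ j :=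
    lt_of_le_of_lt ((one_le_div h0).2 ((h1 _).trans (h2 (x₀ 0)))) hj
  have hj0 : 0 < j := Nat.pos_of_ne_zero fun h => by simp [h] at hj1
  rw [div_lt_iff₀ h0] at hj
  have hr : ∀ x, 2 ≤ (τ.pow j).r x := fun x => by
    have a1 := (τ.pow j).r_ge (by linarith) h1 h2 x
    have a2 : (1 : ℝ) < (τ.pow j).r x := lt_of_mul_lt_mul_left (by linarith) hl.le
    have a3 : 1 < (τ.pow j).r x := by exact_mod_cast a2
    omega
  have hm3 : HasMat (τ.pow j).toRSub ((M ^ k) ^ j) := (hM A ℓ _).2.1 _ _ j hm2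
  have hΩ := hull_eq hℓ h2 x₀ t₀
  obtain ⟨d', hd', ⟨G⟩⟩ := hG A D ℓ _ (τ.pow j) _ d hℓ hj1 occ hr hm3
    (by rw [Matrix.det_pow, Matrix.det_pow]; exact (hdet.pow k).pow j)
    (hC A D ℓ l₁ _ _ d hℓ h2 hD hΩ hrank)
  obtain ⟨e, ⟨L⟩⟩ := hL d' d G.B G.u _ (hP _ _ j (hP c d k hc hk) hj0) hd' G.detB G.u_ne G.uB
  obtain ⟨C⟩ := hV A D ℓ _ _ _ d' e G L hℓ hj1 occ hr hm3
  obtain ⟨Q⟩ := hB A D ℓ _ _ d' e C
  have hu : IsUnit C.Mx.det := by
    rw [C.hasMat.unique hm3, Matrix.det_pow, Matrix.det_pow]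
    exact (hdet.pow k).pow j
  refine hS A D ℓ _ _ d' e C Q (hO A D ℓ _ _ d' e C Q (hF A D ℓ _ _ d' e C hu Q)) l₁ _ h2 rfl μ
    (measure_mono_null (fun T hT => ?_) (measure_union_null hμ (hN A ℓ x₀ t₀ μ hℓ hnp hinv))) hinv
  by_cases h : T ∈ hull (θ ℓ x₀ t₀)
  · rw [hΩ] at h
    obtain ⟨⟨x, t⟩, ⟨a1, a2⟩, rfl⟩ := h
    rcases hdec x a1 with a3 | ⟨n, rfl⟩
    · exact absurd ⟨(x, t), ⟨a3, a2⟩, rfl⟩ hT
    · exact Or.inr ⟨t + pos ℓ x₀ n, by rw [← θ_sh x₀ _ n, add_sub_cancel_right]⟩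
  · exact Or.inl h

end Pool.Agent.MP_4168de_an.G

end

section

/-! Connecting chains, and one tile over the box when all cycles are null. -/

namespace Pool.Agent.MP_4168de_an.G

open Set Filter Topology Shift Matrix

variable {A : Type} [Fintype A] [DecidableEq A] [TopologicalSpace A] {D : Shift A} {ℓ : A → ℝ}
  {c : ℝ} {σ : DSub D ℓ c} {d e : ℕ}

lemma conn_ex_One (C : Cover σ d e) (a a' : A) (γ : Lat d) :
    ∃ g, C.bd g = tile (C.st a, γ) - tile (C.st a', 0) := by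
  obtain ⟨x₀, hx₀⟩ := C.base
  set N := LinearMap.range C.bd with hN
  set r := C.st (x₀.1 0) with hr
  have h1 : ∀ a, tile (C.st a, (0 : Lat d)) - tile (r, 0) ∈ N := fun a => by
    obtain ⟨n, h1, h2⟩ := hx₀ a
    refine ⟨C.ch (x₀, 0) n, ?_⟩
    rw [C.bd_ch, Cover.vtx, Cover.vtx, Cover.s_letter, h1]
    simp only [Cover.s, h2, add_zero, hr]
  have h1' : ∀ a v, tile (C.st a, v) - tile (r, v) ∈ N := fun a v => by
    have := N.smul_mem (mono v) (h1 a)
    rwa [smul_sub, ← tile_add, ← tile_add, zero_add] at this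
  have h2 : ∀ a, tile (r, C.δ a) - tile (r, 0) ∈ N := fun a => by
    obtain ⟨x, hx⟩ := C.occ a
    have h3 : C.bd (tile (Cover.lab (x, (0 : Lat d)))) ∈ N := ⟨_, rfl⟩
    rw [C.bd_tile, C.s_one, Cover.vtx, Cover.vtx] at h3
    have h4 := h1' ((D.τ 1 x).1 0) (C.δ a)
    have h5 := h1 (x.1 0)
    have h6 := N.add_mem (N.sub_mem h3 h4) h5
    simp only [hx, zero_add] at h6
    convert h6 using 1
    abel
  let G : AddSubgroup (Lat d) :=
    { carrier := {γ | tile (r, γ) - tile (r, 0) ∈ N}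
      zero_mem' := by simp
      add_mem' := fun {v w} hv hw => by
        have := N.add_mem (N.smul_mem (mono w) hv) hw
        rw [smul_sub, ← tile_add, ← tile_add, zero_add, sub_add_sub_cancel] at this
        exact this
      neg_mem' := fun {v} hv => by
        have := N.neg_mem (N.smul_mem (mono (-v)) hv)
        rw [smul_sub, ← tile_add, ← tile_add, zero_add, add_neg_cancel, neg_sub] at this
        exact this }
  have h6 : AddSubgroup.closure (range C.δ) ≤ G :=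
    (AddSubgroup.closure_le G).2 (by rintro _ ⟨a, rfl⟩; exact h2 a)
  rw [C.span_δ] at h6
  have h7 : tile (r, γ) - tile (r, 0) ∈ N := h6 (AddSubgroup.mem_top γ)
  obtain ⟨g, hg⟩ := N.sub_mem (N.add_mem (h1' a γ) h7) (h1 a')
  exact ⟨g, by rw [hg]; abel⟩

lemma conn_One [DiscreteTopology A] (C : Cover σ d e)
    (h3 : ∀ (v : Lat d) (z : A → Rg d), len ℓ (mono v • z) = len ℓ z) (R : ℝ) :
    ∃ R' : ℝ, ∀ y y', |C.p y - C.p y'| ≤ R → C.z y = C.z y' →
      ∃ z, C.bd z = C.vtx y - C.vtx y' ∧ len ℓ z ≤ R' := by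
  choose g hg using conn_ex_One C
  obtain ⟨W, hW⟩ := (finite_range fun a => |C.w (C.st a)|).bddAbove
  obtain ⟨W', hW'⟩ := isCompact_univ.exists_bound_of_continuousOn C.contM.continuousOn
  have hV := C.finite_box (|R| + 2 * |W| + 2 * |W'|)
  obtain ⟨R', hR'⟩ := (((finite_univ (α := A)).prod ((finite_univ (α := A)).prod hV)).image
    fun q : A × A × Lat d => len ℓ (g q.1 q.2.1 q.2.2)).bddAbove
  refine ⟨R', fun y y' h1 h2 => ⟨mono y'.2 • g (y.1.1 0) (y'.1.1 0) (y.2 - y'.2), ?_, ?_⟩⟩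
  · rw [map_smul, hg, smul_sub, ← tile_add, ← tile_add, sub_add_cancel, zero_add]
    rfl
  · rw [h3]
    refine hR' ⟨(y.1.1 0, y'.1.1 0, y.2 - y'.2), ⟨trivial, trivial, ?_, ?_⟩, rfl⟩
    · have a1 : |C.w (C.st (y.1.1 0))| ≤ W := hW ⟨_, rfl⟩
      have a2 : |C.w (C.st (y'.1.1 0))| ≤ W := hW ⟨_, rfl⟩
      have a3 : C.a (y.2 - y'.2) =
          C.p y - C.p y' - C.w (C.st (y.1.1 0)) + C.w (C.st (y'.1.1 0)) := by
        simp only [Cover.p, Cover.tm, Cover.lab, map_sub]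
        ring
      have a4 := abs_le.1 a1
      have a5 := abs_le.1 a2
      have a6 := abs_le.1 h1
      change |C.a (y.2 - y'.2)| ≤ _
      rw [a3, abs_le]
      constructor <;>
        linarith [le_abs_self R, le_abs_self W, abs_nonneg W', a4.1, a4.2, a5.1, a5.2, a6.1, a6.2]
    · have a3 : C.b (y.2 - y'.2) = C.M y'.1 - C.M y.1 := by
        simp only [Cover.z] at h2
        rw [map_sub, sub_eq_sub_iff_add_eq_add, add_comm, h2]
      change ‖C.b (y.2 - y'.2)‖ ≤ _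
      rw [a3]
      linarith [norm_sub_le (C.M y'.1) (C.M y.1), hW' y.1 trivial, hW' y'.1 trivial,
        le_abs_self W', abs_nonneg W, abs_nonneg R]

omit [DecidableEq A] [TopologicalSpace A] in
lemma sum_le_len_One (hℓ : ∀ a, 0 < ℓ a) (T : Finset (A × Lat d)) (z : A → Rg d) :
    ∑ t ∈ T, |((co t z : ℤ) : ℝ)| * ℓ t.1 ≤ len ℓ z := by
  have h0 : ∀ t : A × Lat d, 0 ≤ |((co t z : ℤ) : ℝ)| * ℓ t.1 := fun t =>
    mul_nonneg (abs_nonneg _) (hℓ _).le
  refine (Finset.sum_le_sum_of_subset_of_nonneg (t := Finset.univ ×ˢ T.image Prod.snd)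
    (fun t ht => Finset.mem_product.2 ⟨Finset.mem_univ _, Finset.mem_image_of_mem _ ht⟩)
    fun t _ _ => h0 t).trans ?_
  rw [Finset.sum_product, len]
  refine Finset.sum_le_sum fun x _ => ?_
  refine (Finset.sum_le_sum_of_subset_of_nonneg
    (t := (z x).coeff.support ∪ T.image Prod.snd) Finset.subset_union_right
    fun v _ _ => h0 (x, v)).trans (le_of_eq ?_)
  refine (Finset.sum_subset Finset.subset_union_left fun v _ hv => ?_).symm
  rw [co_apply, Finsupp.notMem_support_iff.1 hv]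
  simp

lemma co_ch_off_One (C : Cover σ d e) {y : D.X × Lat d} {t : A × Lat d} (h : ¬ C.On y t)
    (n : ℤ) : co t (C.ch y n) = 0 := by
  rw [Cover.ch, map_isum]
  have : (fun i => co t (tile (Cover.lab (C.s i y)))) = fun _ => 0 := funext fun i => by
    rw [co_tile, if_neg fun h' => h ⟨i, h'⟩]
  rw [this]
  simp [isum]

lemma lower_One (C : Cover σ d e) {y y' : D.X × Lat d} (h : ∀ t, C.On y t → ¬ C.On y' t)
    (n n' : ℤ) : C.p (C.s n y) - C.p y ≤ len ℓ (C.ch y n - C.ch y' n') := by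
  rcases lt_or_ge n 0 with hn | hn
  · have h1 := C.p_s_strictMono y hn
    have h2 := sum_le_len_One C.ℓ_pos ∅ (C.ch y n - C.ch y' n')
    simp only [Cover.s_zero] at h1
    rw [Finset.sum_empty] at h2
    linarith
  · refine le_trans (le_of_eq ?_) (sum_le_len_One C.ℓ_pos
      ((Finset.Ico 0 n).image fun j => Cover.lab (C.s j y)) _)
    rw [Finset.sum_image fun i _ j _ hij => C.lab_s_inj y hij, C.p_s, add_sub_cancel_left, pos,
      ← sub_zero (isum _ n), ← isum_zero (fun i => ℓ (y.1.1 i)), ← sum_Ico_eq_isum _ hn]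
    refine Finset.sum_congr rfl fun j hj => ?_
    have h1 := C.co_ch y hn (Cover.lab (C.s j y))
    rw [if_pos ⟨j, (Finset.mem_Ico.1 hj).1, (Finset.mem_Ico.1 hj).2, rfl⟩, Cover.ch_zero,
      sub_zero] at h1
    rw [map_sub, h1, co_ch_off_One C (h _ ⟨j, rfl⟩)]
    simp [Cover.lab, Cover.s_letter]

lemma one_One [DiscreteTopology A] (C : Cover σ d e)
    (hS : ∀ (Q : C.Box) β, ∃ y : Fin Q.m → _, C.Stack β y)
    (h1 : ∀ z z' : A → Rg d, len ℓ (z + z') ≤ len ℓ z + len ℓ z')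
    (h2 : ∀ z : A → Rg d, len ℓ (-z) = len ℓ z)
    (h3 : ∀ (v : Lat d) (z : A → Rg d), len ℓ (mono v • z) = len ℓ z)
    (h4 : ∀ z, len ℓ (C.E z) ≤ c * len ℓ z)
    (Q : C.Box) (hQ : ∀ z, C.bd z = 0 → C.Null z) : Q.m = 1 := by
  have hm := Q.m_pos
  by_contra hne
  have hm2 : 1 < Q.m := by omega
  obtain ⟨y, hy, hnc⟩ := hS Q 0
  obtain ⟨l₀, l₁, -, -, hl⟩ := C.len_bounds
  obtain ⟨R', hR'⟩ := conn_One C h3 l₁
  have hc : 0 < c := by linarith [C.one_lt]
  have h5 : ∀ (k : ℕ) z, len ℓ (C.E^[k] z) ≤ c ^ k * len ℓ z := fun k z => by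
    induction k with
    | zero => simp
    | succ k ih =>
      rw [Function.iterate_succ_apply', pow_succ', mul_assoc]
      exact (h4 _).trans (mul_le_mul_of_nonneg_left ih hc.le)
  have cov : ∀ (u : D.X × Lat d) (T : ℝ), ∃ n, T - l₁ ≤ C.p (C.s n u) ∧ C.p (C.s n u) ≤ T :=
    fun u T => by
      obtain ⟨n, -, a1, a2⟩ := C.exists_K u T
      exact ⟨n, by linarith [hl ((C.s n u).1.1 0)], a1⟩
  obtain ⟨m₀, a1, a2⟩ := cov (y ⟨0, hm⟩) 0
  obtain ⟨m₁, a3, a4⟩ := cov (y ⟨1, hm2⟩) 0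
  have hN := (hnc ⟨0, hm⟩ ⟨1, hm2⟩ (by simp)).s m₀ m₁
  have hz : C.z (C.s m₀ (y ⟨0, hm⟩)) = C.z (C.s m₁ (y ⟨1, hm2⟩)) := by
    rw [C.z_s, C.z_s, hy, hy]
  generalize C.s m₀ (y ⟨0, hm⟩) = y₀ at *
  generalize C.s m₁ (y ⟨1, hm2⟩) = y₁ at *
  obtain ⟨n₀, b1, b2⟩ := cov y₀ (l₁ + 2 * R' + 1)
  obtain ⟨n₁, b3, b4⟩ := cov y₁ (l₁ + 2 * R' + 1)
  obtain ⟨g₀, c1, c2⟩ := hR' y₀ y₁ (abs_le.2 ⟨by linarith, by linarith⟩) hz
  obtain ⟨g₁, c3, c4⟩ := hR' (C.s n₀ y₀) (C.s n₁ y₁) (abs_le.2 ⟨by linarith, by linarith⟩)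
    (by rw [C.z_s, C.z_s, hz])
  have hcyc : C.bd (C.ch y₀ n₀ - C.ch y₁ n₁ - g₁ + g₀) = 0 := by
    rw [map_add, map_sub, map_sub, C.bd_ch, C.bd_ch, c1, c3]
    abel
  have hnull := hQ _ hcyc
  have key : ∀ k : ℕ, 1 ≤ len ℓ (C.E^[k] (C.ch y₀ n₀ - C.ch y₁ n₁ - g₁ + g₀)) / c ^ k := fun k => by
    have hk : 0 < c ^ k := pow_pos hc k
    rw [le_div_iff₀ hk, one_mul]
    have d1 := lower_One C (hN k) (C.ix y₀ n₀ k) (C.ix y₁ n₁ k)
    rw [C.p_ix, C.p_iter, ← C.iter_E_ch, ← C.iter_E_ch, ← iterate_map_sub] at d1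
    have d2 : C.E^[k] (C.ch y₀ n₀ - C.ch y₁ n₁) =
        C.E^[k] (C.ch y₀ n₀ - C.ch y₁ n₁ - g₁ + g₀) + C.E^[k] g₁ + -C.E^[k] g₀ := by
      rw [iterate_map_add, iterate_map_sub C.E k _ g₁]
      abel
    rw [d2] at d1
    have d3 := h1 (C.E^[k] (C.ch y₀ n₀ - C.ch y₁ n₁ - g₁ + g₀) + C.E^[k] g₁) (-C.E^[k] g₀)
    have d4 := h1 (C.E^[k] (C.ch y₀ n₀ - C.ch y₁ n₁ - g₁ + g₀)) (C.E^[k] g₁)
    rw [h2] at d3
    have d5 := (h5 k g₀).trans (mul_le_mul_of_nonneg_left c2 hk.le)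
    have d6 := (h5 k g₁).trans (mul_le_mul_of_nonneg_left c4 hk.le)
    have d7 : c ^ k * (2 * R' + 1) ≤ c ^ k * (C.p (C.s n₀ y₀) - C.p y₀) :=
      mul_le_mul_of_nonneg_left (by linarith) hk.le
    nlinarith
  have := ge_of_tendsto' hnull key
  linarith

theorem one_stmt (hS : StackStmt) (hN : NullStmt) : ConnStmt ∧ OneStmt := by
  constructor
  · intro A _ _ _ _ D ℓ c σ d e C
    exact conn_One C (hN A D ℓ c σ d e C).2.2.1
  · intro A _ _ _ _ D ℓ c σ d e C
    obtain ⟨h1, h2, h3, h4, -⟩ := hN A D ℓ c σ d e C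
    exact one_One C (hS A D ℓ c σ d e C) h1 h2 h3 h4

end Pool.Agent.MP_4168de_an.G

end

section

/-! Boxes, recurrence of lattice points and exhaustion by stacks. -/

namespace Pool.Agent.MP_4168de_an.G

open Set Filter Topology Shift Matrix

variable {A : Type} [Fintype A] [DecidableEq A] [TopologicalSpace A] {D : Shift A} {ℓ : A → ℝ}
  {c : ℝ} {σ : DSub D ℓ c} {d e : ℕ} (C : Cover σ d e)

lemma rec_Box (ρ : ℝ) (hρ : 0 < ρ) : ∃ L : ℝ, ∀ t β, ∃ v, |C.a v - t| ≤ L ∧ ‖C.b v - β‖ < ρ := by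
  obtain ⟨K, hK⟩ : ∃ K : ℝ, ∀ y : Fin d → ℝ, ‖y‖ ≤ 1 → ‖C.L.Ψ.symm y‖ ≤ K :=
    ⟨_, fun y hy => (C.L.Ψ.symm : (Fin d → ℝ) →L[ℝ] (ℝ × (Fin e → ℝ))).unit_le_opNorm y hy⟩
  obtain ⟨F, hF⟩ := (isCompact_closedBall (0 : Fin e → ℝ) K).elim_finite_subcover
    (fun v : Lat d => Metric.ball (C.b v) ρ) (fun _ => Metric.isOpen_ball) fun γ _ => by
      obtain ⟨v, hv⟩ := C.dense_b.exists_dist_lt γ hρ
      exact mem_iUnion.2 ⟨v, hv⟩
  obtain ⟨W, hW⟩ := (F.finite_toSet.image fun v => |C.a v|).bddAbove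
  refine ⟨K + W, fun t β => ?_⟩
  let v₀ : Lat d := fun i => ⌊C.L.Ψ (t, β) i⌋
  have h1 := hK (C.L.Ψ (t, β) - toR v₀) ((pi_norm_le_iff_of_nonneg zero_le_one).2 fun i => by
    have a1 := Int.floor_le (C.L.Ψ (t, β) i)
    have a2 := Int.lt_floor_add_one (C.L.Ψ (t, β) i)
    rw [Real.norm_eq_abs, abs_le]
    constructor <;> simp only [Pi.sub_apply, toR, v₀] <;> linarith)
  rw [← C.Ψ_ab, ← map_sub, ContinuousLinearEquiv.symm_apply_apply, Prod.mk_sub_mk, Prod.norm_mk,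
    max_le_iff, Real.norm_eq_abs] at h1
  obtain ⟨v, hv, h2⟩ := mem_iUnion₂.1 (hF (mem_closedBall_zero_iff.2 h1.2))
  have h3 : |C.a v| ≤ W := hW ⟨v, hv, rfl⟩
  refine ⟨v₀ + v, ?_, ?_⟩
  · have a1 := abs_le.1 h1.1
    have a2 := abs_le.1 h3
    rw [map_add, abs_le]
    constructor <;> linarith
  · rw [Metric.mem_ball, dist_comm, dist_eq_norm] at h2
    rw [map_add, show C.b v₀ + C.b v - β = C.b v - (β - C.b v₀) by abel]
    exact h2

variable [DiscreteTopology A]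

lemma agree_Box (Q : C.Box) (β : Fin e → ℝ) (y : Fin Q.m → D.X × Lat d) (hy : C.Stack β y)
    (α : ℝ) (v : Lat d) (h1 : |α + C.a v - Q.α| < Q.ρ) (h2 : ‖β + C.b v - Q.β‖ < Q.ρ) :
    ∀ t ∈ C.Lab α β, ∃ i, C.On (y i) t := by
  choose n hn using fun i => C.exists_K (y i) α
  have a1 : (C.Lab α β).ncard ≤ Q.m := by
    refine ncard_le_ncard_of_injOn (fun t => (t.1, t.2 + v)) ?_ ?_ (C.finite_Lab _ _)
    · rintro _ ⟨x, hx, rfl⟩
      rw [← Q.const _ _ h1 h2]
      exact ⟨_, C.tr_mem_K hx v, rfl⟩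
    · rintro ⟨a, w⟩ - ⟨a', w'⟩ - h
      simpa using h
  have a2 : Function.Injective fun i => Cover.lab (C.s (n i) (y i)) := fun i j h => by
    by_contra hij
    exact hy.2 i j hij 0 _ ⟨n i, rfl⟩ ⟨n j, h.symm⟩
  have a3 : range (fun i => Cover.lab (C.s (n i) (y i))) = C.Lab α β := by
    refine eq_of_subset_of_ncard_le ?_ ?_ (C.finite_Lab _ _)
    · rintro _ ⟨i, rfl⟩
      exact ⟨_, hy.1 i ▸ hn i, rfl⟩
    · rw [ncard_range_of_injective a2, Nat.card_eq_fintype_card, Fintype.card_fin]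
      exact a1
  intro t ht
  rw [← a3] at ht
  obtain ⟨i, hi⟩ := ht
  exact ⟨i, n i, hi⟩

lemma usc_Box {α : ℝ} {β : Fin e → ℝ} (h : ∀ l ∈ C.Lab α β, C.tm l < α) :
    ∀ᶠ q : ℝ × (Fin e → ℝ) in 𝓝 (α, β), C.Lab q.1 q.2 ⊆ C.Lab α β := by
  obtain ⟨l₀, l₁, -, -, hl⟩ := C.len_bounds
  obtain ⟨V, hV, hb⟩ := C.K_box (|α| + |l₁| + ‖β‖ + 1)
  have h1 : ∀ᶠ q : ℝ × (Fin e → ℝ) in 𝓝 (α, β), ∀ v ∈ V, ∀ x ∈ (univ : Set D.X),
      (x, v) ∈ C.K q.1 q.2 → Cover.lab (x, v) ∈ C.Lab α β := by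
    rw [eventually_all_finite hV]
    intro v _
    refine isCompact_univ.eventually_forall_of_forall_eventually fun x _ => ?_
    have e0 : ∀ᶠ r : (ℝ × (Fin e → ℝ)) × D.X in 𝓝 ((α, β), x), r.2.1 0 = x.1 0 :=
      (continuous_snd.tendsto ((α, β), x)).eventually ((lc_letter 0).eventually_eq x)
    have e1 : ∀ᶠ r : (ℝ × (Fin e → ℝ)) × D.X in 𝓝 ((α, β), x),
        Cover.lab (r.2, v) = Cover.lab (x, v) := e0.mono fun r hr => Prod.ext hr rfl
    have c1 : Continuous fun r : (ℝ × (Fin e → ℝ)) × D.X => r.1.1 := by fun_prop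
    by_cases hz : C.z (x, v) = β
    swap
    · have c2 : Continuous fun r : (ℝ × (Fin e → ℝ)) × D.X => C.z (r.2, v) - r.1.2 := by
        have := C.continuous_z
        fun_prop
      filter_upwards [c2.continuousAt.eventually_ne (x := ((α, β), x)) (sub_ne_zero.2 hz)]
        with r hr hr'
      exact absurd (sub_eq_zero.2 hr'.1) hr
    rcases lt_or_ge α (C.p (x, v)) with h2 | h2
    · filter_upwards [e1, c1.continuousAt.eventually_lt (x₀ := ((α, β), x)) continuousAt_const h2]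
        with r hr hr' hr''
      have : C.p (r.2, v) = C.p (x, v) := congrArg C.tm hr
      linarith [hr''.2.1]
    rcases lt_trichotomy α (C.p (x, v) + ℓ (x.1 0)) with h3 | h3 | h3
    · filter_upwards [e1] with r hr _
      rw [hr]
      exact ⟨_, ⟨hz, h2, h3⟩, rfl⟩
    · exfalso
      have h6 : C.p (C.s 1 (x, v)) = α := by
        have := C.p_s_succ 0 (x, v)
        rw [zero_add, C.s_zero] at this
        rw [this, h3]
      have h4 : C.s 1 (x, v) ∈ C.K α β :=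
        C.mem_K_s.2 ⟨hz, h6.le, h6 ▸ C.p_s_strictMono (x, v) (lt_add_one 1)⟩
      exact (h _ ⟨_, h4, rfl⟩).ne h6
    · filter_upwards [e1, continuousAt_const.eventually_lt (x₀ := ((α, β), x)) c1.continuousAt h3]
        with r hr hr' hr''
      have h4 : C.p (r.2, v) = C.p (x, v) := congrArg C.tm hr
      have h5 : r.2.1 0 = x.1 0 := congrArg Prod.fst hr
      have h6 := hr''.2.2
      simp only [h4, h5] at h6
      linarith
  have h2 : ∀ᶠ q : ℝ × (Fin e → ℝ) in 𝓝 (α, β), |q.1| < |α| + 1 :=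
    (by fun_prop : Continuous fun q : ℝ × (Fin e → ℝ) => |q.1|).continuousAt.eventually_lt
      continuousAt_const (lt_add_one _)
  have h3 : ∀ᶠ q : ℝ × (Fin e → ℝ) in 𝓝 (α, β), ‖q.2‖ < ‖β‖ + 1 :=
    (by fun_prop : Continuous fun q : ℝ × (Fin e → ℝ) => ‖q.2‖).continuousAt.eventually_lt
      continuousAt_const (lt_add_one _)
  filter_upwards [h1, h2, h3] with q a1 a2 a3
  rintro _ ⟨y, hy, rfl⟩
  refine a1 y.2 (hb y (abs_le.2 ⟨?_, ?_⟩) ?_) y.1 trivial hy
  · linarith [neg_abs_le q.1, le_abs_self l₁, hl (y.1.1 0), norm_nonneg β, hy.2.2]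
  · linarith [le_abs_self q.1, abs_nonneg l₁, norm_nonneg β, hy.2.1]
  · rw [hy.1]
    linarith [abs_nonneg α, abs_nonneg l₁]

lemma box_Box : Nonempty C.Box := by
  obtain ⟨⟨α₀, β⟩, h0⟩ := exists_minimalFor_of_wellFoundedLT (fun _ : ℝ × (Fin e → ℝ) => True)
    (fun q => (C.Lab q.1 q.2).ncard) ⟨(0, 0), trivial⟩
  have hmin : ∀ α' β', (C.Lab α₀ β).ncard ≤ (C.Lab α' β').ncard := fun α' β' =>
    h0.le (j := (α', β')) trivial
  have hev : ∀ᶠ ε in 𝓝[>] (0 : ℝ), ∀ l ∈ C.Lab α₀ β, α₀ + ε < C.tm l + ℓ l.1 := by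
    rw [eventually_all_finite (C.finite_Lab _ _)]
    rintro _ ⟨y, hy, rfl⟩
    refine nhdsWithin_le_nhds ((by fun_prop : Continuous fun ε : ℝ => α₀ + ε).continuousAt
      |>.eventually_lt continuousAt_const ?_)
    rw [add_zero]
    exact hy.2.2
  obtain ⟨ε, h1, h2⟩ := (hev.and self_mem_nhdsWithin).exists
  have h2' : 0 < ε := h2
  have hK : C.K (α₀ + ε) β ⊆ C.K α₀ β := by
    intro y hy
    obtain ⟨n, hn⟩ := C.exists_K y α₀
    rw [hy.1] at hn
    have h3 : C.s n y ∈ C.K (α₀ + ε) β :=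
      ⟨hn.1, by linarith [hn.2.1], h1 _ ⟨_, hn, rfl⟩⟩
    have := C.K_unique (y := y) (m := 0) (by simpa using hy) h3
    rwa [← this, C.s_zero] at hn
  have hin : ∀ l ∈ C.Lab (α₀ + ε) β, C.tm l < α₀ + ε := by
    rintro _ ⟨y, hy, rfl⟩
    exact (hK hy).2.1.trans_lt (by linarith)
  have hmin' : ∀ α' β', (C.Lab (α₀ + ε) β).ncard ≤ (C.Lab α' β').ncard := fun α' β' =>
    (ncard_le_ncard (image_mono hK) (C.finite_Lab _ _)).trans (hmin α' β')
  generalize α₀ + ε = α at hin hmin'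
  obtain ⟨ρ₁, r1, r2⟩ := Metric.eventually_nhds_iff.1 (usc_Box C hin)
  have hev' : ∀ᶠ ρ in 𝓝[>] (0 : ℝ), ∀ l ∈ C.Lab α β,
      C.tm l + 2 * ρ < α ∧ α + 2 * ρ < C.tm l + ℓ l.1 := by
    rw [eventually_all_finite (C.finite_Lab _ _)]
    intro l hl
    refine nhdsWithin_le_nhds (Eventually.and
      ((by fun_prop : Continuous fun ε : ℝ => C.tm l + 2 * ε).continuousAt.eventually_lt
        continuousAt_const (by simpa using hin l hl))
      ((by fun_prop : Continuous fun ε : ℝ => α + 2 * ε).continuousAt.eventually_lt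
        continuousAt_const ?_))
    obtain ⟨y, hy, rfl⟩ := hl
    rw [mul_zero, add_zero]
    exact hy.2.2
  obtain ⟨ρ, r3, r4⟩ := (hev'.and (Ioo_mem_nhdsGT r1)).exists
  refine ⟨⟨α, β, ρ, r4.1, hmin', fun l hl => ⟨(r3 l hl).1.le, (r3 l hl).2.le⟩,
    fun α' β' a b => ?_⟩⟩
  refine eq_of_subset_of_ncard_le (r2 (y := (α', β')) ?_) (hmin' _ _) (C.finite_Lab _ _)
  rw [Prod.dist_eq, Real.dist_eq, dist_eq_norm]
  exact max_lt (a.trans r4.2) (b.trans r4.2)

theorem box_stmt : BoxStmt ∧ RecStmt ∧ AgreeStmt :=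
  ⟨fun _ _ _ _ _ _ _ _ _ _ _ C => box_Box C, fun _ _ _ _ _ _ _ _ _ _ _ C => rec_Box C,
    fun _ _ _ _ _ _ _ _ _ _ _ C => agree_Box C⟩

end Pool.Agent.MP_4168de_an.G

end

section

/-! Almost every fibre of the torus parametrisation is a single point. -/

namespace Pool.Agent.MP_4168de_an.G

open Set Filter Topology MeasureTheory Matrix Shift

lemma haar_Ae {d : ℕ} {ν : Measure (UnitAddTorus (Fin d))} [IsProbabilityMeasure ν]
    {S : Set (UnitAddTorus (Fin d))} (hS : Dense S)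
    (h : ∀ g ∈ S, MeasurePreserving (g + ·) ν ν) : ν.IsAddHaarMeasure := by
  have : ν.IsAddLeftInvariant := by
    refine ⟨fun g => ext_of_forall_integral_eq_of_IsFiniteMeasure fun f => ?_⟩
    have e : ∀ g : UnitAddTorus (Fin d), ∫ x, f x ∂(ν.map (g + ·)) = ∫ x, f (g + x) ∂ν := fun g =>
      integral_map (measurable_const_add g).aemeasurable f.continuous.aestronglyMeasurable
    have c : Continuous fun g : UnitAddTorus (Fin d) => ∫ x, f (g + x) ∂ν :=
      continuous_of_dominated (bound := fun _ => ‖f‖)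
        (fun g => (by fun_prop : Continuous fun x => f (g + x)).aestronglyMeasurable)
        (fun g => Eventually.of_forall fun x => f.norm_coe_le_norm _) (integrable_const _)
        (Eventually.of_forall fun x => by fun_prop)
    rw [e]
    refine congrFun (c.ext_on hS continuous_const fun g hg => ?_) g
    simp only [← e, (h g hg).map_eq]
  exact { toIsOpenPosMeasure :=
    isOpenPosMeasure_of_addLeftInvariant_of_compact univ isCompact_univ (by simp) }

lemma aeconst_Ae {G : Type*} [AddCommGroup G] [TopologicalSpace G]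
    [IsTopologicalAddGroup G] [T2Space G] [SecondCountableTopology G] [MeasurableSpace G]
    [BorelSpace G] {ν : Measure G} [IsFiniteMeasure ν] [ν.InnerRegular] [ν.IsAddLeftInvariant]
    {s : Set G} (hs : MeasurableSet s) (hd : Dense {g | (g + ·) ⁻¹' s = s}) :
    EventuallyConst s (ae ν) :=
  aeconst_of_dense_setOfPred_preimage_vadd_eq (M := G) hs.nullMeasurableSet hd

/-- The torus endomorphism of an integer matrix. -/
def hom_Ae {d : ℕ} (M : Matrix (Fin d) (Fin d) ℤ) :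
    UnitAddTorus (Fin d) →+ UnitAddTorus (Fin d) where
  toFun g := fun i => ∑ j, M i j • g j
  map_zero' := by ext i; simp
  map_add' := fun g h => by ext i; simp only [Pi.add_apply, smul_add, Finset.sum_add_distrib]

lemma hom_apply_Ae {d : ℕ} (M : Matrix (Fin d) (Fin d) ℤ) (g : UnitAddTorus (Fin d)) (i : Fin d) :
    hom_Ae M g i = ∑ j, M i j • g j := rfl

lemma hom_mul_Ae {d : ℕ} (M N : Matrix (Fin d) (Fin d) ℤ) (g : UnitAddTorus (Fin d)) :
    hom_Ae M (hom_Ae N g) = hom_Ae (M * N) g := by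
  ext i
  simp only [hom_apply_Ae, Matrix.mul_apply, Finset.smul_sum, Finset.sum_smul, smul_smul]
  exact Finset.sum_comm

lemma hom_one_Ae {d : ℕ} (g : UnitAddTorus (Fin d)) : hom_Ae 1 g = g := by
  ext i
  simp [hom_apply_Ae, Matrix.one_apply]

lemma hom_coe_Ae {d : ℕ} (M : Matrix (Fin d) (Fin d) ℤ) (y : Fin d → ℝ) :
    hom_Ae M (fun i => (y i : UnitAddCircle)) =
      fun i => (((M.map (Int.cast : ℤ → ℝ) *ᵥ y) i : ℝ) : UnitAddCircle) := by
  ext i
  simp only [hom_apply_Ae, Matrix.mulVec, dotProduct, Matrix.map_apply, ← zsmul_eq_mul]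
  exact (map_sum (QuotientAddGroup.mk' (AddSubgroup.zmultiples (1 : ℝ))) (fun j => M i j • y j)
    Finset.univ).symm

lemma continuous_hom_Ae {d : ℕ} (M : Matrix (Fin d) (Fin d) ℤ) : Continuous (hom_Ae M) :=
  continuous_pi fun i => by
    simp only [hom_apply_Ae]
    fun_prop

variable {A : Type} [Fintype A] [DecidableEq A] [TopologicalSpace A] {D : Shift A} {ℓ : A → ℝ}
  {c : ℝ} {σ : DSub D ℓ c} {d e : ℕ}

lemma hom_B_Ae (C : Cover σ d e) (α : ℝ) (β : Fin e → ℝ) :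
    hom_Ae C.B (C.Et α β) = C.Et (c * α) (C.L.B' β) := by
  have h : C.B.map (Int.cast : ℤ → ℝ) *ᵥ C.L.Ψ (α, β) = C.L.Ψ (c * α, C.L.B' β) := by
    apply C.L.Ψ.symm.injective
    rw [ContinuousLinearEquiv.symm_apply_apply]
    refine Prod.ext ?_ ?_
    · rw [C.L.fst_symm, Matrix.dotProduct_mulVec, C.uB, smul_dotProduct, ← C.L.fst_symm,
        ContinuousLinearEquiv.symm_apply_apply, smul_eq_mul]
    · rw [C.L.snd_B, ContinuousLinearEquiv.symm_apply_apply]
  unfold Cover.Et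
  rw [hom_coe_Ae, h]

lemma hom_inv_Ae (C : Cover σ d e) (α : ℝ) (β : Fin e → ℝ) :
    hom_Ae C.B⁻¹ (C.Et α β) = C.Et (α / c) (C.L.B'.symm β) := by
  have hc : c ≠ 0 := by linarith [C.one_lt]
  have h := hom_B_Ae C (α / c) (C.L.B'.symm β)
  rw [mul_div_cancel₀ _ hc, ContinuousLinearEquiv.apply_symm_apply] at h
  rw [← h, hom_mul_Ae, Matrix.nonsing_inv_mul _ C.detB, hom_one_Ae]

theorem ae_stmt (hT : TorStmt) (hF : FibreStmt) : AeStmt := by
  intro A _ _ _ _ D ℓ c σ d e C Q hQ ν _ h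
  obtain ⟨Eadd, Econt, Eopen, Etr, Eeq, -, Edense⟩ := hT A D ℓ c σ d e C
  have hFib := hF A D ℓ c σ d e C Q hQ
  have := haar_Ae Edense (by rintro _ ⟨t, rfl⟩; exact h t)
  have hC : Continuous (hom_Ae C.B⁻¹) := continuous_hom_Ae _
  have hsurj : Function.Surjective (hom_Ae C.B⁻¹) := fun g => ⟨hom_Ae C.B g, by
    rw [hom_mul_Ae, Matrix.nonsing_inv_mul _ C.detB, hom_one_Ae]⟩
  have mp : MeasurePreserving (hom_Ae C.B⁻¹) ν ν :=
    AddMonoidHom.measurePreserving hC hsurj rfl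
  let U : Set (UnitAddTorus (Fin d)) :=
    (fun q : ℝ × (Fin e → ℝ) => C.Et q.1 q.2) '' Metric.ball (Q.α, Q.β) Q.ρ
  have hU : IsOpen U := Eopen _ Metric.isOpen_ball
  let G : Set (UnitAddTorus (Fin d)) := {g | ∃ᶠ k in atTop, (hom_Ae C.B⁻¹)^[k] g ∈ U}
  have mG : MeasurableSet G := by
    simp only [G, frequently_atTop, ofPred_forall, ofPred_exists]
    refine MeasurableSet.iInter fun n => MeasurableSet.iUnion fun k => ?_
    exact (MeasurableSet.const _).inter (hU.preimage (hC.iterate k)).measurableSet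
  have pG : ν G ≠ 0 := fun h0 => by
    have h1 := mp.conservative.measure_inter_frequently_image_mem_eq
      hU.measurableSet.nullMeasurableSet
    exact hU.measure_ne_zero ν ((Metric.nonempty_ball.2 Q.ρ_pos).image _)
      (h1 ▸ measure_mono_null inter_subset_right h0)
  have gen : ∀ α β, C.Et α β ∈ G → ∀ α', (C.K α' β).Subsingleton := by
    intro α β hG
    refine hFib α β (Frequently.mono hG fun k hk => ?_)
    have e1 : (hom_Ae C.B⁻¹)^[k] (C.Et α β) = C.Et (α / c ^ k) (C.L.B'.symm^[k] β) := by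
      clear hk
      induction k with
      | zero => simp
      | succ k ih =>
        rw [Function.iterate_succ_apply', ih, hom_inv_Ae, div_div, pow_succ,
          Function.iterate_succ_apply']
    obtain ⟨q, h1, h2⟩ := hk
    obtain ⟨v, h3, h4⟩ := Eeq _ _ _ _ (e1.symm.trans h2.symm)
    rw [Metric.mem_ball, Prod.dist_eq, max_lt_iff, Real.dist_eq, dist_eq_norm, h3, h4] at h1
    exact ⟨v, h1⟩
  let G' : Set (UnitAddTorus (Fin d)) := ⋃ q : ℚ, (C.Et q 0 + ·) ⁻¹' G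
  have mG' : MeasurableSet G' :=
    MeasurableSet.iUnion fun q => mG.preimage (measurable_const_add _)
  have dq : DenseRange fun q : ℚ => C.Et q 0 :=
    Edense.comp Rat.denseRange_cast (Econt.comp (.prodMk_left 0))
  have ec : EventuallyConst G' (ae ν) := by
    refine aeconst_Ae mG' (dq.mono ?_)
    rintro _ ⟨r, rfl⟩
    ext g
    simp only [G', mem_preimage, mem_iUnion, ← add_assoc, ← Eadd, add_zero]
    exact ⟨fun ⟨q, hq⟩ => ⟨q + r, by simpa using hq⟩, fun ⟨q, hq⟩ => ⟨q - r, by simpa using hq⟩⟩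
  have full : ∀ᵐ g ∂ν, g ∈ G' := by
    refine (eventuallyConst_set.1 ec).resolve_right fun h0 => pG ?_
    refine measure_mono_null (fun g hg => ?_) (measure_eq_zero_iff_ae_notMem.2 h0)
    refine mem_iUnion.2 ⟨0, ?_⟩
    have h00 : C.Et 0 0 = 0 := by
      have := Eadd 0 0 0 0
      rw [add_zero, add_zero] at this
      exact left_eq_add.1 this
    simpa [h00] using hg
  filter_upwards [full] with g hg α β e1
  obtain ⟨q, hq⟩ := mem_iUnion.1 hg
  rw [mem_preimage, ← e1, ← Eadd, zero_add] at hq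
  exact gen _ _ hq α

end Pool.Agent.MP_4168de_an.G

end
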