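import Pool.Agent.Mg.F4168de.Gfd1a75
import Pool.Agent.Mg.F4168de.G289263

section

/-! Chains of small growth form a saturated invariant submodule. -/

namespace Pool.Agent.MP_4168de_an.G

open Matrix Filter Topology

variable {d : ℕ} {A : Type} [Fintype A]

/-- Weighted sum of the absolute values of the coefficients. -/
noncomputable def nw (w : Lat d → ℝ) (f : Rg d) : ℝ :=
  ∑ v ∈ f.coeff.support, w v * |(f.coeff v : ℝ)|

/-- The sum of the absolute values of all coefficients of a chain. -/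
noncomputable def nrm (z : A → Rg d) : ℝ :=
  ∑ x, ∑ v ∈ (z x).coeff.support, |((z x).coeff v : ℝ)|

/-- Inflation of chains. -/
noncomputable def Einf (J : Matrix A A (Rg d)) (B : Lat d →+ Lat d) (z : A → Rg d) : A → Rg d :=
  J *ᵥ fun x => mu B (z x)

/-- The norm of the `k`-th inflation is `o(c^k)`. -/
def Small (J : Matrix A A (Rg d)) (B : Lat d →+ Lat d) (c : ℝ) (z : A → Rg d) : Prop :=
  Tendsto (fun k : ℕ => nrm ((Einf J B)^[k] z) / c ^ k) atTop (𝓝 0)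

lemma nrm_eq_Sat (z : A → Rg d) : nrm z = ∑ x, nw 1 (z x) := by simp [nrm, nw]

lemma nw_eq_Sat (w : Lat d → ℝ) (f : Rg d) {s : Finset (Lat d)} (hs : f.coeff.support ⊆ s) :
    nw w f = ∑ v ∈ s, w v * |(f.coeff v : ℝ)| :=
  Finset.sum_subset hs fun v _ hv => by simp [Finsupp.notMem_support_iff.1 hv]

lemma nw_nonneg_Sat {w : Lat d → ℝ} (hw : ∀ v, 0 ≤ w v) (f : Rg d) : 0 ≤ nw w f :=
  Finset.sum_nonneg fun v _ => mul_nonneg (hw v) (abs_nonneg _)

lemma nw_mono_Sat {w w' : Lat d → ℝ} (f : Rg d) (hw : ∀ v ∈ f.coeff.support, w v ≤ w' v) :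
    nw w f ≤ nw w' f :=
  Finset.sum_le_sum fun v hv => mul_le_mul_of_nonneg_right (hw v hv) (abs_nonneg _)

lemma nw_add_Sat {w : Lat d → ℝ} (hw : ∀ v, 0 ≤ w v) (f g : Rg d) :
    nw w (f + g) ≤ nw w f + nw w g := by
  classical
  rw [nw_eq_Sat w (f + g) (s := f.coeff.support ∪ g.coeff.support)
      (by rw [AddMonoidAlgebra.coeff_add]; exact Finsupp.support_add),
    nw_eq_Sat w f Finset.subset_union_left, nw_eq_Sat w g Finset.subset_union_right,
    ← Finset.sum_add_distrib]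
  refine Finset.sum_le_sum fun v _ => ?_
  rw [← mul_add, AddMonoidAlgebra.coeff_add, Finsupp.add_apply, Int.cast_add]
  exact mul_le_mul_of_nonneg_left (abs_add_le _ _) (hw v)

lemma nw_neg_Sat (w : Lat d → ℝ) (f : Rg d) : nw w (-f) = nw w f := by
  simp [nw]

lemma nw_sum_Sat {w : Lat d → ℝ} (hw : ∀ v, 0 ≤ w v) {ι : Type} (s : Finset ι) (f : ι → Rg d) :
    nw w (∑ i ∈ s, f i) ≤ ∑ i ∈ s, nw w (f i) := by
  classical
  induction s using Finset.induction_on with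
  | empty => simp [nw]
  | insert i s hi ih =>
    rw [Finset.sum_insert hi, Finset.sum_insert hi]
    exact (nw_add_Sat hw _ _).trans (by linarith)

lemma nw_single_Sat (w : Lat d → ℝ) (γ : Lat d) (n : ℤ) (f : Rg d) :
    nw w (AddMonoidAlgebra.single γ n * f) = |(n : ℝ)| * nw (fun v => w (γ + v)) f := by
  classical
  rw [nw_eq_Sat w _ (AddMonoidAlgebra.support_coeff_single_mul_subset f n γ),
    Finset.sum_image (fun _ _ _ _ h => add_left_cancel h), nw, Finset.mul_sum]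
  refine Finset.sum_congr rfl fun v _ => ?_
  rw [AddMonoidAlgebra.coeff_single_mul_add, Int.cast_mul, abs_mul]
  ring

lemma Einf_add (J : Matrix A A (Rg d)) (B : Lat d →+ Lat d) (y z : A → Rg d) :
    Einf J B (y + z) = Einf J B y + Einf J B z := by
  rw [Einf, Einf, Einf, ← mulVec_add]
  congr 1
  funext x
  simp

lemma Einf_smul (J : Matrix A A (Rg d)) (B : Lat d →+ Lat d) (P : Rg d) (z : A → Rg d) :
    Einf J B (P • z) = mu B P • Einf J B z := by
  rw [Einf, Einf, ← mulVec_smul]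
  congr 1
  funext x
  simp

lemma Einf_iter_add (J : Matrix A A (Rg d)) (B : Lat d →+ Lat d) (k : ℕ) (y z : A → Rg d) :
    (Einf J B)^[k] (y + z) = (Einf J B)^[k] y + (Einf J B)^[k] z := by
  induction k with
  | zero => rfl
  | succ k ih => simp only [Function.iterate_succ_apply', ih, Einf_add]

lemma Einf_iter_smul (J : Matrix A A (Rg d)) (B : Lat d →+ Lat d) (k : ℕ) (P : Rg d)
    (z : A → Rg d) : (Einf J B)^[k] (P • z) = (mu B)^[k] P • (Einf J B)^[k] z := by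
  induction k with
  | zero => rfl
  | succ k ih => simp only [Function.iterate_succ_apply', ih, Einf_smul]

lemma mu_iter_Sat (B : Lat d →+ Lat d) (k : ℕ) (P : Rg d) :
    (mu B)^[k] P = ∑ v ∈ P.coeff.support, AddMonoidAlgebra.single (B^[k] v) (P.coeff v) := by
  induction k with
  | zero => exact (AddMonoidAlgebra.sum_coeff_single P).symm
  | succ k ih => simp only [Function.iterate_succ_apply', ih, map_sum, mu_single]

lemma nrm_nonneg (z : A → Rg d) : 0 ≤ nrm z :=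
  Finset.sum_nonneg fun _ _ => Finset.sum_nonneg fun _ _ => abs_nonneg _

lemma nrm_add_le (y z : A → Rg d) : nrm (y + z) ≤ nrm y + nrm z := by
  simp only [nrm_eq_Sat, ← Finset.sum_add_distrib]
  exact Finset.sum_le_sum fun x _ => nw_add_Sat (fun _ => zero_le_one) _ _

lemma nrm_iter_smul_le (B : Lat d →+ Lat d) (k : ℕ) (P : Rg d) (z : A → Rg d) :
    nrm ((mu B)^[k] P • z) ≤ nw 1 P * nrm z := by
  simp only [nrm_eq_Sat, Finset.mul_sum]
  refine Finset.sum_le_sum fun x _ => ?_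
  rw [Pi.smul_apply, smul_eq_mul, mu_iter_Sat, Finset.sum_mul]
  refine (nw_sum_Sat (fun _ => zero_le_one) _ _).trans (le_of_eq ?_)
  simp only [nw_single_Sat]
  rw [← Finset.sum_mul]
  simp [nw]

variable {J : Matrix A A (Rg d)} {B : Lat d →+ Lat d} {c : ℝ}

lemma Small.of_le (hc : 0 < c) {z : A → Rg d} {u : ℕ → ℝ} (hu : Tendsto u atTop (𝓝 0))
    (h : ∀ k, nrm ((Einf J B)^[k] z) ≤ u k * c ^ k) : Small J B c z :=
  squeeze_zero (fun k => div_nonneg (nrm_nonneg _) (pow_pos hc k).le)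
    (fun k => (div_le_iff₀ (pow_pos hc k)).2 (h k)) hu

lemma Small.add (hc : 0 < c) {y z : A → Rg d} (hy : Small J B c y) (hz : Small J B c z) :
    Small J B c (y + z) := by
  refine Small.of_le hc (by simpa using Tendsto.add hy hz) fun k => ?_
  rw [add_mul, div_mul_cancel₀ _ (pow_pos hc k).ne', div_mul_cancel₀ _ (pow_pos hc k).ne',
    Einf_iter_add]
  exact nrm_add_le _ _

lemma Small.smul (hc : 0 < c) (P : Rg d) {z : A → Rg d} (hz : Small J B c z) :
    Small J B c (P • z) := by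
  refine Small.of_le hc (by simpa using Tendsto.const_mul (nw 1 P) hz) fun k => ?_
  rw [mul_assoc, div_mul_cancel₀ _ (pow_pos hc k).ne', Einf_iter_smul]
  exact nrm_iter_smul_le _ _ _ _

lemma Small.zero (hc : 0 < c) : Small J B c 0 := by
  refine Small.of_le hc tendsto_const_nhds fun k => ?_
  have h := Einf_iter_smul J B k 0 0
  rw [zero_smul, Function.iterate_fixed (map_zero (mu B)), zero_smul] at h
  simp [h, nrm]

lemma Small.inf (hc : 0 < c) {z : A → Rg d} (hz : Small J B c z) : Small J B c (Einf J B z) := by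
  have h := Tendsto.const_mul c (hz.comp (tendsto_add_atTop_nat 1))
  refine Small.of_le hc (by simpa using h) fun k => le_of_eq ?_
  rw [← Function.iterate_succ_apply, pow_succ]
  field_simp

/-- The small cycles. -/
noncomputable def smallSub [DecidableEq A] (D J : Matrix A A (Rg d)) (B : Lat d →+ Lat d) {c : ℝ}
    (hc : 0 < c) : Submodule (Rg d) (A → Rg d) where
  carrier := {z | D *ᵥ z = 0 ∧ Small J B c z}
  add_mem' hy hz := ⟨by rw [mulVec_add, hy.1, hz.1, add_zero], hy.2.add hc hz.2⟩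
  zero_mem' := ⟨mulVec_zero _, Small.zero hc⟩
  smul_mem' P _ hz := ⟨by rw [mulVec_smul, hz.1, smul_zero], hz.2.smul hc P⟩

lemma rad_step_Sat {a : Lat d →+ ℝ} (hc : 0 < c) (ha : ∀ v, a (B v) = c * a v) {r r' : ℝ}
    (hJ : ∀ b x, ∀ v ∈ (J b x).coeff.support, |a v| ≤ r') {z : A → Rg d}
    (hz : ∀ x, ∀ v ∈ (z x).coeff.support, |a v| ≤ r) (b : A) :
    ∀ v ∈ (Einf J B z b).coeff.support, |a v| ≤ c * r + r' := by
  classical
  intro v hv
  rw [Einf, mulVec, dotProduct, AddMonoidAlgebra.coeff_sum] at hv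
  obtain ⟨x, -, hx⟩ := Finset.mem_biUnion.1 (Finsupp.support_finsetSum hv)
  obtain ⟨v1, h1, v2, h2, rfl⟩ :=
    Finset.mem_add.1 (AddMonoidAlgebra.support_coeff_mul_subset _ _ hx)
  obtain ⟨v3, h3, rfl⟩ := Finset.mem_image.1 (Finsupp.mapDomain_support h2)
  rw [map_add, ha]
  refine (abs_add_le _ _).trans ?_
  rw [abs_mul, abs_of_pos hc]
  linarith [hJ b x v1 h1, mul_le_mul_of_nonneg_left (hz x v3 h3) hc.le]

lemma exists_rad_Sat {ι : Type} [Fintype ι] (a : Lat d →+ ℝ) (f : ι → Rg d) :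
    ∃ r : ℝ, 0 ≤ r ∧ ∀ i, ∀ v ∈ (f i).coeff.support, |a v| ≤ r :=
  ⟨∑ i, ∑ v ∈ (f i).coeff.support, |a v|,
    Finset.sum_nonneg fun _ _ => Finset.sum_nonneg fun _ _ => abs_nonneg _, fun i _ hv =>
    (Finset.single_le_sum (f := fun v => |a v|) (fun _ _ => abs_nonneg _) hv).trans
      (Finset.single_le_sum (f := fun i => ∑ v ∈ (f i).coeff.support, |a v|)
        (fun _ _ => Finset.sum_nonneg fun _ _ => abs_nonneg _) (Finset.mem_univ i))⟩

lemma rad_iter_Sat {a : Lat d →+ ℝ} (hc : 1 < c) (ha : ∀ v, a (B v) = c * a v) (z : A → Rg d) :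
    ∃ C : ℝ, 0 ≤ C ∧ ∀ k x, ∀ v ∈ ((Einf J B)^[k] z x).coeff.support, |a v| ≤ C * c ^ k := by
  obtain ⟨r, hr, h1⟩ := exists_rad_Sat a z
  obtain ⟨r', hr', h2⟩ := exists_rad_Sat a fun p : A × A => J p.1 p.2
  have c1 : 0 < c - 1 := sub_pos.2 hc
  have h0 : 0 ≤ r' / (c - 1) := div_nonneg hr' c1.le
  have key : ∀ k x, ∀ v ∈ ((Einf J B)^[k] z x).coeff.support,
      |a v| ≤ (r + r' / (c - 1)) * c ^ k - r' / (c - 1) := fun k => by
    induction k with
    | zero => simpa using h1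
    | succ k ih =>
      intro x v hv
      rw [Function.iterate_succ_apply'] at hv
      refine (rad_step_Sat (by linarith) ha (fun b x => h2 (b, x)) ih x v hv).trans (le_of_eq ?_)
      field_simp
      ring
  exact ⟨r + r' / (c - 1), add_nonneg hr h0, fun k x v hv => (key k x v hv).trans (by linarith)⟩

open Classical in
/-- The indicator of a half space. -/
noncomputable def ind_Sat (a : Lat d →+ ℝ) (t : ℝ) (v : Lat d) : ℝ := if t ≤ a v then 1 else 0

lemma ind_nonneg_Sat (a : Lat d →+ ℝ) (t : ℝ) (v : Lat d) : 0 ≤ ind_Sat a t v := by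
  unfold ind_Sat
  split_ifs <;> norm_num

lemma top_Sat {a : Lat d →+ ℝ} (hc : 0 < c) (ha : ∀ v, a (B v) = c * a v) {P : Rg d} {γ : Lat d}
    (hγ : γ ∈ P.coeff.support) {ε : ℝ} (hε : ∀ v ∈ P.coeff.support, v ≠ γ → a v + ε ≤ a γ)
    (k : ℕ) (s : ℝ) (f : Rg d) :
    nw (ind_Sat a ((s - ε) * c ^ k)) f ≤
      nw 1 ((mu B)^[k] P * f) + nw 1 P * nw (ind_Sat a (s * c ^ k)) f := by
  classical
  have hk : ∀ v, a (B^[k] v) = c ^ k * a v := fun v => by
    induction k with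
    | zero => simp
    | succ k ih => rw [Function.iterate_succ_apply', ha, ih, pow_succ]; ring
  have ck : 0 < c ^ k := pow_pos hc k
  let w := ind_Sat a ((s - ε) * c ^ k + c ^ k * a γ)
  have hw : ∀ v, 0 ≤ w v := ind_nonneg_Sat _ _
  have e : AddMonoidAlgebra.single (B^[k] γ) (P.coeff γ) * f = (mu B)^[k] P * f +
      -∑ v ∈ P.coeff.support.erase γ, AddMonoidAlgebra.single (B^[k] v) (P.coeff v) * f := by
    rw [mu_iter_Sat, ← Finset.add_sum_erase _ _ hγ, add_mul, Finset.sum_mul]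
    ring
  have h1 := nw_add_Sat hw ((mu B)^[k] P * f)
    (-∑ v ∈ P.coeff.support.erase γ, AddMonoidAlgebra.single (B^[k] v) (P.coeff v) * f)
  rw [← e, nw_neg_Sat, nw_single_Sat] at h1
  have h2 : (fun v => w (B^[k] γ + v)) = ind_Sat a ((s - ε) * c ^ k) := by
    funext v
    simp only [w, ind_Sat, map_add, hk]
    exact if_congr (by constructor <;> intro h <;> linarith) rfl rfl
  rw [h2] at h1
  have h3 : (1 : ℝ) ≤ |(P.coeff γ : ℝ)| := by
    exact_mod_cast Int.one_le_abs (Finsupp.mem_support_iff.1 hγ)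
  have h4 : nw w ((mu B)^[k] P * f) ≤ nw 1 ((mu B)^[k] P * f) := nw_mono_Sat _ fun v _ => by
    simp only [w, ind_Sat]
    split_ifs <;> norm_num
  have h5 := nw_sum_Sat hw (P.coeff.support.erase γ)
    fun v => AddMonoidAlgebra.single (B^[k] v) (P.coeff v) * f
  have n0 := nw_nonneg_Sat (ind_nonneg_Sat a (s * c ^ k)) f
  have h6 : ∑ v ∈ P.coeff.support.erase γ, nw w (AddMonoidAlgebra.single (B^[k] v) (P.coeff v) * f)
      ≤ nw 1 P * nw (ind_Sat a (s * c ^ k)) f := by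
    rw [nw, Finset.sum_mul]
    refine (Finset.sum_le_sum fun v hv => ?_).trans
      (Finset.sum_le_sum_of_subset_of_nonneg (Finset.erase_subset γ _)
        fun v _ _ => mul_nonneg (by simp) n0)
    rw [nw_single_Sat, Pi.one_apply, one_mul]
    refine mul_le_mul_of_nonneg_left (nw_mono_Sat _ fun u _ => ?_) (abs_nonneg _)
    have := mul_le_mul_of_nonneg_left
      (hε v (Finset.mem_of_mem_erase hv) (Finset.ne_of_mem_erase hv)) ck.le
    simp only [w, ind_Sat, map_add, hk]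
    split_ifs with g1 g2
    · rfl
    · exact absurd (by linarith) g2
    · norm_num
    · rfl
  have n1 := nw_nonneg_Sat (ind_nonneg_Sat a ((s - ε) * c ^ k)) f
  nlinarith

theorem Small.sat {a : Lat d →+ ℝ} (hinj : Function.Injective a) (hc : 1 < c)
    (ha : ∀ v, a (B v) = c * a v) {P : Rg d} (hP : P ≠ 0) {z : A → Rg d}
    (hz : Small J B c (P • z)) : Small J B c z := by
  classical
  have c0 : 0 < c := by linarith
  obtain ⟨C, hC, h1⟩ := rad_iter_Sat (J := J) hc ha z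
  obtain ⟨γ, hγ, h2⟩ := P.coeff.support.exists_max_image a
    (Finsupp.support_nonempty_iff.2 (by simpa using hP))
  obtain ⟨ε, hε, h3⟩ : ∃ ε : ℝ, 0 < ε ∧ ∀ v ∈ P.coeff.support, v ≠ γ → a v + ε ≤ a γ := by
    rcases (P.coeff.support.erase γ).eq_empty_or_nonempty with h | h
    · exact ⟨1, one_pos, fun v hv hne => absurd (h ▸ Finset.mem_erase.2 ⟨hne, hv⟩) (by simp)⟩
    · obtain ⟨v0, h4, h5⟩ := Finset.exists_max_image _ a h
      refine ⟨a γ - a v0, sub_pos.2 ((h2 v0 (Finset.mem_of_mem_erase h4)).lt_of_ne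
        fun e => Finset.ne_of_mem_erase h4 (hinj e)), fun v hv hne => ?_⟩
      linarith [h5 v (Finset.mem_erase.2 ⟨hne, hv⟩)]
  have T : ∀ n : ℕ, Tendsto (fun k : ℕ => (∑ x, nw (ind_Sat a ((C + 1 - n * ε) * c ^ k))
      ((Einf J B)^[k] z x)) / c ^ k) atTop (𝓝 0) := fun n => by
    induction n with
    | zero =>
      refine tendsto_const_nhds.congr fun k => ?_
      rw [Finset.sum_eq_zero, zero_div]
      refine fun x _ => Finset.sum_eq_zero fun v hv => ?_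
      have := (le_abs_self _).trans (h1 k x v hv)
      rw [ind_Sat, if_neg (by push_cast; nlinarith [pow_pos c0 k]), zero_mul]
    | succ n ih =>
      have h4 := Tendsto.add hz (ih.const_mul (nw 1 P))
      rw [mul_zero, add_zero] at h4
      refine squeeze_zero (fun k => div_nonneg (Finset.sum_nonneg fun x _ =>
        nw_nonneg_Sat (ind_nonneg_Sat _ _) _) (pow_pos c0 k).le) (fun k => ?_) h4
      rw [← mul_div_assoc, ← add_div, Einf_iter_smul, nrm_eq_Sat, Finset.mul_sum,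
        ← Finset.sum_add_distrib]
      refine div_le_div_of_nonneg_right (Finset.sum_le_sum fun x _ => ?_) (pow_pos c0 k).le
      have := top_Sat c0 ha hγ h3 k (C + 1 - n * ε) ((Einf J B)^[k] z x)
      rwa [show C + 1 - n * ε - ε = C + 1 - (n + 1 : ℕ) * ε by push_cast; ring] at this
  obtain ⟨n, hn⟩ := exists_nat_ge ((2 * C + 1) / ε)
  rw [div_le_iff₀ hε] at hn
  refine (T n).congr fun k => ?_
  rw [nrm_eq_Sat]
  congr 1
  refine Finset.sum_congr rfl fun x _ => Finset.sum_congr rfl fun v hv => ?_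
  have := (neg_le_neg (h1 k x v hv)).trans (neg_abs_le _)
  rw [ind_Sat, if_pos (by nlinarith [pow_pos c0 k]), Pi.one_apply]

/-- One nonzero small cycle makes every cycle small. -/
theorem all_small (hA : AlgStmt) {ι : Type} [DecidableEq A] [Fintype ι] (st en : A → A)
    (δ : A → Lat d) (ℓ w : A → ℝ) (a : Lat d →+ ℝ) (M : Matrix A A ℤ) (ψ : ι → A → ℂ)
    (lam : ι → ℂ) (hinj : Function.Injective a) (hw : ∀ x, w (en x) + a (δ x) = w (st x) + ℓ x)
    (hB : Function.Injective B) (hc : 1 < c) (ha : ∀ v, a (B v) = c * a v)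
    (hJ : ∀ b x, aug (J b x) = M b x)
    (h1 : ∀ j (v : A → ℂ), (∀ p, ∑ x, (inc st en p x : ℂ) * v x = 0) →
      ψ j ⬝ᵥ (M.map Int.cast) *ᵥ v = lam j * ψ j ⬝ᵥ v)
    (h2 : ∀ v : A → ℂ, (∀ p, ∑ x, (inc st en p x : ℂ) * v x = 0) → ∑ x, (ℓ x : ℂ) * v x = 0 →
      (∀ j, ψ j ⬝ᵥ v = 0) → v = 0)
    (h3 : ∀ j, ‖lam j‖ < 1) (h4 : c * ∏ j, ‖lam j‖ = 1) (h5 : ∀ j, IsIntegral ℤ (lam j)⁻¹)
    (h6 : IsIntegral ℤ c⁻¹)
    (hE : ∀ z, bdM st en δ *ᵥ z = 0 → bdM st en δ *ᵥ Einf J B z = 0)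
    {z0 : A → Rg d} (hz0 : z0 ≠ 0) (hb : bdM st en δ *ᵥ z0 = 0) (hs : Small J B c z0)
    (z : A → Rg d) (hz : bdM st en δ *ᵥ z = 0) : Small J B c z := by
  have c0 : 0 < c := by linarith
  obtain ⟨P, hP, h⟩ := hA A ι d st en δ ℓ w a B c M J ψ lam (smallSub (bdM st en δ) J B c0) hinj hw
    hB hc ha hJ h1 h2 h3 h4 h5 h6 (fun _ h => h.1) (fun y h => ⟨hE y h.1, h.2.inf c0⟩)
    (fun h => hz0 ((Submodule.eq_bot_iff _).1 h z0 ⟨hb, hs⟩)) z hz
  exact h.2.sat hinj hc ha hP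

end Pool.Agent.MP_4168de_an.G

end

section

/-! A nonzero null cycle. -/

namespace Pool.Agent.MP_4168de_an.G

open Set Filter Topology Shift Matrix

section chains

variable {A : Type} [Fintype A] [DecidableEq A] {d : ℕ}

/-- Weighted length of a chain. -/
noncomputable def lw_Nonzero (w : A × Lat d → ℝ) (z : A → Rg d) : ℝ :=
  ∑ x, nw (fun v => w (x, v)) (z x)

omit [DecidableEq A] in
lemma len_eq_Nonzero (ℓ : A → ℝ) (z : A → Rg d) : len ℓ z = lw_Nonzero (fun t => ℓ t.1) z := by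
  simp only [len, lw_Nonzero, nw, mul_comm]

omit [DecidableEq A] in
lemma lw_add_Nonzero {w : A × Lat d → ℝ} (hw : ∀ t, 0 ≤ w t) (z z' : A → Rg d) :
    lw_Nonzero w (z + z') ≤ lw_Nonzero w z + lw_Nonzero w z' := by
  simp only [lw_Nonzero, ← Finset.sum_add_distrib]
  exact Finset.sum_le_sum fun x _ => nw_add_Sat (fun _ => hw _) _ _

omit [DecidableEq A] in
lemma lw_neg_Nonzero (w : A × Lat d → ℝ) (z : A → Rg d) : lw_Nonzero w (-z) = lw_Nonzero w z := by
  simp only [lw_Nonzero, Pi.neg_apply, nw_neg_Sat]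

omit [DecidableEq A] in
lemma lw_mono_Nonzero {w w' : A × Lat d → ℝ} (z : A → Rg d) (h : ∀ t, co t z ≠ 0 → w t ≤ w' t) :
    lw_Nonzero w z ≤ lw_Nonzero w' z :=
  Finset.sum_le_sum fun x _ => nw_mono_Sat _ fun v hv => h (x, v) (Finsupp.mem_support_iff.1 hv)

omit [DecidableEq A] in
lemma lw_gap_Nonzero {w w' : A × Lat d → ℝ} (z : A → Rg d) (h : ∀ t, w t ≤ w' t) {t : A × Lat d}
    (ht : co t z = 1) : lw_Nonzero w z + (w' t - w t) ≤ lw_Nonzero w' z := by
  have h1 : lw_Nonzero w' z = lw_Nonzero w z + lw_Nonzero (fun t => w' t - w t) z := by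
    simp only [lw_Nonzero, nw, ← Finset.sum_add_distrib]
    exact Finset.sum_congr rfl fun x _ => Finset.sum_congr rfl fun v _ => by ring
  have h2 : w' t - w t ≤ nw (fun v => w' (t.1, v) - w (t.1, v)) (z t.1) := by
    have h3 := Finset.single_le_sum (s := (z t.1).coeff.support)
      (f := fun v => (w' (t.1, v) - w (t.1, v)) * |((z t.1).coeff v : ℝ)|)
      (fun v _ => mul_nonneg (sub_nonneg.2 (h _)) (abs_nonneg _))
      (a := t.2) (Finsupp.mem_support_iff.2 (by rw [← co_apply, ht]; norm_num))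
    rw [← co_apply, ht] at h3
    simpa [nw] using h3
  have h4 := Finset.single_le_sum (s := Finset.univ)
    (f := fun x => nw (fun v => w' (x, v) - w (x, v)) (z x))
    (fun x _ => nw_nonneg_Sat (fun _ => sub_nonneg.2 (h _)) _) (Finset.mem_univ t.1)
  rw [h1]
  exact add_le_add le_rfl (h2.trans h4)

lemma le_lw_Nonzero {N : (A → Rg d) → ℝ} (h0 : N 0 = 0) (h1 : ∀ z z', N (z + z') ≤ N z + N z')
    (h2 : ∀ z, N (-z) = N z) (z : A → Rg d) : N z ≤ lw_Nonzero (fun t => N (tile t)) z := by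
  have h3 : ∀ (n : ℕ) z, N (n • z) ≤ n * N z := fun n z => by
    induction n with
    | zero => simp [h0]
    | succ n ih =>
      rw [succ_nsmul]
      refine (h1 _ _).trans ?_
      push_cast
      linarith
  have h4 : ∀ (n : ℤ) z, N (n • z) ≤ N z * |(n : ℝ)| := fun n z => by
    obtain ⟨m, rfl | rfl⟩ := Int.eq_nat_or_neg n
    · simpa [mul_comm] using h3 m z
    · rw [neg_smul, h2]
      simpa [mul_comm] using h3 m z
  have h5 : ∀ {ι : Type} (s : Finset ι) (f : ι → A → Rg d), N (∑ i ∈ s, f i) ≤ ∑ i ∈ s, N (f i) :=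
    fun s f => Finset.le_sum_of_subadditive N h0.le h1 s f
  have e : z = ∑ x, ∑ v ∈ (z x).coeff.support, (z x).coeff v • tile (x, v) := by
    refine ext_co fun t => ?_
    simp only [map_sum, map_zsmul, co_tile, smul_eq_mul, mul_ite, mul_one, mul_zero]
    rw [Finset.sum_eq_single t.1 (fun x _ hx => Finset.sum_eq_zero fun v _ =>
      if_neg fun h => hx (congrArg Prod.fst h)) (by simp)]
    rw [Finset.sum_eq_single t.2 (fun v _ hv => if_neg fun h => hv (congrArg Prod.snd h))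
      (fun h => by simpa using h)]
    simp [co_apply]
  conv_lhs => rw [e]
  exact (h5 _ _).trans (Finset.sum_le_sum fun x _ => (h5 _ _).trans
    (Finset.sum_le_sum fun v _ => h4 _ _))

lemma len_tile_Nonzero (ℓ : A → ℝ) (t : A × Lat d) : len ℓ (tile t) = ℓ t.1 := by
  rw [len, Finset.sum_eq_single t.1 (fun x _ hx => by simp [tile, hx]) (by simp)]
  simp [tile, mono]

/-- If every tile has a descendant that is cancelled, then the length contracts. -/
lemma contract_Nonzero {ℓ : A → ℝ} {l₀ l₁ K : ℝ} (h0 : 0 < l₀) (h1 : ∀ a, l₀ ≤ ℓ a)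
    (h2 : ∀ a, ℓ a ≤ l₁) (F : (A → Rg d) →+ (A → Rg d)) (hF : ∀ z, len ℓ (F z) ≤ K * len ℓ z)
    (z : A → Rg d) (h : ∀ t, ∃ t', co t' (F (tile t)) = 1 ∧ co t' (F z) = 0) :
    len ℓ (F z) ≤ (K - l₀ / l₁) * len ℓ z := by
  classical
  let w : A × Lat d → ℝ := fun t => if co t (F z) = 0 then 0 else ℓ t.1
  have w0 : ∀ t, 0 ≤ w t := fun t => by
    simp only [w]
    split_ifs
    · rfl
    · linarith [h1 t.1]
  have w1 : ∀ t, w t ≤ ℓ t.1 := fun t => by
    simp only [w]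
    split_ifs
    · linarith [h1 t.1]
    · rfl
  have a1 : len ℓ (F z) ≤ lw_Nonzero w (F z) := by
    rw [len_eq_Nonzero]
    exact lw_mono_Nonzero _ fun t ht => by simp [w, ht]
  have a2 := le_lw_Nonzero (N := fun u => lw_Nonzero w (F u)) (by simp [lw_Nonzero, nw])
    (fun u u' => by simpa using lw_add_Nonzero w0 _ _)
    (fun u => by simpa using lw_neg_Nonzero _ _) z
  have a3 : lw_Nonzero (fun t => lw_Nonzero w (F (tile t))) z ≤
      lw_Nonzero (fun t => (K - l₀ / l₁) * ℓ t.1) z := lw_mono_Nonzero _ fun t _ => by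
    obtain ⟨t', b1, b2⟩ := h t
    have b3 := lw_gap_Nonzero (F (tile t)) w1 b1
    have b4 := hF (tile t)
    rw [← len_eq_Nonzero] at b3
    rw [len_tile_Nonzero] at b4
    have b5 : w t' = 0 := if_pos b2
    have b6 : 0 < l₁ := by linarith [h1 t.1, h2 t.1]
    have b7 : l₀ / l₁ * ℓ t.1 ≤ l₀ := by
      rw [div_mul_eq_mul_div, div_le_iff₀ b6]
      exact mul_le_mul_of_nonneg_left (h2 _) h0.le
    have := h1 t'.1
    nlinarith
  have a4 : lw_Nonzero (fun t => (K - l₀ / l₁) * ℓ t.1) z = (K - l₀ / l₁) * len ℓ z := by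
    simp only [len_eq_Nonzero, lw_Nonzero, nw, Finset.mul_sum, mul_assoc]
  linarith

end chains

lemma tendsto_zero_Nonzero {u : ℕ → ℝ} {θ : ℝ} {j : ℕ} (h0 : ∀ k, 0 ≤ u k)
    (h1 : ∀ k, u (k + 1) ≤ u k) (hθ : θ < 1) (h2 : ∀ k, u (k + j) ≤ θ * u k) :
    Tendsto u atTop (𝓝 0) := by
  have h3 := tendsto_atTop_ciInf (antitone_nat_of_succ_le h1)
    ⟨0, by rintro _ ⟨k, rfl⟩; exact h0 k⟩
  have h4 := le_of_tendsto_of_tendsto' (h3.comp (tendsto_add_atTop_nat j)) (h3.const_mul θ) h2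
  have h5 : 0 ≤ ⨅ k, u k := le_ciInf h0
  have h6 : ⨅ k, u k = 0 := by nlinarith
  rwa [h6] at h3

variable {A : Type} [Fintype A] [DecidableEq A] [TopologicalSpace A] {D : Shift A} {ℓ : A → ℝ}
  {c : ℝ} {σ : DSub D ℓ c} {d e : ℕ}

namespace Cover

variable (C : Cover σ d e)

/-- The index of the tile over a time. -/
noncomputable def ix_Nonzero (y : D.X × Lat d) (α : ℝ) : ℤ := (C.exists_K y α).choose

/-- The tile over a time. -/
noncomputable def ed_Nonzero (y : D.X × Lat d) (α : ℝ) : A × Lat d :=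
  lab (C.s (C.ix_Nonzero y α) y)

/-- The strand up to a time. -/
noncomputable def H_Nonzero (y : D.X × Lat d) (α : ℝ) : A → Rg d := C.ch y (C.ix_Nonzero y α)

lemma ix_mem_Nonzero (y : D.X × Lat d) (α : ℝ) : C.s (C.ix_Nonzero y α) y ∈ C.K α (C.z y) :=
  (C.exists_K y α).choose_spec

lemma ix_spec_Nonzero (y : D.X × Lat d) (α : ℝ) : C.p (C.s (C.ix_Nonzero y α) y) ≤ α ∧
    α < C.p (C.s (C.ix_Nonzero y α + 1) y) := (C.mem_K_s.1 (C.ix_mem_Nonzero y α)).2

lemma ed_cov_Nonzero (y : D.X × Lat d) (α : ℝ) : C.tm (C.ed_Nonzero y α) ≤ α ∧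
    α < C.tm (C.ed_Nonzero y α) + ℓ (C.ed_Nonzero y α).1 := (C.ix_mem_Nonzero y α).2

lemma ix_eq_Nonzero {y : D.X × Lat d} {α : ℝ} {n : ℤ} (h1 : C.tm (lab (C.s n y)) ≤ α)
    (h2 : α < C.tm (lab (C.s n y)) + ℓ (lab (C.s n y)).1) : C.ix_Nonzero y α = n :=
  C.K_unique (C.ix_mem_Nonzero y α) ⟨C.z_s _ _, h1, h2⟩

lemma on_iff_Nonzero {y : D.X × Lat d} {α : ℝ} {t : A × Lat d} (h1 : C.tm t ≤ α)
    (h2 : α < C.tm t + ℓ t.1) : C.On y t ↔ C.ed_Nonzero y α = t := by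
  refine ⟨?_, fun h => ⟨_, h⟩⟩
  rintro ⟨n, rfl⟩
  rw [ed_Nonzero, C.ix_eq_Nonzero h1 h2]

lemma ix_s_Nonzero (n : ℤ) (y : D.X × Lat d) (α : ℝ) :
    C.ix_Nonzero y α = n + C.ix_Nonzero (C.s n y) α := by
  have h := C.ed_cov_Nonzero (C.s n y) α
  rw [ed_Nonzero, s_s] at h
  exact C.ix_eq_Nonzero h.1 h.2

lemma step_Nonzero {y y' : D.X × Lat d} {α : ℝ} (h : C.ed_Nonzero y α = C.ed_Nonzero y' α) :
    C.ed_Nonzero (C.S y) (c * α) = C.ed_Nonzero (C.S y') (c * α) ∧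
      C.H_Nonzero (C.S y) (c * α) - C.E (C.H_Nonzero y α) =
        C.H_Nonzero (C.S y') (c * α) - C.E (C.H_Nonzero y' α) := by
  have c0 : 0 < c := by linarith [C.one_lt]
  have key : ∀ y : D.X × Lat d, C.ed_Nonzero (C.S y) (c * α) = C.ed_Nonzero
      (C.S (C.s (C.ix_Nonzero y α) y)) (c * α) ∧
      C.H_Nonzero (C.S y) (c * α) - C.E (C.H_Nonzero y α) =
        C.H_Nonzero (C.S (C.s (C.ix_Nonzero y α) y)) (c * α) := fun y => by
    have h1 := C.ix_s_Nonzero (σ.cc y.1.1 (C.ix_Nonzero y α)) (C.S y) (c * α)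
    constructor
    · rw [ed_Nonzero, h1, ← s_s, S_s, ed_Nonzero]
    · rw [H_Nonzero, h1, ch_add, H_Nonzero, E_ch, S_s, H_Nonzero, add_sub_cancel_left]
  rw [(key y).1, (key y).2, (key y').1, (key y').2]
  have b := C.ix_spec_Nonzero y α
  rw [← s_s] at b
  change lab _ = lab _ at h
  generalize C.s (C.ix_Nonzero y α) y = u at h b
  generalize C.s (C.ix_Nonzero y' α) y' = u' at h
  obtain ⟨a1, a2⟩ := C.ix_spec_Nonzero (C.S u) (c * α)
  have hm := C.p_s_strictMono (C.S u)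
  have a3 : 0 < C.ix_Nonzero (C.S u) (c * α) + 1 := hm.lt_iff_lt.1 (by
    simp only [s_zero, p_S]
    exact (mul_le_mul_of_nonneg_left b.1 c0.le).trans_lt a2)
  have a4 : C.ix_Nonzero (C.S u) (c * α) < σ.r u.1.1 := hm.lt_iff_lt.1 (by
    rw [← σ.cc_one, ← S_s, p_S]
    exact a1.trans_lt (mul_lt_mul_of_pos_left b.2 c0))
  have a5 := C.lab_S_congr h (by omega) a4
  have a6 := C.ed_cov_Nonzero (C.S u) (c * α)
  rw [ed_Nonzero, a5] at a6
  have a7 := C.ix_eq_Nonzero a6.1 a6.2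
  refine ⟨by rw [ed_Nonzero, ed_Nonzero, a7, a5], ?_⟩
  rw [H_Nonzero, H_Nonzero, a7]
  exact isum_congr fun i b1 b2 => by rw [C.lab_S_congr h (by omega) (by omega)]

open Classical in
lemma co_H_Nonzero (y : D.X × Lat d) {t₁ t₂ : ℝ} (h : t₁ ≤ t₂) (t : A × Lat d) :
    co t (C.H_Nonzero y t₂ - C.H_Nonzero y t₁) =
      if C.On y t ∧ t₁ < C.tm t + ℓ t.1 ∧ C.tm t + ℓ t.1 ≤ t₂ then 1 else 0 := by
  have hm := C.p_s_strictMono y
  obtain ⟨a1, a2⟩ := C.ix_spec_Nonzero y t₁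
  obtain ⟨a3, a4⟩ := C.ix_spec_Nonzero y t₂
  have a5 : C.ix_Nonzero y t₁ < C.ix_Nonzero y t₂ + 1 := hm.lt_iff_lt.1 ((a1.trans h).trans_lt a4)
  have a6 : ∀ j, C.tm (lab (C.s j y)) + ℓ (lab (C.s j y)).1 = C.p (C.s (j + 1) y) := fun j => by
    rw [p_s_succ, ← C.s_letter j y]; rfl
  rw [H_Nonzero, H_Nonzero, C.co_ch y (by omega)]
  refine if_congr ⟨?_, ?_⟩ rfl rfl
  · rintro ⟨j, b1, b2, rfl⟩
    rw [a6]
    exact ⟨⟨j, rfl⟩, a2.trans_le (hm.monotone (by omega)), (hm.monotone (by omega)).trans a3⟩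
  · rintro ⟨⟨j, rfl⟩, b1, b2⟩
    rw [a6] at b1 b2
    have b3 := hm.lt_iff_lt.1 (a1.trans_lt b1)
    have b4 := hm.lt_iff_lt.1 (b2.trans_lt a4)
    exact ⟨j, by omega, by omega, rfl⟩

variable {m : ℕ}

/-- Two families of strands have the same tiles over the time `α`. -/
def Ag_Nonzero (y y' : Fin m → D.X × Lat d) (α : ℝ) : Prop :=
  ∃ π : Equiv.Perm (Fin m), ∀ i, C.ed_Nonzero (y' (π i)) α = C.ed_Nonzero (y i) α

/-- The difference of two families between two times. -/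
noncomputable def W_Nonzero (y y' : Fin m → D.X × Lat d) (t₁ t₂ : ℝ) : A → Rg d :=
  ∑ i, (C.H_Nonzero (y i) t₂ - C.H_Nonzero (y i) t₁) -
    ∑ i, (C.H_Nonzero (y' i) t₂ - C.H_Nonzero (y' i) t₁)

variable {C} {y y' : Fin m → D.X × Lat d}

lemma Ag_Nonzero.sum_eq {α : ℝ} (h : C.Ag_Nonzero y y' α) {G : Type} [AddCommMonoid G]
    (f : D.X × Lat d → G) (hf : ∀ u u', C.ed_Nonzero u α = C.ed_Nonzero u' α → f u = f u') :
    ∑ i, f (y i) = ∑ i, f (y' i) := by
  obtain ⟨π, h⟩ := h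
  rw [← Equiv.sum_comp π fun i => f (y' i)]
  exact Finset.sum_congr rfl fun i _ => hf _ _ (h i).symm

lemma Ag_Nonzero.S {α : ℝ} (h : C.Ag_Nonzero y y' α) :
    C.Ag_Nonzero (fun i => C.S (y i)) (fun i => C.S (y' i)) (c * α) :=
  h.imp fun _ h i => (C.step_Nonzero (h i)).1

lemma Ag_Nonzero.sum {α : ℝ} (h : C.Ag_Nonzero y y' α) :
    ∑ i, (C.H_Nonzero (C.S (y i)) (c * α) - C.E (C.H_Nonzero (y i) α)) =
      ∑ i, (C.H_Nonzero (C.S (y' i)) (c * α) - C.E (C.H_Nonzero (y' i) α)) :=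
  h.sum_eq (fun u => C.H_Nonzero (C.S u) (c * α) - C.E (C.H_Nonzero u α))
    fun _ _ h => (C.step_Nonzero h).2

lemma E_W_Nonzero {t₁ t₂ : ℝ} (h1 : C.Ag_Nonzero y y' t₁) (h2 : C.Ag_Nonzero y y' t₂) :
    C.E (C.W_Nonzero y y' t₁ t₂) =
      C.W_Nonzero (fun i => C.S (y i)) (fun i => C.S (y' i)) (c * t₁) (c * t₂) := by
  have a1 := h1.sum
  have a2 := h2.sum
  simp only [W_Nonzero, map_sub, map_sum, Finset.sum_sub_distrib] at a1 a2 ⊢
  rw [sub_eq_iff_eq_add] at a1 a2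
  rw [a1, a2]
  abel

lemma iter_W_Nonzero {t₁ t₂ : ℝ} (h1 : C.Ag_Nonzero y y' t₁) (h2 : C.Ag_Nonzero y y' t₂) (k : ℕ) :
    C.Ag_Nonzero (fun i => C.S^[k] (y i)) (fun i => C.S^[k] (y' i)) (c ^ k * t₁) ∧
    C.Ag_Nonzero (fun i => C.S^[k] (y i)) (fun i => C.S^[k] (y' i)) (c ^ k * t₂) ∧
    C.E^[k] (C.W_Nonzero y y' t₁ t₂) = C.W_Nonzero (fun i => C.S^[k] (y i))
      (fun i => C.S^[k] (y' i)) (c ^ k * t₁) (c ^ k * t₂) := by
  induction k with
  | zero => simpa using ⟨h1, h2⟩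
  | succ k ih =>
    obtain ⟨a1, a2, a3⟩ := ih
    simp only [Function.iterate_succ_apply', pow_succ', mul_assoc, a3]
    exact ⟨a1.S, a2.S, E_W_Nonzero a1 a2⟩

lemma bd_W_Nonzero {t₁ t₂ : ℝ} (h1 : C.Ag_Nonzero y y' t₁) (h2 : C.Ag_Nonzero y y' t₂) :
    C.bd (C.W_Nonzero y y' t₁ t₂) = 0 := by
  have key : ∀ α, C.Ag_Nonzero y y' α → ∑ i, C.vtx (C.s (C.ix_Nonzero (y i) α) (y i)) =
      ∑ i, C.vtx (C.s (C.ix_Nonzero (y' i) α) (y' i)) := fun α h =>
    h.sum_eq (fun u => C.vtx (C.s (C.ix_Nonzero u α) u)) fun _ _ h =>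
      congrArg (fun t : A × Lat d => tile (C.st t.1, t.2)) h
  simp only [W_Nonzero, H_Nonzero, map_sub, map_sum, bd_ch, Finset.sum_sub_distrib, key _ h1,
    key _ h2]
  abel

lemma co_W_Nonzero {t₁ t₂ α : ℝ} (h : t₁ ≤ t₂) (hα : C.Ag_Nonzero y y' α) {t : A × Lat d}
    (h1 : C.tm t ≤ α) (h2 : α < C.tm t + ℓ t.1) : co t (C.W_Nonzero y y' t₁ t₂) = 0 := by
  rw [W_Nonzero, map_sub, map_sum, map_sum, sub_eq_zero]
  refine hα.sum_eq (fun u => co t (C.H_Nonzero u t₂ - C.H_Nonzero u t₁)) fun u u' hu => ?_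
  simp only [C.co_H_Nonzero _ h, C.on_iff_Nonzero h1 h2, hu]

lemma ag_of_Nonzero {β : Fin e → ℝ} {α : ℝ} (hy : C.Stack β y)
    (h : ∀ t ∈ C.Lab α β, ∃ i, C.On (y' i) t) : C.Ag_Nonzero y y' α := by
  have h1 : ∀ i, ∃ j, C.ed_Nonzero (y' j) α = C.ed_Nonzero (y i) α := fun i => by
    obtain ⟨j, hj⟩ := h (C.ed_Nonzero (y i) α) ⟨_, hy.1 i ▸ C.ix_mem_Nonzero (y i) α, rfl⟩
    exact ⟨j, (C.on_iff_Nonzero (C.ed_cov_Nonzero _ _).1 (C.ed_cov_Nonzero _ _).2).1 hj⟩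
  choose f hf using h1
  have h2 : Function.Injective f := fun i j hij => by
    by_contra hne
    refine hy.2 i j hne 0 (C.ed_Nonzero (y i) α) ⟨_, rfl⟩ ⟨C.ix_Nonzero (y j) α, ?_⟩
    rw [← hf i, hij, hf j]
    rfl
  exact ⟨Equiv.ofBijective f (Finite.injective_iff_bijective.1 h2), hf⟩

lemma Stack.iter_Nonzero {β : Fin e → ℝ} (hy : C.Stack β y) (k : ℕ) :
    C.Stack (C.L.B'^[k] β) fun i => C.S^[k] (y i) :=
  ⟨fun i => by rw [z_iter, hy.1], fun i j h => (hy.2 i j h).iter k⟩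

end Cover

theorem nonzero_stmt (hT : TwoStmt) (hA : AgreeStmt) (hR : RecStmt) (_hP : PorousStmt)
    (hN : NullStmt) : NonzeroStmt := by
  intro A _ _ _ _ D ℓ c σ d e C Q
  classical
  obtain ⟨β, y, y', t₀, hy, hy', ⟨i₀, hi₀⟩, ht₀⟩ := hT A D ℓ c σ d e C Q
  obtain ⟨L, hL⟩ := hR A D ℓ c σ d e C Q.ρ Q.ρ_pos
  obtain ⟨-, -, -, hE, -⟩ := hN A D ℓ c σ d e C
  obtain ⟨l₀, l₁, h0, h1, h2⟩ := C.len_bounds
  have c1 := C.one_lt
  have c0 : 0 < c := by linarith
  have box : ∀ (k : ℕ) (s : ℝ), ∃ α, |α - s| ≤ L ∧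
      C.Ag_Nonzero (fun i => C.S^[k] (y i)) (fun i => C.S^[k] (y' i)) α := fun k s => by
    obtain ⟨v, a1, a2⟩ := hL (Q.α - s) (Q.β - C.L.B'^[k] β)
    refine ⟨Q.α - C.a v, ?_, Cover.ag_of_Nonzero (hy.iter_Nonzero k)
      (hA A D ℓ c σ d e C Q _ _ (hy'.iter_Nonzero k) _ v (by simpa using Q.ρ_pos) ?_)⟩
    · rw [abs_sub_comm] at a1
      rwa [sub_right_comm]
    · rwa [show C.L.B'^[k] β + C.b v - Q.β = C.b v - (Q.β - C.L.B'^[k] β) by abel]
  obtain ⟨t₁, a1, g1⟩ := box 0 (C.tm t₀ + ℓ t₀.1 - L - 1)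
  obtain ⟨t₂, a2, g2⟩ := box 0 (C.tm t₀ + ℓ t₀.1 + L)
  rw [abs_le] at a1 a2
  simp only [Function.iterate_zero, id_eq] at g1 g2
  have h12 : t₁ ≤ t₂ := by linarith
  refine ⟨C.W_Nonzero y y' t₁ t₂, fun hz => ?_, Cover.bd_W_Nonzero g1 g2, ?_⟩
  · have a3 := congrArg (co t₀) hz
    simp only [Cover.W_Nonzero, map_sub (co t₀) (∑ i, _), map_sum, C.co_H_Nonzero _ h12, ht₀,
      false_and, if_false, Finset.sum_const_zero, sub_zero, map_zero] at a3
    have a4 := (Finset.sum_eq_zero_iff_of_nonneg fun i _ => by split_ifs <;> norm_num).1 a3 i₀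
      (Finset.mem_univ _)
    rw [if_pos ⟨hi₀, by linarith, by linarith⟩] at a4
    exact one_ne_zero a4
  have hEk : ∀ (k : ℕ) z, len ℓ (C.E^[k] z) ≤ c ^ k * len ℓ z := fun k z => by
    induction k with
    | zero => simp
    | succ k ih =>
      rw [Function.iterate_succ_apply', pow_succ', mul_assoc]
      exact (hE _).trans (mul_le_mul_of_nonneg_left ih c0.le)
  obtain ⟨j, hj⟩ := pow_unbounded_of_one_lt (2 * (L + l₁) / l₀) c1
  rw [div_lt_iff₀ h0] at hj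
  have l1 : 0 < l₁ := by linarith [h1 t₀.1, h2 t₀.1]
  have cj := pow_pos c0 j
  refine tendsto_zero_Nonzero (θ := 1 - l₀ / l₁ / c ^ j) (j := j) (fun k => ?_) (fun k => ?_)
    (by have : 0 < l₀ / l₁ / c ^ j := by positivity
        linarith) fun k => ?_
  · refine div_nonneg (Finset.sum_nonneg fun x _ => Finset.sum_nonneg fun v _ => ?_) (by positivity)
    exact mul_nonneg (abs_nonneg _) (C.ℓ_pos x).le
  · rw [Function.iterate_succ_apply', div_le_div_iff₀ (by positivity) (by positivity), pow_succ]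
    nlinarith [hE (C.E^[k] (C.W_Nonzero y y' t₁ t₂)), pow_pos c0 k]
  · let F : (A → Rg d) →+ (A → Rg d) := AddMonoidHom.mk' C.E^[j] (iterate_map_add C.E j)
    have b1 := contract_Nonzero h0 h1 h2 F (hEk j) (C.E^[k] (C.W_Nonzero y y' t₁ t₂)) fun t => by
      obtain ⟨u, rfl⟩ := C.exists_lab t
      obtain ⟨α, b2, b3⟩ := box (j + k) (c ^ j * (C.p u + ℓ (u.1.1 0) / 2))
      obtain ⟨b4, b5⟩ := C.ed_cov_Nonzero (C.S^[j] u) α
      refine ⟨C.ed_Nonzero (C.S^[j] u) α, ?_, ?_⟩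
      · have b6 := C.co_piece j u (m := 0) (n := 0 + 1) (by omega) (C.ed_Nonzero (C.S^[j] u) α)
        rw [abs_le] at b2
        have b7 := mul_le_mul_of_nonneg_left (h1 (u.1.1 0)) cj.le
        have b8 := h2 (C.ed_Nonzero (C.S^[j] u) α).1
        rw [Cover.p_s_succ, Cover.s_zero, if_pos ⟨⟨_, rfl⟩, by linarith, by linarith⟩] at b6
        change co _ (C.E^[j] _) = 1
        simpa [Cover.ch_one] using b6
      · change co _ (C.E^[j] _) = 0
        rw [← Function.iterate_add_apply, (Cover.iter_W_Nonzero g1 g2 (j + k)).2.2]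
        exact Cover.co_W_Nonzero (mul_le_mul_of_nonneg_left h12 (by positivity)) b3 b4 b5
    change len ℓ (C.E^[j] _) ≤ _ at b1
    rw [← Function.iterate_add_apply, add_comm j k] at b1
    rw [div_le_iff₀ (by positivity)]
    refine b1.trans (le_of_eq ?_)
    rw [pow_add]
    field_simp

end Pool.Agent.MP_4168de_an.G

end
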