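import Mathlib

section

/-! Signed sums, bi-infinite words, substitution maps. -/

namespace Pool.Agent.MP_4168de_an

open Finset

section isum
variable {G G' : Type*} [AddCommGroup G] [AddCommGroup G']

/-- Signed sum of `f` from `0` to `n`. -/
noncomputable def isum (f : ℤ → G) (n : ℤ) : G := ∑ i ∈ Ico 0 n, f i - ∑ i ∈ Ico n 0, f i

@[simp] lemma isum_zero (f : ℤ → G) : isum f 0 = 0 := by simp [isum]

lemma isum_succ (f : ℤ → G) (n : ℤ) : isum f (n + 1) = isum f n + f n := by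
  unfold isum
  rcases le_or_gt 0 n with h | h
  · rw [Ico_eq_empty_of_le (a := n + 1) (by omega), Ico_eq_empty_of_le (a := n) h]
    have : Ico 0 (n + 1) = insert n (Ico 0 n) := by
      ext i; simp only [mem_Ico, mem_insert]; omega
    rw [this, sum_insert (by simp)]
    simp [add_comm]
  · rw [Ico_eq_empty_of_le (a := 0) (b := n + 1) (by omega),
      Ico_eq_empty_of_le (a := 0) (b := n) h.le]
    have : Ico n 0 = insert n (Ico (n + 1) 0) := by
      ext i; simp only [mem_Ico, mem_insert]; omega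
    rw [this, sum_insert (by simp)]
    simp

lemma isum_pred (f : ℤ → G) (n : ℤ) : isum f (n - 1) = isum f n - f (n - 1) := by
  have := isum_succ f (n - 1)
  rw [sub_add_cancel] at this
  rw [this]; abel

@[simp] lemma isum_one (f : ℤ → G) : isum f 1 = f 0 := by
  simpa using isum_succ f 0

lemma eq_isum {f F : ℤ → G} (h0 : F 0 = 0) (h : ∀ n, F (n + 1) = F n + f n) (n : ℤ) :
    F n = isum f n := by
  induction n using Int.induction_on with
  | zero => simp [h0]
  | succ n ih => rw [h, ih, isum_succ]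
  | pred n ih =>
    have h1 := h (-(n : ℤ) - 1)
    rw [sub_add_cancel] at h1
    rw [isum_pred, ← ih, h1]; abel

lemma isum_add_index (f : ℤ → G) (m n : ℤ) :
    isum f (m + n) = isum f m + isum (fun i => f (m + i)) n := by
  have := eq_isum (f := fun i => f (m + i)) (F := fun n => isum f (m + n) - isum f m) (by simp)
    (fun n => by rw [← add_assoc, isum_succ]; abel) n
  rw [← this]; abel

lemma map_isum {F : Type*} [FunLike F G G'] [AddMonoidHomClass F G G'] (φ : F) (f : ℤ → G)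
    (n : ℤ) : φ (isum f n) = isum (fun i => φ (f i)) n := by
  simp [isum, map_sub, map_sum]

lemma isum_add (f g : ℤ → G) (n : ℤ) : isum (fun i => f i + g i) n = isum f n + isum g n := by
  simp only [isum, sum_add_distrib]; abel

lemma isum_sub (f g : ℤ → G) (n : ℤ) : isum (fun i => f i - g i) n = isum f n - isum g n := by
  simp only [isum, sum_sub_distrib]; abel

lemma isum_tel (h : ℤ → G) (n : ℤ) : isum (fun i => h (i + 1) - h i) n = h n - h 0 :=
  (eq_isum (F := fun n => h n - h 0) (by simp) (fun n => by abel) n).symm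

lemma isum_congr {f g : ℤ → G} {n : ℤ} (h : ∀ i, min n 0 ≤ i → i < max n 0 → f i = g i) :
    isum f n = isum g n := by
  unfold isum
  congr 1
  · exact sum_congr rfl fun i hi => h i (by have := mem_Ico.1 hi; omega)
      (by have := mem_Ico.1 hi; omega)
  · exact sum_congr rfl fun i hi => h i (by have := mem_Ico.1 hi; omega)
      (by have := mem_Ico.1 hi; omega)

lemma sum_Ico_eq_isum (f : ℤ → G) {m n : ℤ} (h : m ≤ n) :
    ∑ i ∈ Ico m n, f i = isum f n - isum f m := by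
  induction n, h using Int.leInduction with
  | base => simp
  | succ n hn ih =>
    have : Ico m (n + 1) = insert n (Ico m n) := by
      ext i; simp only [mem_Ico, mem_insert]; omega
    rw [this, sum_insert (by simp), ih, isum_succ]; abel

lemma isum_sub_ge {R : Type*} [Ring R] [LinearOrder R] [IsStrictOrderedRing R] {f : ℤ → R} {c : R}
    (hc : ∀ i, c ≤ f i) {m n : ℤ} (h : m ≤ n) : c * ((n : R) - m) ≤ isum f n - isum f m := by
  induction n, h using Int.leInduction with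
  | base => simp
  | succ n hn ih =>
    rw [isum_succ]
    push_cast
    have h1 := add_le_add ih (hc n)
    calc c * ((n : R) + 1 - m) = c * ((n : R) - m) + c := by noncomm_ring
      _ ≤ _ := h1
      _ = _ := by abel

lemma isum_sub_le {f : ℤ → ℝ} {c : ℝ} (hc : ∀ i, f i ≤ c) {m n : ℤ} (h : m ≤ n) :
    isum f n - isum f m ≤ c * ((n : ℝ) - m) := by
  induction n, h using Int.leInduction with
  | base => simp
  | succ n hn ih =>
    rw [isum_succ]
    push_cast
    linarith [hc n]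

lemma abs_isum_sub_le {f : ℤ → ℝ} {c : ℝ} (hc : ∀ i, |f i| ≤ c) (m n : ℤ) :
    |isum f n - isum f m| ≤ c * |(n : ℝ) - m| := by
  wlog h : m ≤ n generalizing m n
  · rw [abs_sub_comm, abs_sub_comm (n : ℝ)]
    exact this n m (by omega)
  have h1 := isum_sub_le (fun i => (abs_le.1 (hc i)).2) h
  have h2 := isum_sub_ge (fun i => (abs_le.1 (hc i)).1) h
  have h3 : (0 : ℝ) ≤ (n : ℝ) - m := by
    have : (m : ℝ) ≤ n := by exact_mod_cast h
    linarith
  rw [abs_of_nonneg h3, abs_le]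
  constructor <;> linarith

lemma isum_strictMono {R : Type*} [Ring R] [LinearOrder R] [IsStrictOrderedRing R] {f : ℤ → R}
    (hf : ∀ i, 0 < f i) : StrictMono (isum f) :=
  strictMono_int_of_lt_succ fun n => by rw [isum_succ]; exact lt_add_of_pos_right _ (hf n)

/-- An increasing sequence with steps at least `c` locates every point. -/
lemma exists_idx {p : ℤ → ℝ} {c : ℝ} (hc : 0 < c) (h : ∀ n, p n + c ≤ p (n + 1)) (t : ℝ) :
    ∃ n, p n ≤ t ∧ t < p (n + 1) := by
  have key : ∀ m n : ℤ, m ≤ n → c * ((n : ℝ) - m) ≤ p n - p m := by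
    intro m n hmn
    have := isum_sub_ge (f := fun i => p (i + 1) - p i) (c := c)
      (fun i => by linarith [h i]) hmn
    rw [isum_tel, isum_tel] at this
    linarith
  obtain ⟨N, hN⟩ := exists_nat_gt (|t - p 0| / c)
  rw [div_lt_iff₀ hc] at hN
  have hb : ∀ z : ℤ, p z ≤ t → z ≤ N := by
    intro z hz
    by_contra hh
    have h1 := key 0 z (by omega)
    have h2 : (N : ℝ) < z := by exact_mod_cast not_le.1 hh
    have h3 := le_abs_self (t - p 0)
    simp only [Int.cast_zero, sub_zero] at h1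
    nlinarith
  have hn : ∃ z : ℤ, p z ≤ t := by
    refine ⟨-N, ?_⟩
    have h1 := key (-N) 0 (by omega)
    have h3 := neg_abs_le (t - p 0)
    simp only [Int.cast_zero, Int.cast_neg, Int.cast_natCast] at h1
    nlinarith
  obtain ⟨n, h1, h2⟩ := Int.exists_greatest_of_bdd ⟨N, hb⟩ hn
  refine ⟨n, h1, ?_⟩
  by_contra h3
  have := h2 (n + 1) (not_lt.1 h3)
  omega

lemma exists_idx_int {p : ℤ → ℤ} (h : ∀ n, p n < p (n + 1)) (t : ℤ) :
    ∃ n, p n ≤ t ∧ t < p (n + 1) := by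
  obtain ⟨n, h1, h2⟩ := exists_idx (p := fun n => (p n : ℝ)) (c := 1) one_pos
    (fun n => by exact_mod_cast h n) t
  exact ⟨n, by exact_mod_cast h1, by exact_mod_cast h2⟩

lemma idx_unique {R : Type*} [LinearOrder R] {p : ℤ → R} (h : StrictMono p) {t : R} {m n : ℤ}
    (h1 : p m ≤ t) (h2 : t < p (m + 1)) (h3 : p n ≤ t) (h4 : t < p (n + 1)) : m = n := by
  have := h.lt_iff_lt.1 (h1.trans_lt h4)
  have := h.lt_iff_lt.1 (h3.trans_lt h2)
  omega

end isum

variable {A : Type}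

/-- The shift. -/
def sh (n : ℤ) (x : ℤ → A) : ℤ → A := fun i => x (i + n)

@[simp] lemma sh_apply (n : ℤ) (x : ℤ → A) (i : ℤ) : sh n x i = x (i + n) := rfl

@[simp] lemma sh_zero (x : ℤ → A) : sh 0 x = x := by ext i; simp

lemma sh_sh (m n : ℤ) (x : ℤ → A) : sh m (sh n x) = sh (n + m) x := by
  ext i; simp only [sh_apply]; congr 1; ring

/-- Left endpoint of the `n`-th tile. -/
noncomputable def pos (ℓ : A → ℝ) (x : ℤ → A) (n : ℤ) : ℝ := isum (fun i => ℓ (x i)) n

@[simp] lemma pos_zero (ℓ : A → ℝ) (x : ℤ → A) : pos ℓ x 0 = 0 := isum_zero _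

lemma pos_succ (ℓ : A → ℝ) (x : ℤ → A) (n : ℤ) : pos ℓ x (n + 1) = pos ℓ x n + ℓ (x n) :=
  isum_succ _ _

lemma pos_add (ℓ : A → ℝ) (x : ℤ → A) (m n : ℤ) :
    pos ℓ x (m + n) = pos ℓ x m + pos ℓ (sh m x) n := by
  simp only [pos, isum_add_index, sh_apply, add_comm]

lemma pos_strictMono {ℓ : A → ℝ} (h : ∀ a, 0 < ℓ a) (x : ℤ → A) : StrictMono (pos ℓ x) :=
  isum_strictMono fun _ => h _

lemma pos_congr (ℓ : A → ℝ) {x y : ℤ → A} {n : ℤ}
    (h : ∀ i, min n 0 ≤ i → i < max n 0 → x i = y i) : pos ℓ x n = pos ℓ y n :=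
  isum_congr fun i h1 h2 => by rw [h i h1 h2]

/-- A substitution acting on bi-infinite words, with expansion `c`. -/
structure RSub (ℓ : A → ℝ) (c : ℝ) where
  S : (ℤ → A) → ℤ → A
  r : (ℤ → A) → ℤ
  r_pos : ∀ x, 1 ≤ r x
  r_loc : ∀ x y, x 0 = y 0 → r x = r y
  loc : ∀ x y, x 0 = y 0 → ∀ j, 0 ≤ j → j < r x → S x j = S y j
  shift : ∀ x, S (sh 1 x) = sh (r x) (S x)
  len : ∀ x, pos ℓ (S x) (r x) = c * ℓ (x 0)

namespace RSub

variable {ℓ : A → ℝ} {c c' : ℝ} (σ : RSub ℓ c)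

/-- Index where the image of the `n`-th letter starts. -/
noncomputable def cc (x : ℤ → A) (n : ℤ) : ℤ := isum (fun i => σ.r (sh i x)) n

@[simp] lemma cc_zero (x : ℤ → A) : σ.cc x 0 = 0 := isum_zero _

lemma cc_succ (x : ℤ → A) (n : ℤ) : σ.cc x (n + 1) = σ.cc x n + σ.r (sh n x) := isum_succ _ _

@[simp] lemma cc_one (x : ℤ → A) : σ.cc x 1 = σ.r x := by simp [cc]

lemma cc_strictMono (x : ℤ → A) : StrictMono (σ.cc x) :=
  isum_strictMono fun i => by have := σ.r_pos (sh i x); omega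

lemma cc_ge {ρ : ℤ} (h : ∀ x, ρ ≤ σ.r x) (x : ℤ → A) {m n : ℤ} (hmn : m ≤ n) :
    ρ * (n - m) ≤ σ.cc x n - σ.cc x m := by
  simpa [cc] using isum_sub_ge (f := fun i => σ.r (sh i x)) (c := ρ) (fun i => h _) hmn

lemma S_sh (x : ℤ → A) (n : ℤ) : σ.S (sh n x) = sh (σ.cc x n) (σ.S x) := by
  induction n using Int.induction_on with
  | zero => simp
  | succ n ih => rw [← sh_sh, σ.shift, ih, sh_sh, cc_succ]
  | pred n ih =>
    have h1 := σ.shift (sh (-(n : ℤ) - 1) x)
    rw [sh_sh, sub_add_cancel, ih] at h1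
    have h2 := σ.cc_succ x (-(n : ℤ) - 1)
    rw [sub_add_cancel] at h2
    have h3 := congrArg (sh (-σ.r (sh (-(n : ℤ) - 1) x))) h1
    rw [sh_sh, sh_sh, add_neg_cancel, sh_zero] at h3
    rw [← h3, h2]
    congr 1
    ring

lemma pos_S (x : ℤ → A) (n : ℤ) : pos ℓ (σ.S x) (σ.cc x n) = c * pos ℓ x n := by
  have h := eq_isum (f := fun i => c * ℓ (x i)) (F := fun n => pos ℓ (σ.S x) (σ.cc x n)) (by simp)
    (fun n => by
      simp only [cc_succ, pos_add, ← S_sh, σ.len, sh_apply, zero_add]) n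
  rw [h, pos]
  exact (map_isum (AddMonoidHom.mulLeft c) _ n).symm

lemma cc_congr {x y : ℤ → A} {n : ℤ} (h : ∀ i, min n 0 ≤ i → i < max n 0 → x i = y i) :
    σ.cc x n = σ.cc y n :=
  isum_congr fun i h1 h2 => σ.r_loc _ _ (by simpa using h i h1 h2)

lemma agree {x y : ℤ → A} {m n : ℤ} (hm : m ≤ 0) (hn : 0 ≤ n)
    (h : ∀ i, m ≤ i → i < n → x i = y i) {j : ℤ} (h1 : σ.cc x m ≤ j) (h2 : j < σ.cc x n) :
    σ.S x j = σ.S y j := by
  obtain ⟨i, h3, h4⟩ := exists_idx_int (fun n => σ.cc_strictMono x (lt_add_one n)) j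
  have h5 : m < i + 1 := (σ.cc_strictMono x).lt_iff_lt.1 (h1.trans_lt h4)
  have h6 : i < n := (σ.cc_strictMono x).lt_iff_lt.1 (h3.trans_lt h2)
  have h7 : σ.cc x i = σ.cc y i := σ.cc_congr fun k a b => h k (by omega) (by omega)
  rw [cc_succ] at h4
  have h8 := σ.loc (sh i x) (sh i y) (by simpa using h i (by omega) h6) (j - σ.cc x i)
    (by omega) (by omega)
  rw [S_sh, S_sh, ← h7] at h8
  simpa using h8

/-- The identity. -/
def one (ℓ : A → ℝ) : RSub ℓ 1 where
  S := id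
  r := fun _ => 1
  r_pos := fun _ => le_rfl
  r_loc := fun _ _ _ => rfl
  loc := fun x y h j h1 h2 => by
    have : j = 0 := by omega
    simpa [this] using h
  shift := fun _ => rfl
  len := fun x => by simp [pos]

/-- Composition. -/
noncomputable def comp (σ' : RSub ℓ c') : RSub ℓ (c * c') where
  S := σ.S ∘ σ'.S
  r := fun x => σ.cc (σ'.S x) (σ'.r x)
  r_pos := fun x => by
    have h1 := σ.cc_ge σ.r_pos (σ'.S x) (m := 0) (n := σ'.r x) (by have := σ'.r_pos x; omega)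
    have := σ'.r_pos x
    simp only [cc_zero] at h1
    omega
  r_loc := fun x y h => by
    rw [← σ'.r_loc x y h]
    have := σ'.r_pos x
    exact σ.cc_congr fun i h1 h2 => σ'.loc x y h i (by omega) (by omega)
  loc := fun x y h j h1 h2 => by
    have := σ'.r_pos x
    exact σ.agree (m := 0) (n := σ'.r x) le_rfl (by omega) (σ'.loc x y h) (by simpa using h1) h2
  shift := fun x => by simp only [Function.comp_apply, σ'.shift, S_sh]
  len := fun x => by simp only [Function.comp_apply, pos_S, σ'.len, mul_assoc]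

/-- Change of the name of the expansion. -/
def cast (h : c = c') : RSub ℓ c' where
  S := σ.S
  r := σ.r
  r_pos := σ.r_pos
  r_loc := σ.r_loc
  loc := σ.loc
  shift := σ.shift
  len := h ▸ σ.len

/-- Powers. -/
noncomputable def pow : (k : ℕ) → RSub ℓ (c ^ k)
  | 0 => (one ℓ).cast (pow_zero c).symm
  | k + 1 => (σ.comp (pow k)).cast (pow_succ' c k).symm

lemma pow_S (k : ℕ) : (σ.pow k).S = σ.S^[k] := by
  induction k with
  | zero => rfl
  | succ k ih =>
    rw [Function.iterate_succ']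
    change σ.S ∘ (σ.pow k).S = _
    rw [ih]

lemma pow_r_succ (k : ℕ) (x : ℤ → A) :
    (σ.pow (k + 1)).r x = σ.cc ((σ.pow k).S x) ((σ.pow k).r x) := rfl

/-- The lengths of the images grow geometrically. -/
lemma r_ge {l₀ l₁ : ℝ} (hc : 0 ≤ c) (h0 : ∀ a, l₀ ≤ ℓ a) (h1 : ∀ a, ℓ a ≤ l₁) (x : ℤ → A) :
    c * l₀ ≤ l₁ * σ.r x := by
  have h2 := isum_sub_le (f := fun i => ℓ (σ.S x i)) (fun i => h1 _) (m := 0) (n := σ.r x)
    (by have := σ.r_pos x; omega)
  have h3 := σ.len x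
  simp only [isum_zero, sub_zero, Int.cast_zero] at h2
  calc c * l₀ ≤ c * ℓ (x 0) := mul_le_mul_of_nonneg_left (h0 _) hc
    _ = _ := h3.symm
    _ ≤ _ := h2

end RSub

end Pool.Agent.MP_4168de_an

end

section

/-! Minimal subshifts, Birkhoff sums, locally constant functions. -/

namespace Pool.Agent.MP_4168de_an

open Set Filter Topology

/-- A minimal subshift. -/
structure Shift (A : Type) [TopologicalSpace A] where
  X : Set (ℤ → A)
  closed : IsClosed X
  inv : ∀ n, ∀ x ∈ X, sh n x ∈ X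
  ne : X.Nonempty
  min : ∀ x ∈ X, ∀ y ∈ X, ∀ R : ℕ, ∃ n, ∀ i : ℤ, |i| ≤ R → x (i + n) = y i

variable {A : Type} [TopologicalSpace A]

lemma continuous_sh (n : ℤ) : Continuous (sh n : (ℤ → A) → ℤ → A) :=
  continuous_pi fun _ => continuous_apply _

lemma exists_win_of_nhds {x : ℤ → A} {s : Set (ℤ → A)} (hs : s ∈ 𝓝 x) :
    ∃ R : ℕ, ∀ y : ℤ → A, (∀ i : ℤ, |i| ≤ R → y i = x i) → y ∈ s := by
  rw [nhds_pi, Filter.mem_pi] at hs
  obtain ⟨I, hI, t, ht, hs⟩ := hs
  obtain ⟨R, hR⟩ := (hI.image Int.natAbs).bddAbove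
  refine ⟨R, fun y hy => hs fun i hi => ?_⟩
  have h1 : i.natAbs ≤ R := hR ⟨i, hi, rfl⟩
  rw [hy i (by rw [Int.abs_eq_natAbs]; exact_mod_cast h1)]
  exact mem_of_mem_nhds (ht i)

lemma win_nhds [DiscreteTopology A] (x : ℤ → A) (R : ℕ) :
    ∀ᶠ y in 𝓝 x, ∀ i : ℤ, |i| ≤ R → y i = x i := by
  have h : ∀ᶠ y in 𝓝 x, ∀ i ∈ Set.Icc (-(R : ℤ)) R, y i = x i := by
    rw [Filter.eventually_all_finite (Set.finite_Icc _ _)]
    intro i _
    exact ((continuous_apply i).tendsto x).eventually (p := fun a => a = x i)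
      (by simp [nhds_discrete])
  exact h.mono fun y hy i hi => hy i (abs_le.1 hi)

namespace Shift

variable (D : Shift A)

instance [Finite A] [DiscreteTopology A] : CompactSpace D.X :=
  isCompact_iff_compactSpace.1 D.closed.isCompact

instance : Nonempty D.X := D.ne.to_subtype

/-- The shift on the subshift. -/
def τ (n : ℤ) (x : D.X) : D.X := ⟨sh n x.1, D.inv n _ x.2⟩

@[simp] lemma τ_val (n : ℤ) (x : D.X) : (D.τ n x).1 = sh n x.1 := rfl

@[simp] lemma τ_zero (x : D.X) : D.τ 0 x = x := Subtype.ext (sh_zero _)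

lemma τ_τ (m n : ℤ) (x : D.X) : D.τ m (D.τ n x) = D.τ (n + m) x := Subtype.ext (sh_sh _ _ _)

@[fun_prop] lemma continuous_τ (n : ℤ) : Continuous (D.τ n) :=
  ((continuous_sh n).comp continuous_subtype_val).subtype_mk _

variable {D}

section bs
variable {G G' : Type*} [AddCommGroup G] [AddCommGroup G']

/-- Birkhoff sums. -/
noncomputable def bs (g : D.X → G) (x : D.X) (n : ℤ) : G := isum (fun i => g (D.τ i x)) n

@[simp] lemma bs_zero (g : D.X → G) (x : D.X) : bs g x 0 = 0 := isum_zero _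

@[simp] lemma bs_one (g : D.X → G) (x : D.X) : bs g x 1 = g x := by simp [bs]

lemma bs_succ (g : D.X → G) (x : D.X) (n : ℤ) : bs g x (n + 1) = bs g x n + g (D.τ n x) :=
  isum_succ _ _

lemma bs_add_index (g : D.X → G) (x : D.X) (m n : ℤ) :
    bs g x (m + n) = bs g x m + bs g (D.τ m x) n := by
  simp only [bs, isum_add_index, τ_τ]

lemma map_bs {F : Type*} [FunLike F G G'] [AddMonoidHomClass F G G'] (φ : F) (g : D.X → G)
    (x : D.X) (n : ℤ) : φ (bs g x n) = bs (fun y => φ (g y)) x n := map_isum _ _ _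

lemma bs_add (f g : D.X → G) (x : D.X) (n : ℤ) :
    bs (fun y => f y + g y) x n = bs f x n + bs g x n := isum_add _ _ _

lemma bs_sub (f g : D.X → G) (x : D.X) (n : ℤ) :
    bs (fun y => f y - g y) x n = bs f x n - bs g x n := isum_sub _ _ _

lemma bs_tel (h : D.X → G) (x : D.X) (n : ℤ) :
    bs (fun y => h (D.τ 1 y) - h y) x n = h (D.τ n x) - h x := by
  have := isum_tel (fun i => h (D.τ i x)) n
  simpa [bs, τ_τ] using this

lemma bs_of_eq {g h : D.X → G} (e : ∀ y, h (D.τ 1 y) = h y + g y) (x : D.X) (n : ℤ) :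
    h (D.τ n x) = h x + bs g x n := by
  have : g = fun y => h (D.τ 1 y) - h y := by ext y; rw [e]; abel
  rw [this, bs_tel]; abel

lemma bs_len (ℓ : A → ℝ) (x : D.X) (n : ℤ) : bs (fun y => ℓ (y.1 0)) x n = pos ℓ x.1 n := by
  simp [bs, pos]

lemma continuous_bs [TopologicalSpace G] [IsTopologicalAddGroup G] {g : D.X → G}
    (hg : Continuous g) (n : ℤ) : Continuous fun x => bs g x n := by
  unfold bs isum
  fun_prop

lemma lc_bs {g : D.X → G} (hg : IsLocallyConstant g) (n : ℤ) :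
    IsLocallyConstant fun x => bs g x n := by
  let : TopologicalSpace G := ⊥
  have : DiscreteTopology G := ⟨rfl⟩
  exact (IsLocallyConstant.iff_continuous _).2 (continuous_bs hg.continuous n)

end bs

section top
variable [DiscreteTopology A]

lemma win_nhds' (x : D.X) (R : ℕ) : ∀ᶠ y : D.X in 𝓝 x, ∀ i : ℤ, |i| ≤ R → y.1 i = x.1 i :=
  (continuous_subtype_val.tendsto x).eventually (win_nhds x.1 R)

omit [DiscreteTopology A] in
lemma exists_win {x : D.X} {s : Set D.X} (hs : s ∈ 𝓝 x) :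
    ∃ R : ℕ, ∀ y : D.X, (∀ i : ℤ, |i| ≤ R → y.1 i = x.1 i) → y ∈ s := by
  obtain ⟨t, ht, hs⟩ := (mem_nhds_subtype _ _ _).1 hs
  obtain ⟨R, hR⟩ := exists_win_of_nhds ht
  exact ⟨R, fun y hy => hs (hR _ hy)⟩

lemma lc_of_win {G : Type*} {g : D.X → G} {R : ℕ}
    (h : ∀ x y : D.X, (∀ i : ℤ, |i| ≤ R → x.1 i = y.1 i) → g x = g y) : IsLocallyConstant g :=
  (IsLocallyConstant.iff_eventually_eq _).2 fun x => (win_nhds' x R).mono fun y hy => h y x hy

lemma lc_letter (i : ℤ) : IsLocallyConstant fun x : D.X => x.1 i :=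
  lc_of_win (R := i.natAbs) fun _ _ h => h i (by rw [Int.abs_eq_natAbs])

lemma win_of_lc [Finite A] {G : Type*} {g : D.X → G} (hg : IsLocallyConstant g) :
    ∃ R : ℕ, ∀ x y : D.X, (∀ i : ℤ, |i| ≤ R → x.1 i = y.1 i) → g x = g y := by
  have h1 : ∀ x : D.X, ∃ R : ℕ, ∀ y : D.X, (∀ i : ℤ, |i| ≤ R → y.1 i = x.1 i) → g y = g x :=
    fun x => exists_win (hg.eventually_eq x)
  choose R hR using h1
  obtain ⟨t, ht⟩ := CompactSpace.elim_nhds_subcover
    (fun x : D.X => {y : D.X | ∀ i : ℤ, |i| ≤ R x → y.1 i = x.1 i}) fun x => win_nhds' x (R x)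
  refine ⟨t.sup R, fun x y h => ?_⟩
  have hx : x ∈ (⊤ : Set D.X) := trivial
  rw [← ht] at hx
  simp only [mem_iUnion, mem_ofPred_eq] at hx
  obtain ⟨z, hz, hx⟩ := hx
  have h2 : (R z : ℤ) ≤ (t.sup R : ℕ) := by exact_mod_cast Finset.le_sup hz
  rw [hR z x hx, hR z y fun i hi => (h i (hi.trans h2)).symm.trans (hx i hi)]

omit [DiscreteTopology A] in
lemma eq_univ_of_closed {s : Set D.X} (hs : IsClosed s) {x : D.X} (h : ∀ n, D.τ n x ∈ s) :
    s = univ := by
  rw [eq_univ_iff_forall]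
  intro y
  by_contra hy
  obtain ⟨R, hR⟩ := exists_win (hs.isOpen_compl.mem_nhds hy)
  obtain ⟨n, hn⟩ := D.min x.1 x.2 y.1 y.2 R
  exact hR (D.τ n x) hn (h n)

omit [DiscreteTopology A] in
lemma inv_τ {G : Type*} {f : D.X → G} (h : ∀ x, f (D.τ 1 x) = f x) (n : ℤ) (x : D.X) :
    f (D.τ n x) = f x := by
  induction n using Int.induction_on with
  | zero => simp
  | succ n ih => rw [← τ_τ, h, ih]
  | pred n ih => rw [← h, τ_τ, sub_add_cancel, ih]

omit [DiscreteTopology A] in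
lemma const_of_continuous {G : Type*} [TopologicalSpace G] [T1Space G] {f : D.X → G}
    (hf : Continuous f) (h : ∀ x, f (D.τ 1 x) = f x) (x y : D.X) : f y = f x := by
  have := eq_univ_of_closed (s := f ⁻¹' {f x}) (isClosed_singleton.preimage hf) (x := x)
    fun n => inv_τ h n x
  exact (this.symm ▸ mem_univ y : y ∈ f ⁻¹' {f x})

omit [DiscreteTopology A] in
lemma const_of_lc {G : Type*} {f : D.X → G} (hf : IsLocallyConstant f)
    (h : ∀ x, f (D.τ 1 x) = f x) (x y : D.X) : f y = f x := by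
  let : TopologicalSpace G := ⊥
  have : DiscreteTopology G := ⟨rfl⟩
  exact const_of_continuous hf.continuous h x y

omit [DiscreteTopology A] in
lemma const_of_lsc {f : D.X → ℝ} (hf : LowerSemicontinuous f) (h : ∀ x, f (D.τ 1 x) = f x)
    (x y : D.X) : f y = f x := by
  have key : ∀ x y, f y ≤ f x := by
    intro x y
    have := eq_univ_of_closed (s := f ⁻¹' Iic (f x)) (hf.isClosed_preimage _) (x := x)
      fun n => (inv_τ h n x).le
    exact (this.symm ▸ mem_univ y : y ∈ f ⁻¹' Iic (f x))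
  exact le_antisymm (key x y) (key y x)

omit [DiscreteTopology A] in
/-- Gottschalk-Hedlund. -/
lemma gottschalk {ψ : D.X → ℝ} (hψ : Continuous ψ) {K : ℝ} (hK : ∀ x n, |bs ψ x n| ≤ K) :
    ∃ M : D.X → ℝ, Continuous M ∧ ∀ x, M (D.τ 1 x) + ψ x = M x := by
  have hb : ∀ x, BddAbove (range (bs ψ x)) := fun x =>
    ⟨K, by rintro _ ⟨n, rfl⟩; exact (abs_le.1 (hK x n)).2⟩
  have hb' : ∀ x, BddAbove (range fun n => -bs ψ x n) := fun x =>
    ⟨K, by rintro _ ⟨n, rfl⟩; linarith [(abs_le.1 (hK x n)).1]⟩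
  have step : ∀ φ : D.X → ℝ, (∀ x, BddAbove (range (bs φ x))) →
      ∀ x, (⨆ n, bs φ (D.τ 1 x) n) + φ x = ⨆ n, bs φ x n := by
    intro φ hφ x
    have e : ∀ n, bs φ x (1 + n) = φ x + bs φ (D.τ 1 x) n := fun n => by
      rw [bs_add_index, bs_one]
    apply le_antisymm
    · rw [← le_sub_iff_add_le]
      refine ciSup_le fun n => ?_
      linarith [le_ciSup (hφ x) (1 + n), e n]
    · refine ciSup_le fun n => ?_
      have h1 := e (n - 1)
      rw [add_sub_cancel] at h1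
      linarith [le_ciSup (hφ (D.τ 1 x)) (n - 1)]
  have neg : ∀ x n, bs (fun y => -ψ y) x n = -bs ψ x n := fun x n =>
    (map_bs (negAddMonoidHom : ℝ →+ ℝ) ψ x n).symm
  have hb'' : ∀ x, BddAbove (range (bs (fun y => -ψ y) x)) := fun x => by
    have : bs (fun y => -ψ y) x = fun n => -bs ψ x n := funext (neg x)
    rw [this]; exact hb' x
  let M : D.X → ℝ := fun x => ⨆ n, bs ψ x n
  let M' : D.X → ℝ := fun x => ⨆ n, bs (fun y => -ψ y) x n
  have l1 : LowerSemicontinuous M :=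
    lowerSemicontinuous_ciSup hb fun n => (continuous_bs hψ n).lowerSemicontinuous
  have l2 : LowerSemicontinuous M' :=
    lowerSemicontinuous_ciSup hb'' fun n => (continuous_bs hψ.neg n).lowerSemicontinuous
  obtain ⟨x₀⟩ : Nonempty D.X := inferInstance
  have hc : ∀ y, M y + M' y = M x₀ + M' x₀ := const_of_lsc (l1.add l2) (fun x => by
    have h1 := step ψ hb x
    have h2 := step _ hb'' x
    simp only [M, M']
    linarith) x₀
  refine ⟨M, ?_, step ψ hb⟩
  rw [continuous_iff_lower_upperSemicontinuous]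
  refine ⟨l1, fun x t ht => ?_⟩
  have h1 : M x₀ + M' x₀ - t < M' x := by linarith [hc x]
  filter_upwards [l2 x _ h1] with y hy
  linarith [hc y]

end top

end Shift

/-- A substitution map preserving a subshift, every point being a shift of an image. -/
structure DSub (D : Shift A) (ℓ : A → ℝ) (c : ℝ) extends RSub ℓ c where
  maps : ∀ x ∈ D.X, S x ∈ D.X
  surj : ∀ x ∈ D.X, ∃ y ∈ D.X, ∃ n, x = sh n (S y)

namespace DSub

open Shift

variable {D : Shift A} {ℓ : A → ℝ} {c : ℝ} (σ : DSub D ℓ c)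

/-- The map on the subshift. -/
def T (x : D.X) : D.X := ⟨σ.S x.1, σ.maps _ x.2⟩

@[simp] lemma T_val (x : D.X) : (σ.T x).1 = σ.S x.1 := rfl

lemma T_τ (x : D.X) (n : ℤ) : σ.T (D.τ n x) = D.τ (σ.cc x.1 n) (σ.T x) :=
  Subtype.ext (σ.S_sh _ _)

lemma surj' (x : D.X) : ∃ y n, x = D.τ n (σ.T y) := by
  obtain ⟨y, hy, n, h⟩ := σ.surj x.1 x.2
  exact ⟨⟨y, hy⟩, n, Subtype.ext h⟩

/-- Powers. -/
noncomputable def pow (k : ℕ) : DSub D ℓ (c ^ k) where
  toRSub := σ.toRSub.pow k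
  maps := by
    rw [RSub.pow_S]
    exact MapsTo.iterate σ.maps k
  surj := by
    rw [RSub.pow_S]
    induction k with
    | zero => exact fun x hx => ⟨x, hx, 0, by simp⟩
    | succ k ih =>
      intro x hx
      obtain ⟨y, hy, n, rfl⟩ := σ.surj x hx
      obtain ⟨z, hz, m, rfl⟩ := ih y hy
      refine ⟨z, hz, σ.cc (σ.S^[k] z) m + n, ?_⟩
      rw [σ.S_sh, sh_sh, Function.iterate_succ_apply']

lemma pow_T (k : ℕ) (x : D.X) : (σ.pow k).T x = σ.T^[k] x := by
  apply Subtype.ext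
  change (σ.toRSub.pow k).S x.1 = _
  rw [RSub.pow_S]
  induction k with
  | zero => rfl
  | succ k ih => rw [Function.iterate_succ_apply', Function.iterate_succ_apply', ih]; rfl

lemma continuous_T [DiscreteTopology A] : Continuous σ.T := by
  refine Continuous.subtype_mk (continuous_pi fun j => ?_) _
  refine IsLocallyConstant.continuous (lc_of_win (R := j.natAbs + 1) fun x y h => ?_)
  have h1 := σ.cc_ge σ.r_pos x.1 (m := 0) (n := j.natAbs + 1) (by omega)
  have h2 := σ.cc_ge σ.r_pos x.1 (m := -(j.natAbs + 1)) (n := 0) (by omega)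
  simp only [RSub.cc_zero] at h1 h2
  exact σ.agree (m := -(j.natAbs + 1)) (n := j.natAbs + 1) (by omega) (by omega)
    (fun i a b => h i (by rw [abs_le, Nat.cast_succ]; omega)) (by omega) (by omega)

section star
variable {G G' : Type*} [AddCommGroup G] [AddCommGroup G']

/-- The transfer of a function under the substitution. -/
noncomputable def star (g : D.X → G) (x : D.X) : G := bs g (σ.T x) (σ.r x.1)

lemma bs_star (g : D.X → G) (x : D.X) (n : ℤ) :
    bs (σ.star g) x n = bs g (σ.T x) (σ.cc x.1 n) := by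
  symm
  refine eq_isum (F := fun n => bs g (σ.T x) (σ.cc x.1 n)) (by simp) (fun n => ?_) n
  simp only [RSub.cc_succ, bs_add_index, star, T_τ, τ_val]

lemma map_star {F : Type*} [FunLike F G G'] [AddMonoidHomClass F G G'] (φ : F) (g : D.X → G)
    (x : D.X) : φ (σ.star g x) = σ.star (fun y => φ (g y)) x := map_bs _ _ _ _

lemma star_add (f g : D.X → G) (x : D.X) :
    σ.star (fun y => f y + g y) x = σ.star f x + σ.star g x := bs_add _ _ _ _

lemma star_tel (h : D.X → G) (x : D.X) :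
    σ.star (fun y => h (D.τ 1 y) - h y) x = h (σ.T (D.τ 1 x)) - h (σ.T x) := by
  rw [star, bs_tel, T_τ, RSub.cc_one]

lemma star_len (x : D.X) : σ.star (fun y => ℓ (y.1 0)) x = c * ℓ (x.1 0) := by
  rw [star, bs_len, T_val, σ.len]

lemma lc_star [DiscreteTopology A] {g : D.X → G} (hg : IsLocallyConstant g) :
    IsLocallyConstant (σ.star g) := by
  rw [IsLocallyConstant.iff_eventually_eq]
  intro x
  filter_upwards [(lc_letter (D := D) 0).eventually_eq x,
    ((lc_bs hg (σ.r x.1)).comp_continuous σ.continuous_T).eventually_eq x] with y h1 h2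
  rw [star, σ.r_loc _ _ h1]
  exact h2

lemma star_pow_succ (k : ℕ) (g : D.X → G) :
    (σ.pow (k + 1)).star g = (σ.pow k).star (σ.star g) := by
  ext x
  rw [star, star, bs_star, pow_T, pow_T, Function.iterate_succ_apply']
  congr 1
  change (σ.toRSub.pow (k + 1)).r x.1 = _
  rw [RSub.pow_r_succ, ← pow_T]
  rfl

lemma star_pow_zero (g : D.X → G) : (σ.pow 0).star g = g := by
  ext x
  rw [star, pow_T]
  exact bs_one g x

end star

end DSub

end Pool.Agent.MP_4168de_an

end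

section

/-! The group of locally constant integer functions modulo coboundaries is free of rank two. -/

namespace Pool.Agent.MP_4168de_an

open Set Filter Topology Shift

variable {A : Type} [TopologicalSpace A] {D : Shift A}

/-- Coboundary of a locally constant function. -/
def Cob {G : Type*} [AddCommGroup G] (g : D.X → G) : Prop :=
  ∃ h : D.X → G, IsLocallyConstant h ∧ ∀ x, g x = h (D.τ 1 x) - h x

lemma Cob.map {G G' F : Type*} [AddCommGroup G] [AddCommGroup G'] [FunLike F G G']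
    [AddMonoidHomClass F G G'] (φ : F) {g : D.X → G} (h : Cob g) : Cob fun x => φ (g x) := by
  obtain ⟨h, h1, h2⟩ := h
  exact ⟨fun x => φ (h x), h1.comp φ, fun x => by simp only [h2, map_sub]⟩

lemma Cob.add {G : Type*} [AddCommGroup G] {f g : D.X → G} (hf : Cob f) (hg : Cob g) :
    Cob fun x => f x + g x := by
  obtain ⟨h, h1, h2⟩ := hf
  obtain ⟨k, k1, k2⟩ := hg
  exact ⟨h + k, h1.add k1, fun x => by simp only [h2, k2, Pi.add_apply]; abel⟩

lemma cob_zero {G : Type*} [AddCommGroup G] : Cob fun _ : D.X => (0 : G) :=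
  ⟨fun _ => 0, IsLocallyConstant.const 0, fun _ => by simp⟩

lemma Cob.congr {G : Type*} [AddCommGroup G] {f g : D.X → G} (hf : Cob f) (e : ∀ x, g x = f x) :
    Cob g := by
  rw [funext e]; exact hf

lemma cob_sum {G ι : Type*} [AddCommGroup G] (s : Finset ι) {f : ι → D.X → G}
    (hf : ∀ i ∈ s, Cob (f i)) : Cob fun x => ∑ i ∈ s, f i x := by
  classical
  induction s using Finset.induction_on with
  | empty => simpa using cob_zero
  | insert i s hi ih =>
    simp only [Finset.sum_insert hi]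
    exact (hf i (by simp)).add (ih fun j hj => hf j (by simp [hj]))

lemma cob_of_rat {g : D.X → ℤ} (h : Cob fun x => (g x : ℚ)) : Cob g := by
  obtain ⟨h, h1, h2⟩ := h
  have h3 : ∀ x, h (D.τ 1 x) = h x + g x := fun x => by linear_combination -h2 x
  refine ⟨fun x => ⌊h x⌋, h1.comp _, fun x => ?_⟩
  simp only [h3, Int.floor_add_intCast]
  ring

lemma Cob.of_mul {g : D.X → ℤ} {k : ℤ} (hk : k ≠ 0) (h : Cob fun x => k * g x) : Cob g := by
  apply cob_of_rat
  have hk' : (k : ℚ) ≠ 0 := by exact_mod_cast hk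
  refine ((h.map (Int.castAddHom ℚ)).map (AddMonoidHom.mulLeft (k : ℚ)⁻¹)).congr fun x => ?_
  simp [hk']

lemma Cob.star [DiscreteTopology A] {ℓ : A → ℝ} {c : ℝ} (σ : DSub D ℓ c) {G : Type*}
    [AddCommGroup G] {g : D.X → G} (h : Cob g) : Cob (σ.star g) := by
  obtain ⟨h, h1, h2⟩ := h
  refine ⟨fun x => h (σ.T x), h1.comp_continuous σ.continuous_T, fun x => ?_⟩
  rw [funext h2, σ.star_tel]

lemma not_cob_len [DiscreteTopology A] [Finite A] {ℓ : A → ℝ} (hℓ : ∀ a, 0 < ℓ a) :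
    ¬ Cob fun x : D.X => ℓ (x.1 0) := by
  rintro ⟨h, h1, h2⟩
  obtain ⟨x, -, hx⟩ := isCompact_univ.exists_isMaxOn univ_nonempty h1.continuous.continuousOn
  have h3 : h (D.τ 1 x) ≤ h x := hx (mem_univ _)
  linarith [h2 x, hℓ (x.1 0)]

lemma irrational_of_quad {c : ℝ} {t N : ℤ} (hc : 1 < c) (hq : c ^ 2 - t * c + N = 0)
    (hN : N = 1 ∨ N = -1) : Irrational c := by
  rintro ⟨q, rfl⟩
  have h1 : q ^ 2 - t * q + N = 0 := by exact_mod_cast hq
  have h2 : IsIntegral ℤ q := by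
    refine ⟨Polynomial.X ^ 2 - Polynomial.C t * Polynomial.X + Polynomial.C N, by monicity!, ?_⟩
    simpa [-eq_intCast, -map_intCast] using h1
  obtain ⟨n, rfl⟩ := IsIntegrallyClosed.isIntegral_iff.1 h2
  have h3 : n ^ 2 - t * n + N = 0 := by
    have : ((n ^ 2 - t * n + N : ℤ) : ℚ) = 0 := by simpa using h1
    exact_mod_cast this
  have h4 : 1 < n := by
    have : ((1 : ℤ) : ℝ) < (n : ℝ) := by simpa using hc
    exact_mod_cast this
  have h5 : n ∣ N := ⟨t - n, by linarith⟩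
  have h6 : n ∣ 1 := by
    rcases hN with rfl | rfl
    · exact h5
    · exact (dvd_neg.1 h5)
  have := Int.le_of_dvd one_pos h6
  omega

lemma no_int_root {c : ℝ} {t N : ℤ} (hi : Irrational c) (hq : c ^ 2 - t * c + N = 0) {a b : ℤ}
    (hb : b ≠ 0) : a ^ 2 - t * a * b + N * b ^ 2 ≠ 0 := by
  intro h
  have hb' : (b : ℝ) ≠ 0 := by exact_mod_cast hb
  have h1 : (a : ℝ) ^ 2 - t * a * b + N * b ^ 2 = 0 := by exact_mod_cast h
  have h2 : ((a : ℝ) - c * b) * (a - (t - c) * b) = 0 := by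
    linear_combination h1 - (b : ℝ) ^ 2 * hq
  rcases mul_eq_zero.1 h2 with h3 | h3
  · exact hi ⟨a / b, by push_cast; field_simp; linarith⟩
  · exact hi ⟨t - a / b, by push_cast; field_simp; linarith⟩

/-- Coboundaries as a submodule. -/
def cobS (D : Shift A) : Submodule ℤ (D.X → ℤ) where
  carrier := {g | Cob g}
  add_mem' := Cob.add
  zero_mem' := cob_zero
  smul_mem' := fun k _ h => h.map (AddMonoidHom.mulLeft k)

/-- Locally constant functions as a submodule. -/
def lcS (D : Shift A) : Submodule ℤ (D.X → ℤ) where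
  carrier := {g | IsLocallyConstant g}
  add_mem' := fun a b => IsLocallyConstant.add a b
  zero_mem' := IsLocallyConstant.const 0
  smul_mem' := fun k _ h => h.comp (k * ·)

/-- Hypothesis on the rank. -/
def RankLe (D : Shift A) : Prop :=
  ∀ g : Fin 3 → D.X → ℚ, (∀ i, IsLocallyConstant (g i)) →
    ∃ q : Fin 3 → ℚ, q ≠ 0 ∧ Cob fun x => ∑ i, q i * g i x

lemma RankLe.int (h : RankLe D) (g : Fin 3 → D.X → ℤ) (hg : ∀ i, IsLocallyConstant (g i)) :
    ∃ n : Fin 3 → ℤ, n ≠ 0 ∧ Cob fun x => ∑ i, n i * g i x := by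
  obtain ⟨q, hq, hc⟩ := h (fun i x => g i x) fun i => (hg i).comp _
  obtain ⟨⟨d, hd⟩, hd'⟩ := IsLocalization.exist_integer_multiples_of_finite (nonZeroDivisors ℤ) q
  choose n hn using hd'
  have hn' : ∀ i, (n i : ℚ) = d * q i := fun i => by simpa using hn i
  have hd0 : (d : ℚ) ≠ 0 := by exact_mod_cast nonZeroDivisors.ne_zero hd
  refine ⟨n, fun h0 => hq (funext fun i => ?_), cob_of_rat ?_⟩
  · have := hn' i
    rw [h0] at this
    simpa [hd0] using this
  · refine (hc.map (AddMonoidHom.mulLeft (d : ℚ))).congr fun x => ?_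
    simp [hn', mul_assoc]

variable [DiscreteTopology A] [Finite A] {ℓ : A → ℝ} {c : ℝ}

lemma exists_noncob (hℓ : ∀ a, 0 < ℓ a) (σ : DSub D ℓ c) {t N : ℤ}
    (hq : c ^ 2 - t * c + N = 0) : ∃ g : D.X → ℤ, IsLocallyConstant g ∧ ¬ Cob g ∧
      ∀ x, σ.star (σ.star g) x - t * σ.star g x + N * g x = 0 := by
  classical
  let b := Module.Basis.ofVectorSpace ℚ ℝ
  have h1 : ∃ j, ¬ Cob fun x : D.X => b.coord j (ℓ (x.1 0)) := by
    by_contra hh
    push Not at hh
    apply not_cob_len (D := D) hℓ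
    have := Fintype.ofFinite A
    let s := Finset.univ.biUnion fun a => (b.repr (ℓ a)).support
    refine (cob_sum s fun j _ => (hh j).map
      ((LinearMap.toSpanSingleton ℚ ℝ (b j)).toAddMonoidHom)).congr fun x => ?_
    have h2 := b.linearCombination_repr (ℓ (x.1 0))
    rw [Finsupp.linearCombination_apply, Finsupp.sum_of_support_subset _
      (Finset.subset_biUnion_of_mem (fun a => (b.repr (ℓ a)).support) (Finset.mem_univ (x.1 0)))
      _ (by simp)] at h2
    simpa using h2.symm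
  obtain ⟨j, hj⟩ := h1
  obtain ⟨⟨d, hd⟩, hd'⟩ := IsLocalization.exist_integer_multiples_of_finite (nonZeroDivisors ℤ)
    fun a => b.coord j (ℓ a)
  choose n hn using hd'
  have hd0 : (d : ℚ) ≠ 0 := by exact_mod_cast nonZeroDivisors.ne_zero hd
  let φ : ℝ →ₗ[ℚ] ℚ := (d : ℚ) • b.coord j
  have hn' : ∀ a, (n a : ℚ) = φ (ℓ a) := fun a => by simpa [φ] using hn a
  refine ⟨fun x => n (x.1 0), (lc_letter 0).comp n, fun h => hj ?_, fun x => ?_⟩
  · refine ((h.map (Int.castAddHom ℚ)).map (AddMonoidHom.mulLeft (d : ℚ)⁻¹)).congr fun x => ?_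
    simp [hn', φ, hd0]
  · have e1 : ∀ y, ((σ.star (fun x => n (x.1 0)) y : ℤ) : ℚ) = φ (c * ℓ (y.1 0)) := fun y => by
      rw [← σ.star_len, σ.map_star φ]
      refine (σ.map_star (Int.castAddHom ℚ) _ y).trans ?_
      simp [hn']
    have e2 : ((σ.star (σ.star fun x => n (x.1 0)) x : ℤ) : ℚ) = φ (c * (c * ℓ (x.1 0))) := by
      refine (σ.map_star (Int.castAddHom ℚ) _ x).trans ?_
      rw [← σ.star_len]
      refine Eq.trans ?_ (σ.map_star (φ.toAddMonoidHom.comp (AddMonoidHom.mulLeft c)) _ x).symm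
      simp [e1]
    have e3 : φ (c * (c * ℓ (x.1 0))) - t * φ (c * ℓ (x.1 0)) + N * φ (ℓ (x.1 0)) = 0 := by
      rw [← zsmul_eq_mul, ← zsmul_eq_mul, ← map_zsmul, ← map_zsmul, ← map_sub, ← map_add,
        zsmul_eq_mul, zsmul_eq_mul]
      have : c * (c * ℓ (x.1 0)) - t * (c * ℓ (x.1 0)) + N * ℓ (x.1 0) = 0 := by
        linear_combination ℓ (x.1 0) * hq
      rw [this, map_zero]
    rw [← e1, ← e2, ← hn'] at e3
    exact_mod_cast e3

omit [DiscreteTopology A] [Finite A] in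
lemma pow_r_ge (σ : DSub D ℓ c) (hr : ∀ x, 2 ≤ σ.r x) (k : ℕ) (x : ℤ → A) :
    2 ^ k ≤ (σ.pow k).r x := by
  induction k with
  | zero => exact (σ.pow 0).r_pos x
  | succ k ih =>
    change 2 ^ (k + 1) ≤ (σ.toRSub.pow (k + 1)).r x
    have h0 := (σ.toRSub.pow k).r_pos x
    have h1 := σ.cc_ge hr ((σ.toRSub.pow k).S x) (m := 0) (n := (σ.toRSub.pow k).r x) (by omega)
    change 2 ^ k ≤ (σ.toRSub.pow k).r x at ih
    rw [RSub.pow_r_succ, pow_succ]
    simp only [RSub.cc_zero] at h1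
    omega

omit [DiscreteTopology A] [Finite A] in
lemma star_three (σ : DSub D ℓ c) {G : Type*} [AddCommGroup G] {g : D.X → G} {R : ℕ}
    (hR : ∀ x, (R : ℤ) ≤ σ.r x)
    (hg : ∀ x y : D.X, (∀ i : ℤ, |i| ≤ R → x.1 i = y.1 i) → g x = g y) {x y : D.X}
    (h : ∀ i, -1 ≤ i → i < 2 → x.1 i = y.1 i) : σ.star g x = σ.star g y := by
  have h0 := σ.r_loc x.1 y.1 (h 0 (by omega) (by omega))
  have h1 := σ.cc_succ x.1 (-1)
  have h2 := σ.cc_succ x.1 1
  have h3 := hR (sh (-1) x.1)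
  have h4 := hR (sh 1 x.1)
  have h5 := σ.r_pos x.1
  simp only [neg_add_cancel, RSub.cc_zero, RSub.cc_one] at h1 h2
  rw [DSub.star, DSub.star, ← h0]
  refine isum_congr fun i a b => hg _ _ fun j hj => ?_
  rw [abs_le] at hj
  exact σ.agree (m := -1) (n := 1 + 1) (by omega) (by omega) (fun i a b => h i a (by omega))
    (by omega) (by omega)

/-- The transfer as a linear map. -/
noncomputable def starL (σ : DSub D ℓ c) : (D.X → ℤ) →ₗ[ℤ] (D.X → ℤ) where
  toFun := σ.star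
  map_add' := fun f g => funext fun x => σ.star_add f g x
  map_smul' := fun k f => funext fun x => (σ.map_star (AddMonoidHom.mulLeft k) f x).symm

theorem exists_basis (hℓ : ∀ a, 0 < ℓ a) (σ : DSub D ℓ c) (hr : ∀ x, 2 ≤ σ.r x) {t N : ℤ}
    (hc : 1 < c) (hq : c ^ 2 - t * c + N = 0) (hN : N = 1 ∨ N = -1) (hrank : RankLe D) :
    ∃ δ : Fin 2 → D.X → ℤ, (∀ i, IsLocallyConstant (δ i)) ∧
      (∀ g : D.X → ℤ, IsLocallyConstant g →
        ∃ n : Fin 2 → ℤ, Cob fun x => g x - ∑ i, n i * δ i x) ∧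
      (∀ n : Fin 2 → ℤ, (Cob fun x => ∑ i, n i * δ i x) → n = 0) ∧
      ∀ g : D.X → ℤ, IsLocallyConstant g →
        Cob fun x => σ.star (σ.star g) x - t * σ.star g x + N * g x := by
  classical
  have hi := irrational_of_quad hc hq hN
  let π := (cobS D).mkQ
  have hπ : ∀ g, π g = 0 ↔ Cob g := fun g => Submodule.Quotient.mk_eq_zero _
  let B := (cobS D).mapQ (cobS D) (starL σ) fun g hg => Cob.star σ hg
  have hB : ∀ g, B (π g) = π (σ.star g) := fun g => rfl
  let H := (lcS D).map π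
  have tf : ∀ (k : ℤ) (ξ : (D.X → ℤ) ⧸ cobS D), k ≠ 0 → k • ξ = 0 → ξ = 0 := by
    intro k ξ hk h
    obtain ⟨g, rfl⟩ := (cobS D).mkQ_surjective ξ
    rw [← map_smul] at h
    exact (hπ g).2 (Cob.of_mul hk ((hπ _).1 h))
  have dep : ∀ ξ : Fin 3 → H, ∃ n : Fin 3 → ℤ, n ≠ 0 ∧ ∑ i, n i • (ξ i).1 = 0 := by
    intro ξ
    choose g hg hg' using fun i => (ξ i).2
    obtain ⟨n, h1, h2⟩ := hrank.int g fun i => hg i
    refine ⟨n, h1, ?_⟩
    simp only [← hg', ← map_smul, ← map_sum]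
    refine (hπ _).2 (h2.congr fun x => ?_)
    simp
  obtain ⟨g₀, l₀, n₀, e₀⟩ := exists_noncob hℓ σ hq
  have hξ0 : π g₀ ≠ 0 := fun h => n₀ ((hπ _).1 h)
  have hξ : B (B (π g₀)) - t • B (π g₀) + N • π g₀ = 0 := by
    simp only [hB, ← map_smul, ← map_sub, ← map_add]
    exact (hπ _).2 (cob_zero.congr e₀)
  generalize hξd : π g₀ = ξ at hξ0 hξ
  have hξH : ξ ∈ H := ⟨g₀, l₀, hξd⟩
  have hBH : ∀ η ∈ H, B η ∈ H := by
    rintro _ ⟨g, hg, rfl⟩
    exact ⟨_, σ.lc_star hg, rfl⟩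
  have ind : ∀ a b : ℤ, a • ξ + b • B ξ = 0 → a = 0 ∧ b = 0 := by
    intro a b h
    by_cases hb : b = 0
    · subst hb
      refine ⟨?_, rfl⟩
      by_contra ha
      exact hξ0 (tf a ξ ha (by simpa using h))
    · exfalso
      have h1 := congrArg B h
      rw [map_add, map_smul, map_smul, map_zero] at h1
      refine hξ0 (tf _ ξ (no_int_root hi hq (a := -a) hb) ?_)
      linear_combination (norm := module) b ^ 2 • hξ - b • h1 + (a + t * b) • h
  have pB : ∀ η ∈ H, B (B η) - t • B η + N • η = 0 := by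
    intro η hη
    obtain ⟨n, h1, h2⟩ := dep ![⟨η, hη⟩, ⟨ξ, hξH⟩, ⟨B ξ, hBH ξ hξH⟩]
    simp only [Fin.sum_univ_three, Matrix.cons_val_zero, Matrix.cons_val_one,
      Matrix.cons_val] at h2
    have h3 : n 0 ≠ 0 := by
      intro h0
      rw [h0, zero_smul, zero_add] at h2
      obtain ⟨h4, h5⟩ := ind _ _ h2
      exact h1 (by ext i; fin_cases i <;> simpa)
    refine tf _ _ h3 ?_
    have h4 := congrArg B h2
    have h5 := congrArg B h4
    have h6 := congrArg B hξ
    simp only [map_add, map_sub, map_smul, map_zero] at h4 h5 h6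
    linear_combination (norm := module) h5 - t • h4 + N • h2 - n 1 • hξ - n 2 • h6
  have hN2 : N * N = 1 := by rcases hN with rfl | rfl <;> norm_num
  let w : D.X → A × A × A := fun x => (x.1 (-1), x.1 0, x.1 1)
  let W := (LinearMap.range (LinearMap.funLeft ℤ ℤ w)).map π
  have hW : W.FG := (Submodule.fg_range _).map _
  have hWH : W ≤ H := by
    refine Submodule.map_mono ?_
    rintro _ ⟨f, rfl⟩
    exact ((lc_letter (-1)).prodMk ((lc_letter 0).prodMk (lc_letter 1))).comp f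
  have hH : H = W ⊔ W.map B := by
    refine le_antisymm ?_ (sup_le hWH (Submodule.map_le_iff_le_comap.2 fun η h => hBH η (hWH h)))
    have inv : ∀ η ∈ W ⊔ W.map B, B η ∈ W ⊔ W.map B := by
      intro η hη
      obtain ⟨a, ha, _, ⟨b, hb, rfl⟩, rfl⟩ := Submodule.mem_sup.1 hη
      have e : B (a + B b) = (-N) • b + B (a + t • b) := by
        simp only [map_add, map_smul]
        linear_combination (norm := module) pB b (hWH hb)
      rw [e]
      exact Submodule.add_mem_sup (W.smul_mem _ hb)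
        (Submodule.mem_map_of_mem (W.add_mem ha (W.smul_mem _ hb)))
    have down : ∀ (k : ℕ) (g : D.X → ℤ), IsLocallyConstant g →
        π ((σ.pow k).star g) ∈ W ⊔ W.map B → π g ∈ W ⊔ W.map B := by
      intro k
      induction k with
      | zero => intro g _ h; rwa [σ.star_pow_zero] at h
      | succ k ih =>
        intro g hg h
        rw [σ.star_pow_succ] at h
        have h1 := ih _ (σ.lc_star hg) h
        rw [← hB] at h1
        have e : π g = (N * t) • B (π g) - N • B (B (π g)) := by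
          linear_combination (norm := module) N • pB (π g) ⟨g, hg, rfl⟩ - hN2 • π g
        rw [e]
        exact Submodule.sub_mem _ (Submodule.smul_mem _ _ h1) (Submodule.smul_mem _ _ (inv _ h1))
    rintro _ ⟨g, hg, rfl⟩
    obtain ⟨R, hR⟩ := win_of_lc hg
    refine down R g hg (Submodule.mem_sup_left (Submodule.mem_map_of_mem ?_))
    have hf : ((σ.pow R).star g).FactorsThrough w := by
      intro x y hxy
      refine star_three (σ.pow R) (fun z => le_trans ?_ (pow_r_ge σ hr R z)) hR fun i a b => ?_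
      · exact_mod_cast Nat.lt_two_pow_self.le
      · simp only [w, Prod.mk.injEq] at hxy
        obtain ⟨h1, h2, h3⟩ := hxy
        interval_cases i <;> assumption
    obtain ⟨e, he⟩ := (Function.factorsThrough_iff _).1 hf
    exact ⟨e, he.symm⟩
  have : Module.Finite ℤ H := Module.Finite.iff_fg.2 (hH ▸ hW.sup (hW.map B))
  have : Module.IsTorsionFree ℤ H := by
    rw [Module.isTorsionFree_iff_smul_eq_zero]
    intro k η h
    by_cases hk : k = 0
    · exact Or.inl hk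
    · exact Or.inr (Subtype.ext (tf k η.1 hk (congrArg Subtype.val h)))
  have hrk : Module.finrank ℤ H = 2 := by
    apply le_antisymm
    · by_contra hh
      obtain ⟨f, hf⟩ := exists_linearIndependent_of_le_finrank (R := ℤ) (M := H) (n := 3)
        (by omega)
      obtain ⟨n, h1, h2⟩ := dep f
      exact h1 (funext (Fintype.linearIndependent_iff.1 hf n (Subtype.ext (by simpa using h2))))
    · have : LinearIndependent ℤ ![(⟨ξ, hξH⟩ : H), ⟨B ξ, hBH ξ hξH⟩] :=
        LinearIndependent.pair_iff.2 fun a b h => ind a b (congrArg Subtype.val h)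
      simpa using this.fintype_card_le_finrank
  let b := Module.finBasisOfFinrankEq ℤ H hrk
  choose δ hδ hδ' using fun i => (b i).2
  refine ⟨δ, hδ, fun g hg => ?_, fun n hn => ?_, fun g hg => ?_⟩
  · refine ⟨b.repr ⟨π g, g, hg, rfl⟩, (hπ _).1 ?_⟩
    have h1 := congrArg Subtype.val (b.sum_repr ⟨π g, g, hg, rfl⟩)
    simp only [Submodule.coe_sum, Submodule.coe_smul, ← hδ', ← map_smul, ← map_sum] at h1
    rw [← sub_eq_zero, ← neg_eq_zero, neg_sub, ← map_sub] at h1
    rw [← h1]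
    congr 1
  · refine funext (Fintype.linearIndependent_iff.1 b.linearIndependent n (Subtype.ext ?_))
    simp only [Submodule.coe_sum, Submodule.coe_smul, ← hδ', ← map_smul, ← map_sum]
    exact (hπ _).2 (hn.congr fun x => by simp)
  · have := pB (π g) ⟨g, hg, rfl⟩
    simp only [hB, ← map_smul, ← map_sub, ← map_add] at this
    exact (hπ _).1 this

end Pool.Agent.MP_4168de_an

end

section

/-! Coordinates: physical position and internal coordinate. -/

namespace Pool.Agent.MP_4168de_an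

open Set Filter Topology Shift

variable {A : Type} [TopologicalSpace A] {D : Shift A} {ℓ : A → ℝ} {c : ℝ}

abbrev Γ := Fin 2 → ℤ

lemma DSub.surj'' (σ : DSub D ℓ c) (x : D.X) :
    ∃ y j, 0 ≤ j ∧ j < σ.r y.1 ∧ x = D.τ j (σ.T y) := by
  obtain ⟨y, m, rfl⟩ := σ.surj' x
  obtain ⟨i, h1, h2⟩ := exists_idx_int (fun n => σ.cc_strictMono y.1 (lt_add_one n)) m
  rw [RSub.cc_succ] at h2
  refine ⟨D.τ i y, m - σ.cc y.1 i, by omega, by simp only [τ_val]; omega, ?_⟩
  rw [σ.T_τ, τ_τ, add_sub_cancel]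

omit [TopologicalSpace A] in
lemma RSub.r_bdd [Finite A] (σ : RSub ℓ c) : ∃ ρ : ℤ, ∀ x, σ.r x ≤ ρ := by
  obtain ⟨ρ, hρ⟩ := (Set.finite_range fun a : A => σ.r fun _ => a).bddAbove
  exact ⟨ρ, fun x => (σ.r_loc x (fun _ => x 0) rfl).trans_le (hρ ⟨x 0, rfl⟩)⟩

variable [DiscreteTopology A] [Finite A]

lemma exists_abs_le {f : D.X → ℝ} (hf : Continuous f) : ∃ K, 0 ≤ K ∧ ∀ x, |f x| ≤ K := by
  obtain ⟨K, hK⟩ := isCompact_univ.exists_bound_of_continuousOn hf.continuousOn
  obtain ⟨x⟩ : Nonempty D.X := inferInstance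
  exact ⟨K, (norm_nonneg _).trans (hK x trivial), fun x => hK x trivial⟩

lemma bdd_sums (σ : DSub D ℓ c) (hr : ∀ x, 2 ≤ σ.r x) {ψ k : D.X → ℝ} (hψ : Continuous ψ)
    (hk : Continuous k) {c' : ℝ} (hc' : |c'| < 1)
    (h : ∀ x, σ.star ψ x = c' * ψ x + (k (D.τ 1 x) - k x)) : ∃ K, ∀ x n, |bs ψ x n| ≤ K := by
  obtain ⟨P, hP0, hP⟩ := exists_abs_le hψ
  obtain ⟨Q, hQ0, hQ⟩ := exists_abs_le hk
  obtain ⟨ρ, hρ⟩ := σ.toRSub.r_bdd
  have hρ0 : (0 : ℝ) ≤ ρ := by
    obtain ⟨x⟩ : Nonempty D.X := inferInstance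
    have := (hr x.1).trans (hρ x.1)
    exact_mod_cast (by omega : 0 ≤ ρ)
  have hs : ∀ x (m n : ℤ), m ≤ n → n ≤ m + ρ → |bs ψ x n - bs ψ x m| ≤ P * ρ := by
    intro x m n h1 h2
    refine (abs_isum_sub_le (fun i => hP _) m n).trans (mul_le_mul_of_nonneg_left ?_ hP0)
    rw [abs_le]
    constructor
    · have : (m : ℝ) ≤ n := by exact_mod_cast h1
      linarith
    · have : (n : ℝ) ≤ m + ρ := by exact_mod_cast h2
      linarith
  let K := (2 * Q + 2 * (P * ρ)) / (1 - |c'|)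
  have hK : K * (1 - |c'|) = 2 * Q + 2 * (P * ρ) := div_mul_cancel₀ _ (by linarith)
  have hPρ : 0 ≤ P * ρ := mul_nonneg hP0 hρ0
  have hK0 : 0 ≤ K := div_nonneg (by linarith) (by linarith)
  have key : ∀ n : ℕ, ∀ x, |bs ψ x n| ≤ K := by
    intro n
    induction n using Nat.strong_induction_on with
    | _ n ih =>
      intro x
      by_cases hn : (n : ℤ) ≤ ρ
      · have := hs x 0 n (by omega) (by omega)
        rw [bs_zero, sub_zero] at this
        nlinarith [abs_nonneg c']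
      obtain ⟨y, j, h1, h2, rfl⟩ := σ.surj'' x
      obtain ⟨i, h3, h4⟩ := exists_idx_int (fun n => σ.cc_strictMono y.1 (lt_add_one n)) (j + n)
      have h5 : 0 < i + 1 := (σ.cc_strictMono y.1).lt_iff_lt.1 (by rw [RSub.cc_zero]; omega)
      have h6 := σ.cc_ge hr y.1 (m := 0) (n := i) (by omega)
      rw [RSub.cc_zero] at h6
      have h7 := hρ y.1
      have h8 := hρ (sh i y.1)
      rw [RSub.cc_succ] at h4
      obtain ⟨i, rfl⟩ := Int.eq_ofNat_of_zero_le (show 0 ≤ i by omega)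
      have h9 := ih i (by omega) y
      have e1 := bs_add_index ψ (σ.T y) j n
      have e2 := σ.bs_star ψ y i
      rw [funext h, bs_add, bs_tel] at e2
      have e3 : bs (fun y => c' * ψ y) y i = c' * bs ψ y i :=
        (map_bs (AddMonoidHom.mulLeft c') ψ y i).symm
      have a1 := abs_le.1 (hs (σ.T y) (σ.cc y.1 i) (j + n) h3 (by omega))
      have a2 := abs_le.1 (hs (σ.T y) 0 j h1 (by omega))
      have a3 := abs_le.1 (hQ (D.τ i y))
      have a4 := abs_le.1 (hQ y)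
      have a5 : |c' * bs ψ y i| ≤ |c'| * K := by
        rw [abs_mul]; exact mul_le_mul_of_nonneg_left h9 (abs_nonneg _)
      have a6 := abs_le.1 a5
      rw [bs_zero] at a2
      rw [abs_le]
      constructor <;> linarith
  refine ⟨K, fun x n => ?_⟩
  obtain ⟨m, rfl | rfl⟩ := Int.eq_nat_or_neg n
  · exact key m x
  · have := bs_add_index ψ x (-m) m
    rw [neg_add_cancel, bs_zero] at this
    rw [eq_neg_of_add_eq_zero_left this.symm, abs_neg]
    exact key m _

omit [DiscreteTopology A] [Finite A] in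
lemma real_indep {δ : Fin 2 → D.X → ℤ}
    (h : ∀ n : Fin 2 → ℤ, (Cob fun x => ∑ i, n i * δ i x) → n = 0) {r : Fin 2 → ℝ}
    (hr : Cob fun x => ∑ i, r i * δ i x) : r = 0 := by
  ext i
  rw [Pi.zero_apply, ← Module.forall_dual_apply_eq_zero_iff ℚ]
  intro φ
  obtain ⟨⟨d, hd⟩, hd'⟩ := IsLocalization.exist_integer_multiples_of_finite (nonZeroDivisors ℤ)
    fun i => φ (r i)
  choose n hn using hd'
  have hn' : ∀ i, (n i : ℚ) = d * φ (r i) := fun i => by simpa using hn i
  have hd0 : (d : ℚ) ≠ 0 := by exact_mod_cast nonZeroDivisors.ne_zero hd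
  have h1 := h n (cob_of_rat (((hr.map φ).map (AddMonoidHom.mulLeft (d : ℚ))).congr fun x => ?_))
  · have := hn' i
    rw [h1] at this
    simpa [hd0] using this
  · have e : ∀ i, φ (r i * δ i x) = φ (r i) * δ i x := fun i => by
      rw [mul_comm, ← zsmul_eq_mul, map_zsmul, zsmul_eq_mul, mul_comm]
    simp [hn', e, mul_assoc, mul_add]

/-- The data of the lifted system. -/
structure Lift (σ : DSub D ℓ c) where
  δ : D.X → Γ
  lcδ : IsLocallyConstant δ
  gen : ∀ g : D.X → ℤ, IsLocallyConstant g → ∃ n : Γ, Cob fun x => g x - ∑ i, n i * δ x i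
  u : Fin 2 → ℝ
  u' : Fin 2 → ℝ
  e : Fin 2 → ℝ
  e' : Fin 2 → ℝ
  a : Γ →+ ℝ
  b : Γ →+ ℝ
  a_eq : ∀ v, a v = u 0 * v 0 + u 1 * v 1
  b_eq : ∀ v, b v = u' 0 * v 0 + u' 1 * v 1
  ue : u 0 * e 0 + u 1 * e 1 = 1
  ue' : u 0 * e' 0 + u 1 * e' 1 = 0
  u'e : u' 0 * e 0 + u' 1 * e 1 = 0
  u'e' : u' 0 * e' 0 + u' 1 * e' 1 = 1
  dec : ∀ (y : Fin 2 → ℝ) i, y i = (u 0 * y 0 + u 1 * y 1) * e i + (u' 0 * y 0 + u' 1 * y 1) * e' i
  a_inj : Function.Injective a
  b_inj : Function.Injective b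
  w : D.X → ℝ
  lcw : IsLocallyConstant w
  M : D.X → ℝ
  contM : Continuous M
  hw : ∀ x, w (D.τ 1 x) + a (δ x) = w x + ℓ (x.1 0)
  hM : ∀ x, M (D.τ 1 x) + b (δ x) = M x
  c' : ℝ
  c'_ne : c' ≠ 0
  desub : ∀ x v, ∃ x' v' n, x = D.τ n (σ.T x') ∧
    w x + a v = c * (w x' + a v') + pos ℓ (σ.T x').1 n ∧ M x + b v = c' * (M x' + b v')
  B : Matrix (Fin 2) (Fin 2) ℤ
  C : Matrix (Fin 2) (Fin 2) ℤ
  CB : C * B = 1
  Ce : ∀ i, c * (C i 0 * e 0 + C i 1 * e 1) = e i
  Ce' : ∀ i, c' * (C i 0 * e' 0 + C i 1 * e' 1) = e' i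

/-- The linear form with coefficients `u`. -/
def lin (u : Fin 2 → ℝ) : Γ →+ ℝ where
  toFun v := u 0 * v 0 + u 1 * v 1
  map_zero' := by simp
  map_add' := fun v w => by simp only [Pi.add_apply]; push_cast; ring

lemma irr_lin {c : ℝ} (hc : Irrational c) {m n : ℤ} (h : (m : ℝ) + c * n = 0) : n = 0 ∧ m = 0 := by
  have h1 : n = 0 := by
    by_contra hn
    have : (n : ℝ) ≠ 0 := by exact_mod_cast hn
    exact hc ⟨-m / n, by push_cast; field_simp; linarith⟩
  subst h1
  exact ⟨rfl, by simpa using h⟩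

theorem exists_lift (hℓ : ∀ a, 0 < ℓ a) (σ : DSub D ℓ c) (hr : ∀ x, 2 ≤ σ.r x) {t N : ℤ}
    (hc : 1 < c) (hq : c ^ 2 - t * c + N = 0) (hN : N = 1 ∨ N = -1) (hrank : RankLe D) :
    Nonempty (Lift σ) := by
  classical
  have hi := irrational_of_quad hc hq hN
  obtain ⟨δ, hδ, gen, ind, -⟩ := exists_basis hℓ σ hr hc hq hN hrank
  choose B hB using fun i => gen _ (σ.lc_star (hδ i))
  choose κ hκ hκ' using hB
  have := Fintype.ofFinite A
  choose nn hnn using fun a : A => gen (fun x => if x.1 0 = a then 1 else 0)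
    ((lc_letter 0).comp fun b => if b = a then 1 else 0)
  let u : Fin 2 → ℝ := fun i => ∑ a, ℓ a * nn a i
  have hu : Cob fun x : D.X => ℓ (x.1 0) - ∑ i, u i * δ i x := by
    refine (cob_sum Finset.univ fun a _ => ((hnn a).map (Int.castAddHom ℝ)).map
      (AddMonoidHom.mulLeft (ℓ a))).congr fun x => ?_
    simp [u, mul_sub, mul_add, Finset.sum_add_distrib, Finset.sum_mul, mul_assoc]
  have hst : ∀ (r : Fin 2 → ℝ) x, σ.star (fun x => ∑ i, r i * δ i x) x =
      ∑ i, r i * ((∑ j, B i j * δ j x : ℤ) + (κ i (D.τ 1 x) - κ i x)) := by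
    intro r x
    have e : ∀ i, σ.star (fun x => r i * δ i x) x =
        r i * ((∑ j, B i j * δ j x : ℤ) + (κ i (D.τ 1 x) - κ i x)) := fun i => by
      have h1 := σ.map_star ((AddMonoidHom.mulLeft (r i)).comp (Int.castAddHom ℝ)) (δ i) x
      have h2 := hκ' i x
      rw [sub_eq_iff_eq_add'] at h2
      rw [h2] at h1
      simpa using h1.symm
    simp only [Fin.sum_univ_two, σ.star_add, e]
  have huB : (fun j => c * u j - ∑ i, u i * B i j) = 0 := by
    refine real_indep ind ?_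
    have h1 := Cob.star σ hu
    have h2 := hu.map (AddMonoidHom.mulLeft (-c))
    have h3 : Cob fun x => ∑ i, u i * ((κ i (D.τ 1 x) : ℝ) - κ i x) :=
      cob_sum _ fun i _ => ⟨fun x => u i * κ i x, (hκ i).comp fun n : ℤ => u i * n, fun x => by ring⟩
    refine ((h1.add h2).add h3).congr fun x => ?_
    have e : σ.star (fun x => ℓ (x.1 0) - ∑ i, u i * δ i x) x =
        σ.star (fun x => ℓ (x.1 0)) x - σ.star (fun x => ∑ i, u i * δ i x) x := bs_sub _ _ _ _
    rw [e, hst, σ.star_len]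
    simp only [Fin.sum_univ_two, AddMonoidHom.coe_mulLeft]
    push_cast
    ring
  have h0 : c * u 0 - (u 0 * B 0 0 + u 1 * B 1 0) = 0 := by
    simpa only [Fin.sum_univ_two, Pi.zero_apply] using congrFun huB 0
  have h1 : c * u 1 - (u 0 * B 0 1 + u 1 * B 1 1) = 0 := by
    simpa only [Fin.sum_univ_two, Pi.zero_apply] using congrFun huB 1
  have hu0 : u 0 ≠ 0 := by
    intro e0
    by_cases e1 : u 1 = 0
    · exact not_cob_len hℓ (hu.congr fun x => by simp [e0, e1])
    · rw [e0] at h1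
      exact hi ⟨B 1 1, by
        apply mul_right_cancel₀ e1
        push_cast
        linarith⟩
  have hr0 : (B 1 0 : ℝ) ≠ 0 := by
    intro e0
    rw [e0] at h0
    exact hi ⟨B 0 0, by
      apply mul_right_cancel₀ hu0
      push_cast
      linarith⟩
  have hdet : (c - B 0 0) * (c - B 1 1) - B 0 1 * B 1 0 = 0 := by
    apply mul_left_cancel₀ hu0
    linear_combination (c - B 1 1) * h0 + (B 1 0 : ℝ) * h1
  obtain ⟨ht, hN'⟩ := irr_lin hi (m := B 0 0 * B 1 1 - B 0 1 * B 1 0 - N)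
    (n := t - B 0 0 - B 1 1) (by push_cast; linear_combination hdet - hq)
  have ht' : (t : ℝ) = B 0 0 + B 1 1 := by
    have : t = B 0 0 + B 1 1 := by omega
    exact_mod_cast this
  have hNr : (N : ℝ) = B 0 0 * B 1 1 - B 0 1 * B 1 0 := by
    have : N = B 0 0 * B 1 1 - B 0 1 * B 1 0 := by omega
    exact_mod_cast this
  have hN2 : N * N = 1 := by rcases hN with rfl | rfl <;> norm_num
  have hN2r : (N : ℝ) * N = 1 := by exact_mod_cast hN2
  set c' : ℝ := t - c with hc'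
  have hcc : c * c' = N := by rw [hc']; linear_combination -hq
  have hc1 : |c'| < 1 := by
    have h2 : c * |c'| = 1 := by
      have : |c * c'| = 1 := by rw [hcc]; rcases hN with rfl | rfl <;> simp
      rwa [abs_mul, abs_of_pos (by linarith)] at this
    nlinarith [abs_nonneg c']
  have hc0 : c' ≠ 0 := by
    intro e0
    rw [e0] at hcc
    rw [← hcc] at hN2r
    simp at hN2r
  have hcd : c' - c ≠ 0 := by linarith [(abs_lt.1 hc1).2]
  have hi' : Irrational c' := hi.intCast_sub t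
  let u' : Fin 2 → ℝ := ![B 1 0, c' - B 0 0]
  have hΔ : u 0 * (c' - c) ≠ 0 := mul_ne_zero hu0 hcd
  have hu1 : u 1 = u 0 * (c - B 0 0) / B 1 0 := by field_simp; linear_combination -h0
  let δ' : D.X → Γ := fun x i => δ i x
  let κ' : D.X → Γ := fun x i => κ i x
  have lcpi : ∀ f : Fin 2 → D.X → ℤ, (∀ i, IsLocallyConstant (f i)) →
      IsLocallyConstant fun x i => f i x := fun f hf =>
    (IsLocallyConstant.iff_continuous _).2 (continuous_pi fun i => (hf i).continuous)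
  let Bm : Matrix (Fin 2) (Fin 2) ℤ := Matrix.of B
  let Cm : Matrix (Fin 2) (Fin 2) ℤ := !![N * B 1 1, -(N * B 0 1); -(N * B 1 0), N * B 0 0]
  have aB : ∀ v, lin u (Bm.mulVec v) = c * lin u v := fun v => by
    simp only [lin, Bm, Matrix.mulVec, dotProduct, Fin.sum_univ_two, Matrix.of_apply,
      AddMonoidHom.coe_mk, ZeroHom.coe_mk]
    push_cast
    linear_combination -(v 0 : ℝ) * h0 - (v 1 : ℝ) * h1
  have bB : ∀ v, lin u' (Bm.mulVec v) = c' * lin u' v := fun v => by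
    simp only [lin, Bm, u', Matrix.mulVec, dotProduct, Fin.sum_univ_two, Matrix.of_apply,
      AddMonoidHom.coe_mk, ZeroHom.coe_mk, Matrix.cons_val_zero, Matrix.cons_val_one]
    push_cast
    rw [hc', ht']
    linear_combination -(v 1 : ℝ) * hdet
  have BC : Bm * Cm = 1 := by
    ext i j
    fin_cases i <;> fin_cases j <;>
      simp [Bm, Cm, Matrix.mul_apply, Fin.sum_univ_two] <;>
      first | linear_combination N * hN' + hN2 | ring
  have hstar : ∀ (r : Fin 2 → ℝ) x, σ.star (fun x => lin r (δ' x)) x =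
      lin r (Bm.mulVec (δ' x)) + (lin r (κ' (D.τ 1 x)) - lin r (κ' x)) := by
    intro r x
    have := hst r x
    simp only [Fin.sum_univ_two] at this
    simp only [lin, Bm, δ', κ', Matrix.mulVec, dotProduct, Fin.sum_univ_two, Matrix.of_apply,
      AddMonoidHom.coe_mk, ZeroHom.coe_mk, this]
    ring
  obtain ⟨w₀, lw₀, hw₀⟩ := hu
  have hw₁ : ∀ x, w₀ (D.τ 1 x) = w₀ x + (ℓ (x.1 0) - lin u (δ' x)) := fun x => by
    have := hw₀ x
    simp only [Fin.sum_univ_two] at this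
    simp only [lin, δ', AddMonoidHom.coe_mk, ZeroHom.coe_mk]
    linarith
  have cδ : ∀ r, Continuous fun x => lin r (δ' x) := fun r =>
    ((lcpi δ hδ).comp (lin r)).continuous
  have lκ : ∀ r, IsLocallyConstant fun x => lin r (κ' x) := fun r => (lcpi κ hκ).comp (lin r)
  obtain ⟨K, hK⟩ := bdd_sums σ hr (cδ u') (lκ u').continuous hc1 fun x => by rw [hstar, bB]
  obtain ⟨M₀, cM₀, hM₀⟩ := gottschalk (cδ u') hK
  have hM₁ : ∀ x, M₀ (D.τ 1 x) = M₀ x + -lin u' (δ' x) := fun x => by linarith [hM₀ x]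
  obtain ⟨x₀⟩ : Nonempty D.X := inferInstance
  have wτ : ∀ x n, w₀ (D.τ n x) = w₀ x + (pos ℓ x.1 n - lin u (bs δ' x n)) := fun x n => by
    rw [bs_of_eq hw₁, bs_sub, bs_len, map_bs]
  have Mτ : ∀ x n, M₀ (D.τ n x) = M₀ x - lin u' (bs δ' x n) := fun x n => by
    rw [bs_of_eq hM₁, map_bs, sub_eq_add_neg]
    congr 1
    exact (map_bs (negAddMonoidHom : ℝ →+ ℝ) _ x n).symm
  have q1 := const_of_continuous (f := fun x => w₀ (σ.T x) + lin u (κ' x) - c * w₀ x)
    (((lw₀.continuous.comp σ.continuous_T).add (lκ u).continuous).sub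
      (continuous_const.mul lw₀.continuous)) (fun x => by
      have e1 := hstar u x
      rw [DSub.star, ← map_bs, aB] at e1
      simp only [σ.T_τ, RSub.cc_one, wτ (σ.T x), DSub.T_val, σ.len, e1, hw₁]
      ring) x₀
  have q2 := const_of_continuous (f := fun x => M₀ (σ.T x) + lin u' (κ' x) - c' * M₀ x)
    (((cM₀.comp σ.continuous_T).add (lκ u').continuous).sub
      (continuous_const.mul cM₀)) (fun x => by
      have e1 := hstar u' x
      rw [DSub.star, ← map_bs, bB] at e1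
      simp only [σ.T_τ, RSub.cc_one, Mτ (σ.T x), e1, hM₁]
      ring) x₀
  generalize w₀ (σ.T x₀) + lin u (κ' x₀) - c * w₀ x₀ = k₁ at q1
  generalize M₀ (σ.T x₀) + lin u' (κ' x₀) - c' * M₀ x₀ = k₂ at q2
  have hc3 : c - 1 ≠ 0 := by linarith
  have hc4 : c' - 1 ≠ 0 := by linarith [(abs_lt.1 hc1).2]
  refine ⟨{
    δ := δ', lcδ := lcpi δ hδ, gen := gen, u := u, u' := u'
    e := ![(c' - B 0 0) / (u 0 * (c' - c)), -B 1 0 / (u 0 * (c' - c))]
    e' := ![-u 1 / (u 0 * (c' - c)), u 0 / (u 0 * (c' - c))]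
    a := lin u, b := lin u', a_eq := fun _ => rfl, b_eq := fun _ => rfl
    ue := ?_, ue' := ?_, u'e := ?_, u'e' := ?_, dec := ?_, a_inj := ?_, b_inj := ?_
    w := fun x => w₀ x + k₁ / (c - 1), lcw := lw₀.comp (· + k₁ / (c - 1))
    M := fun x => M₀ x + k₂ / (c' - 1), contM := cM₀.add continuous_const
    hw := fun x => by rw [hw₁]; ring
    hM := fun x => by rw [hM₁]; ring
    c' := c', c'_ne := hc0, desub := ?_, B := Bm, C := Cm
    CB := mul_eq_one_comm.1 BC, Ce := ?_, Ce' := ?_ }⟩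
  · simp only [Matrix.cons_val_zero, Matrix.cons_val_one, hu1]; field_simp; ring
  · simp only [Matrix.cons_val_zero, Matrix.cons_val_one]; field_simp; ring
  · simp only [u', Matrix.cons_val_zero, Matrix.cons_val_one]; field_simp; ring
  · simp only [u', Matrix.cons_val_zero, Matrix.cons_val_one, hu1]; field_simp; ring
  · intro y i
    fin_cases i <;> simp [u', hu1] <;> field_simp <;> ring
  · refine (injective_iff_map_eq_zero _).2 fun v hv => ?_
    change u 0 * v 0 + u 1 * v 1 = 0 at hv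
    obtain ⟨e1, e2⟩ := irr_lin hi (m := B 1 0 * v 0 - B 0 0 * v 1) (n := v 1) (by
      apply mul_left_cancel₀ hu0
      push_cast
      linear_combination (B 1 0 : ℝ) * hv + (v 1 : ℝ) * h0)
    have hr1 : B 1 0 ≠ 0 := by exact_mod_cast hr0
    rw [e1] at e2
    ext i
    fin_cases i
    · simpa [hr1] using e2
    · exact e1
  · refine (injective_iff_map_eq_zero _).2 fun v hv => ?_
    change (B 1 0 : ℝ) * v 0 + (c' - B 0 0) * v 1 = 0 at hv
    obtain ⟨e1, e2⟩ := irr_lin hi' (m := B 1 0 * v 0 - B 0 0 * v 1) (n := v 1) (by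
      push_cast
      linear_combination hv)
    have hr1 : B 1 0 ≠ 0 := by exact_mod_cast hr0
    rw [e1] at e2
    ext i
    fin_cases i
    · simpa [hr1] using e2
    · exact e1
  · intro x v
    obtain ⟨y, n, rfl⟩ := σ.surj' x
    have e0 : ∀ z : Γ, Bm.mulVec (Cm.mulVec z) = z := fun z => by
      rw [Matrix.mulVec_mulVec, BC, Matrix.one_mulVec]
    have e1 := aB (Cm.mulVec (v - bs δ' (σ.T y) n - κ' y))
    have e2 := bB (Cm.mulVec (v - bs δ' (σ.T y) n - κ' y))
    rw [e0, map_sub, map_sub] at e1 e2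
    refine ⟨y, Cm.mulVec (v - bs δ' (σ.T y) n - κ' y), n, rfl, ?_, ?_⟩
    · rw [wτ]
      have := div_mul_cancel₀ k₁ hc3
      linear_combination e1 + q1 y - this
    · rw [Mτ]
      have := div_mul_cancel₀ k₂ hc4
      linear_combination e2 + q2 y - this
  · intro i
    fin_cases i <;> simp [Cm]
    · linear_combination ((N : ℝ) * B 1 1 * hcc + c * N * hNr + (B 1 1 - c) * hN2r - (hc' + ht')) *
        (u 0 * (c' - c))⁻¹
    · linear_combination (-(N : ℝ) * B 1 0 * hcc - B 1 0 * hN2r) * (u 0 * (c' - c))⁻¹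
  · intro i
    fin_cases i <;> simp only [Cm, Fin.zero_eta, Fin.mk_one, Matrix.of_apply, Matrix.cons_val',
      Matrix.cons_val_zero, Matrix.cons_val_one, Matrix.cons_val_fin_one] <;> push_cast
    · linear_combination (c' * N * h1 - N * u 1 * hcc - u 1 * hN2r) * (u 0 * (c' - c))⁻¹
    · linear_combination (-c' * N * h0 + N * u 0 * hcc + u 0 * hN2r) * (u 0 * (c' - c))⁻¹

end Pool.Agent.MP_4168de_an

end

section

/-! Fibres of the torus parametrisation. -/

namespace Pool.Agent.MP_4168de_an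

open Set Filter Topology Shift

variable {A : Type} [TopologicalSpace A] {D : Shift A} {ℓ : A → ℝ} {c : ℝ} {σ : DSub D ℓ c}

omit [TopologicalSpace A] in
lemma exists_len_bounds [Finite A] [Nonempty A] (hℓ : ∀ a, 0 < ℓ a) :
    ∃ l₀ l₁ : ℝ, 0 < l₀ ∧ (∀ a, l₀ ≤ ℓ a) ∧ ∀ a, ℓ a ≤ l₁ := by
  obtain ⟨a, ha⟩ := Finite.exists_min ℓ
  obtain ⟨b, hb⟩ := Finite.exists_max ℓ
  exact ⟨ℓ a, ℓ b, hℓ a, ha, hb⟩

lemma Shift.nonempty_alph (D : Shift A) : Nonempty A := ⟨D.ne.some 0⟩

namespace Lift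

variable (L : Lift σ)

/-- Position of the tile. -/
def p (y : D.X × Γ) : ℝ := L.w y.1 + L.a y.2

/-- Internal coordinate. -/
def z (y : D.X × Γ) : ℝ := L.M y.1 + L.b y.2

/-- The lifted shift. -/
noncomputable def s (n : ℤ) (y : D.X × Γ) : D.X × Γ := (D.τ n y.1, y.2 + bs L.δ y.1 n)

/-- The tile of a lifted point. -/
def lab (y : D.X × Γ) : A × ℝ := (y.1.1 0, L.p y)

/-- Lifted points over `β` whose tile contains `α`. -/
def K (α β : ℝ) : Set (D.X × Γ) := {y | L.z y = β ∧ L.p y ≤ α ∧ α < L.p y + ℓ (y.1.1 0)}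

/-- Tiles over `β` that contain `α`. -/
def Lab (α β : ℝ) : Set (A × ℝ) := L.lab '' L.K α β

@[simp] lemma s_zero (y : D.X × Γ) : L.s 0 y = y := by simp [s]

lemma s_s (m n : ℤ) (y : D.X × Γ) : L.s m (L.s n y) = L.s (n + m) y := by
  simp only [s, τ_τ, bs_add_index, add_assoc]

lemma w_τ (x : D.X) (n : ℤ) : L.w (D.τ n x) + L.a (bs L.δ x n) = L.w x + pos ℓ x.1 n := by
  rw [bs_of_eq (h := L.w) (g := fun y => ℓ (y.1 0) - L.a (L.δ y)) (fun y => by linarith [L.hw y]),
    bs_sub, bs_len, map_bs]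
  ring

lemma M_τ (x : D.X) (n : ℤ) : L.M (D.τ n x) + L.b (bs L.δ x n) = L.M x := by
  rw [bs_of_eq (h := L.M) (g := fun y => 0 - L.b (L.δ y)) (fun y => by linarith [L.hM y]),
    bs_sub, map_bs]
  have : bs (fun _ : D.X => (0 : ℝ)) x n = 0 := by simp [bs, isum]
  rw [this]
  ring

lemma p_s (n : ℤ) (y : D.X × Γ) : L.p (L.s n y) = L.p y + pos ℓ y.1.1 n := by
  simp only [p, s, map_add]
  linarith [L.w_τ y.1 n]

@[simp] lemma z_s (n : ℤ) (y : D.X × Γ) : L.z (L.s n y) = L.z y := by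
  simp only [z, s, map_add]
  linarith [L.M_τ y.1 n]

lemma s_letter (n : ℤ) (y : D.X × Γ) : (L.s n y).1.1 0 = y.1.1 n := by simp [s]

lemma mem_K_s {n : ℤ} {y : D.X × Γ} {α β : ℝ} : L.s n y ∈ L.K α β ↔
    L.z y = β ∧ pos ℓ y.1.1 n ≤ α - L.p y ∧ α - L.p y < pos ℓ y.1.1 (n + 1) := by
  simp only [K, mem_ofPred_eq, z_s, p_s, s_letter, pos_succ]
  constructor <;> rintro ⟨h1, h2, h3⟩ <;> exact ⟨h1, by linarith, by linarith⟩

lemma eq_of_fst {y y' : D.X × Γ} (h : y.1 = y'.1) (hz : L.z y = L.z y') : y = y' := by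
  refine Prod.ext h (L.b_inj ?_)
  simp only [z, h] at hz
  linarith

lemma finite_box (R : ℝ) : {v : Γ | |L.a v| ≤ R ∧ |L.b v| ≤ R}.Finite := by
  obtain ⟨N, hN⟩ := exists_nat_ge (R * (|L.e 0| + |L.e' 0| + |L.e 1| + |L.e' 1|))
  refine (Set.finite_Icc (fun _ => -(N : ℤ)) fun _ => (N : ℤ)).subset ?_
  rintro v ⟨h1, h2⟩
  have hR : 0 ≤ R := (abs_nonneg _).trans h1
  have key : ∀ i, |(v i : ℝ)| ≤ N := by
    intro i
    rw [L.dec (fun i => v i) i, ← L.a_eq, ← L.b_eq]
    refine (abs_add_le _ _).trans ?_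
    rw [abs_mul, abs_mul]
    have h3 := mul_le_mul_of_nonneg_right h1 (abs_nonneg (L.e i))
    have h4 := mul_le_mul_of_nonneg_right h2 (abs_nonneg (L.e' i))
    have h5 : R * |L.e i| + R * |L.e' i| ≤ R * (|L.e 0| + |L.e' 0| + |L.e 1| + |L.e' 1|) := by
      rw [← mul_add]
      refine mul_le_mul_of_nonneg_left ?_ hR
      fin_cases i <;> simp only [Fin.zero_eta, Fin.mk_one] <;>
        linarith [abs_nonneg (L.e 0), abs_nonneg (L.e 1), abs_nonneg (L.e' 0), abs_nonneg (L.e' 1)]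
    linarith
  constructor <;> intro i
  · have := (abs_le.1 (key i)).1
    exact_mod_cast this
  · have := (abs_le.1 (key i)).2
    exact_mod_cast this

lemma tr_mem_K {y : D.X × Γ} {α β : ℝ} (h : y ∈ L.K α β) (v : Γ) :
    (y.1, y.2 + v) ∈ L.K (α + L.a v) (β + L.b v) := by
  obtain ⟨h1, h2, h3⟩ := h
  simp only [K, z, p, mem_ofPred_eq, map_add] at *
  exact ⟨by linarith, by linarith, by linarith⟩

lemma desub_pow (k : ℕ) (y : D.X × Γ) : ∃ (y' : D.X × Γ) (n : ℤ),
    y.1 = D.τ n ((σ.pow k).T y'.1) ∧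
      L.p y = c ^ k * L.p y' + pos ℓ ((σ.pow k).T y'.1).1 n ∧ L.z y = L.c' ^ k * L.z y' := by
  induction k generalizing y with
  | zero => exact ⟨y, 0, by simp [σ.pow_T], by simp, by simp⟩
  | succ k ih =>
    obtain ⟨x', v', n, h1, h2, h3⟩ := L.desub y.1 y.2
    obtain ⟨y', m, h4, h5, h6⟩ := ih (x', v')
    simp only [σ.pow_T, Function.iterate_succ_apply'] at *
    refine ⟨y', σ.cc (σ.T^[k] y'.1).1 m + n, ?_, ?_, ?_⟩
    · rw [h1, h4, σ.T_τ, τ_τ]
    · change L.p y = c * L.p (x', v') + _ at h2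
      rw [h2, h5, h4, σ.T_τ, pos_add, DSub.T_val, σ.pos_S]
      simp only [τ_val, DSub.T_val]
      ring
    · change L.z y = L.c' * L.z (x', v') at h3
      rw [h3, h6]
      ring

variable [Finite A] (hℓ : ∀ a, 0 < ℓ a)
include hℓ

lemma exists_K (y : D.X × Γ) (α : ℝ) : ∃ n, L.s n y ∈ L.K α (L.z y) := by
  have := D.nonempty_alph
  obtain ⟨l₀, l₁, h0, h1, -⟩ := exists_len_bounds hℓ
  obtain ⟨n, hn⟩ := exists_idx (p := pos ℓ y.1.1) h0
    (fun n => by rw [pos_succ]; linarith [h1 (y.1.1 n)]) (α - L.p y)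
  exact ⟨n, L.mem_K_s.2 ⟨rfl, hn⟩⟩

omit [Finite A] in
lemma K_unique {y : D.X × Γ} {α β : ℝ} {m n : ℤ} (h1 : L.s m y ∈ L.K α β)
    (h2 : L.s n y ∈ L.K α β) : m = n := by
  obtain ⟨-, a, b⟩ := L.mem_K_s.1 h1
  obtain ⟨-, c, d⟩ := L.mem_K_s.1 h2
  exact idx_unique (pos_strictMono hℓ _) a b c d

lemma encard_K_le (α α' β : ℝ) : (L.K α β).encard ≤ (L.K α' β).encard := by
  choose n hn using fun y => L.exists_K hℓ y α'
  refine encard_le_encard_of_injOn (f := fun y => L.s (n y) y) (fun y hy => hy.1 ▸ hn y) ?_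
  intro y hy y' hy' h
  have e : y' = L.s (n y - n y') y := by
    have := congrArg (L.s (-n y')) h
    simp only [s_s, add_neg_cancel, s_zero] at this
    rw [sub_eq_add_neg, this]
  have := L.K_unique hℓ (y := y) (m := 0) (by simpa using hy) (e ▸ hy')
  rw [e, ← this, s_zero]

variable [DiscreteTopology A]

lemma K_box (R : ℝ) : ∃ V : Set Γ, V.Finite ∧ ∀ α β, |α| ≤ R → |β| ≤ R →
    ∀ y ∈ L.K α β, y.2 ∈ V := by
  have := D.nonempty_alph
  obtain ⟨l₀, l₁, h0, h1, h2⟩ := exists_len_bounds hℓ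
  obtain ⟨W, hW0, hW⟩ := exists_abs_le L.lcw.continuous
  obtain ⟨W', hW0', hW'⟩ := exists_abs_le L.contM
  refine ⟨_, L.finite_box (R + W + W' + l₁), fun α β ha hb y ⟨e1, e2, e3⟩ => ?_⟩
  simp only [p, z] at e1 e2 e3
  have a1 := abs_le.1 ha
  have a2 := abs_le.1 hb
  have a3 := abs_le.1 (hW y.1)
  have a4 := abs_le.1 (hW' y.1)
  have a5 := h2 (y.1.1 0)
  have a6 := hℓ (y.1.1 0)
  constructor <;> rw [abs_le] <;> constructor <;> linarith

lemma finite_Lab (α β : ℝ) : (L.Lab α β).Finite := by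
  obtain ⟨V, hV, h⟩ := L.K_box hℓ (max |α| |β|)
  refine ((finite_univ (α := A)).prod ((L.lcw.range_finite.prod hV).image
    fun q => q.1 + L.a q.2)).subset ?_
  rintro _ ⟨y, hy, rfl⟩
  exact ⟨trivial, (L.w y.1, y.2), ⟨⟨_, rfl⟩, h α β (le_max_left _ _) (le_max_right _ _) y hy⟩, rfl⟩

omit [Finite A] hℓ in
lemma lc_lab (v : Γ) : IsLocallyConstant fun x : D.X => L.lab (x, v) :=
  (lc_letter 0).prodMk (L.lcw.comp (· + L.a v))

lemma Lab_usc {α β : ℝ} (h : ∀ l ∈ L.Lab α β, l.2 < α) :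
    ∀ᶠ q : ℝ × ℝ in 𝓝 (α, β), L.Lab q.1 q.2 ⊆ L.Lab α β := by
  obtain ⟨V, hV, hb⟩ := L.K_box hℓ (max |α| |β| + 1)
  have h1 : ∀ᶠ q : ℝ × ℝ in 𝓝 (α, β), ∀ v ∈ V, ∀ x ∈ (univ : Set D.X),
      (x, v) ∈ L.K q.1 q.2 → L.lab (x, v) ∈ L.Lab α β := by
    rw [eventually_all_finite hV]
    intro v _
    refine isCompact_univ.eventually_forall_of_forall_eventually fun x _ => ?_
    have e : ∀ᶠ r : (ℝ × ℝ) × D.X in 𝓝 ((α, β), x), L.lab (r.2, v) = L.lab (x, v) :=
      (continuous_snd.tendsto ((α, β), x)).eventually ((L.lc_lab v).eventually_eq x)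
    have c1 : Continuous fun r : (ℝ × ℝ) × D.X => r.1.1 := by fun_prop
    by_cases hz : L.z (x, v) = β
    swap
    · have c2 : Continuous fun r : (ℝ × ℝ) × D.X => L.z (r.2, v) - r.1.2 := by
        have := L.contM
        unfold z
        fun_prop
      filter_upwards [c2.continuousAt.eventually_ne (x := ((α, β), x)) (sub_ne_zero.2 hz)]
        with r hr hr'
      exact absurd (sub_eq_zero.2 hr'.1) hr
    rcases lt_or_ge α (L.p (x, v)) with h2 | h2
    · filter_upwards [e, c1.continuousAt.eventually_lt (x₀ := ((α, β), x)) continuousAt_const h2]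
        with r hr hr' hr''
      have : L.p (r.2, v) = L.p (x, v) := congrArg Prod.snd hr
      linarith [hr''.2.1]
    rcases lt_trichotomy α (L.p (x, v) + ℓ (x.1 0)) with h3 | h3 | h3
    · filter_upwards [e] with r hr _
      rw [hr]
      exact ⟨_, ⟨hz, h2, h3⟩, rfl⟩
    · exfalso
      have h4 : L.s 1 (x, v) ∈ L.K α β := by
        refine L.mem_K_s.2 ⟨hz, ?_, ?_⟩
        · simp [pos, h3]
        · rw [pos_succ]
          simp [pos, h3, hℓ]
      have h5 := h _ ⟨_, h4, rfl⟩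
      simp only [lab, p_s, pos, isum_one] at h5
      linarith
    · filter_upwards [e, continuousAt_const.eventually_lt (x₀ := ((α, β), x)) c1.continuousAt h3]
        with r hr hr' hr''
      have h4 : L.p (r.2, v) = L.p (x, v) := congrArg Prod.snd hr
      have h5 : r.2.1 0 = x.1 0 := congrArg Prod.fst hr
      have h6 := hr''.2.2
      simp only [h4, h5] at h6
      linarith
  have h2 : ∀ᶠ q : ℝ × ℝ in 𝓝 (α, β), |q.1| < max |α| |β| + 1 :=
    (by fun_prop : Continuous fun q : ℝ × ℝ => |q.1|).continuousAt.eventually_lt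
      continuousAt_const (by linarith [le_max_left |α| |β|])
  have h3 : ∀ᶠ q : ℝ × ℝ in 𝓝 (α, β), |q.2| < max |α| |β| + 1 :=
    (by fun_prop : Continuous fun q : ℝ × ℝ => |q.2|).continuousAt.eventually_lt
      continuousAt_const (by linarith [le_max_right |α| |β|])
  filter_upwards [h1, h2, h3] with q a1 a2 a3
  rintro _ ⟨y, hy, rfl⟩
  exact a1 y.2 (hb _ _ a2.le a3.le y hy) y.1 trivial hy

/-- A box over which the set of tiles is constant and of least size. -/
structure Box where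
  α : ℝ
  β : ℝ
  ρ : ℝ
  ρ_pos : 0 < ρ
  least : ∀ α' β', (L.Lab α β).ncard ≤ (L.Lab α' β').ncard
  inner : ∀ l ∈ L.Lab α β, l.2 + 2 * ρ ≤ α ∧ α + 2 * ρ ≤ l.2 + ℓ l.1
  const : ∀ α' β', |α' - α| < ρ → |β' - β| < ρ → L.Lab α' β' = L.Lab α β

lemma exists_box : Nonempty L.Box := by
  obtain ⟨⟨α₀, β⟩, h0⟩ := exists_minimalFor_of_wellFoundedLT (fun _ : ℝ × ℝ => True)
    (fun q => (L.Lab q.1 q.2).ncard) ⟨(0, 0), trivial⟩
  have hmin : ∀ α' β', (L.Lab α₀ β).ncard ≤ (L.Lab α' β').ncard := fun α' β' =>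
    h0.le (j := (α', β')) trivial
  have hev : ∀ᶠ ε in 𝓝[>] (0 : ℝ), ∀ l ∈ L.Lab α₀ β, α₀ + ε < l.2 + ℓ l.1 := by
    rw [eventually_all_finite (L.finite_Lab hℓ _ _)]
    rintro _ ⟨y, hy, rfl⟩
    refine nhdsWithin_le_nhds ((by fun_prop : Continuous fun ε : ℝ => α₀ + ε).continuousAt
      |>.eventually_lt continuousAt_const ?_)
    simpa [lab] using hy.2.2
  obtain ⟨ε, h1, h2⟩ := (hev.and self_mem_nhdsWithin).exists
  have h2' : 0 < ε := h2
  have hK : L.K (α₀ + ε) β ⊆ L.K α₀ β := by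
    intro y hy
    obtain ⟨n, hn⟩ := L.exists_K hℓ y α₀
    rw [hy.1] at hn
    have h3 : L.s n y ∈ L.K (α₀ + ε) β :=
      ⟨hn.1, by linarith [hn.2.1], h1 _ ⟨_, hn, rfl⟩⟩
    have := L.K_unique hℓ (y := y) (m := 0) (by simpa using hy) h3
    rwa [← this, s_zero] at hn
  have hin : ∀ l ∈ L.Lab (α₀ + ε) β, l.2 < α₀ + ε := by
    rintro _ ⟨y, hy, rfl⟩
    have := (hK hy).2.1
    simp only [lab]
    linarith
  have hmin' : ∀ α' β', (L.Lab (α₀ + ε) β).ncard ≤ (L.Lab α' β').ncard := fun α' β' =>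
    (ncard_le_ncard (image_mono hK) (L.finite_Lab hℓ _ _)).trans (hmin α' β')
  generalize α₀ + ε = α at hin hmin'
  obtain ⟨ρ₁, r1, r2⟩ := Metric.eventually_nhds_iff.1 (L.Lab_usc hℓ hin)
  have hev' : ∀ᶠ ρ in 𝓝[>] (0 : ℝ), ∀ l ∈ L.Lab α β, l.2 + 2 * ρ < α ∧ α + 2 * ρ < l.2 + ℓ l.1 := by
    rw [eventually_all_finite (L.finite_Lab hℓ _ _)]
    intro l hl
    refine nhdsWithin_le_nhds (Eventually.and
      ((by fun_prop : Continuous fun ε : ℝ => l.2 + 2 * ε).continuousAt.eventually_lt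
        continuousAt_const (by simpa using hin l hl))
      ((by fun_prop : Continuous fun ε : ℝ => α + 2 * ε).continuousAt.eventually_lt
        continuousAt_const ?_))
    obtain ⟨y, hy, rfl⟩ := hl
    simpa [lab] using hy.2.2
  obtain ⟨ρ, r3, r4⟩ := (hev'.and (Ioo_mem_nhdsGT r1)).exists
  refine ⟨⟨α, β, ρ, r4.1, hmin', fun l hl => ⟨(r3 l hl).1.le, (r3 l hl).2.le⟩,
    fun α' β' a b => ?_⟩⟩
  refine eq_of_subset_of_ncard_le (r2 (y := (α', β')) ?_) (hmin' _ _) (L.finite_Lab hℓ _ _)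
  rw [Prod.dist_eq, Real.dist_eq, Real.dist_eq]
  exact max_lt (a.trans r4.2) (b.trans r4.2)

variable {L}

/-- Points whose backward orbit under the inflation visits the box infinitely often have
small fibres. -/
lemma Box.encard_le (Q : L.Box) (hc : 1 < c) {α β : ℝ}
    (h : ∃ᶠ k in atTop, ∃ v, |α / c ^ k + L.a v - Q.α| < Q.ρ ∧
      |β / L.c' ^ k + L.b v - Q.β| < Q.ρ) :
    (L.K α β).encard ≤ (L.Lab Q.α Q.β).ncard := by
  classical
  have := D.nonempty_alph
  obtain ⟨l₀, l₁, h0, h1, h2⟩ := exists_len_bounds hℓ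
  by_contra hh
  obtain ⟨s, hs, hs'⟩ := exists_subset_encard_eq (Order.add_one_le_of_lt (not_le.1 hh))
  have hsf : s.Finite := finite_of_encard_eq_coe (k := _ + 1) (by exact_mod_cast hs')
  have hR : ∀ᶠ R : ℕ in atTop, ∀ y ∈ s, ∀ y' ∈ s,
      (∀ i : ℤ, |i| ≤ R → y.1.1 i = y'.1.1 i) → y = y' := by
    simp only [eventually_all_finite hsf]
    intro y hy y' hy'
    by_cases e : y = y'
    · exact Eventually.of_forall fun _ _ => e
    · have : y.1.1 ≠ y'.1.1 := fun e' =>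
        e (L.eq_of_fst (Subtype.ext e') ((hs hy).1.trans (hs hy').1.symm))
      obtain ⟨i, hi⟩ := Function.ne_iff.1 this
      filter_upwards [eventually_ge_atTop i.natAbs] with R hR h
      exact absurd (h i (by rw [Int.abs_eq_natAbs]; exact_mod_cast hR)) hi
  obtain ⟨R, hR⟩ := hR.exists
  have hk : ∀ᶠ k : ℕ in atTop, l₁ * (R + 1) ≤ c ^ k * Q.ρ :=
    ((tendsto_pow_atTop_atTop_of_one_lt hc).atTop_mul_const Q.ρ_pos).eventually_ge_atTop _
  obtain ⟨k, ⟨v, v1, v2⟩, hk⟩ := (h.and_eventually hk).exists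
  have hck : 0 < c ^ k := pow_pos (by linarith) k
  have key : ∀ y ∈ s, ∃ (y' : D.X × Γ) (n : ℤ), y.1 = D.τ n ((σ.pow k).T y'.1) ∧
      L.p y = c ^ k * L.p y' + pos ℓ ((σ.pow k).T y'.1).1 n ∧
      y' ∈ L.K (α / c ^ k) (β / L.c' ^ k) := by
    intro y hy
    obtain ⟨y', n, e1, e2, e3⟩ := L.desub_pow k y
    obtain ⟨j, hj⟩ := L.exists_K hℓ y' (α / c ^ k)
    refine ⟨L.s j y', n - (σ.pow k).cc y'.1.1 j, ?_, ?_, ?_⟩
    · simp only [Lift.s, DSub.T_τ, τ_τ, add_sub_cancel]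
      exact e1
    · have e4 := pos_add ℓ ((σ.pow k).T y'.1).1 ((σ.pow k).cc y'.1.1 j) (n - (σ.pow k).cc y'.1.1 j)
      rw [add_sub_cancel, DSub.T_val, RSub.pos_S] at e4
      rw [e2, p_s]
      simp only [Lift.s, τ_val, DSub.T_val, RSub.S_sh, e4]
      ring
    · rw [← (hs hy).1, e3, mul_div_cancel_left₀ _ (pow_ne_zero k L.c'_ne)]
      exact hj
  choose! f n hf1 hf2 hf3 using key
  have hmap : ∀ y ∈ s, L.lab ((f y).1, (f y).2 + v) ∈ L.Lab Q.α Q.β := fun y hy => by
    rw [← Q.const _ _ v1 v2]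
    exact ⟨_, L.tr_mem_K (hf3 y hy) v, rfl⟩
  obtain ⟨y, hy, y', hy', hne, he⟩ := exists_ne_map_eq_of_encard_lt_of_maps_to
    (s := s) (t := L.Lab Q.α Q.β) (by
      rw [hs', ← (L.finite_Lab hℓ _ _).cast_ncard_eq]
      exact_mod_cast Nat.lt_succ_self _) hmap
  apply hne
  have e1 : (f y).1.1 0 = (f y').1.1 0 := congrArg Prod.fst he
  have e2 : L.p (f y) = L.p (f y') := by
    have := congrArg Prod.snd he
    simp only [lab, p, map_add] at this ⊢
    linarith
  have bnd : ∀ y ∈ s, (R : ℤ) < n y ∧ n y + R + 1 < (σ.pow k).r (f y).1.1 ∧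
      pos ℓ ((σ.pow k).T (f y).1).1 (n y) ≤ α - c ^ k * L.p (f y) ∧
      α - c ^ k * L.p (f y) < pos ℓ ((σ.pow k).T (f y).1).1 (n y + 1) := by
    intro y hy
    obtain ⟨-, b1, b2⟩ := hs hy
    obtain ⟨b3, b4⟩ := Q.inner _ (hmap y hy)
    simp only [lab, p, map_add] at b3 b4
    have b5 := abs_lt.1 v1
    have b6 : α = c ^ k * (α / c ^ k) := by field_simp
    have b7 := (σ.pow k).len (f y).1.1
    have b8 : y.1.1 0 = ((σ.pow k).T (f y).1).1 (n y) := by rw [hf1 y hy]; simp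
    rw [hf2 y hy, b8] at b2
    rw [hf2 y hy] at b1
    have b9 : c ^ k * Q.ρ < α - c ^ k * L.p (f y) := by
      rw [b6, ← mul_sub]
      refine mul_lt_mul_of_pos_left ?_ hck
      simp only [p]
      linarith
    have b10 : α - c ^ k * L.p (f y) < c ^ k * ℓ ((f y).1.1 0) - c ^ k * Q.ρ := by
      rw [b6, ← mul_sub, ← mul_sub]
      refine mul_lt_mul_of_pos_left ?_ hck
      simp only [p]
      linarith
    have hl1 : 0 < l₁ := (hℓ _).trans_le (h2 (y.1.1 0))
    rw [pos_succ]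
    refine ⟨?_, ?_, by linarith, by linarith⟩
    · by_contra hn
      have t1 := (pos_strictMono hℓ ((σ.pow k).T (f y).1).1).monotone
        (show n y + 1 ≤ R + 1 by omega)
      have t2 := isum_sub_le (f := fun i => ℓ (((σ.pow k).T (f y).1).1 i)) (fun i => h2 _)
        (m := 0) (n := R + 1) (by omega)
      rw [pos_succ] at t1
      simp only [isum_zero, Int.cast_zero, sub_zero] at t2
      change pos ℓ _ _ ≤ _ at t2
      push_cast at t2
      linarith
    · by_contra hn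
      have t1 := (pos_strictMono hℓ ((σ.pow k).T (f y).1).1).monotone (not_lt.1 hn)
      have t2 := isum_sub_le (f := fun i => ℓ (((σ.pow k).T (f y).1).1 i)) (fun i => h2 _)
        (m := n y) (n := n y + R + 1) (by omega)
      change pos ℓ _ _ - pos ℓ _ _ ≤ _ at t2
      push_cast at t2
      rw [DSub.T_val, b7] at t1
      rw [DSub.T_val] at t2 b1
      have : l₁ * ((n y : ℝ) + R + 1 - n y) = l₁ * (R + 1) := by ring
      linarith
  obtain ⟨a1, a2, a3, a4⟩ := bnd y hy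
  obtain ⟨a5, a6, a7, a8⟩ := bnd y' hy'
  have ag := (σ.pow k).loc _ _ e1
  have hn : n y = n y' := by
    refine idx_unique (pos_strictMono hℓ ((σ.pow k).T (f y').1).1) ?_ ?_ a7 a8
    · rw [← e2, DSub.T_val, ← pos_congr ℓ (x := (σ.pow k).S (f y).1.1) fun i a b =>
        ag i (by omega) (by omega)]
      exact a3
    · rw [← e2, DSub.T_val, ← pos_congr ℓ (x := (σ.pow k).S (f y).1.1) fun i a b =>
        ag i (by omega) (by omega)]
      exact a4
  refine hR y hy y' hy' fun i hi => ?_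
  rw [hf1 y hy, hf1 y' hy', ← hn]
  rw [abs_le] at hi
  exact ag (i + n y) (by omega) (by omega)

end Lift

end Pool.Agent.MP_4168de_an

end
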