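import Pool.Agent.Mg.F4168de.Gfd1a75

section

/-! Existence of the linear data. -/

namespace Pool.Agent.MP_4168de_an.G

open Polynomial Matrix Module

section

variable {K : Type} [Field K] {d : ℕ}

lemma left_Lin (M : Matrix (Fin d) (Fin d) K) (z : K) :
    (∃ φ ≠ 0, φ ᵥ* M = z • φ) ↔ M.charpoly.IsRoot z := by
  rw [IsRoot.def, Matrix.eval_charpoly, ← Matrix.exists_vecMul_eq_zero_iff]
  refine exists_congr fun φ => and_congr_right fun _ => ?_
  have h : φ ᵥ* Matrix.scalar (Fin d) z = z • φ := by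
    ext j
    simp [Matrix.scalar_apply, Matrix.vecMul_diagonal, mul_comm]
  rw [Matrix.vecMul_sub, h, sub_eq_zero, eq_comm]

lemma right_Lin (M : Matrix (Fin d) (Fin d) K) (z : K) (h : M.charpoly.IsRoot z) :
    ∃ v ≠ 0, M *ᵥ v = z • v := by
  rw [← Matrix.charpoly_transpose, ← left_Lin] at h
  simpa only [Matrix.vecMul_transpose] using h

lemma unit_Lin (p : ℤ[X]) (hp : p.Monic) (h0 : IsUnit (p.coeff 0)) {z : K} (hz : aeval z p = 0) :
    IsIntegral ℤ z⁻¹ := by
  have h1 : IsIntegral ℤ z := ⟨p, hp, hz⟩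
  have h2 : IsIntegral ℤ (aeval z p.divX) :=
    adjoin_le_integralClosure h1 (aeval_mem_adjoin_singleton ℤ z)
  have h3 := congrArg (aeval z) (divX_mul_X_add p)
  rw [hz, map_add, map_mul, aeval_X, aeval_C] at h3
  rcases Int.isUnit_iff.1 h0 with h | h
  · rw [h, map_one] at h3
    have h4 : -aeval z p.divX = z⁻¹ := eq_inv_of_mul_eq_one_left (by linear_combination -h3)
    exact h4 ▸ h2.neg
  · rw [h, map_neg, map_one] at h3
    have h4 : aeval z p.divX = z⁻¹ := eq_inv_of_mul_eq_one_left (by linear_combination h3)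
    exact h4 ▸ h2

lemma inv_sub_Lin {V : Type} [AddCommGroup V] [Module K V] [FiniteDimensional K V]
    (T : Module.End K V) (hT : Irreducible T.charpoly) (W : Submodule K V)
    (hW : ∀ x ∈ W, T x ∈ W) (hne : W ≠ ⊤) : W = ⊥ := by
  have hpow : ∀ (n : ℕ) (w : W), (((T.restrict hW ^ n) w : W) : V) = (T ^ n) w := by
    intro n
    induction n with
    | zero => intro w; rfl
    | succ n ih =>
      intro w
      rw [pow_succ, pow_succ, Module.End.mul_apply, Module.End.mul_apply, ih]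
      rfl
  have key : ∀ (q : K[X]) (w : W), ((aeval (T.restrict hW) q w : W) : V) = aeval T q w := by
    intro q w
    induction q using Polynomial.induction_on' with
    | add p q hp hq => simp [hp, hq]
    | monomial n a => simp [aeval_monomial, hpow]
  have h1 : ¬ T.charpoly ∣ LinearMap.charpoly (T.restrict hW) := by
    intro h
    have h2 := natDegree_le_of_dvd h (LinearMap.charpoly_monic _).ne_zero
    rw [LinearMap.charpoly_natDegree, LinearMap.charpoly_natDegree] at h2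
    exact absurd (Submodule.finrank_lt hne) (not_lt.2 h2)
  obtain ⟨a, b, hab⟩ := hT.coprime_iff_not_dvd.2 h1
  rw [eq_bot_iff]
  intro w hw
  have h3 := key (LinearMap.charpoly (T.restrict hW)) ⟨w, hw⟩
  rw [LinearMap.aeval_self_charpoly] at h3
  have h4 := congrArg (fun q => aeval T q w) hab
  simp only [map_add, map_mul, map_one, LinearMap.add_apply, Module.End.mul_apply,
    LinearMap.aeval_self_charpoly, Module.End.one_apply] at h4
  have h5 : aeval T (LinearMap.charpoly (T.restrict hW)) w = 0 := h3.symm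
  rw [h5] at h4
  simpa using h4.symm

lemma dot_Lin (M : Matrix (Fin d) (Fin d) K) {φ : Fin d → K} {z : K} (h : φ ᵥ* M = z • φ)
    (y : Fin d → K) : φ ⬝ᵥ (M *ᵥ y) = z * (φ ⬝ᵥ y) := by
  rw [Matrix.dotProduct_mulVec, h, smul_dotProduct, smul_eq_mul]

lemma sep_Lin {ι : Type} [Fintype ι] (M : Matrix (Fin d) (Fin d) K) (μ : ι → K)
    (hμ : Function.Injective μ) (v : ι → Fin d → K) (h0 : ∀ i, v i ≠ 0)
    (hv : ∀ i, v i ᵥ* M = μ i • v i) (hc : Fintype.card ι = d) (y : Fin d → K)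
    (hy : ∀ i, v i ⬝ᵥ y = 0) : y = 0 := by
  have h1 : LinearIndependent K v :=
    Module.End.eigenvectors_linearIndependent' (Matrix.vecMulLinear M) μ hμ v fun i =>
      ⟨Module.End.mem_eigenspace_iff.2 (hv i), h0 i⟩
  have h2 := h1.span_eq_top_of_card_eq_finrank' (by simpa using hc)
  let g : (Fin d → K) →ₗ[K] K :=
    { toFun := fun w => w ⬝ᵥ y
      map_add' := fun a b => add_dotProduct a b y
      map_smul' := fun a b => smul_dotProduct a b y }
  have h3 : g = 0 := LinearMap.ext_on_range h2 hy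
  ext i
  have h4 : Pi.single i 1 ⬝ᵥ y = 0 := LinearMap.congr_fun h3 (Pi.single i 1)
  simpa using h4

end

lemma uinj_Lin {d : ℕ} (B : Matrix (Fin d) (Fin d) ℤ) (u : Fin d → ℝ) (c : ℝ) (hu : u ≠ 0)
    (h : u ᵥ* B.map (Int.cast : ℤ → ℝ) = c • u)
    (hirr : Irreducible (B.map (Int.cast : ℤ → ℚ)).charpoly) (v : Lat d)
    (hv : u ⬝ᵥ toR v = 0) : v = 0 := by
  let g : (Fin d → ℚ) →ₗ[ℚ] ℝ :=
    { toFun := fun w => u ⬝ᵥ fun i => (w i : ℝ)
      map_add' := fun a b => by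
        simp only [Pi.add_apply, Rat.cast_add]
        exact dotProduct_add u _ _
      map_smul' := fun a b => by
        simp only [Pi.smul_apply, smul_eq_mul, Rat.cast_mul, RingHom.id_apply, Rat.smul_def,
          dotProduct, Finset.mul_sum]
        exact Finset.sum_congr rfl fun i _ => by ring }
  have h1 := inv_sub_Lin (Matrix.toLin' (B.map (Int.cast : ℤ → ℚ)))
    (by rwa [Matrix.charpoly_toLin']) (LinearMap.ker g) (fun x hx => by
      have e : (fun i => (((B.map (Int.cast : ℤ → ℚ) *ᵥ x) i : ℚ) : ℝ)) =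
          B.map (Int.cast : ℤ → ℝ) *ᵥ fun i => (x i : ℝ) := by
        ext i
        simp [Matrix.mulVec, dotProduct]
      have hx' : u ⬝ᵥ (fun i => (x i : ℝ)) = 0 := hx
      change u ⬝ᵥ (fun i => (((B.map (Int.cast : ℤ → ℚ) *ᵥ x) i : ℚ) : ℝ)) = 0
      rw [e, dot_Lin _ h, hx', mul_zero]) (fun e => hu (by
      ext i
      have h2 : Pi.single i (1 : ℚ) ∈ LinearMap.ker g := e ▸ Submodule.mem_top
      have h3 : u ⬝ᵥ (fun j => ((Pi.single i (1 : ℚ) : Fin d → ℚ) j : ℝ)) = 0 := h2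
      simpa [dotProduct, Pi.single_apply, apply_ite] using h3))
  have h4 : (fun i => (v i : ℚ)) ∈ LinearMap.ker g := by
    change u ⬝ᵥ (fun i => (((v i : ℤ) : ℚ) : ℝ)) = 0
    simp only [Rat.cast_intCast]
    exact hv
  rw [h1, Submodule.mem_bot] at h4
  ext i
  have h5 : ((v i : ℤ) : ℚ) = 0 := congrFun h4 i
  exact_mod_cast h5

lemma psi_Lin {d e : ℕ} (hd : e + 1 = d) (M : Matrix (Fin d) (Fin d) ℝ) (hM : M.det ≠ 0)
    (u e0 : Fin d → ℝ) (c : ℝ) (h : u ᵥ* M = c • u) (h0 : M *ᵥ e0 = c • e0) (h1 : u ⬝ᵥ e0 = 1) :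
    ∃ (Ψ : (ℝ × (Fin e → ℝ)) ≃L[ℝ] (Fin d → ℝ)) (B' : (Fin e → ℝ) ≃L[ℝ] (Fin e → ℝ)),
      (∀ y, (Ψ.symm y).1 = u ⬝ᵥ y) ∧ ∀ y, (Ψ.symm (M *ᵥ y)).2 = B' (Ψ.symm y).2 := by
  let f : (Fin d → ℝ) →ₗ[ℝ] ℝ :=
    { toFun := fun y => u ⬝ᵥ y
      map_add' := dotProduct_add u
      map_smul' := fun a b => dotProduct_smul a u b }
  have hf : ∀ y, f y = u ⬝ᵥ y := fun _ => rfl
  have hr : LinearMap.range f = ⊤ := LinearMap.range_eq_top.2 fun t =>
    ⟨t • e0, by rw [map_smul, hf, h1, smul_eq_mul, mul_one]⟩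
  have hk : finrank ℝ (LinearMap.ker f) = e := by
    have := f.finrank_range_add_finrank_ker
    rw [hr, finrank_top, finrank_self, finrank_fin_fun] at this
    omega
  let j : LinearMap.ker f ≃ₗ[ℝ] (Fin e → ℝ) :=
    LinearEquiv.ofFinrankEq _ _ (by rw [hk, finrank_fin_fun])
  let pr : (Fin d → ℝ) →ₗ[ℝ] LinearMap.ker f :=
    LinearMap.codRestrict _ (LinearMap.id - f.smulRight e0) fun y => by
      simp [hf e0, h1]
  have hpr : ∀ y, (pr y : Fin d → ℝ) = y - f y • e0 := fun _ => rfl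
  let Θ : (Fin d → ℝ) →ₗ[ℝ] ℝ × (Fin e → ℝ) := f.prod (j.toLinearMap ∘ₗ pr)
  have hΘ : Function.Injective Θ := by
    rw [injective_iff_map_eq_zero]
    intro y hy
    have e1 : f y = 0 := congrArg Prod.fst hy
    have e2 : j (pr y) = 0 := congrArg Prod.snd hy
    have e3 := hpr y
    rw [j.map_eq_zero_iff.1 e2, e1, zero_smul, sub_zero] at e3
    exact e3.symm
  have hinv : ∀ x ∈ LinearMap.ker f, Matrix.toLin' M x ∈ LinearMap.ker f := fun x hx => by
    rw [LinearMap.mem_ker, hf] at hx ⊢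
    rw [Matrix.toLin'_apply, dot_Lin _ h, hx, mul_zero]
  let T : (Fin e → ℝ) →ₗ[ℝ] (Fin e → ℝ) :=
    j.toLinearMap ∘ₗ (Matrix.toLin' M).restrict hinv ∘ₗ j.symm.toLinearMap
  have hT : Function.Injective T := by
    rw [injective_iff_map_eq_zero]
    intro y hy
    have e1 : (Matrix.toLin' M).restrict hinv (j.symm y) = 0 := j.map_eq_zero_iff.1 hy
    have e2 : M *ᵥ (j.symm y : Fin d → ℝ) = 0 := congrArg Subtype.val e1
    have e3 : j.symm y = 0 := Subtype.ext (Matrix.eq_zero_of_mulVec_eq_zero hM e2)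
    exact j.symm.map_eq_zero_iff.1 e3
  refine ⟨(Θ.linearEquivOfInjective hΘ (by simp [← hd, add_comm])).symm.toContinuousLinearEquiv,
    (T.linearEquivOfInjective hT rfl).toContinuousLinearEquiv, fun y => rfl, fun y => ?_⟩
  change j (pr (M *ᵥ y)) = j ((Matrix.toLin' M).restrict hinv (j.symm (j (pr y))))
  rw [j.symm_apply_apply]
  congr 1
  apply Subtype.ext
  change M *ᵥ y - f (M *ᵥ y) • e0 = M *ᵥ (y - f y • e0)
  rw [Matrix.mulVec_sub, Matrix.mulVec_smul, h0, hf, hf, dot_Lin _ h, smul_smul, mul_comm]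

theorem lin_stmt : LinStmt := by
  classical
  intro d d' B u c hc hd hB hu huB
  have hmap : ∀ (K : Type) [Field K], (B.map (Int.cast : ℤ → K)).charpoly =
      B.charpoly.map (algebraMap ℤ K) := fun K _ => Matrix.charpoly_map B (algebraMap ℤ K)
  have hroot : ∀ (K : Type) [Field K] (z : K), (B.map (Int.cast : ℤ → K)).charpoly.IsRoot z ↔
      aeval z B.charpoly = 0 := fun K _ z => by rw [hmap, IsRoot.def, eval_map_algebraMap]
  have hdet : ∀ (K : Type) [Field K], (B.map (Int.cast : ℤ → K)).det = (B.det : K) :=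
    fun K _ => ((Int.castRingHom K).map_det B).symm
  have r1 := (left_Lin _ c).1 ⟨u, hu, huB⟩
  have r2 := (hroot ℝ c).1 r1
  have hcQ : IsIntegral ℚ c := hc.int.tower_top
  have hmin : (B.map (Int.cast : ℤ → ℚ)).charpoly = minpoly ℚ c := by
    refine eq_of_monic_of_dvd_of_natDegree_le (minpoly.monic hcQ) (Matrix.charpoly_monic _)
      (minpoly.dvd ℚ c ?_) ?_
    · rw [hmap, aeval_map_algebraMap, r2]
    · rw [Matrix.charpoly_natDegree_eq_dim, Fintype.card_fin, hc.deg]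
      exact hd
  have hirr : Irreducible (B.map (Int.cast : ℤ → ℚ)).charpoly := hmin ▸ minpoly.irreducible hcQ
  set P := (B.map (Int.cast : ℤ → ℂ)).charpoly with hP
  have hPQ : P = (minpoly ℚ c).map (algebraMap ℚ ℂ) := by
    rw [← hmin, hP, hmap, hmap, Polynomial.map_map, ← IsScalarTower.algebraMap_eq]
  have hP0 : P ≠ 0 := (Matrix.charpoly_monic _).ne_zero
  have hnd : P.roots.Nodup := nodup_roots (hPQ ▸ (minpoly.irreducible hcQ).separable.map)
  have hcard : P.roots.card = d := by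
    rw [← (IsAlgClosed.splits P).natDegree_eq_card_roots, hP, Matrix.charpoly_natDegree_eq_dim,
      Fintype.card_fin]
  have huC : (fun i => (u i : ℂ)) ᵥ* B.map (Int.cast : ℤ → ℂ) = (c : ℂ) • fun i => (u i : ℂ) := by
    ext j
    have := congrArg (fun x : ℝ => (x : ℂ)) (congrFun huB j)
    simpa [Matrix.vecMul, dotProduct] using this
  have huC0 : (fun i => (u i : ℂ)) ≠ 0 := fun e => hu (by
    ext i
    simpa using congrFun e i)
  have hcP : (c : ℂ) ∈ P.roots := (mem_roots hP0).2 ((left_Lin _ _).1 ⟨_, huC0, huC⟩)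
  let F : Finset ℂ := ⟨P.roots.erase c, hnd.erase _⟩
  have hF : F.card + 1 = d := by
    rw [← hcard]
    exact Multiset.card_erase_add_one hcP
  let lam : Fin F.card → ℂ := fun j => F.equivFin.symm j
  have hlam : ∀ j, lam j ≠ c ∧ lam j ∈ P.roots := fun j =>
    hnd.mem_erase_iff.1 (F.equivFin.symm j).2
  have hinj : Function.Injective lam := Subtype.val_injective.comp F.equivFin.symm.injective
  choose φ φ0 φB using fun j => (left_Lin _ _).2 ((mem_roots hP0).1 (hlam j).2)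
  have hsep : ∀ y : Fin d → ℂ, (fun i => (u i : ℂ)) ⬝ᵥ y = 0 → (∀ j, φ j ⬝ᵥ y = 0) → y = 0 := by
    intro y h1 h2
    refine sep_Lin (ι := Option (Fin F.card)) (B.map (Int.cast : ℤ → ℂ))
      (fun o => o.elim (c : ℂ) lam) ?_ (fun o => o.elim (fun i => (u i : ℂ)) φ) ?_ ?_
      (by simpa using hF) y ?_
    · rintro (_ | a) (_ | b) hab
      · rfl
      · exact absurd hab.symm (hlam b).1
      · exact absurd hab (hlam a).1
      · exact congrArg some (hinj hab)
    · rintro (_ | a)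
      exacts [huC0, φ0 a]
    · rintro (_ | a)
      exacts [huC, φB a]
    · rintro (_ | a)
      exacts [h1, h2 a]
  have hprod : c * ∏ j, ‖lam j‖ = 1 := by
    have e1 : ∏ j, lam j = (P.roots.erase c).prod := by
      rw [show ∏ j, lam j = ∏ z : F, (z : ℂ) from
        F.equivFin.symm.prod_comp (fun z : F => (z : ℂ)), Finset.prod_coe_sort F fun z => z]
      exact (Finset.prod_val F).symm
    have e2 := Matrix.det_eq_prod_roots_charpoly (B.map (Int.cast : ℤ → ℂ))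
    rw [← hP, ← Multiset.prod_erase hcP, ← e1, hdet] at e2
    have e3 := congrArg norm e2
    rw [norm_mul, norm_prod, Complex.norm_real, Real.norm_of_nonneg (by linarith [hc.one_lt])] at e3
    rw [← e3]
    rcases Int.isUnit_iff.1 hB with h | h <;> simp [h]
  have he : 0 < F.card := by
    by_contra h
    have h0 : F.card = 0 := by omega
    haveI : IsEmpty (Fin F.card) := h0 ▸ inferInstance
    rw [Fintype.prod_empty, mul_one] at hprod
    exact hc.one_lt.ne' hprod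
  have hp0 : IsUnit (B.charpoly.coeff 0) := by
    rw [Matrix.det_eq_sign_charpoly_coeff] at hB
    exact isUnit_of_mul_isUnit_right hB
  obtain ⟨e1, e10, e1B⟩ := right_Lin _ c r1
  have hue : u ⬝ᵥ e1 ≠ 0 := by
    intro h
    have e1C : B.map (Int.cast : ℤ → ℂ) *ᵥ (fun i => (e1 i : ℂ)) =
        (c : ℂ) • fun i => (e1 i : ℂ) := by
      ext j
      have := congrArg (fun x : ℝ => (x : ℂ)) (congrFun e1B j)
      simpa [Matrix.mulVec, dotProduct] using this
    have h1 := hsep (fun i => (e1 i : ℂ)) (by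
      have := congrArg (fun x : ℝ => (x : ℂ)) h
      simpa [dotProduct] using this) fun j => by
      have h2 := dot_Lin _ (φB j) (fun i => (e1 i : ℂ))
      rw [e1C, dotProduct_smul, smul_eq_mul] at h2
      exact (mul_eq_mul_right_iff.1 h2).resolve_left (hlam j).1.symm
    exact e10 (by
      ext i
      simpa using congrFun h1 i)
  obtain ⟨Ψ, B', h1, h2⟩ := psi_Lin hF (B.map (Int.cast : ℤ → ℝ))
    (by rw [hdet]; exact_mod_cast hB.ne_zero) u ((u ⬝ᵥ e1)⁻¹ • e1) c huB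
    (by rw [Matrix.mulVec_smul, e1B, smul_comm])
    (by rw [dotProduct_smul, smul_eq_mul, inv_mul_cancel₀ hue])
  exact ⟨F.card, ⟨⟨he, Ψ, B', h1, h2, uinj_Lin B u c hu huB hirr, φ, lam, φB, hsep,
    fun j => hc.conj _ (by rw [aroots_def, ← hPQ]; exact (hlam j).2) (hlam j).1, hprod,
    fun j => unit_Lin _ (Matrix.charpoly_monic B) hp0
      ((hroot ℂ _).1 ((mem_roots hP0).1 (hlam j).2)),
    unit_Lin _ (Matrix.charpoly_monic B) hp0 r2⟩⟩⟩

end Pool.Agent.MP_4168de_an.G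

end

section

/-! The first homology of the graph of letters and the lifted substitution. -/

namespace Pool.Agent.MP_4168de_an.G

open Set Filter Topology Shift Matrix

lemma lin_Graph {ι G : Type} [Fintype ι] [DecidableEq ι] [AddCommGroup G]
    (φ : (ι → ℤ) →ₗ[ℤ] G) (v : ι → ℤ) : φ v = ∑ i, v i • φ (Pi.single i 1) := by
  conv_lhs => rw [← Finset.univ_sum_single v]
  rw [map_sum]
  refine Finset.sum_congr rfl fun i _ => ?_
  rw [← map_smul, ← Pi.single_smul', smul_eq_mul, mul_one]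

lemma ext_Graph {ι G : Type} [Fintype ι] [DecidableEq ι] [AddCommGroup G]
    (φ ψ : (ι → ℤ) →ₗ[ℤ] G) (h : ∀ i, φ (Pi.single i 1) = ψ (Pi.single i 1)) (v : ι → ℤ) :
    φ v = ψ v := by
  rw [lin_Graph φ, lin_Graph ψ]
  simp only [h]

lemma comb_Graph {ι G : Type} [Fintype ι] [DecidableEq ι] [AddCommGroup G] (g : ι → G) (i : ι) :
    Fintype.linearCombination ℤ g (Pi.single i 1) = g i := by
  rw [Fintype.linearCombination_apply_single, one_smul]

lemma core_Graph {A : Type} [Fintype A] (bd Pl : (A → ℤ) →ₗ[ℤ] (A → ℤ))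
    (h : ∀ v, bd (Pl (bd v)) = bd v) :
    ∃ (d : ℕ) (co : (A → ℤ) →ₗ[ℤ] Lat d) (em : Lat d →ₗ[ℤ] (A → ℤ)), (∀ z, co (em z) = z) ∧
      (∀ z, bd (em z) = 0) ∧ ∀ v, em (co v) = v - Pl (bd v) := by
  obtain ⟨d, b⟩ := Submodule.basisOfPid (Pi.basisFun ℤ A) (LinearMap.ker bd)
  have h1 : ∀ v, (LinearMap.id - Pl ∘ₗ bd : (A → ℤ) →ₗ[ℤ] (A → ℤ)) v ∈ LinearMap.ker bd :=
    fun v => by simp [h]
  refine ⟨d, b.equivFun.toLinearMap ∘ₗ LinearMap.codRestrict _ _ h1,
    (LinearMap.ker bd).subtype ∘ₗ b.equivFun.symm.toLinearMap, fun z => ?_,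
    fun z => (b.equivFun.symm z).2, fun v => ?_⟩
  · have h2 : bd (b.equivFun.symm z) = 0 := (b.equivFun.symm z).2
    refine (LinearEquiv.eq_symm_apply b.equivFun).1 (Subtype.ext ?_)
    change (b.equivFun.symm z : A → ℤ) - Pl (bd (b.equivFun.symm z)) = _
    rw [h2, map_zero, sub_zero]
  · exact congrArg Subtype.val (b.equivFun.symm_apply_apply ⟨_, h1 v⟩)

lemma comap_Graph {A : Type} [Fintype A] (g : (A → ℤ) →ₗ[ℤ] (A → ℤ))
    (hg : Function.Surjective g) (Γ : Submodule ℤ (A → ℤ)) (h : Γ ≤ Γ.comap g) :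
    Γ.comap g ≤ Γ := by
  have h1 : Function.Surjective (Γ.mapQ Γ g h) := fun y => by
    obtain ⟨v, rfl⟩ := Γ.mkQ_surjective y
    obtain ⟨z, rfl⟩ := hg v
    exact ⟨Γ.mkQ z, rfl⟩
  intro v hv
  refine (Submodule.Quotient.mk_eq_zero Γ).1
    (IsNoetherian.injective_of_surjective_endomorphism _ h1 ?_)
  rw [map_zero, Submodule.mapQ_apply]
  exact (Submodule.Quotient.mk_eq_zero Γ).2 hv

section

variable {A : Type} [TopologicalSpace A] {D : Shift A} {ℓ : A → ℝ} {c : ℝ}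

lemma exists_f_Graph (σ : DSub D ℓ c) (V : Vert D) (occ : ∀ a, ∃ x : D.X, x.1 0 = a) :
    ∃ f : A → A, ∀ x : D.X, V.st ((σ.T x).1 0) = f (V.st (x.1 0)) := by
  choose X hX using occ
  have h0 : ∀ x : D.X, (σ.T (X (x.1 0))).1 0 = (σ.T x).1 0 := fun x =>
    σ.loc _ _ (hX _) 0 le_rfl (by linarith [σ.r_pos (X (x.1 0)).1])
  have h1 : ∀ x : D.X, V.st ((σ.T (D.τ 1 x)).1 0) = V.en (σ.S x.1 (σ.r x.1 - 1)) := fun x => by
    have := V.st_en (D.τ (σ.r x.1 - 1) (σ.T x))
    simp only [τ_val, sh_apply, DSub.T_val, zero_add, add_sub_cancel] at this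
    rw [this, σ.T_τ]
    simp
  obtain ⟨f, hf, -⟩ := V.univ A (fun a => V.st ((σ.T (X a)).1 0))
    (fun a => V.st ((σ.T (D.τ 1 (X a))).1 0)) fun x => by
      have e : x.1 1 = (D.τ 1 x).1 0 := by simp
      rw [e, h0, h1, h1, σ.loc _ _ (hX (x.1 0)) _ (by linarith [σ.r_pos (X (x.1 0)).1])
        (by linarith), σ.r_loc _ _ (hX (x.1 0))]
  exact ⟨f, fun x => by rw [hf, h0]⟩

lemma exists_n_Graph (st : A → A) (occ : ∀ a, ∃ x : D.X, x.1 0 = a) (x₀ : D.X) :
    ∃ n : A → ℤ, (∀ a, st (x₀.1 (n (st a))) = st a) ∧ n (st (x₀.1 0)) = 0 := by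
  have h : ∀ p, ∃ m : ℤ, (∀ a, p = st a → st (x₀.1 m) = p) ∧ (p = st (x₀.1 0) → m = 0) := by
    intro p
    by_cases h1 : p = st (x₀.1 0)
    · exact ⟨0, fun _ _ => h1.symm, fun _ => rfl⟩
    by_cases h2 : ∃ a, p = st a
    · obtain ⟨a, rfl⟩ := h2
      obtain ⟨y, rfl⟩ := occ a
      obtain ⟨m, hm⟩ := D.min x₀.1 x₀.2 y.1 y.2 0
      have := hm 0 (by simp)
      rw [zero_add] at this
      exact ⟨m, fun _ _ => by rw [this], fun h => absurd h h1⟩
    · exact ⟨0, fun a ha => absurd ⟨a, ha⟩ h2, fun _ => rfl⟩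
  choose n h1 h2 using h
  exact ⟨n, fun a => h1 _ a rfl, h2 _ rfl⟩

variable [Fintype A] [DecidableEq A]

lemma star_Graph {σ : DSub D ℓ c} {M : Matrix A A ℤ} (h : HasMat σ.toRSub M) {G : Type}
    [AddCommGroup G] (φ : (A → ℤ) →ₗ[ℤ] G) (x : D.X) :
    φ (M *ᵥ Pi.single (x.1 0) 1) = σ.star (fun y => φ (Pi.single (y.1 0) 1)) x := by
  have := h.isum_eq (fun b => φ (Pi.single b 1)) x.1
  rw [lin_Graph φ]
  simp only [DSub.star, bs, τ_val, sh_apply, DSub.T_val, zero_add, this, mulVec_single_one,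
    col_apply]

end

theorem graph_stmt (hV : VertStmt) (hC : CobStmt) : GraphStmt := by
  intro A _ _ _ _ D ℓ c σ M d' hℓ hc occ hr hM hdet hrk
  obtain ⟨V⟩ := hV A D occ
  obtain ⟨f, hf⟩ := exists_f_Graph σ V occ
  obtain ⟨x₀⟩ : Nonempty D.X := inferInstance
  obtain ⟨n, hn, hn0⟩ := exists_n_Graph V.st occ x₀
  have se : ∀ x : D.X, V.en (x.1 0) = V.st ((D.τ 1 x).1 0) := fun x => by simp [V.st_en]
  obtain ⟨bd, hbd⟩ : ∃ bd : (A → ℤ) →ₗ[ℤ] (A → ℤ), ∀ a, bd (Pi.single a 1) =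
      Pi.single (V.en a) 1 - Pi.single (V.st a) 1 := ⟨_, comb_Graph _⟩
  obtain ⟨Pl, hPl⟩ : ∃ Pl : (A → ℤ) →ₗ[ℤ] (A → ℤ), ∀ p, Pl (Pi.single p 1) =
      bs (fun y : D.X => Pi.single (y.1 0) 1) x₀ (n p) := ⟨_, comb_Graph _⟩
  obtain ⟨Fl, hFl⟩ : ∃ Fl : (A → ℤ) →ₗ[ℤ] (A → ℤ), ∀ p, Fl (Pi.single p 1) =
      Pi.single (f p) 1 := ⟨_, comb_Graph _⟩
  obtain ⟨L, hL⟩ : ∃ L : (A → ℤ) →ₗ[ℤ] ℝ, ∀ a, L (Pi.single a 1) = ℓ a := ⟨_, comb_Graph _⟩
  have h1 : ∀ a, bd (Pl (Pi.single (V.st a) 1)) =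
      Pi.single (V.st a) 1 - Pi.single (V.st (x₀.1 0)) 1 := fun a => by
    rw [hPl, map_bs]
    simp only [hbd, se]
    rw [bs_tel (fun y : D.X => (Pi.single (V.st (y.1 0)) 1 : A → ℤ))]
    simp only [τ_val, sh_apply, zero_add, hn]
  have h2 : Pl (Pi.single (V.st (x₀.1 0)) 1) = 0 := by rw [hPl, hn0, bs_zero]
  obtain ⟨d, co, em, ce, be, ec⟩ := core_Graph bd Pl (ext_Graph (bd ∘ₗ Pl ∘ₗ bd) bd fun a => by
    obtain ⟨x, rfl⟩ := occ a
    simp only [LinearMap.comp_apply]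
    rw [hbd, se, map_sub, map_sub, h1, h1, sub_sub_sub_cancel_right])
  have ec' : ∀ v, bd v = 0 → em (co v) = v := fun v hv => by rw [ec, hv, map_zero, sub_zero]
  have h3 : ∀ v, bd (M *ᵥ v) = Fl (bd v) := ext_Graph (bd ∘ₗ M.mulVecLin) (Fl ∘ₗ bd) fun a => by
    obtain ⟨x, rfl⟩ := occ a
    simp only [LinearMap.comp_apply, mulVecLin_apply]
    rw [star_Graph hM]
    simp only [hbd, se]
    rw [σ.star_tel (fun y : D.X => (Pi.single (V.st (y.1 0)) 1 : A → ℤ)), map_sub, hFl, hFl, hf,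
      hf]
  have h4 : ∀ v, L (M *ᵥ v) = c * L v := ext_Graph (L ∘ₗ M.mulVecLin) (c • L) fun a => by
    obtain ⟨x, rfl⟩ := occ a
    simp only [LinearMap.comp_apply, mulVecLin_apply, LinearMap.smul_apply, smul_eq_mul]
    rw [star_Graph hM]
    simp only [hL]
    exact σ.star_len x
  have h5 : ∀ z : Lat d, (fun i => L (em (Pi.single i 1))) ⬝ᵥ toR z = L (em z) := fun z => by
    rw [← LinearMap.comp_apply L em z, lin_Graph]
    simp only [dotProduct, toR, LinearMap.comp_apply, zsmul_eq_mul, mul_comm]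
  have h6 : ∀ z, LinearMap.toMatrix' (co ∘ₗ M.mulVecLin ∘ₗ em) *ᵥ z = co (M *ᵥ em z) :=
    fun z => LinearMap.toMatrix'_mulVec _ z
  have h7 : ∀ z, bd (M *ᵥ em z) = 0 := fun z => by rw [h3, be, map_zero]
  have hw : ∀ (k : ℝ) a, L (Pl (Pi.single (V.en a) 1)) + k
      + (fun i => L (em (Pi.single i 1))) ⬝ᵥ toR (co (Pi.single a 1))
      = L (Pl (Pi.single (V.st a) 1)) + k + ℓ a := fun k a => by
    rw [h5, ec, hbd, map_sub, map_sub, map_sub, hL]
    ring
  refine ⟨d, ?_, ⟨{ V with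
    δ := fun a => co (Pi.single a 1)
    κ := fun p => co (M *ᵥ Pl (Pi.single p 1))
    f := f
    w := fun p => L (Pl (Pi.single p 1)) + L (Pl (Pi.single (f (V.st (x₀.1 0))) 1)) / (c - 1)
    B := LinearMap.toMatrix' (co ∘ₗ M.mulVecLin ∘ₗ em)
    u := fun i => L (em (Pi.single i 1))
    detB := ?_
    u_ne := fun h0 => ?_
    uB := funext fun j => ?_
    hw := hw _
    hf := hf
    hκ := fun x => ?_
    wT := fun x => ?_
    nil := fun M' _ => ⟨0, fun v v1 v2 b => ?_⟩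
    span_δ := eq_top_iff.2 fun z _ => ?_
    base := ⟨x₀, fun a => ⟨n (V.st a), hn a, ?_⟩⟩ }⟩⟩
  · by_contra hd
    have hd' : d' + 1 ≤ d := by omega
    obtain ⟨q, hq, hcob⟩ := hrk (fun i x => (co (Pi.single (x.1 0) 1) (Fin.castLE hd' i) : ℚ))
      fun i => (lc_letter 0).comp fun a => (co (Pi.single a 1) (Fin.castLE hd' i) : ℚ)
    obtain ⟨h, hh⟩ := hC A D ℓ c σ M V occ hr hM hdet.ne_zero
      (fun a => ∑ i, q i * (co (Pi.single a 1) (Fin.castLE hd' i) : ℚ)) hcob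
    refine hq (funext fun j => ?_)
    have := ext_Graph (Fintype.linearCombination ℤ q ∘ₗ LinearMap.funLeft ℤ ℤ (Fin.castLE hd') ∘ₗ
      co) (Fintype.linearCombination ℤ h ∘ₗ bd) (fun a => by
        simp only [LinearMap.comp_apply]
        rw [hbd, map_sub, comb_Graph, comb_Graph, ← hh, Fintype.linearCombination_apply]
        simp only [LinearMap.funLeft_apply, zsmul_eq_mul, mul_comm])
      (em (Pi.single (Fin.castLE hd' j) 1))
    simp only [LinearMap.comp_apply] at this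
    have e : LinearMap.funLeft ℤ ℤ (Fin.castLE hd') (Pi.single (Fin.castLE hd' j) 1)
        = Pi.single j 1 := funext fun i => by simp [Pi.single_apply]
    rwa [ce, be, map_zero, e, comb_Graph] at this
  · rw [← isUnit_iff_isUnit_det, ← mulVec_surjective_iff_isUnit] at hdet ⊢
    intro z
    obtain ⟨v, hv⟩ := hdet (em z)
    have h8 : bd v = 0 := comap_Graph M.mulVecLin hdet (LinearMap.ker bd)
      (fun y hy => show bd (M *ᵥ y) = 0 by rw [h3, show bd y = 0 from hy, map_zero])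
      (show bd (M *ᵥ v) = 0 by rw [hv, be])
    exact ⟨co v, by rw [h6, ec' v h8, hv, ce]⟩
  · refine not_cob_len (D := D) hℓ ⟨fun x => L (Pl (Pi.single (V.st (x.1 0)) 1)),
      (lc_letter 0).comp fun a => L (Pl (Pi.single (V.st a) 1)), fun x => ?_⟩
    have := hw 0 (x.1 0)
    rw [h0, zero_dotProduct, se] at this
    linarith
  · have := h5 (LinearMap.toMatrix' (co ∘ₗ M.mulVecLin ∘ₗ em) *ᵥ Pi.single j 1)
    rw [h6, ec' _ (h7 _), h4, ← h6, mulVec_single_one] at this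
    exact this
  · rw [← star_Graph hM, h6, ec, hbd, map_sub, mulVec_sub, mulVec_sub, map_sub, map_sub]
    abel
  · have h9 : c - 1 ≠ 0 := by linarith
    rw [h5, ec, h3, h1, map_sub, map_sub, map_sub, map_sub, hFl, hFl, h4, hf]
    field_simp
    ring
  · have key : ∀ a, (Pi.single a 1 : A → ℤ) b = ∑ i, em (Pi.single i 1) b * co (Pi.single a 1) i
        + ∑ p, Pl (Pi.single p 1) b * inc V.st V.en p a := fun a => by
      have := congrFun (eq_sub_iff_add_eq.1 (ec (Pi.single a 1))) b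
      rw [← this, lin_Graph em, lin_Graph Pl, hbd]
      simp only [inc, Pi.single_apply, eq_comm, mul_comm, Pi.add_apply, Finset.sum_apply,
        Pi.smul_apply, smul_eq_mul, Pi.sub_apply]
    have e : ∑ a, ((M' ^ 0) b a : ℂ) * v a =
        ∑ a, (((Pi.single a 1 : A → ℤ) b : ℤ) : ℂ) * v a := by
      simp [Pi.single_apply, Matrix.one_apply]
    rw [e]
    simp only [key]
    push_cast
    simp only [add_mul, Finset.sum_add_distrib, Finset.sum_mul, mul_assoc]
    rw [Finset.sum_comm, Finset.sum_comm (f := fun a p => _ * ((inc V.st V.en p a : ℂ) * v a))]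
    simp only [← Finset.mul_sum, v1, v2, mul_zero, Finset.sum_const_zero, add_zero]
  · rw [← ce z, lin_Graph co]
    exact AddSubgroup.sum_mem _ fun a _ =>
      AddSubgroup.zsmul_mem _ (AddSubgroup.subset_closure (mem_range_self a)) _
  · rw [← map_bs co, ← hPl, ← ce (co _), ec, h1, map_sub Pl, h2, sub_zero, sub_self, map_zero]

end Pool.Agent.MP_4168de_an.G

end

section

/-! From the Cech rank `d` to the rank of locally constant functions modulo coboundaries. -/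

namespace Pool.Agent.MP_4168de_an.G

open Set Filter Topology Shift

variable {A : Type} [TopologicalSpace A] [DiscreteTopology A] [Finite A] {D : Shift A}
  {ℓ : A → ℝ}

omit [Finite A] [DiscreteTopology A] in
lemma lc_sum_Cech {ι : Type} (s : Finset ι) (g : ι → D.X → ℚ) (hg : ∀ i, IsLocallyConstant (g i)) :
    IsLocallyConstant fun x => ∑ i ∈ s, g i x := by
  classical
  induction s using Finset.induction_on with
  | empty => exact IsLocallyConstant.const (0 : ℚ)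
  | insert a s ha ih =>
    simp only [Finset.sum_insert ha]
    exact (hg a).add ih

omit [Finite A] [DiscreteTopology A] in
lemma bs_sum_Cech {ι : Type} (s : Finset ι) (g : ι → D.X → ℚ) (x : D.X) (k : ℤ) :
    bs (fun x => ∑ i ∈ s, g i x) x k = ∑ i ∈ s, bs (g i) x k := by
  simp only [bs, isum, Finset.sum_sub_distrib]
  congr 1 <;> exact Finset.sum_comm

theorem rankAt_Cech (hℓ : ∀ a, 0 < ℓ a) {l₁ : ℝ} (h2 : ∀ a, ℓ a ≤ l₁) {Ω : Set (Patch A)}
    (hΩ : Ω = (fun q : (ℤ → A) × ℝ => θ ℓ q.1 q.2) '' (D.X ×ˢ Icc 0 l₁))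
    {d : ℕ} (hr : cechRank Ω = d) : RankAt D d := by
  classical
  have := D.nonempty_alph
  obtain ⟨l₀, -, h0, h1, -⟩ := exists_len_bounds hℓ
  have rep : ∀ T : Ω, ∃ (x : D.X) (t : ℝ), t ∈ Icc 0 l₁ ∧ θ ℓ x.1 t = T := fun T => by
    obtain ⟨q, hq, e⟩ := hΩ.subset T.2
    exact ⟨⟨q.1, hq.1⟩, q.2, hq.2, e⟩
  choose x t ht hx using rep
  let k : Ω → Ω → ℤ := fun T T' =>
    Classical.epsilon fun k => |pos ℓ (x T').1 k - t T' + t T| < l₀ / 2
  have hk : ∀ T T' j, |pos ℓ (x T').1 j - t T' + t T| < l₀ / 2 → k T T' = j := fun T T' j h => by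
    have a1 := abs_lt.1 (Classical.epsilon_spec
      (p := fun k => |pos ℓ (x T').1 k - t T' + t T| < l₀ / 2) ⟨j, h⟩)
    have a2 := abs_lt.1 h
    exact pos_near_unique h0 h1 (x := (x T').1) (abs_lt.2 ⟨by linarith, by linarith⟩)
  let co : (D.X → ℚ) → Ω → Ω → ℚ := fun g T T' => bs g (x T') (k T T')
  have hZ : ∀ g, IsLocallyConstant g → co g ∈ cechZ Ω := by
    intro g hg
    obtain ⟨Rg, hRg⟩ := win_of_lc hg
    obtain ⟨K, hK⟩ := exists_nat_ge ((l₁ + l₀) / l₀)
    rw [div_le_iff₀' h0] at hK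
    obtain ⟨ε, e0, e1, e2⟩ := exists_eps (l₁ * (K + Rg : ℕ) + l₁) (l₀ / 4) (by linarith)
    have hU : ∀ T : Ω, ∃ U : Set Ω, U ⊆ {W | Close ε T.1 W.1} ∧ IsOpen U ∧ T ∈ U := fun T =>
      mem_nhds_iff.1 (continuous_subtype_val.continuousAt ((nhds_basis T.1).mem_of_mem e0))
    choose U U1 U2 U3 using hU
    refine Submodule.subset_span ⟨U, fun T => ⟨U2 T, U3 T⟩, ?_⟩
    rintro T₁ T₂ T₃ ⟨W, ⟨w1, w2⟩, w3⟩
    have near : ∀ T, W ∈ U T → ∃ j, (∀ i : ℤ, |i| ≤ (K + Rg : ℕ) → (x W).1 (i + j) = (x T).1 i) ∧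
        |pos ℓ (x W).1 j - t W + t T| < ε := fun T hT => by
      have a1 : Close ε (θ ℓ (x T).1 (t T)) (θ ℓ (x W).1 (t W)) := by
        rw [hx, hx]; exact U1 T hT
      exact a1.win hℓ h2 (by rw [abs_of_nonneg (ht T).1]; linarith [(ht T).2])
    choose! j j1 j2 using near
    have val : ∀ T T', W ∈ U T → W ∈ U T' →
        co g T T' = bs g (x W) (j T) - bs g (x W) (j T') := by
      intro T T' hT hT'
      have a1 := abs_lt.1 (j2 T hT)
      have a2 := abs_lt.1 (j2 T' hT')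
      have a3 : |j T - j T'| ≤ K := by
        have b1 := le_abs_pos_sub h1 (x W).1 (j T) (j T')
        have b2 : |pos ℓ (x W).1 (j T) - pos ℓ (x W).1 (j T')| ≤ l₀ * K :=
          abs_le.2 ⟨by linarith [(ht T).2, (ht T').1], by linarith [(ht T).1, (ht T').2]⟩
        have b3 := le_of_mul_le_mul_left (b1.trans b2) h0
        exact_mod_cast b3
      rw [abs_le] at a3
      have a4 := pos_add ℓ (x W).1 (j T') (j T - j T')
      rw [add_sub_cancel, pos_congr ℓ (x := sh (j T') (x W).1) (y := (x T').1) (n := j T - j T')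
        fun i a b => j1 T' hT' i (by rw [abs_le]; omega)] at a4
      have a5 := bs_add_index g (x W) (j T') (j T - j T')
      rw [add_sub_cancel] at a5
      simp only [co, hk T T' (j T - j T') (abs_lt.2 ⟨by linarith, by linarith⟩), a5,
        add_sub_cancel_left]
      refine isum_congr fun i a b => hRg _ _ fun n hn => ?_
      rw [abs_le] at hn
      exact (j1 T' hT' (n + i) (by rw [abs_le]; omega)).symm
    rw [val _ _ w2 w3, val _ _ w1 w3, val _ _ w1 w2]
    ring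
  intro g hg
  have dep : ¬ LinearIndependent ℚ fun i => (⟨(cechB Ω).mkQ (co (g i)), _, hZ _ (hg i), rfl⟩ :
      (cechZ Ω).map (cechB Ω).mkQ) := fun h => by
    have a1 := h.cardinal_le_rank
    rw [show Module.rank ℚ ((cechZ Ω).map (cechB Ω).mkQ) = d from hr] at a1
    simp only [Cardinal.mk_fin] at a1
    norm_cast at a1
    omega
  obtain ⟨q, hq, i₀, hi₀⟩ := Fintype.not_linearIndependent_iff.1 dep
  refine ⟨q, fun h => hi₀ (congrFun h i₀), ?_⟩
  set G : D.X → ℚ := fun x => ∑ i, q i * g i x with hG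
  have lG : IsLocallyConstant G :=
    lc_sum_Cech Finset.univ (fun i x => q i * g i x) fun i => (hg i).comp (q i * ·)
  have hB : co G ∈ cechB Ω := by
    have a1 := congrArg Subtype.val hq
    simp only [Submodule.coe_sum, Submodule.coe_smul, ← map_smul, ← map_sum,
      ZeroMemClass.coe_zero] at a1
    rw [Submodule.mkQ_apply, Submodule.Quotient.mk_eq_zero] at a1
    have a2 : co G = ∑ i, q i • co (g i) := by
      ext T T'
      have e : ∀ i, bs (fun x => q i * g i x) (x T') (k T T') = q i * bs (g i) (x T') (k T T') :=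
        fun i => (map_bs (AddMonoidHom.mulLeft (q i)) _ _ _).symm
      simp only [co, hG, bs_sum_Cech, e, Finset.sum_apply, Pi.smul_apply, smul_eq_mul]
    rwa [a2]
  obtain ⟨U, hU, b, hb⟩ := exists_of_mem_cechB hB
  let P : D.X × ℝ → Ω := fun r => ⟨θ ℓ r.1.1 r.2, hΩ.superset (θ_mem hℓ h2 r.1 r.2)⟩
  have cP : Continuous P :=
    ((continuous_θ hℓ).comp (f := fun r : D.X × ℝ => (r.1.1, r.2)) (by fun_prop)).subtype_mk _
  choose m m1 m2 using fun r => θ_eq hℓ (hx (P r))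
  have m1' : ∀ r, x (P r) = D.τ (m r) r.1 := fun r => Subtype.ext (m1 r)
  let H : D.X × ℝ → ℚ := fun r => b (P r) + bs G r.1 (m r)
  have lH : IsLocallyConstant H := by
    refine (IsLocallyConstant.iff_eventually_eq _).2 fun r => ?_
    filter_upwards [cP.continuousAt.eventually ((hU (P r)).1.mem_nhds (hU (P r)).2),
      (continuous_fst.tendsto r).eventually ((lc_bs lG (m r)).eventually_eq r.1),
      (continuous_fst.tendsto r).eventually (win_nhds' r.1 (m r).natAbs),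
      (by fun_prop : Continuous fun s : D.X × ℝ => |r.2 - s.2|).continuousAt.eventually_lt
        continuousAt_const (show |r.2 - r.2| < l₀ / 2 by simpa)] with s a1 a2 a3 a4
    have a5 := hb (P r) (P s) ⟨P s, a1, (hU _).2⟩
    have a6 := pos_add ℓ s.1.1 (m s) (m r - m s)
    rw [add_sub_cancel, ← m1, pos_congr ℓ (y := r.1.1) fun i a b =>
      a3 i (by rw [abs_le]; omega)] at a6
    have a7 := bs_add_index G s.1 (m s) (m r - m s)
    rw [add_sub_cancel, ← m1'] at a7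
    simp only [co, hk (P r) (P s) (m r - m s) (by
      rwa [show pos ℓ (x (P s)).1 (m r - m s) - t (P s) + t (P r) = r.2 - s.2 by
        linarith [m2 r, m2 s]])] at a5
    simp only [H]
    linarith
  refine ⟨fun y => -H (y, 0), (lH.comp_continuous (.prodMk_left 0)).neg, fun y => ?_⟩
  have a1 : H (y, ℓ (y.1 0)) = H (y, 0) :=
    (lH.comp_continuous (.prodMk_right y)).apply_eq_of_preconnectedSpace _ _
  have a2 : P (D.τ 1 y, 0) = P (y, ℓ (y.1 0)) := Subtype.ext (by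
    have := θ_sh (ℓ := ℓ) y.1 (ℓ (y.1 0)) 1
    simpa [pos, P] using this)
  have a3 : m (y, ℓ (y.1 0)) = 1 + m (D.τ 1 y, 0) := (pos_strictMono hℓ y.1).injective (by
    have b1 := m2 (y, ℓ (y.1 0))
    have b2 := m2 (D.τ 1 y, 0)
    rw [a2, b1] at b2
    rw [pos_add]
    simp only [τ_val, pos, isum_one] at b2 ⊢
    linarith)
  simp only [H, a3, bs_add_index, bs_one, ← a2] at a1 ⊢
  linarith

theorem cech_stmt : CechStmt := fun _ _ _ _ _ _ _ _ _ h1 h2 h3 h4 => rankAt_Cech h1 h2 h3 h4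

end Pool.Agent.MP_4168de_an.G

end

section

/-! From the Cech rank of a larger tiling space to the rank of locally constant functions. -/

namespace Pool.Agent.MP_4168de_an.G

open Set Filter Topology Shift

/-- Birkhoff sums of a function on the full shift. -/
noncomputable def ws_Cech2 {A : Type} (g : (ℤ → A) → ℚ) (x : ℤ → A) (n : ℤ) : ℚ :=
  isum (fun i => g (sh i x)) n

lemma ws_add_index_Cech2 {A : Type} (g : (ℤ → A) → ℚ) (x : ℤ → A) (m n : ℤ) :
    ws_Cech2 g x (m + n) = ws_Cech2 g x m + ws_Cech2 g (sh m x) n := by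
  simp only [ws_Cech2, isum_add_index, sh_sh]

lemma ws_sum_Cech2 {A ι : Type} (s : Finset ι) (q : ι → ℚ) (g : ι → (ℤ → A) → ℚ) (x : ℤ → A)
    (k : ℤ) : ws_Cech2 (fun x => ∑ i ∈ s, q i * g i x) x k = ∑ i ∈ s, q i * ws_Cech2 (g i) x k := by
  simp only [ws_Cech2, isum, Finset.sum_sub_distrib, mul_sub, Finset.mul_sum]
  congr 1 <;> exact Finset.sum_comm

variable {A : Type} [TopologicalSpace A] [DiscreteTopology A] [Finite A] {D : Shift A}
  {ℓ : A → ℝ}

lemma extend_Cech2 {g : D.X → ℚ} (hg : IsLocallyConstant g) :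
    ∃ f : (ℤ → A) → ℚ, (∃ R : ℕ, ∀ x y : ℤ → A, (∀ i : ℤ, |i| ≤ R → x i = y i) → f x = f y) ∧
      ∀ y : D.X, f y.1 = g y := by
  classical
  obtain ⟨R, hR⟩ := win_of_lc hg
  refine ⟨fun x => if h : ∃ y : D.X, ∀ i : ℤ, |i| ≤ R → y.1 i = x i then g h.choose else 0,
    ⟨R, fun x y hxy => ?_⟩, fun y => ?_⟩
  · by_cases h : ∃ z : D.X, ∀ i : ℤ, |i| ≤ R → z.1 i = x i
    · have h' : ∃ z : D.X, ∀ i : ℤ, |i| ≤ R → z.1 i = y i :=
        h.imp fun z hz i hi => (hz i hi).trans (hxy i hi)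
      simp only [dif_pos h, dif_pos h']
      exact hR _ _ fun i hi =>
        (h.choose_spec i hi).trans ((hxy i hi).trans (h'.choose_spec i hi).symm)
    · have h' : ¬ ∃ z : D.X, ∀ i : ℤ, |i| ≤ R → z.1 i = y i :=
        fun h' => h (h'.imp fun z hz i hi => (hz i hi).trans (hxy i hi).symm)
      simp only [dif_neg h, dif_neg h']
  · have h : ∃ z : D.X, ∀ i : ℤ, |i| ≤ R → z.1 i = y.1 i := ⟨y, fun _ _ => rfl⟩
    simp only [dif_pos h]
    exact hR _ _ h.choose_spec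

theorem rankAt_Cech2 (hℓ : ∀ a, 0 < ℓ a) {l₁ : ℝ} (h2 : ∀ a, ℓ a ≤ l₁) {X₀ : Set (ℤ → A)}
    (hsub : D.X ⊆ X₀) {Ω : Set (Patch A)}
    (hΩ : Ω = (fun q : (ℤ → A) × ℝ => θ ℓ q.1 q.2) '' (X₀ ×ˢ Icc 0 l₁))
    {d : ℕ} (hr : cechRank Ω = d) : RankAt D d := by
  classical
  have := D.nonempty_alph
  obtain ⟨l₀, -, h0, h1, -⟩ := exists_len_bounds hℓ
  have rep : ∀ T : Ω, ∃ (x : ℤ → A) (t : ℝ), t ∈ Icc 0 l₁ ∧ θ ℓ x t = T := fun T => by
    obtain ⟨q, hq, e⟩ := hΩ.subset T.2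
    exact ⟨q.1, q.2, hq.2, e⟩
  choose x t ht hx using rep
  let k : Ω → Ω → ℤ := fun T T' =>
    Classical.epsilon fun k => |pos ℓ (x T') k - t T' + t T| < l₀ / 2
  have hk : ∀ T T' j, |pos ℓ (x T') j - t T' + t T| < l₀ / 2 → k T T' = j := fun T T' j h => by
    have a1 := abs_lt.1 (Classical.epsilon_spec
      (p := fun k => |pos ℓ (x T') k - t T' + t T| < l₀ / 2) ⟨j, h⟩)
    have a2 := abs_lt.1 h
    exact pos_near_unique h0 h1 (x := (x T')) (abs_lt.2 ⟨by linarith, by linarith⟩)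
  let co : ((ℤ → A) → ℚ) → Ω → Ω → ℚ := fun g T T' => ws_Cech2 g (x T') (k T T')
  have hZ : ∀ g : (ℤ → A) → ℚ, (∃ R : ℕ, ∀ x y : ℤ → A, (∀ i : ℤ, |i| ≤ R → x i = y i) →
      g x = g y) → co g ∈ cechZ Ω := by
    rintro g ⟨Rg, hRg⟩
    obtain ⟨K, hK⟩ := exists_nat_ge ((l₁ + l₀) / l₀)
    rw [div_le_iff₀' h0] at hK
    obtain ⟨ε, e0, e1, e2⟩ := exists_eps (l₁ * (K + Rg : ℕ) + l₁) (l₀ / 4) (by linarith)
    have hU : ∀ T : Ω, ∃ U : Set Ω, U ⊆ {W | Close ε T.1 W.1} ∧ IsOpen U ∧ T ∈ U := fun T =>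
      mem_nhds_iff.1 (continuous_subtype_val.continuousAt ((nhds_basis T.1).mem_of_mem e0))
    choose U U1 U2 U3 using hU
    refine Submodule.subset_span ⟨U, fun T => ⟨U2 T, U3 T⟩, ?_⟩
    rintro T₁ T₂ T₃ ⟨W, ⟨w1, w2⟩, w3⟩
    have near : ∀ T, W ∈ U T → ∃ j, (∀ i : ℤ, |i| ≤ (K + Rg : ℕ) → (x W) (i + j) = (x T) i) ∧
        |pos ℓ (x W) j - t W + t T| < ε := fun T hT => by
      have a1 : Close ε (θ ℓ (x T) (t T)) (θ ℓ (x W) (t W)) := by
        rw [hx, hx]; exact U1 T hT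
      exact a1.win hℓ h2 (by rw [abs_of_nonneg (ht T).1]; linarith [(ht T).2])
    choose! j j1 j2 using near
    have val : ∀ T T', W ∈ U T → W ∈ U T' →
        co g T T' = ws_Cech2 g (x W) (j T) - ws_Cech2 g (x W) (j T') := by
      intro T T' hT hT'
      have a1 := abs_lt.1 (j2 T hT)
      have a2 := abs_lt.1 (j2 T' hT')
      have a3 : |j T - j T'| ≤ K := by
        have b1 := le_abs_pos_sub h1 (x W) (j T) (j T')
        have b2 : |pos ℓ (x W) (j T) - pos ℓ (x W) (j T')| ≤ l₀ * K :=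
          abs_le.2 ⟨by linarith [(ht T).2, (ht T').1], by linarith [(ht T).1, (ht T').2]⟩
        have b3 := le_of_mul_le_mul_left (b1.trans b2) h0
        exact_mod_cast b3
      rw [abs_le] at a3
      have a4 := pos_add ℓ (x W) (j T') (j T - j T')
      rw [add_sub_cancel, pos_congr ℓ (x := sh (j T') (x W)) (y := (x T')) (n := j T - j T')
        fun i a b => j1 T' hT' i (by rw [abs_le]; omega)] at a4
      have a5 := ws_add_index_Cech2 g (x W) (j T') (j T - j T')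
      rw [add_sub_cancel] at a5
      simp only [co, hk T T' (j T - j T') (abs_lt.2 ⟨by linarith, by linarith⟩), a5,
        add_sub_cancel_left]
      refine isum_congr fun i a b => hRg _ _ fun n hn => ?_
      rw [abs_le] at hn
      exact (j1 T' hT' (n + i) (by rw [abs_le]; omega)).symm
    rw [val _ _ w2 w3, val _ _ w1 w3, val _ _ w1 w2]
    ring
  intro g hg
  choose f hf hfg using fun i => extend_Cech2 (hg i)
  have dep : ¬ LinearIndependent ℚ fun i => (⟨(cechB Ω).mkQ (co (f i)), _, hZ _ (hf i), rfl⟩ :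
      (cechZ Ω).map (cechB Ω).mkQ) := fun h => by
    have a1 := h.cardinal_le_rank
    rw [show Module.rank ℚ ((cechZ Ω).map (cechB Ω).mkQ) = d from hr] at a1
    simp only [Cardinal.mk_fin] at a1
    norm_cast at a1
    omega
  obtain ⟨q, hq, i₀, hi₀⟩ := Fintype.not_linearIndependent_iff.1 dep
  refine ⟨q, fun h => hi₀ (congrFun h i₀), ?_⟩
  set G : D.X → ℚ := fun x => ∑ i, q i * g i x with hG
  have lG : IsLocallyConstant G :=
    lc_sum_Cech Finset.univ (fun i x => q i * g i x) fun i => (hg i).comp (q i * ·)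
  let F : (ℤ → A) → ℚ := fun x => ∑ i, q i * f i x
  have hF : ∀ (y : D.X) (n : ℤ), ws_Cech2 F y.1 n = bs G y n := fun y n => by
    refine congrArg (isum · n) (funext fun i => ?_)
    exact Finset.sum_congr rfl fun a _ => congrArg (q a * ·) (hfg a (D.τ i y))
  have hB : co F ∈ cechB Ω := by
    have a1 := congrArg Subtype.val hq
    simp only [Submodule.coe_sum, Submodule.coe_smul, ← map_smul, ← map_sum,
      ZeroMemClass.coe_zero] at a1
    rw [Submodule.mkQ_apply, Submodule.Quotient.mk_eq_zero] at a1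
    have a2 : co F = ∑ i, q i • co (f i) := by
      ext T T'
      simp only [co, F, ws_sum_Cech2, Finset.sum_apply, Pi.smul_apply, smul_eq_mul]
    rwa [a2]
  obtain ⟨U, hU, b, hb⟩ := exists_of_mem_cechB hB
  let P : D.X × ℝ → Ω := fun r => ⟨θ ℓ r.1.1 r.2,
    hΩ.superset (image_mono (prod_mono hsub subset_rfl) (θ_mem hℓ h2 r.1 r.2))⟩
  have cP : Continuous P :=
    ((continuous_θ hℓ).comp (f := fun r : D.X × ℝ => (r.1.1, r.2)) (by fun_prop)).subtype_mk _
  choose m m1 m2 using fun r => θ_eq hℓ (hx (P r))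
  have m1' : ∀ r n, ws_Cech2 F (x (P r)) n = bs G (D.τ (m r) r.1) n := fun r n => by
    rw [m1 r]; exact hF (D.τ (m r) r.1) n
  let H : D.X × ℝ → ℚ := fun r => b (P r) + bs G r.1 (m r)
  have lH : IsLocallyConstant H := by
    refine (IsLocallyConstant.iff_eventually_eq _).2 fun r => ?_
    filter_upwards [cP.continuousAt.eventually ((hU (P r)).1.mem_nhds (hU (P r)).2),
      (continuous_fst.tendsto r).eventually ((lc_bs lG (m r)).eventually_eq r.1),
      (continuous_fst.tendsto r).eventually (win_nhds' r.1 (m r).natAbs),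
      (by fun_prop : Continuous fun s : D.X × ℝ => |r.2 - s.2|).continuousAt.eventually_lt
        continuousAt_const (show |r.2 - r.2| < l₀ / 2 by simpa)] with s a1 a2 a3 a4
    have a5 := hb (P r) (P s) ⟨P s, a1, (hU _).2⟩
    have a6 := pos_add ℓ s.1.1 (m s) (m r - m s)
    rw [add_sub_cancel, ← m1, pos_congr ℓ (y := r.1.1) fun i a b =>
      a3 i (by rw [abs_le]; omega)] at a6
    have a7 := bs_add_index G s.1 (m s) (m r - m s)
    rw [add_sub_cancel, ← m1'] at a7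
    simp only [co, hk (P r) (P s) (m r - m s) (by
      rwa [show pos ℓ (x (P s)) (m r - m s) - t (P s) + t (P r) = r.2 - s.2 by
        linarith [m2 r, m2 s]])] at a5
    simp only [H]
    linarith
  refine ⟨fun y => -H (y, 0), (lH.comp_continuous (.prodMk_left 0)).neg, fun y => ?_⟩
  have a1 : H (y, ℓ (y.1 0)) = H (y, 0) :=
    (lH.comp_continuous (.prodMk_right y)).apply_eq_of_preconnectedSpace _ _
  have a2 : P (D.τ 1 y, 0) = P (y, ℓ (y.1 0)) := Subtype.ext (by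
    have := θ_sh (ℓ := ℓ) y.1 (ℓ (y.1 0)) 1
    simpa [pos, P] using this)
  have a3 : m (y, ℓ (y.1 0)) = 1 + m (D.τ 1 y, 0) := (pos_strictMono hℓ y.1).injective (by
    have b1 := m2 (y, ℓ (y.1 0))
    have b2 := m2 (D.τ 1 y, 0)
    rw [a2, b1] at b2
    rw [pos_add]
    simp only [τ_val, pos, isum_one] at b2 ⊢
    linarith)
  simp only [H, a3, bs_add_index, bs_one, ← a2] at a1 ⊢
  linarith

theorem cech2_stmt : Cech2Stmt :=
  fun _ _ _ _ _ _ _ _ _ _ h1 h2 h3 h4 h5 => rankAt_Cech2 h1 h2 h3 h4 h5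

end Pool.Agent.MP_4168de_an.G

end

section

/-! Existence of the internal coordinate on the cover. -/

namespace Pool.Agent.MP_4168de_an.G

open Set Filter Topology Shift Matrix

lemma norm_isum_sub_le_Cover {f : ℤ → ℂ} {c : ℝ} (hc : ∀ i, ‖f i‖ ≤ c) {m n : ℤ} (h : m ≤ n) :
    ‖isum f n - isum f m‖ ≤ c * ((n : ℝ) - m) := by
  induction n, h using Int.leInduction with
  | base => simp
  | succ n hn ih =>
    rw [isum_succ]
    push_cast
    have e : isum f n + f n - isum f m = (isum f n - isum f m) + f n := by ring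
    rw [e]
    linarith [norm_add_le (isum f n - isum f m) (f n), hc n]

section

variable {A : Type} [TopologicalSpace A] [DiscreteTopology A] [Finite A] {D : Shift A}
  {ℓ : A → ℝ} {c : ℝ}

lemma exists_norm_le_Cover {f : D.X → ℂ} (hf : Continuous f) : ∃ K, 0 ≤ K ∧ ∀ x, ‖f x‖ ≤ K := by
  obtain ⟨K, hK⟩ := isCompact_univ.exists_bound_of_continuousOn hf.continuousOn
  obtain ⟨x⟩ : Nonempty D.X := inferInstance
  exact ⟨K, (norm_nonneg _).trans (hK x trivial), fun x => hK x trivial⟩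

lemma bdd_sums_Cover (σ : DSub D ℓ c) (hr : ∀ x, 2 ≤ σ.r x) {ψ k : D.X → ℂ} (hψ : Continuous ψ)
    (hk : Continuous k) {c' : ℂ} (hc' : ‖c'‖ < 1)
    (h : ∀ x, σ.star ψ x = c' * ψ x + (k (D.τ 1 x) - k x)) : ∃ K, ∀ x n, ‖bs ψ x n‖ ≤ K := by
  obtain ⟨P, hP0, hP⟩ := exists_norm_le_Cover hψ
  obtain ⟨Q, hQ0, hQ⟩ := exists_norm_le_Cover hk
  obtain ⟨ρ, hρ⟩ := σ.toRSub.r_bdd
  have hρ0 : (0 : ℝ) ≤ ρ := by
    obtain ⟨x⟩ : Nonempty D.X := inferInstance
    have := (hr x.1).trans (hρ x.1)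
    exact_mod_cast (by omega : 0 ≤ ρ)
  have hs : ∀ x (m n : ℤ), m ≤ n → n ≤ m + ρ → ‖bs ψ x n - bs ψ x m‖ ≤ P * ρ := by
    intro x m n h1 h2
    refine (norm_isum_sub_le_Cover (fun i => hP _) h1).trans (mul_le_mul_of_nonneg_left ?_ hP0)
    have : (n : ℝ) ≤ m + ρ := by exact_mod_cast h2
    linarith
  let K := (2 * Q + 2 * (P * ρ)) / (1 - ‖c'‖)
  have hK : K * (1 - ‖c'‖) = 2 * Q + 2 * (P * ρ) := div_mul_cancel₀ _ (by linarith)
  have hPρ : 0 ≤ P * ρ := mul_nonneg hP0 hρ0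
  have hK0 : 0 ≤ K := div_nonneg (by linarith) (by linarith)
  have key : ∀ n : ℕ, ∀ x, ‖bs ψ x n‖ ≤ K := by
    intro n
    induction n using Nat.strong_induction_on with
    | _ n ih =>
      intro x
      by_cases hn : (n : ℤ) ≤ ρ
      · have := hs x 0 n (by omega) (by omega)
        rw [bs_zero, sub_zero] at this
        nlinarith [norm_nonneg c']
      obtain ⟨y, j, h1, h2, rfl⟩ := σ.surj'' x
      obtain ⟨i, h3, h4⟩ := exists_idx_int (fun n => σ.cc_strictMono y.1 (lt_add_one n)) (j + n)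
      have h5 : 0 < i + 1 := (σ.cc_strictMono y.1).lt_iff_lt.1 (by rw [RSub.cc_zero]; omega)
      have h6 := σ.cc_ge hr y.1 (m := 0) (n := i) (by omega)
      rw [RSub.cc_zero] at h6
      have h7 := hρ y.1
      have h8 := hρ (sh i y.1)
      rw [RSub.cc_succ] at h4
      obtain ⟨i, rfl⟩ := Int.eq_ofNat_of_zero_le (show 0 ≤ i by omega)
      have h9 := ih i (by omega) y
      have e1 := bs_add_index ψ (σ.T y) j n
      have e2 := σ.bs_star ψ y i
      rw [funext h, bs_add, bs_tel] at e2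
      have e3 : bs (fun y => c' * ψ y) y i = c' * bs ψ y i :=
        (map_bs (AddMonoidHom.mulLeft c') ψ y i).symm
      have a1 := hs (σ.T y) (σ.cc y.1 i) (j + n) h3 (by omega)
      have a2 := hs (σ.T y) 0 j h1 (by omega)
      have a3 := hQ (D.τ i y)
      have a4 := hQ y
      have a5 : ‖c' * bs ψ y i‖ ≤ ‖c'‖ * K := by
        rw [norm_mul]; exact mul_le_mul_of_nonneg_left h9 (norm_nonneg _)
      rw [bs_zero, sub_zero] at a2
      have e4 : bs ψ (D.τ j (σ.T y)) n =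
          (bs ψ (σ.T y) (j + n) - bs ψ (σ.T y) (σ.cc y.1 i)) + c' * bs ψ y i + k (D.τ i y) - k y -
            bs ψ (σ.T y) j := by
        rw [← e2, e3, e1]; ring
      rw [e4]
      have n1 := norm_sub_le ((bs ψ (σ.T y) (j + n) - bs ψ (σ.T y) (σ.cc y.1 i)) + c' * bs ψ y i +
        k (D.τ i y) - k y) (bs ψ (σ.T y) j)
      have n2 := norm_sub_le ((bs ψ (σ.T y) (j + n) - bs ψ (σ.T y) (σ.cc y.1 i)) + c' * bs ψ y i +
        k (D.τ i y)) (k y)
      have n3 := norm_add_le ((bs ψ (σ.T y) (j + n) - bs ψ (σ.T y) (σ.cc y.1 i)) + c' * bs ψ y i)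
        (k (D.τ i y))
      have n4 := norm_add_le (bs ψ (σ.T y) (j + n) - bs ψ (σ.T y) (σ.cc y.1 i)) (c' * bs ψ y i)
      linarith
  refine ⟨K, fun x n => ?_⟩
  obtain ⟨m, rfl | rfl⟩ := Int.eq_nat_or_neg n
  · exact key m x
  · have := bs_add_index ψ x (-m) m
    rw [neg_add_cancel, bs_zero] at this
    rw [eq_neg_of_add_eq_zero_left this.symm, norm_neg]
    exact key m _

end

/-- The complex linear form on the lattice with coefficients `φ`. -/
noncomputable def clin_Cover {d : ℕ} (φ : Fin d → ℂ) : Lat d →+ ℂ where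
  toFun v := φ ⬝ᵥ fun i => (v i : ℂ)
  map_zero' := by simp [dotProduct]
  map_add' := fun v w => by
    simp only [dotProduct, Pi.add_apply, Int.cast_add, mul_add, Finset.sum_add_distrib]

/-- The embedding of the lattice as an additive map. -/
noncomputable def toRHom_Cover (d : ℕ) : Lat d →+ (Fin d → ℝ) where
  toFun := toR
  map_zero' := by ext i; simp [toR]
  map_add' := fun v w => by ext i; simp [toR]

lemma toR_mulVec_Cover {d : ℕ} (B : Matrix (Fin d) (Fin d) ℤ) (v : Lat d) :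
    toR (B *ᵥ v) = B.map (Int.cast : ℤ → ℝ) *ᵥ toR v := by
  ext i
  simp [toR, Matrix.mulVec, dotProduct]

lemma clin_mulVec_Cover {d : ℕ} (B : Matrix (Fin d) (Fin d) ℤ) {φ : Fin d → ℂ} {z : ℂ}
    (h : φ ᵥ* B.map (Int.cast : ℤ → ℂ) = z • φ) (v : Lat d) :
    clin_Cover φ (B *ᵥ v) = z * clin_Cover φ v := by
  have e : (fun i => ((B *ᵥ v) i : ℂ)) = B.map (Int.cast : ℤ → ℂ) *ᵥ fun i => (v i : ℂ) := by
    ext i
    simp [Matrix.mulVec, dotProduct]
  change φ ⬝ᵥ (fun i => ((B *ᵥ v) i : ℂ)) = z * (φ ⬝ᵥ fun i => (v i : ℂ))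
  rw [e, Matrix.dotProduct_mulVec, h, smul_dotProduct, smul_eq_mul]

theorem cover_stmt (hL : Lin2Stmt) : CoverStmt := by
  intro A _ _ _ _ D ℓ c σ M d e G L hℓ hc occ hr hM
  obtain ⟨⟨K, hK⟩, hm, hd⟩ := hL d e G.B G.u c L hc G.detB G.uB
  let b : Lat d →+ (Fin e → ℝ) :=
    ((AddMonoidHom.snd ℝ (Fin e → ℝ)).comp
      (L.Ψ.symm : (Fin d → ℝ) →L[ℝ] ℝ × (Fin e → ℝ)).toLinearMap.toAddMonoidHom).comp
      (toRHom_Cover d)
  have hb : ∀ v, b v = (L.Ψ.symm (toR v)).2 := fun v => rfl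
  have bB : ∀ v, b (G.B *ᵥ v) = L.B' (b v) := fun v => by
    rw [hb, hb, toR_mulVec_Cover, L.snd_B]
  let δ' : D.X → Lat d := fun y => G.δ (y.1 0)
  let κ' : D.X → Lat d := fun y => G.κ (G.st (y.1 0))
  have lδ : IsLocallyConstant δ' := (lc_letter 0).comp G.δ
  have lκ : IsLocallyConstant κ' := (lc_letter 0).comp fun a => G.κ (G.st a)
  have hstar : ∀ x, σ.star δ' x = G.B *ᵥ δ' x + (κ' (D.τ 1 x) - κ' x) := fun x => by
    have h1 := G.hκ x
    rw [G.st_en] at h1
    have h2 : κ' (D.τ 1 x) = G.κ (G.st (x.1 1)) := by simp [κ', sh]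
    rw [h2, add_sub_assoc']
    exact h1
  have hj : ∀ j, ∃ Kj, ∀ x n, ‖bs (fun y => clin_Cover (L.φ j) (δ' y)) x n‖ ≤ Kj := fun j =>
    bdd_sums_Cover σ hr (k := fun y => clin_Cover (L.φ j) (κ' y))
      (lδ.comp (clin_Cover (L.φ j))).continuous (lκ.comp (clin_Cover (L.φ j))).continuous
      (L.lam_lt j) fun x => by
        rw [← σ.map_star, hstar, map_add, map_sub, clin_mulVec_Cover G.B (L.φB j)]
  choose Kj hKj using hj
  have hbd : ∀ x n, ‖b (bs δ' x n)‖ ≤ |K| * ∑ j, Kj j := fun x n => by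
    refine (hK (toR (bs δ' x n))).trans ((mul_le_mul_of_nonneg_right (le_abs_self K)
      (Finset.sum_nonneg fun j _ => norm_nonneg _)).trans
      (mul_le_mul_of_nonneg_left (Finset.sum_le_sum fun j _ => ?_) (abs_nonneg K)))
    have h1 := hKj j x n
    rw [← map_bs] at h1
    have e : (fun i => ((toR (bs δ' x n) i : ℝ) : ℂ)) = fun i => (bs δ' x n i : ℂ) := by
      ext i; simp [toR]
    rw [e]
    exact h1
  have hi : ∀ i : Fin e, ∃ M₀ : D.X → ℝ, Continuous M₀ ∧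
      ∀ x, M₀ (D.τ 1 x) + b (δ' x) i = M₀ x := fun i =>
    gottschalk (ψ := fun x => b (δ' x) i) (K := |K| * ∑ j, Kj j)
      (lδ.comp fun v => b v i).continuous fun x n => by
        have h1 := map_bs ((Pi.evalAddMonoidHom (fun _ : Fin e => ℝ) i).comp b) δ' x n
        simp only [AddMonoidHom.coe_comp, Function.comp_apply, Pi.evalAddMonoidHom_apply] at h1
        rw [← h1]
        exact (norm_le_pi_norm (b (bs δ' x n)) i).trans (hbd x n)
  choose M₁ cM₁ hM₁ using hi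
  let M₀ : D.X → Fin e → ℝ := fun x i => M₁ i x
  have cM₀ : Continuous M₀ := continuous_pi cM₁
  have hM₀ : ∀ x, M₀ (D.τ 1 x) = M₀ x + -b (δ' x) := fun x => by
    ext i
    have := hM₁ i x
    simp only [M₀, Pi.add_apply, Pi.neg_apply]
    linarith
  have Mτ : ∀ x n, M₀ (D.τ n x) = M₀ x - b (bs δ' x n) := fun x n => by
    rw [bs_of_eq hM₀, map_bs, sub_eq_add_neg]
    congr 1
    exact (map_bs (negAddMonoidHom : (Fin e → ℝ) →+ (Fin e → ℝ)) _ x n).symm
  obtain ⟨x₀⟩ : Nonempty D.X := inferInstance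
  have q2 := const_of_continuous (f := fun x => M₀ (σ.T x) + b (κ' x) - L.B' (M₀ x))
    (((cM₀.comp σ.continuous_T).add (lκ.comp b).continuous).sub
      (L.B'.continuous.comp cM₀)) (fun x => by
      have e1 := hstar x
      rw [DSub.star] at e1
      simp only [σ.T_τ, RSub.cc_one, Mτ (σ.T x), e1, hM₀, map_add, map_sub, map_neg, bB]
      abel) x₀
  generalize M₀ (σ.T x₀) + b (κ' x₀) - L.B' (M₀ x₀) = k₂ at q2
  obtain ⟨m, hm⟩ := hm k₂
  refine ⟨{
    toGraphData := G, L := L, Mx := M, hasMat := hM, occ := occ, ℓ_pos := hℓ, one_lt := hc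
    M := fun x => M₀ x + m, contM := cM₀.add continuous_const
    hM := fun x => ?_, MT := fun x => ?_, dense := hd }⟩
  · change M₀ (D.τ 1 x) + m + b (δ' x) = M₀ x + m
    rw [hM₀]; abel
  · change M₀ (σ.T x) + m + b (κ' x) = L.B' (M₀ x + m)
    have h1 := q2 x
    rw [map_add, ← hm] at *
    rw [← sub_eq_zero]
    rw [← sub_eq_zero] at h1
    rw [← h1]
    abel

end Pool.Agent.MP_4168de_an.G

end
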