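import Mathlib
import Pool.Agent.MP_4168de_an.Defs
import Pool.Agent.Mg.F4168de.G51c807

section

/-! The group ring of a lattice, boundary of chains, and the algebraic statements. -/

namespace Pool.Agent.MP_4168de_an.G

open Matrix

/-- The lattice. -/
abbrev Lat (d : ℕ) := Fin d → ℤ

/-- The group ring of the lattice. -/
abbrev Rg (d : ℕ) := AddMonoidAlgebra ℤ (Lat d)

variable {d : ℕ}

/-- The monomial of a lattice vector. -/
noncomputable def mono (v : Lat d) : Rg d := AddMonoidAlgebra.single v 1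

/-- The augmentation. -/
noncomputable def aug : Rg d →+* ℤ :=
  (AddMonoidAlgebra.lift ℤ ℤ (Lat d) 1).toRingHom

/-- The ring map induced by an additive map of the lattice. -/
noncomputable def mu (B : Lat d →+ Lat d) : Rg d →+* Rg d :=
  AddMonoidAlgebra.mapDomainRingHom ℤ B

lemma mono_add (v w : Lat d) : mono (v + w) = mono v * mono w := by
  simp [mono, AddMonoidAlgebra.single_mul_single]

@[simp] lemma mono_zero : mono (0 : Lat d) = 1 := rfl

@[simp] lemma aug_single (v : Lat d) (n : ℤ) : aug (AddMonoidAlgebra.single v n) = n := by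
  simp [aug]

@[simp] lemma aug_mono (v : Lat d) : aug (mono v) = 1 := aug_single v 1

@[simp] lemma mu_single (B : Lat d →+ Lat d) (v : Lat d) (n : ℤ) :
    mu B (AddMonoidAlgebra.single v n) = AddMonoidAlgebra.single (B v) n := by
  simp [mu]

@[simp] lemma mu_mono (B : Lat d →+ Lat d) (v : Lat d) : mu B (mono v) = mono (B v) :=
  mu_single B v 1

lemma mu_injective {B : Lat d →+ Lat d} (hB : Function.Injective B) :
    Function.Injective (mu B) := AddMonoidAlgebra.mapDomain_injective hB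

variable {A : Type} [Fintype A] [DecidableEq A]

/-- Incidence numbers of the graph with edges `A`, start map `st` and end map `en`. -/
def inc (st en : A → A) (p x : A) : ℤ := (if en x = p then 1 else 0) - if st x = p then 1 else 0

/-- The boundary matrix of the covering graph with voltage `δ`. -/
noncomputable def bdM (st en : A → A) (δ : A → Lat d) : Matrix A A (Rg d) :=
  fun p x => (if en x = p then mono (δ x) else 0) - if st x = p then 1 else 0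

/-- Every finite nonzero family in the group ring is a multiple of a primitive family. -/
def PrimStmt : Prop :=
  ∀ (d : ℕ) (ι : Type) [Fintype ι] (ω : ι → Rg d), ω ≠ 0 →
    ∃ (g : Rg d) (ω' : ι → Rg d), (∀ i, ω i = g * ω' i) ∧
      ∀ u : ι → Rg d, (∀ i j, u i * ω' j = u j * ω' i) → ∃ q, ∀ i, u i = q * ω' i

/-- The exponential evaluation into power series. -/
def EvStmt : Prop :=
  ∀ (d : ℕ) (a : Lat d →+ ℝ), Function.Injective a →
    ∃ ev : Rg d →+* PowerSeries ℝ, Function.Injective ev ∧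
      (∀ v, ev (mono v) = PowerSeries.rescale (a v) (PowerSeries.exp ℝ)) ∧
      (∀ P, PowerSeries.constantCoeff (ev P) = (aug P : ℝ)) ∧
      ∀ (B : Lat d →+ Lat d) (c : ℝ), (∀ v, a (B v) = c * a v) →
        ∀ P, ev (mu B P) = PowerSeries.rescale c (ev P)

/-- Alternating tensors all of whose slices lie in a subspace on which the forms `ψ j` separate
points. -/
def TensStmt : Prop :=
  ∀ (A ι : Type) [Fintype A] [DecidableEq A] [Fintype ι] (ρ : ℕ) (U : Submodule ℂ (A → ℂ))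
    (ψ : ι → A → ℂ) (ω : (Fin ρ → A) → ℂ),
    (∀ v ∈ U, (∀ j, ψ j ⬝ᵥ v = 0) → v = 0) → ω ≠ 0 →
    (∀ K i, (fun x => ω (Function.update K i x)) ∈ U) →
    (∀ K (i j : Fin ρ), i ≠ j → ω (K ∘ Equiv.swap i j) = -ω K) →
    ∃ g : Fin ρ → ι, Function.Injective g ∧
      ∀ (M : Matrix A A ℂ) (lam : ι → ℂ) (t : ℂ),
        (∀ j, ∀ v ∈ U, ψ j ⬝ᵥ M *ᵥ v = lam j * ψ j ⬝ᵥ v) →
        (∀ I, ∑ K : Fin ρ → A, (∏ i, M (I i) (K i)) * ω K = t * ω I) → t = ∏ i, lam (g i)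

/-- If all larger minors vanish then the vector is a combination after clearing one minor. -/
def CramerStmt : Prop :=
  ∀ (R A : Type) [CommRing R] (ρ : ℕ) (C : Fin ρ → A → R) (z : A → R) (K : Fin ρ → A),
    (∀ K' : Fin (ρ + 1) → A,
      (Matrix.of fun i j => (Fin.snoc C z : Fin (ρ + 1) → A → R) j (K' i)).det = 0) →
    ∃ G : Fin ρ → R, (Matrix.of fun i j => C j (K i)).det • z = ∑ j, G j • C j

/-- The arithmetic of the eigenvalues. -/
def UnitStmt : Prop :=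
  ∀ (ι : Type) [Fintype ι] (ρ m : ℕ) (c : ℝ) (lam : ι → ℂ) (g : Fin ρ → ι) (q : ℤ),
    1 < c → (∀ j, ‖lam j‖ < 1) → c * ∏ j, ‖lam j‖ = 1 → (∀ j, IsIntegral ℤ (lam j)⁻¹) →
    IsIntegral ℤ c⁻¹ → Function.Injective g → (c : ℂ) ^ m * ∏ i, lam (g i) = q →
    ρ = 0 ∨ ρ = Fintype.card ι

/-- An invariant nonzero module of cycles has full rank. -/
def AlgStmt : Prop :=
  ∀ (A ι : Type) [Fintype A] [DecidableEq A] [Fintype ι] (d : ℕ) (st en : A → A) (δ : A → Lat d)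
    (ℓ w : A → ℝ) (a : Lat d →+ ℝ) (B : Lat d →+ Lat d) (c : ℝ) (M : Matrix A A ℤ)
    (J : Matrix A A (Rg d)) (ψ : ι → A → ℂ) (lam : ι → ℂ) (N : Submodule (Rg d) (A → Rg d)),
    Function.Injective a → (∀ x, w (en x) + a (δ x) = w (st x) + ℓ x) →
    Function.Injective B → 1 < c → (∀ v, a (B v) = c * a v) → (∀ b x, aug (J b x) = M b x) →
    (∀ j (v : A → ℂ), (∀ p, ∑ x, (inc st en p x : ℂ) * v x = 0) →
      ψ j ⬝ᵥ (M.map Int.cast) *ᵥ v = lam j * ψ j ⬝ᵥ v) →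
    (∀ v : A → ℂ, (∀ p, ∑ x, (inc st en p x : ℂ) * v x = 0) → ∑ x, (ℓ x : ℂ) * v x = 0 →
      (∀ j, ψ j ⬝ᵥ v = 0) → v = 0) →
    (∀ j, ‖lam j‖ < 1) → c * ∏ j, ‖lam j‖ = 1 → (∀ j, IsIntegral ℤ (lam j)⁻¹) →
    IsIntegral ℤ c⁻¹ →
    (∀ z ∈ N, bdM st en δ *ᵥ z = 0) → (∀ z ∈ N, J *ᵥ (fun x => mu B (z x)) ∈ N) → N ≠ ⊥ →
    ∀ z, bdM st en δ *ᵥ z = 0 → ∃ P : Rg d, P ≠ 0 ∧ P • z ∈ N

end Pool.Agent.MP_4168de_an.G

end

section

/-! Dictionary between tilings and bi-infinite words. -/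

namespace Pool.Agent.MP_4168de_an

open Set Filter Topology

variable {A : Type}

lemma Patch.ext' {T T' : Patch A} (h : ∀ a q, (a, q) ∈ T.tiles ↔ (a, q) ∈ T'.tiles) : T = T' := by
  cases T; cases T'
  congr 1
  ext ⟨a, q⟩
  exact h a q

/-- Closeness of two patches. -/
def Close (ε : ℝ) (T T' : Patch A) : Prop :=
  ∃ s : ℝ, |s| < ε ∧ ∀ a q, |q| < ε⁻¹ → ((a, q) ∈ T.tiles ↔ (a, q + s) ∈ T'.tiles)

lemma Close.mono {ε ε' : ℝ} {T T' : Patch A} (h : Close ε T T') (h0 : 0 < ε) (hε : ε ≤ ε') :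
    Close ε' T T' := by
  obtain ⟨s, h1, h2⟩ := h
  exact ⟨s, h1.trans_le hε, fun a q hq => h2 a q (hq.trans_le (inv_anti₀ h0 hε))⟩

lemma half_aux {ε q s : ℝ} (h0 : 0 < ε) (h1 : ε ≤ 1) (hq : |q| < ε⁻¹) (hs : |s| < ε) :
    |q + s| < (ε / 2)⁻¹ := by
  have h2 : 1 ≤ ε⁻¹ := (one_le_inv₀ h0).2 h1
  have h3 : (ε / 2)⁻¹ = 2 * ε⁻¹ := by field_simp
  linarith [abs_add_le q s]

lemma Close.trans {ε : ℝ} {T T₁ T₂ : Patch A} (h0 : 0 < ε) (h1 : ε ≤ 1)
    (h : Close (ε / 2) T T₁) (h' : Close (ε / 2) T₁ T₂) : Close ε T T₂ := by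
  obtain ⟨s, a1, a2⟩ := h
  obtain ⟨s', b1, b2⟩ := h'
  refine ⟨s + s', by linarith [abs_add_le s s'], fun a q hq => ?_⟩
  rw [a2 a q (by simpa using half_aux h0 h1 hq (s := 0) (by simpa)),
    b2 a _ (half_aux h0 h1 hq (by linarith)), add_assoc]

lemma Close.symm {ε : ℝ} {T T' : Patch A} (h0 : 0 < ε) (h1 : ε ≤ 1) (h : Close (ε / 2) T T') :
    Close ε T' T := by
  obtain ⟨s, a1, a2⟩ := h
  have a3 : |-s| < ε := by rw [abs_neg]; linarith
  refine ⟨-s, a3, fun a q hq => ?_⟩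
  rw [a2 a _ (half_aux h0 h1 hq a3), neg_add_cancel_right]

lemma nhds_basis (T : Patch A) :
    (𝓝 T).HasBasis (fun ε : ℝ => 0 < ε) fun ε => {T' | Close ε T T'} := by
  have op : ∀ O : Set (Patch A), IsOpen O → ∀ T ∈ O, ∃ ε, 0 < ε ∧ ∀ T', Close ε T T' → T' ∈ O := by
    intro O hO
    induction hO with
    | basic s hs => exact hs
    | univ => exact fun _ _ => ⟨1, one_pos, fun _ _ => trivial⟩
    | inter s t _ _ hs ht =>
      intro T hT
      obtain ⟨ε, a1, a2⟩ := hs T hT.1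
      obtain ⟨ε', b1, b2⟩ := ht T hT.2
      exact ⟨min ε ε', lt_min a1 b1, fun T' h => ⟨a2 _ (h.mono (lt_min a1 b1) (min_le_left _ _)),
        b2 _ (h.mono (lt_min a1 b1) (min_le_right _ _))⟩⟩
    | sUnion S _ hS =>
      rintro T ⟨s, hs, hT⟩
      obtain ⟨ε, a1, a2⟩ := hS s hs T hT
      exact ⟨ε, a1, fun T' h => ⟨s, hs, a2 _ h⟩⟩
  refine ⟨fun t => ⟨fun ht => ?_, fun ⟨ε, h0, ht⟩ => ?_⟩⟩
  · obtain ⟨O, h1, h2, h3⟩ := mem_nhds_iff.1 ht
    obtain ⟨ε, a1, a2⟩ := op O h2 T h3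
    exact ⟨ε, a1, fun T' h => h1 (a2 T' h)⟩
  · refine mem_nhds_iff.2 ⟨{T' | ∃ ε', 0 < ε' ∧ ∀ T'', Close ε' T' T'' → T'' ∈ t}, ?_, ?_,
      ε, h0, ht⟩
    · rintro T' ⟨ε', a1, a2⟩
      exact a2 _ ⟨0, by simpa, by simp⟩
    · refine TopologicalSpace.isOpen_generateFrom_of_mem ?_
      rintro T' ⟨ε', a1, a2⟩
      have a3 : 0 < min ε' 1 := lt_min a1 one_pos
      exact ⟨min ε' 1 / 2, half_pos a3, fun T₁ h1 => ⟨min ε' 1 / 2, half_pos a3, fun T₂ h2 =>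
        a2 _ ((Close.trans a3 (min_le_right _ _) h1 h2).mono a3 (min_le_left _ _))⟩⟩

variable {ℓ : A → ℝ}

/-- The tiling of a word with the origin at position `t`. -/
def θ (ℓ : A → ℝ) (x : ℤ → A) (t : ℝ) : Patch A := ⟨range fun i => (x i, pos ℓ x i - t)⟩

lemma mem_θ {x : ℤ → A} {t : ℝ} {a : A} {q : ℝ} :
    (a, q) ∈ (θ ℓ x t).tiles ↔ ∃ i, x i = a ∧ pos ℓ x i - t = q := by
  simp [θ]

lemma translate_θ (s : ℝ) (x : ℤ → A) (t : ℝ) : translate s (θ ℓ x t) = θ ℓ x (t - s) := by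
  refine Patch.ext' fun a q => ?_
  change (a, q - s) ∈ (θ ℓ x t).tiles ↔ _
  simp only [mem_θ]
  exact exists_congr fun i => and_congr_right fun _ => ⟨fun h => by linarith, fun h => by linarith⟩

lemma θ_sh (x : ℤ → A) (t : ℝ) (n : ℤ) : θ ℓ (sh n x) (t - pos ℓ x n) = θ ℓ x t := by
  refine Patch.ext' fun a q => ?_
  simp only [mem_θ]
  constructor
  · rintro ⟨i, rfl, rfl⟩
    exact ⟨n + i, by simp [add_comm], by rw [pos_add]; ring⟩
  · rintro ⟨i, rfl, rfl⟩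
    refine ⟨i - n, by simp, ?_⟩
    have := pos_add ℓ x n (i - n)
    rw [add_sub_cancel] at this
    linarith

lemma IsTiling.exists_θ {T : Patch A} (h : IsTiling ℓ T) : ∃ x t, T = θ ℓ x t := by
  obtain ⟨x, p, h1, h2⟩ := h
  have h3 : ∀ n, p n - p 0 = pos ℓ x n :=
    eq_isum (F := fun n => p n - p 0) (by simp) fun n => by rw [h1]; ring
  refine ⟨x, -p 0, Patch.ext' fun a q => ?_⟩
  simp only [h2, mem_θ, ← h3, mem_range, Prod.mk.injEq]
  simp

lemma win_of_tiles (hℓ : ∀ a, 0 < ℓ a) {x x' : ℤ → A} {t t' : ℝ} {R : ℕ}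
    (h : ∀ i : ℤ, |i| ≤ R → (x i, pos ℓ x i - t) ∈ (θ ℓ x' t').tiles) :
    ∃ k, ∀ i : ℤ, |i| ≤ R → x' (i + k) = x i ∧ pos ℓ x' (i + k) - t' = pos ℓ x i - t := by
  choose! j h1 h2 using fun i hi => mem_θ.1 (h i hi)
  have step : ∀ i : ℤ, |i| ≤ R → |i + 1| ≤ R → j (i + 1) = j i + 1 := fun i a b =>
    (pos_strictMono hℓ x').injective (by
      have a1 := h2 i a
      have a2 := h2 _ b
      rw [pos_succ] at a2
      rw [pos_succ, h1 i a]
      linarith)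
  have all : ∀ i : ℤ, |i| ≤ R → j i = i + j 0 := by
    intro i
    induction i using Int.induction_on with
    | zero => simp
    | succ n ih =>
      intro hn
      have : |(n : ℤ)| ≤ R := by rw [abs_le] at *; omega
      rw [step _ this hn, ih this]
      ring
    | pred n ih =>
      intro hn
      have a1 : |-(n : ℤ)| ≤ R := by rw [abs_le] at *; omega
      have a2 := step _ hn (by rwa [sub_add_cancel])
      rw [sub_add_cancel, ih a1] at a2
      omega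
  exact ⟨j 0, fun i hi => by rw [← all i hi]; exact ⟨h1 i hi, h2 i hi⟩⟩

lemma θ_eq (hℓ : ∀ a, 0 < ℓ a) {x x' : ℤ → A} {t t' : ℝ} (h : θ ℓ x t = θ ℓ x' t') :
    ∃ m, x = sh m x' ∧ t = t' - pos ℓ x' m := by
  choose k hk using fun R : ℕ => win_of_tiles hℓ (x := x) (x' := x') (t := t) (t' := t') (R := R)
    fun i _ => h ▸ ⟨i, rfl⟩
  have h0 : ∀ R, pos ℓ x' (k R) - t' = -t := fun R => by simpa using (hk R 0 (by simp)).2
  refine ⟨k 0, funext fun i => ?_, by linarith [h0 0]⟩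
  have h1 : k i.natAbs = k 0 :=
    (pos_strictMono hℓ x').injective (by linarith [h0 0, h0 i.natAbs])
  rw [sh_apply, ← h1]
  exact (hk _ i (by rw [Int.abs_eq_natAbs])).1.symm

lemma abs_pos_le {l₁ : ℝ} (hℓ : ∀ a, 0 < ℓ a) (h1 : ∀ a, ℓ a ≤ l₁) (x : ℤ → A) (i : ℤ) :
    |pos ℓ x i| ≤ l₁ * |(i : ℝ)| := by
  simpa [pos] using abs_isum_sub_le (f := fun i => ℓ (x i)) (c := l₁)
    (fun i => by rw [abs_of_pos (hℓ _)]; exact h1 _) 0 i

lemma le_abs_pos_sub {l₀ : ℝ} (h1 : ∀ a, l₀ ≤ ℓ a) (x : ℤ → A) (i j : ℤ) :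
    l₀ * |(i : ℝ) - j| ≤ |pos ℓ x i - pos ℓ x j| := by
  wlog h : j ≤ i generalizing i j
  · rw [abs_sub_comm, abs_sub_comm (pos ℓ x i)]
    exact this j i (by omega)
  have h2 : (0 : ℝ) ≤ (i : ℝ) - j := by
    have : (j : ℝ) ≤ i := by exact_mod_cast h
    linarith
  rw [abs_of_nonneg h2]
  exact (isum_sub_ge (f := fun i => ℓ (x i)) (fun i => h1 _) h).trans (le_abs_self _)

lemma pos_near_unique {l₀ : ℝ} (h0 : 0 < l₀) (h1 : ∀ a, l₀ ≤ ℓ a) {x : ℤ → A} {i j : ℤ}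
    (h : |pos ℓ x i - pos ℓ x j| < l₀) : i = j := by
  have h2 := (le_abs_pos_sub h1 x i j).trans_lt h
  have h3 : |(i : ℝ) - j| < 1 := by nlinarith
  have h4 : |i - j| < 1 := by exact_mod_cast h3
  rw [abs_lt] at h4
  omega

lemma Close.win {l₁ : ℝ} (hℓ : ∀ a, 0 < ℓ a) (h1 : ∀ a, ℓ a ≤ l₁) {x x' : ℤ → A} {t t' ε : ℝ}
    {R : ℕ} (h : Close ε (θ ℓ x t) (θ ℓ x' t')) (hR : l₁ * R + |t| < ε⁻¹) :
    ∃ k, (∀ i : ℤ, |i| ≤ R → x' (i + k) = x i) ∧ |pos ℓ x' k - t' + t| < ε := by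
  obtain ⟨s, a1, a2⟩ := h
  have hl : 0 ≤ l₁ := (hℓ (x 0)).le.trans (h1 _)
  obtain ⟨k, hk⟩ := win_of_tiles hℓ (x := x) (x' := x') (t := t - s) (t' := t') (R := R)
    fun i hi => by
      have b1 := abs_pos_le hℓ h1 x i
      have b2 : |(i : ℝ)| ≤ R := by exact_mod_cast hi
      have b3 := (a2 (x i) (pos ℓ x i - t) (by
        linarith [abs_sub (pos ℓ x i) t, mul_le_mul_of_nonneg_left b2 hl])).1 ⟨i, rfl⟩
      rwa [show pos ℓ x i - (t - s) = pos ℓ x i - t + s by ring]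
  refine ⟨k, fun i hi => (hk i hi).1, ?_⟩
  have := (hk 0 (by simp)).2
  rw [zero_add, pos_zero] at this
  rwa [show pos ℓ x' k - t' + t = s by linarith]

lemma exists_eps (r b : ℝ) (hb : 0 < b) : ∃ ε, 0 < ε ∧ ε ≤ b ∧ r < ε⁻¹ := by
  have h0 : 0 < min b (|r| + 1)⁻¹ := by positivity
  refine ⟨_, h0, min_le_left _ _, ?_⟩
  have := inv_anti₀ h0 (min_le_right b (|r| + 1)⁻¹)
  rw [inv_inv] at this
  linarith [le_abs_self r]

lemma close_of_win {l₀ : ℝ} (h0 : 0 < l₀) (h1 : ∀ a, l₀ ≤ ℓ a) {x x' : ℤ → A} {t t' ε : ℝ}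
    {R : ℕ} (hR : ε⁻¹ + |t| ≤ l₀ * R) (h : ∀ i : ℤ, |i| ≤ R → x' i = x i) (ht : |t - t'| < ε) :
    Close ε (θ ℓ x t) (θ ℓ x' t') := by
  refine ⟨t - t', ht, fun a q hq => ?_⟩
  have key : ∀ (y : ℤ → A) (i : ℤ), pos ℓ y i - t = q → |i| ≤ R := fun y i e => by
    have a1 := le_abs_pos_sub h1 y i 0
    simp only [Int.cast_zero, sub_zero, pos_zero] at a1
    rw [show pos ℓ y i = q + t by linarith] at a1
    have a2 : |(i : ℝ)| ≤ R := le_of_mul_le_mul_left (by linarith [abs_add_le q t]) h0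
    exact_mod_cast a2
  have e : ∀ i : ℤ, |i| ≤ R → pos ℓ x' i = pos ℓ x i := fun i hi =>
    pos_congr ℓ fun j a b => h j (by rw [abs_le] at *; omega)
  simp only [mem_θ]
  constructor
  · rintro ⟨i, a1, a2⟩
    have := key x i a2
    exact ⟨i, (h i this).trans a1, by rw [e i this]; linarith⟩
  · rintro ⟨i, a1, a2⟩
    have := key x' i (by linarith)
    exact ⟨i, (h i this).symm.trans a1, by rw [← e i this]; linarith⟩

variable [Finite A] (hℓ : ∀ a, 0 < ℓ a)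
include hℓ

lemma eq_of_close {x : ℤ → A} {t : ℝ} {T : Patch A} (h : ∀ ε, 0 < ε → Close ε (θ ℓ x t) T) :
    T = θ ℓ x t := by
  have : Nonempty A := ⟨x 0⟩
  obtain ⟨l₀, l₁, h0, h1, -⟩ := exists_len_bounds hℓ
  choose! s hs1 hs2 using h
  obtain ⟨ε₀, a1, a2, a3⟩ := exists_eps (|t| + l₀) (l₀ / 2) (half_pos h0)
  have same : ∀ ε, 0 < ε → ε ≤ ε₀ → s ε = s ε₀ := fun ε b1 b2 => by
    have b3 := inv_anti₀ b1 b2
    have c1 := abs_lt.1 (hs1 ε b1)
    have c2 := abs_lt.1 (hs1 ε₀ a1)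
    have c3 : |s ε₀ - s ε| < l₀ := by rw [abs_lt]; constructor <;> linarith
    have d1 := (hs2 ε₀ a1 (x 0) (-t) (by rw [abs_neg]; linarith)).1 (mem_θ.2 ⟨0, rfl, by simp⟩)
    rw [show -t + s ε₀ = -t + (s ε₀ - s ε) + s ε by ring] at d1
    obtain ⟨i, -, e⟩ := mem_θ.1 ((hs2 ε b1 _ _ (by
      linarith [abs_add_le (-t) (s ε₀ - s ε), abs_neg t])).2 d1)
    have d2 : i = 0 := pos_near_unique h0 h1 (x := x) (by
      rwa [pos_zero, show pos ℓ x i - 0 = s ε₀ - s ε by linarith])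
    rw [d2, pos_zero] at e
    linarith
  have z : s ε₀ = 0 := by
    by_contra hh
    have b1 : 0 < min ε₀ |s ε₀| := lt_min a1 (abs_pos.2 hh)
    have b2 := hs1 _ b1
    rw [same _ b1 (min_le_left _ _)] at b2
    exact absurd (min_le_right _ _) (not_le.2 b2)
  refine Patch.ext' fun a q => ?_
  obtain ⟨ε, b1, b2, b3⟩ := exists_eps |q| ε₀ a1
  rw [hs2 ε b1 a q b3, same ε b1 b2, z, add_zero]

lemma isClosed_of_compact {S : Set (Patch A)} (hS : IsCompact S)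
    (h : ∀ U ∈ S, ∃ x t, U = θ ℓ x t) : IsClosed S := by
  refine isClosed_of_closure_subset fun T hT => ?_
  have : (𝓝 T ⊓ 𝓟 S).NeBot := mem_closure_iff_clusterPt.1 hT
  obtain ⟨U, hU, hc⟩ := hS (f := 𝓝 T ⊓ 𝓟 S) inf_le_right
  obtain ⟨x, t, rfl⟩ := h U hU
  rw [eq_of_close hℓ (T := T) (x := x) (t := t) fun ε h0 => ?_]
  · exact hU
  have h1 : 0 < min ε 1 := lt_min h0 one_pos
  have : (𝓝 (θ ℓ x t) ⊓ 𝓝 T).NeBot := hc.mono inf_le_left
  obtain ⟨T', a1, a2⟩ := Filter.nonempty_of_mem (inter_mem_inf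
    ((nhds_basis (θ ℓ x t)).mem_of_mem (half_pos h1))
    ((nhds_basis T).mem_of_mem (half_pos (half_pos h1))))
  exact (Close.trans h1 (min_le_right _ _) a1 (Close.symm (half_pos h1)
    (by linarith [min_le_right ε 1]) a2)).mono h1 (min_le_left _ _)

variable [TopologicalSpace A] [DiscreteTopology A]

lemma continuous_θ : Continuous fun q : (ℤ → A) × ℝ => θ ℓ q.1 q.2 := by
  refine continuous_iff_continuousAt.2 fun q => (nhds_basis _).tendsto_right_iff.2 fun ε hε => ?_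
  have : Nonempty A := ⟨q.1 0⟩
  obtain ⟨l₀, l₁, h0, h1, -⟩ := exists_len_bounds hℓ
  obtain ⟨R, hR⟩ := exists_nat_ge ((ε⁻¹ + |q.2|) / l₀)
  rw [div_le_iff₀' h0] at hR
  filter_upwards [(continuous_fst.tendsto q).eventually (win_nhds q.1 R),
    (by fun_prop : Continuous fun r : (ℤ → A) × ℝ => |q.2 - r.2|).continuousAt.eventually_lt
      continuousAt_const (show |q.2 - q.2| < ε by simpa)] with r a1 a2
  exact close_of_win h0 h1 hR a1 a2

omit [Finite A] hℓ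

/-- The orbit closure of a word. -/
def orb (x₀ : ℤ → A) : Set (ℤ → A) := closure (range fun n => sh n x₀)

lemma mem_orb {x₀ y : ℤ → A} :
    y ∈ orb x₀ ↔ ∀ R : ℕ, ∃ n, ∀ i : ℤ, |i| ≤ R → x₀ (i + n) = y i := by
  rw [orb, mem_closure_iff_nhds]
  constructor
  · intro h R
    obtain ⟨_, h1, n, rfl⟩ := h _ (win_nhds y R)
    exact ⟨n, h1⟩
  · intro h s hs
    obtain ⟨R, hR⟩ := exists_win_of_nhds hs
    obtain ⟨n, hn⟩ := h R
    exact ⟨_, hR (sh n x₀) hn, n, rfl⟩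

omit [DiscreteTopology A] in
lemma sh_mem_orb (x₀ : ℤ → A) (n : ℤ) : sh n x₀ ∈ orb x₀ := subset_closure ⟨n, rfl⟩

omit [DiscreteTopology A] in
lemma orb_inv {x₀ : ℤ → A} (n : ℤ) : ∀ x ∈ orb x₀, sh n x ∈ orb x₀ := fun _ hx =>
  map_mem_closure (continuous_sh n) hx (by rintro _ ⟨m, rfl⟩; exact ⟨m + n, (sh_sh _ _ _).symm⟩)

variable [Finite A]
include hℓ

lemma θ_mem_hull {x₀ x : ℤ → A} (hx : x ∈ orb x₀) (t₀ t : ℝ) : θ ℓ x t ∈ hull (θ ℓ x₀ t₀) :=
  map_mem_closure (f := fun y => θ ℓ y t) ((continuous_θ hℓ).comp (.prodMk_left t)) hx (by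
    rintro _ ⟨n, rfl⟩
    refine ⟨t₀ - t - pos ℓ x₀ n, ?_⟩
    simp only [translate_θ]
    rw [← θ_sh x₀ _ n]
    congr 1
    ring)

omit [TopologicalSpace A] [DiscreteTopology A] in
lemma exists_rep {l₁ : ℝ} (h2 : ∀ a, ℓ a ≤ l₁) (x : ℤ → A) (t : ℝ) :
    ∃ n, t - pos ℓ x n ∈ Icc 0 l₁ := by
  have : Nonempty A := ⟨x 0⟩
  obtain ⟨l₀, -, h0, h1, -⟩ := exists_len_bounds hℓ
  obtain ⟨n, a1, a2⟩ := exists_idx (p := pos ℓ x) h0
    (fun n => by rw [pos_succ]; linarith [h1 (x n)]) t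
  rw [pos_succ] at a2
  exact ⟨n, by linarith, by linarith [h2 (x n)]⟩

lemma hull_eq {l₁ : ℝ} (h2 : ∀ a, ℓ a ≤ l₁) (x₀ : ℤ → A) (t₀ : ℝ) :
    hull (θ ℓ x₀ t₀) = (fun q : (ℤ → A) × ℝ => θ ℓ q.1 q.2) '' (orb x₀ ×ˢ Icc 0 l₁) := by
  refine subset_antisymm (closure_minimal ?_ (isClosed_of_compact hℓ ?_ ?_)) ?_
  · rintro _ ⟨s, rfl⟩
    obtain ⟨n, hn⟩ := exists_rep hℓ h2 x₀ (t₀ - s)
    exact ⟨(sh n x₀, _), ⟨sh_mem_orb x₀ n, hn⟩, by simp only [θ_sh, translate_θ]⟩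
  · exact (isClosed_closure.isCompact.prod isCompact_Icc).image (continuous_θ hℓ)
  · rintro _ ⟨q, -, rfl⟩
    exact ⟨_, _, rfl⟩
  · rintro _ ⟨q, hq, rfl⟩
    exact θ_mem_hull hℓ hq.1 _ _

lemma orb_min {x₀ : ℤ → A} {t₀ : ℝ} (hmin : ∀ T ∈ hull (θ ℓ x₀ t₀), θ ℓ x₀ t₀ ∈ hull T) :
    ∀ x ∈ orb x₀, ∀ y ∈ orb x₀, ∀ R : ℕ, ∃ n, ∀ i : ℤ, |i| ≤ R → x (i + n) = y i := by
  intro x hx y hy
  have : Nonempty A := ⟨x 0⟩
  obtain ⟨-, l₁, -, -, h2⟩ := exists_len_bounds hℓ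
  have h3 := hmin _ (θ_mem_hull hℓ hx t₀ 0)
  rw [hull_eq hℓ h2] at h3
  obtain ⟨q, hq, e⟩ := h3
  obtain ⟨m, e1, -⟩ := θ_eq hℓ e.symm
  refine mem_orb.1 (closure_minimal ?_ isClosed_closure hy)
  rintro _ ⟨n, rfl⟩
  exact orb_inv n _ (e1 ▸ orb_inv m _ hq.1)

end Pool.Agent.MP_4168de_an

end

section

/-! The substitution map on bi-infinite words. -/

namespace Pool.Agent.MP_4168de_an

open Set Filter Topology

variable {A : Type} {ℓ : A → ℝ} {c : ℝ}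

/-- Start of the image of the `n`-th letter. -/
noncomputable def start (σ : A → List A) (x : ℤ → A) (n : ℤ) : ℤ :=
  isum (fun i => ((σ (x i)).length : ℤ)) n

lemma start_succ (σ : A → List A) (x : ℤ → A) (n : ℤ) :
    start σ x (n + 1) = start σ x n + (σ (x n)).length := isum_succ _ _

lemma start_sh (σ : A → List A) (x : ℤ → A) (n : ℤ) :
    start σ x (1 + n) = (σ (x 0)).length + start σ (sh 1 x) n := by
  rw [start, isum_add_index, isum_one]
  simp only [start, sh_apply, add_comm]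

/-- The image word. -/
noncomputable def img (σ : A → List A) (x : ℤ → A) (j : ℤ) : A :=
  let n := Classical.epsilon fun n => start σ x n ≤ j ∧ j < start σ x (n + 1)
  (σ (x n)).getD (j - start σ x n).toNat (x n)

lemma start_lt {σ : A → List A} (hσ : ∀ a, σ a ≠ []) (x : ℤ → A) (n : ℤ) :
    start σ x n < start σ x (n + 1) := by
  have := List.length_pos_iff.2 (hσ (x n))
  rw [start_succ]
  omega

lemma img_eq {σ : A → List A} (hσ : ∀ a, σ a ≠ []) {x : ℤ → A} {n j : ℤ} (h1 : start σ x n ≤ j)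
    (h2 : j < start σ x (n + 1)) : img σ x j = (σ (x n)).getD (j - start σ x n).toNat (x n) := by
  obtain ⟨h3, h4⟩ := Classical.epsilon_spec
    (p := fun n => start σ x n ≤ j ∧ j < start σ x (n + 1)) ⟨n, h1, h2⟩
  simp only [img, idx_unique (strictMono_int_of_lt_succ (start_lt hσ x)) h3 h4 h1 h2]

lemma img_zero {σ : A → List A} (hσ : ∀ a, σ a ≠ []) (x : ℤ → A) {j : ℕ}
    (h : j < (σ (x 0)).length) : img σ x j = (σ (x 0))[j] := by
  have h0 : start σ x 0 = 0 := isum_zero _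
  rw [img_eq hσ (n := 0) (by omega) (by rw [start_succ]; omega), h0]
  simp [h]

lemma pos_img {σ : A → List A} (hσ : ∀ a, σ a ≠ []) (x : ℤ → A) {j : ℕ}
    (h : j ≤ (σ (x 0)).length) : pos ℓ (img σ x) j = (((σ (x 0)).take j).map ℓ).sum := by
  induction j with
  | zero => simp
  | succ j ih =>
    rw [Nat.cast_succ, pos_succ, ih (by omega), img_zero hσ x h, List.take_succ_eq_append_getElem h,
      List.map_append, List.sum_append]
    simp

/-- The substitution map of `σ`. -/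
noncomputable def ofList (σ : A → List A) (hσ : ∀ a, σ a ≠ [])
    (h : ∀ a, ((σ a).map ℓ).sum = c * ℓ a) : RSub ℓ c where
  S := img σ
  r := fun x => (σ (x 0)).length
  r_pos := fun x => by have := List.length_pos_iff.2 (hσ (x 0)); omega
  r_loc := fun x y h => by rw [h]
  loc := fun x y h j h1 h2 => by
    obtain ⟨j, rfl⟩ := Int.eq_ofNat_of_zero_le h1
    rw [img_zero hσ x (by omega), img_zero hσ y (by rw [← h]; omega)]
    simp only [h]
  shift := fun x => funext fun j => by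
    obtain ⟨n, h1, h2⟩ := exists_idx_int (start_lt hσ (sh 1 x)) j
    rw [img_eq hσ h1 h2, sh_apply (x := img σ x), img_eq hσ (n := 1 + n)
      (by rw [start_sh]; omega) (by rw [add_assoc, start_sh]; omega), start_sh, sh_apply,
      add_comm n 1]
    congr 2
    omega
  len := fun x => by rw [pos_img hσ x le_rfl, List.take_length, h]

lemma inflate_θ (σ : A → List A) (hσ : ∀ a, σ a ≠ []) (h : ∀ a, ((σ a).map ℓ).sum = c * ℓ a)
    (x : ℤ → A) (t : ℝ) : inflate σ ℓ c (θ ℓ x t) = θ ℓ ((ofList σ hσ h).S x) (c * t) := by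
  set τ := ofList σ hσ h
  have key : ∀ (n : ℤ) (j : ℕ) (hj : j < (σ (x n)).length),
      τ.S x (τ.cc x n + j) = (σ (x n))[j] ∧
      pos ℓ (τ.S x) (τ.cc x n + j) = c * pos ℓ x n + (((σ (x n)).take j).map ℓ).sum := by
    intro n j hj
    have e : sh n x 0 = x n := by simp
    have a1 := img_zero hσ (sh n x) (j := j) (by rwa [e])
    have a2 := pos_img (ℓ := ℓ) hσ (sh n x) (j := j) (by rw [e]; omega)
    simp only [e] at a1 a2
    change τ.S _ _ = _ at a1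
    change pos ℓ (τ.S _) _ = _ at a2
    rw [pos_add, τ.pos_S, ← τ.S_sh, a2, ← a1, τ.S_sh, sh_apply, add_comm]
    exact ⟨rfl, rfl⟩
  refine Patch.ext' fun b q => ?_
  rw [mem_θ]
  constructor
  · rintro ⟨_, _, ⟨n, ⟨⟩⟩, u, v, e, rfl⟩
    obtain ⟨a1, a2⟩ := key n u.length (by simp [e])
    refine ⟨τ.cc x n + u.length, by simp [a1, e], ?_⟩
    rw [a2, e]
    simp only [List.take_left']
    ring
  · rintro ⟨i, rfl, rfl⟩
    obtain ⟨n, h1, h2⟩ := exists_idx_int (fun n => τ.cc_strictMono x (lt_add_one n)) i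
    obtain ⟨j, rfl⟩ : ∃ j : ℕ, i = τ.cc x n + j := ⟨(i - τ.cc x n).toNat, by omega⟩
    have hj : j < (σ (x n)).length := by
      rw [τ.cc_succ] at h2
      change _ < _ + ((σ (sh n x 0)).length : ℤ) at h2
      simp only [sh_apply, zero_add] at h2
      omega
    obtain ⟨a1, a2⟩ := key n j hj
    refine ⟨x n, pos ℓ x n - t, ⟨n, rfl⟩, (σ (x n)).take j, (σ (x n)).drop (j + 1), ?_, ?_⟩
    · simp [a1]
    · rw [a2]; ring

lemma inflate_iterate (σ : A → List A) (hσ : ∀ a, σ a ≠ [])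
    (h : ∀ a, ((σ a).map ℓ).sum = c * ℓ a) (k : ℕ) (x : ℤ → A) (t : ℝ) :
    (inflate σ ℓ c)^[k] (θ ℓ x t) = θ ℓ (((ofList σ hσ h).pow k).S x) (c ^ k * t) := by
  rw [RSub.pow_S]
  induction k with
  | zero => simp
  | succ k ih =>
    rw [Function.iterate_succ_apply', ih, inflate_θ σ hσ h, Function.iterate_succ_apply',
      pow_succ', mul_assoc]

variable [TopologicalSpace A] [DiscreteTopology A]

lemma RSub.continuous_S (σ : RSub ℓ c) : Continuous σ.S := by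
  refine continuous_pi fun j => IsLocallyConstant.continuous
    ((IsLocallyConstant.iff_eventually_eq _).2 fun y => ?_)
  filter_upwards [win_nhds y (j.natAbs + 1)] with x h
  have h1 := σ.cc_ge σ.r_pos x (m := 0) (n := j.natAbs + 1) (by omega)
  have h2 := σ.cc_ge σ.r_pos x (m := -(j.natAbs + 1)) (n := 0) (by omega)
  simp only [RSub.cc_zero] at h1 h2
  exact σ.agree (m := -(j.natAbs + 1)) (n := j.natAbs + 1) (by omega) (by omega)
    (fun i a b => h i (by rw [abs_le, Nat.cast_succ]; omega)) (by omega) (by omega)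

lemma exists_dsub [Finite A] (σ : RSub ℓ c) (D : Shift A) {x₀ : ℤ → A} (hD : D.X = orb x₀) {m : ℤ}
    (h : σ.S x₀ = sh m x₀) : Nonempty (DSub D ℓ c) := by
  refine ⟨⟨σ, fun x hx => ?_, fun x hx => ?_⟩⟩
  · rw [hD] at *
    refine map_mem_closure σ.continuous_S hx ?_
    rintro _ ⟨n, rfl⟩
    exact ⟨_, by rw [σ.S_sh, h, sh_sh]⟩
  · obtain ⟨ρ, hρ⟩ := (finite_range fun a : A => σ.r fun _ => a).bddAbove
    have h1 : IsClosed (⋃ n ∈ Icc 0 ρ, sh n '' (σ.S '' D.X)) :=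
      (finite_Icc _ _).isClosed_biUnion fun n _ =>
        ((D.closed.isCompact.image σ.continuous_S).image (continuous_sh n)).isClosed
    have h2 : orb x₀ ⊆ ⋃ n ∈ Icc 0 ρ, sh n '' (σ.S '' D.X) := by
      refine closure_minimal ?_ h1
      rintro _ ⟨j, rfl⟩
      obtain ⟨n, a1, a2⟩ := exists_idx_int (fun n => σ.cc_strictMono x₀ (lt_add_one n)) (j - m)
      have a3 : σ.r (sh n x₀) ≤ ρ := by
        rw [σ.r_loc (sh n x₀) (fun _ => sh n x₀ 0) rfl]
        exact hρ ⟨_, rfl⟩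
      rw [σ.cc_succ] at a2
      refine mem_biUnion (x := j - m - σ.cc x₀ n) ⟨by omega, by omega⟩
        ⟨_, ⟨sh n x₀, hD ▸ sh_mem_orb x₀ n, rfl⟩, ?_⟩
      rw [σ.S_sh, h, sh_sh, sh_sh]
      congr 1
      ring
    obtain ⟨n, -, _, ⟨y, hy, rfl⟩, rfl⟩ := mem_iUnion₂.1 (h2 (hD ▸ hx))
    exact ⟨y, hy, n, rfl⟩

end Pool.Agent.MP_4168de_an

end

section

/-! The data of the abelian cover and the statements that construct it. -/

namespace Pool.Agent.MP_4168de_an.G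

open Set Filter Topology Shift Matrix

/-- A lattice vector as a real vector. -/
def toR {d : ℕ} (v : Lat d) : Fin d → ℝ := fun i => v i

/-- Linear algebra of a unimodular integer matrix with a Pisot eigenvalue. -/
structure LinData {d : ℕ} (B : Matrix (Fin d) (Fin d) ℤ) (u : Fin d → ℝ) (c : ℝ) (e : ℕ) where
  he : 0 < e
  Ψ : (ℝ × (Fin e → ℝ)) ≃L[ℝ] (Fin d → ℝ)
  B' : (Fin e → ℝ) ≃L[ℝ] (Fin e → ℝ)
  fst_symm : ∀ y, (Ψ.symm y).1 = u ⬝ᵥ y
  snd_B : ∀ y, (Ψ.symm (B.map (Int.cast : ℤ → ℝ) *ᵥ y)).2 = B' (Ψ.symm y).2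
  u_inj : ∀ v : Lat d, u ⬝ᵥ toR v = 0 → v = 0
  φ : Fin e → Fin d → ℂ
  lam : Fin e → ℂ
  φB : ∀ j, φ j ᵥ* B.map (Int.cast : ℤ → ℂ) = lam j • φ j
  sep : ∀ y : Fin d → ℂ, (fun i => (u i : ℂ)) ⬝ᵥ y = 0 → (∀ j, φ j ⬝ᵥ y = 0) → y = 0
  lam_lt : ∀ j, ‖lam j‖ < 1
  prod_lam : c * ∏ j, ‖lam j‖ = 1
  lam_unit : ∀ j, IsIntegral ℤ (lam j)⁻¹
  c_unit : IsIntegral ℤ c⁻¹

/-- Pisot numbers of degree `d`. -/
structure IsPisot (c : ℝ) (d : ℕ) : Prop where
  one_lt : 1 < c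
  int : IsIntegral ℤ c
  conj : ∀ z ∈ (minpoly ℚ c).aroots ℂ, z ≠ c → ‖z‖ < 1
  deg : (minpoly ℚ c).natDegree = d

/-- Powers of Pisot numbers. -/
def PisotStmt : Prop := ∀ (c : ℝ) (d k : ℕ), IsPisot c d → 0 < k → IsPisot (c ^ k) d

/-- Existence of the linear data. -/
def LinStmt : Prop :=
  ∀ (d d' : ℕ) (B : Matrix (Fin d) (Fin d) ℤ) (u : Fin d → ℝ) (c : ℝ), IsPisot c d' → d ≤ d' →
    IsUnit B.det → u ≠ 0 → u ᵥ* B.map (Int.cast : ℤ → ℝ) = c • u →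
    ∃ e, Nonempty (LinData B u c e)

/-- Consequences of the linear data. -/
def Lin2Stmt : Prop :=
  ∀ (d e : ℕ) (B : Matrix (Fin d) (Fin d) ℤ) (u : Fin d → ℝ) (c : ℝ) (L : LinData B u c e),
    1 < c → IsUnit B.det → u ᵥ* B.map (Int.cast : ℤ → ℝ) = c • u →
    (∃ K : ℝ, ∀ y : Fin d → ℝ, ‖(L.Ψ.symm y).2‖ ≤ K * ∑ j, ‖L.φ j ⬝ᵥ fun i => (y i : ℂ)‖) ∧
    (∀ k : Fin e → ℝ, ∃ m, L.B' m - m = k) ∧
    DenseRange fun v : Lat d => (L.Ψ.symm (toR v)).2

section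

variable {A : Type} [Fintype A] [DecidableEq A]

/-- `M` is the matrix of the substitution map. -/
def HasMat {ℓ : A → ℝ} {c : ℝ} (σ : RSub ℓ c) (M : Matrix A A ℤ) : Prop :=
  ∀ x b, isum (fun i => if σ.S x i = b then (1 : ℤ) else 0) (σ.r x) = M b (x 0)

lemma HasMat.isum_eq {ℓ : A → ℝ} {c : ℝ} {σ : RSub ℓ c} {M : Matrix A A ℤ} (h : HasMat σ M)
    {G : Type*} [AddCommGroup G] (f : A → G) (x : ℤ → A) :
    isum (fun i => f (σ.S x i)) (σ.r x) = ∑ b, M b (x 0) • f b := by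
  have e : ∀ i, f (σ.S x i) = ∑ b, (if σ.S x i = b then (1 : ℤ) else 0) • f b := fun i => by
    simp
  simp only [e, ← h x, isum, sub_smul, Finset.sum_smul, Finset.sum_sub_distrib]
  rw [Finset.sum_comm, Finset.sum_comm (s := Finset.Ico (σ.r x) 0)]

omit [Fintype A] in
lemma HasMat.unique {ℓ : A → ℝ} {c : ℝ} {σ : RSub ℓ c} {M M' : Matrix A A ℤ} (h : HasMat σ M)
    (h' : HasMat σ M') : M = M' := by
  ext b a
  exact (h (fun _ => a) b).symm.trans (h' (fun _ => a) b)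

variable [TopologicalSpace A]

/-- Any `d + 1` locally constant functions are dependent modulo coboundaries. -/
def RankAt (D : Shift A) (d : ℕ) : Prop :=
  ∀ g : Fin (d + 1) → D.X → ℚ, (∀ i, IsLocallyConstant (g i)) →
    ∃ q : Fin (d + 1) → ℚ, q ≠ 0 ∧ Cob fun x => ∑ i, q i * g i x

/-- The vertices of the graph whose edges are the letters, glued along legal pairs. -/
structure Vert (D : Shift A) where
  st : A → A
  en : A → A
  st_en : ∀ x : D.X, en (x.1 0) = st (x.1 1)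
  univ : ∀ (G : Type) (h₀ h₁ : A → G), (∀ x : D.X, h₁ (x.1 0) = h₀ (x.1 1)) →
    ∃ h : A → G, (∀ a, h (st a) = h₀ a) ∧ ∀ a, h (en a) = h₁ a

/-- The first homology of the graph, with the lifted substitution. -/
structure GraphData {D : Shift A} {ℓ : A → ℝ} {c : ℝ} (σ : DSub D ℓ c) (d : ℕ)
    extends Vert D where
  δ : A → Lat d
  κ : A → Lat d
  f : A → A
  w : A → ℝ
  B : Matrix (Fin d) (Fin d) ℤ
  u : Fin d → ℝ
  detB : IsUnit B.det
  u_ne : u ≠ 0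
  uB : u ᵥ* B.map (Int.cast : ℤ → ℝ) = c • u
  hw : ∀ a, w (en a) + u ⬝ᵥ toR (δ a) = w (st a) + ℓ a
  hf : ∀ x : D.X, st ((σ.T x).1 0) = f (st (x.1 0))
  hκ : ∀ x : D.X, σ.star (fun y => δ (y.1 0)) x =
    B *ᵥ δ (x.1 0) + κ (en (x.1 0)) - κ (st (x.1 0))
  wT : ∀ x : D.X, w (st ((σ.T x).1 0)) + u ⬝ᵥ toR (κ (st (x.1 0))) = c * w (st (x.1 0))
  nil : ∀ M : Matrix A A ℤ, HasMat σ.toRSub M → ∃ N : ℕ, ∀ v : A → ℂ,
    (∀ p, ∑ a, (inc st en p a : ℂ) * v a = 0) → (∀ i, ∑ a, (δ a i : ℂ) * v a = 0) →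
    ∀ b, ∑ a, ((M ^ N) b a : ℂ) * v a = 0
  span_δ : AddSubgroup.closure (range δ) = ⊤
  base : ∃ x₀ : D.X, ∀ a, ∃ n, st (x₀.1 n) = st a ∧ bs (fun y => δ (y.1 0)) x₀ n = 0

/-- The full data of the cover. -/
structure Cover {D : Shift A} {ℓ : A → ℝ} {c : ℝ} (σ : DSub D ℓ c) (d e : ℕ)
    extends GraphData σ d where
  L : LinData B u c e
  Mx : Matrix A A ℤ
  hasMat : HasMat σ.toRSub Mx
  occ : ∀ a, ∃ x : D.X, x.1 0 = a
  ℓ_pos : ∀ a, 0 < ℓ a
  one_lt : 1 < c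
  M : D.X → Fin e → ℝ
  contM : Continuous M
  hM : ∀ x, M (D.τ 1 x) + (L.Ψ.symm (toR (δ (x.1 0)))).2 = M x
  MT : ∀ x, M (σ.T x) + (L.Ψ.symm (toR (κ (st (x.1 0))))).2 = L.B' (M x)
  dense : DenseRange fun v : Lat d => (L.Ψ.symm (toR v)).2

end

/-- From the Cech rank to the rank of locally constant functions. -/
def CechStmt : Prop :=
  ∀ (A : Type) [TopologicalSpace A] [DiscreteTopology A] [Finite A] (D : Shift A) (ℓ : A → ℝ)
    (l₁ : ℝ) (Ω : Set (Patch A)) (d : ℕ), (∀ a, 0 < ℓ a) → (∀ a, ℓ a ≤ l₁) →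
    Ω = (fun q : (ℤ → A) × ℝ => θ ℓ q.1 q.2) '' (D.X ×ˢ Icc 0 l₁) → cechRank Ω = d → RankAt D d

/-- The matrix of a substitution and of its powers; occurrence of all letters. -/
def MatStmt : Prop :=
  ∀ (A : Type) [Fintype A] [DecidableEq A] (ℓ : A → ℝ) (c : ℝ),
    (∀ (σ : A → List A) (hσ : ∀ a, σ a ≠ []) (h : ∀ a, ((σ a).map ℓ).sum = c * ℓ a)
      (M : Matrix A A ℤ), (∀ i j, M i j = (σ j).count i) → HasMat (ofList σ hσ h) M) ∧
    (∀ (σ : RSub ℓ c) (M : Matrix A A ℤ) (k : ℕ), HasMat σ M → HasMat (σ.pow k) (M ^ k)) ∧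
    ∀ (σ : RSub ℓ c) (M : Matrix A A ℤ) (k : ℕ) (x₀ : ℤ → A) (m : ℤ), HasMat σ M →
      M.IsPrimitive → 0 < k → (σ.pow k).S x₀ = sh m x₀ → ∀ a, ∃ n, x₀ n = a

/-- Existence of the vertices. -/
def VertStmt : Prop :=
  ∀ (A : Type) [TopologicalSpace A] (D : Shift A), (∀ a, ∃ x : D.X, x.1 0 = a) →
    Nonempty (Vert D)

/-- A function of the first letter that is a coboundary is a coboundary on the graph. -/
def CobStmt : Prop :=
  ∀ (A : Type) [Fintype A] [DecidableEq A] [TopologicalSpace A] [DiscreteTopology A]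
    (D : Shift A) (ℓ : A → ℝ) (c : ℝ) (σ : DSub D ℓ c) (M : Matrix A A ℤ) (V : Vert D),
    (∀ a, ∃ x : D.X, x.1 0 = a) → (∀ x, 2 ≤ σ.r x) → HasMat σ.toRSub M → M.det ≠ 0 →
    ∀ g : A → ℚ, (Cob fun x : D.X => g (x.1 0)) → ∃ h : A → ℚ, ∀ a, g a = h (V.en a) - h (V.st a)

/-- Existence of the graph data. -/
def GraphStmt : Prop :=
  ∀ (A : Type) [Fintype A] [DecidableEq A] [TopologicalSpace A] [DiscreteTopology A]
    (D : Shift A) (ℓ : A → ℝ) (c : ℝ) (σ : DSub D ℓ c) (M : Matrix A A ℤ) (d' : ℕ),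
    (∀ a, 0 < ℓ a) → 1 < c → (∀ a, ∃ x : D.X, x.1 0 = a) → (∀ x, 2 ≤ σ.r x) →
    HasMat σ.toRSub M → IsUnit M.det → RankAt D d' → ∃ d, d ≤ d' ∧ Nonempty (GraphData σ d)

/-- Existence of the cover. -/
def CoverStmt : Prop :=
  ∀ (A : Type) [Fintype A] [DecidableEq A] [TopologicalSpace A] [DiscreteTopology A]
    (D : Shift A) (ℓ : A → ℝ) (c : ℝ) (σ : DSub D ℓ c) (M : Matrix A A ℤ) (d e : ℕ)
    (G : GraphData σ d), LinData G.B G.u c e → (∀ a, 0 < ℓ a) → 1 < c →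
    (∀ a, ∃ x : D.X, x.1 0 = a) → (∀ x, 2 ≤ σ.r x) → HasMat σ.toRSub M →
    Nonempty (Cover σ d e)

end Pool.Agent.MP_4168de_an.G

end

section

/-! Strands in the cover: positions, internal coordinates, tiles and chains. -/

namespace Pool.Agent.MP_4168de_an.G

open Set Filter Topology Shift Matrix

lemma toR_add {d : ℕ} (v w : Lat d) : toR (v + w) = toR v + toR w := by
  ext i; simp [toR]

@[simp] lemma toR_zero {d : ℕ} : toR (0 : Lat d) = 0 := by ext i; simp [toR]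

lemma toR_mulVec {d : ℕ} (B : Matrix (Fin d) (Fin d) ℤ) (v : Lat d) :
    toR (B *ᵥ v) = B.map (Int.cast : ℤ → ℝ) *ᵥ toR v := by
  ext i; simp [toR, Matrix.mulVec, dotProduct]

variable {A : Type} [Fintype A] [DecidableEq A] [TopologicalSpace A] {D : Shift A} {ℓ : A → ℝ}
  {c : ℝ} {σ : DSub D ℓ c} {d e : ℕ}

namespace Cover

variable (C : Cover σ d e)

/-- The time of a lattice vector. -/
def a : Lat d →+ ℝ where
  toFun v := C.u ⬝ᵥ toR v
  map_zero' := by simp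
  map_add' v w := by rw [toR_add, dotProduct_add]

/-- The internal coordinate of a lattice vector. -/
def b : Lat d →+ (Fin e → ℝ) where
  toFun v := (C.L.Ψ.symm (toR v)).2
  map_zero' := by simp
  map_add' v w := by rw [toR_add, map_add, Prod.snd_add]

/-- The action on the lattice. -/
def Bz : Lat d →+ Lat d where
  toFun v := C.B *ᵥ v
  map_zero' := by simp
  map_add' v w := Matrix.mulVec_add _ _ _

lemma Ψ_ab (v : Lat d) : C.L.Ψ (C.a v, C.b v) = toR v := by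
  rw [show (C.a v, C.b v) = C.L.Ψ.symm (toR v) from Prod.ext (C.L.fst_symm _).symm rfl,
    ContinuousLinearEquiv.apply_symm_apply]

lemma a_inj : Function.Injective C.a := (injective_iff_map_eq_zero _).2 C.L.u_inj

lemma a_Bz (v : Lat d) : C.a (C.Bz v) = c * C.a v := by
  change C.u ⬝ᵥ toR (C.B *ᵥ v) = c * (C.u ⬝ᵥ toR v)
  rw [toR_mulVec, Matrix.dotProduct_mulVec, C.uB, smul_dotProduct, smul_eq_mul]

lemma b_Bz (v : Lat d) : C.b (C.Bz v) = C.L.B' (C.b v) := by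
  change (C.L.Ψ.symm (toR (C.B *ᵥ v))).2 = _
  rw [toR_mulVec, C.L.snd_B]
  rfl

lemma Bz_bij : Function.Bijective C.Bz := by
  have h := (Matrix.isUnit_iff_isUnit_det _).2 C.detB
  exact ⟨Matrix.mulVec_injective_of_isUnit h, Matrix.mulVec_surjective_iff_isUnit.2 h⟩

lemma dense_b : DenseRange C.b := C.dense

/-- The tile of a lifted point. -/
def lab (y : D.X × Lat d) : A × Lat d := (y.1.1 0, y.2)

/-- The start time of a tile. -/
def tm (t : A × Lat d) : ℝ := C.w (C.st t.1) + C.a t.2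

/-- The start time of the tile of a lifted point. -/
def p (y : D.X × Lat d) : ℝ := C.tm (lab y)

/-- The internal coordinate of a lifted point. -/
def z (y : D.X × Lat d) : Fin e → ℝ := C.M y.1 + C.b y.2

/-- The lifted shift. -/
noncomputable def s (n : ℤ) (y : D.X × Lat d) : D.X × Lat d :=
  (D.τ n y.1, y.2 + bs (fun x => C.δ (x.1 0)) y.1 n)

/-- The lifted substitution. -/
def S (y : D.X × Lat d) : D.X × Lat d := (σ.T y.1, C.Bz y.2 + C.κ (C.st (y.1.1 0)))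

/-- Deck translation. -/
def tr (v : Lat d) (y : D.X × Lat d) : D.X × Lat d := (y.1, y.2 + v)

/-- Lifted points over `β` whose tile contains `α`. -/
def K (α : ℝ) (β : Fin e → ℝ) : Set (D.X × Lat d) :=
  {y | C.z y = β ∧ C.p y ≤ α ∧ α < C.p y + ℓ (y.1.1 0)}

/-- Tiles over `β` that contain `α`. -/
def Lab (α : ℝ) (β : Fin e → ℝ) : Set (A × Lat d) := lab '' C.K α β

/-- The tile `t` lies on the strand of `y`. -/
def On (y : D.X × Lat d) (t : A × Lat d) : Prop := ∃ n, lab (C.s n y) = t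

/-- The strands of `y` and `y'` never coincide. -/
def NC (y y' : D.X × Lat d) : Prop := ∀ k t, C.On (C.S^[k] y) t → ¬ C.On (C.S^[k] y') t

/-- A family of pairwise never coincident strands over `β`. -/
def Stack {r : ℕ} (β : Fin e → ℝ) (y : Fin r → D.X × Lat d) : Prop :=
  (∀ i, C.z (y i) = β) ∧ ∀ i j, i ≠ j → C.NC (y i) (y j)

@[simp] lemma s_zero (y : D.X × Lat d) : C.s 0 y = y := by simp [s]

lemma s_s (m n : ℤ) (y : D.X × Lat d) : C.s m (C.s n y) = C.s (n + m) y := by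
  simp only [s, τ_τ, bs_add_index, add_assoc]

lemma s_letter (n : ℤ) (y : D.X × Lat d) : (C.s n y).1.1 0 = y.1.1 n := by simp [s]

lemma s_one (y : D.X × Lat d) : C.s 1 y = (D.τ 1 y.1, y.2 + C.δ (y.1.1 0)) := by simp [s]

lemma w_τ (x : D.X) (n : ℤ) : C.w (C.st (x.1 n)) + C.a (bs (fun x => C.δ (x.1 0)) x n) =
    C.w (C.st (x.1 0)) + pos ℓ x.1 n := by
  have := bs_of_eq (h := fun y : D.X => C.w (C.st (y.1 0)))
    (g := fun y => ℓ (y.1 0) - C.a (C.δ (y.1 0))) (fun y => by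
      have h1 := C.hw (y.1 0)
      rw [C.st_en] at h1
      simp only [τ_val, sh_apply, zero_add]
      change _ + C.a _ = _ at h1
      linarith) x n
  rw [bs_sub, bs_len, ← map_bs] at this
  simp only [τ_val, sh_apply, zero_add] at this
  linarith

lemma M_τ (x : D.X) (n : ℤ) : C.M (D.τ n x) + C.b (bs (fun x => C.δ (x.1 0)) x n) = C.M x := by
  rw [bs_of_eq (h := C.M) (g := fun y => -C.b (C.δ (y.1 0)))
    (fun y => by rw [← C.hM y]; exact (add_neg_cancel_right _ _).symm), map_bs, add_assoc,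
    ← bs_add]
  simp [bs, isum]

lemma p_s (n : ℤ) (y : D.X × Lat d) : C.p (C.s n y) = C.p y + pos ℓ y.1.1 n := by
  have := C.w_τ y.1 n
  simp only [p, tm, lab, s, map_add, τ_val, sh_apply, zero_add]
  linarith

lemma p_s_succ (n : ℤ) (y : D.X × Lat d) :
    C.p (C.s (n + 1) y) = C.p (C.s n y) + ℓ (y.1.1 n) := by
  rw [p_s, p_s, pos_succ, add_assoc]

lemma p_s_strictMono (y : D.X × Lat d) : StrictMono fun n => C.p (C.s n y) := fun m n h => by
  simp only [p_s]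
  linarith [pos_strictMono C.ℓ_pos y.1.1 h]

lemma lab_s_inj (y : D.X × Lat d) : Function.Injective fun n => lab (C.s n y) :=
  fun _ _ h => (C.p_s_strictMono y).injective (congrArg C.tm h)

@[simp] lemma z_s (n : ℤ) (y : D.X × Lat d) : C.z (C.s n y) = C.z y := by
  simp only [z, s, map_add]
  rw [← C.M_τ y.1 n]
  abel

lemma p_S (y : D.X × Lat d) : C.p (C.S y) = c * C.p y := by
  have := C.wT y.1
  change _ + C.a _ = _ at this
  simp only [p, tm, lab, S, map_add, a_Bz]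
  linarith

lemma z_S (y : D.X × Lat d) : C.z (C.S y) = C.L.B' (C.z y) := by
  have := C.MT y.1
  change _ + C.b _ = _ at this
  simp only [z, S, map_add, b_Bz, ← this]
  abel

lemma p_iter (k : ℕ) (y : D.X × Lat d) : C.p (C.S^[k] y) = c ^ k * C.p y := by
  induction k with
  | zero => simp
  | succ k ih => rw [Function.iterate_succ_apply', p_S, ih, pow_succ', mul_assoc]

lemma z_iter (k : ℕ) (y : D.X × Lat d) : C.z (C.S^[k] y) = C.L.B'^[k] (C.z y) := by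
  induction k with
  | zero => simp
  | succ k ih => rw [Function.iterate_succ_apply', z_S, ih, Function.iterate_succ_apply']

lemma S_s (n : ℤ) (y : D.X × Lat d) : C.S (C.s n y) = C.s (σ.cc y.1.1 n) (C.S y) := by
  refine Prod.ext (σ.T_τ _ _) ?_
  have h1 := σ.bs_star (fun x => C.δ (x.1 0)) y.1 n
  have h2 : σ.star (fun x => C.δ (x.1 0)) = fun x => C.Bz (C.δ (x.1 0)) +
      (C.κ (C.st ((D.τ 1 x).1 0)) - C.κ (C.st (x.1 0))) := funext fun x => by
    rw [C.hκ, C.st_en, add_sub_assoc]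
    simp only [τ_val, sh_apply, zero_add]
    rfl
  rw [h2, bs_add, bs_tel (fun x : D.X => C.κ (C.st (x.1 0))), ← map_bs] at h1
  simp only [S, s, map_add, ← h1]
  abel

/-- The index where the image of the `n`-th tile starts after `k` inflations. -/
noncomputable def ix (y : D.X × Lat d) (n : ℤ) : ℕ → ℤ
  | 0 => n
  | k + 1 => σ.cc (C.S^[k] y).1.1 (ix y n k)

lemma iter_s (k : ℕ) (n : ℤ) (y : D.X × Lat d) :
    C.S^[k] (C.s n y) = C.s (C.ix y n k) (C.S^[k] y) := by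
  induction k with
  | zero => rfl
  | succ k ih => rw [Function.iterate_succ_apply', ih, S_s, Function.iterate_succ_apply']; rfl

lemma p_ix (k : ℕ) (n : ℤ) (y : D.X × Lat d) :
    C.p (C.s (C.ix y n k) (C.S^[k] y)) = c ^ k * C.p (C.s n y) := by
  rw [← iter_s, p_iter]

lemma desub (y : D.X × Lat d) : ∃ y' n, y = C.s n (C.S y') := by
  obtain ⟨x, n, h⟩ := σ.surj' y.1
  obtain ⟨v, hv⟩ := C.Bz_bij.2 (y.2 - C.κ (C.st (x.1 0)) - bs (fun x => C.δ (x.1 0)) (σ.T x) n)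
  exact ⟨(x, v), n, Prod.ext h (by simp only [s, S, hv]; abel)⟩

lemma desub_iter (k : ℕ) (y : D.X × Lat d) : ∃ y' n, y = C.s n (C.S^[k] y') := by
  induction k with
  | zero => exact ⟨y, 0, by simp⟩
  | succ k ih =>
    obtain ⟨y', n, rfl⟩ := ih
    obtain ⟨y'', m, rfl⟩ := C.desub y'
    exact ⟨y'', _, by rw [iter_s, s_s, Function.iterate_succ_apply]⟩

lemma p_tr (v : Lat d) (y : D.X × Lat d) : C.p (tr v y) = C.p y + C.a v := by
  simp only [p, tm, lab, tr, map_add, add_assoc]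

lemma z_tr (v : Lat d) (y : D.X × Lat d) : C.z (tr v y) = C.z y + C.b v := by
  simp only [z, tr, map_add, add_assoc]

lemma s_tr (n : ℤ) (v : Lat d) (y : D.X × Lat d) : C.s n (tr v y) = tr v (C.s n y) := by
  simp only [s, tr, add_right_comm]

lemma S_tr (v : Lat d) (y : D.X × Lat d) : C.S (tr v y) = tr (C.Bz v) (C.S y) := by
  simp only [S, tr, map_add, add_right_comm]

lemma iter_tr (k : ℕ) (v : Lat d) (y : D.X × Lat d) :
    C.S^[k] (tr v y) = tr (C.Bz^[k] v) (C.S^[k] y) := by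
  induction k with
  | zero => rfl
  | succ k ih => simp only [Function.iterate_succ_apply', ih, S_tr]

lemma on_s {n : ℤ} {y : D.X × Lat d} {t : A × Lat d} : C.On (C.s n y) t ↔ C.On y t :=
  ⟨fun ⟨m, h⟩ => ⟨n + m, by rwa [← s_s]⟩,
    fun ⟨m, h⟩ => ⟨m - n, by rwa [s_s, add_sub_cancel]⟩⟩

lemma on_tr {v : Lat d} {y : D.X × Lat d} {t : A × Lat d} :
    C.On (tr v y) (t.1, t.2 + v) ↔ C.On y t := by
  refine exists_congr fun n => ?_
  rw [s_tr]
  simp [lab, tr, Prod.ext_iff]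

lemma NC.symm {C : Cover σ d e} {y y' : D.X × Lat d} (h : C.NC y y') : C.NC y' y :=
  fun k t h1 h2 => h k t h2 h1

lemma NC.s {C : Cover σ d e} {y y' : D.X × Lat d} (h : C.NC y y') (m n : ℤ) :
    C.NC (C.s m y) (C.s n y') := fun k t => by
  rw [iter_s, iter_s, on_s, on_s]
  exact h k t

lemma NC.iter {C : Cover σ d e} {y y' : D.X × Lat d} (h : C.NC y y') (j : ℕ) :
    C.NC (C.S^[j] y) (C.S^[j] y') := fun k t => by
  rw [← Function.iterate_add_apply, ← Function.iterate_add_apply]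
  exact h _ t

lemma NC.tr {C : Cover σ d e} {y y' : D.X × Lat d} (h : C.NC y y') (v : Lat d) :
    C.NC (tr v y) (tr v y') := fun k t => by
  have e1 : t = ((t.1, t.2 - C.Bz^[k] v).1, (t.1, t.2 - C.Bz^[k] v).2 + C.Bz^[k] v) := by simp
  rw [iter_tr, iter_tr, e1, on_tr, on_tr]
  exact h k _

lemma mem_K_s {n : ℤ} {y : D.X × Lat d} {α : ℝ} {β : Fin e → ℝ} : C.s n y ∈ C.K α β ↔
    C.z y = β ∧ C.p (C.s n y) ≤ α ∧ α < C.p (C.s (n + 1) y) := by
  simp only [K, mem_ofPred_eq, z_s, s_letter, p_s_succ]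

lemma tr_mem_K {y : D.X × Lat d} {α : ℝ} {β : Fin e → ℝ} (h : y ∈ C.K α β) (v : Lat d) :
    tr v y ∈ C.K (α + C.a v) (β + C.b v) := by
  obtain ⟨h1, h2, h3⟩ := h
  refine ⟨by rw [z_tr, h1], by rw [p_tr]; linarith, ?_⟩
  rw [p_tr]
  change _ < _ + ℓ (y.1.1 0)
  linarith

include C in
lemma len_bounds : ∃ l₀ l₁ : ℝ, 0 < l₀ ∧ (∀ a, l₀ ≤ ℓ a) ∧ ∀ a, ℓ a ≤ l₁ :=
  have := D.nonempty_alph
  exists_len_bounds C.ℓ_pos

lemma exists_K (y : D.X × Lat d) (α : ℝ) : ∃ n, C.s n y ∈ C.K α (C.z y) := by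
  obtain ⟨l₀, l₁, h0, h1, -⟩ := C.len_bounds
  obtain ⟨n, hn⟩ := exists_idx (p := fun n => C.p (C.s n y)) h0
    (fun n => by rw [p_s_succ]; linarith [h1 (y.1.1 n)]) α
  exact ⟨n, C.mem_K_s.2 ⟨rfl, hn⟩⟩

lemma K_unique {y : D.X × Lat d} {α : ℝ} {β : Fin e → ℝ} {m n : ℤ} (h1 : C.s m y ∈ C.K α β)
    (h2 : C.s n y ∈ C.K α β) : m = n := by
  obtain ⟨-, a1, a2⟩ := C.mem_K_s.1 h1
  obtain ⟨-, a3, a4⟩ := C.mem_K_s.1 h2
  exact idx_unique (C.p_s_strictMono y) a1 a2 a3 a4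

lemma finite_box (R : ℝ) : {v : Lat d | |C.a v| ≤ R ∧ ‖C.b v‖ ≤ R}.Finite := by
  obtain ⟨N, hN⟩ := exists_nat_ge (‖(C.L.Ψ : (ℝ × (Fin e → ℝ)) →L[ℝ] (Fin d → ℝ))‖ * R)
  refine (Set.finite_Icc (fun _ => -(N : ℤ)) fun _ => (N : ℤ)).subset ?_
  rintro v ⟨h1, h2⟩
  have key : ∀ i, |(v i : ℝ)| ≤ N := fun i => by
    have h3 := (C.L.Ψ : (ℝ × (Fin e → ℝ)) →L[ℝ] (Fin d → ℝ)).le_of_opNorm_le_of_le le_rfl
      (x := (C.a v, C.b v)) (b := R) (by rw [Prod.norm_mk]; exact max_le h1 h2)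
    rw [ContinuousLinearEquiv.coe_coe, Ψ_ab] at h3
    exact ((norm_le_pi_norm (toR v) i).trans h3).trans hN
  constructor <;> intro i
  · exact_mod_cast (abs_le.1 (key i)).1
  · exact_mod_cast (abs_le.1 (key i)).2

variable [DiscreteTopology A]

lemma continuous_s (n : ℤ) : Continuous (C.s n) := by
  have h : Continuous fun x : D.X => C.δ (x.1 0) := ((lc_letter 0).comp C.δ).continuous
  have := continuous_bs h n
  unfold s
  fun_prop

lemma continuous_S : Continuous C.S := by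
  have h : Continuous fun x : D.X => C.κ (C.st (x.1 0)) :=
    ((lc_letter 0).comp fun a => C.κ (C.st a)).continuous
  have h2 : Continuous C.Bz := continuous_of_discreteTopology
  exact (σ.continuous_T.comp continuous_fst).prodMk
    ((h2.comp continuous_snd).add (h.comp continuous_fst))

omit [Fintype A] [DecidableEq A] in
lemma continuous_lab : Continuous (lab : D.X × Lat d → A × Lat d) :=
  ((lc_letter (D := D) 0).continuous.comp continuous_fst).prodMk continuous_snd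

lemma continuous_p : Continuous C.p :=
  (continuous_of_discreteTopology (f := C.tm)).comp continuous_lab

omit [DiscreteTopology A] in
lemma continuous_z : Continuous C.z := by
  have h2 : Continuous C.b := continuous_of_discreteTopology
  have := C.contM
  unfold z
  fun_prop

lemma K_box (R : ℝ) : ∃ V : Set (Lat d), V.Finite ∧ ∀ y : D.X × Lat d, |C.p y| ≤ R →
    ‖C.z y‖ ≤ R → y.2 ∈ V := by
  obtain ⟨W, hW⟩ := (finite_range fun a => |C.w (C.st a)|).bddAbove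
  obtain ⟨W', hW'⟩ := isCompact_univ.exists_bound_of_continuousOn C.contM.continuousOn
  refine ⟨_, C.finite_box (R + |W| + |W'|), fun y h1 h2 => ⟨?_, ?_⟩⟩
  · have h3 : |C.w (C.st (y.1.1 0))| ≤ W := hW ⟨_, rfl⟩
    have h4 : C.a y.2 = C.p y - C.w (C.st (y.1.1 0)) := by simp [p, tm, lab]
    rw [h4]
    linarith [abs_sub (C.p y) (C.w (C.st (y.1.1 0))), le_abs_self W, abs_nonneg W']
  · have h4 : C.b y.2 = C.z y - C.M y.1 := by simp [z]
    rw [h4]
    linarith [norm_sub_le (C.z y) (C.M y.1), hW' y.1 trivial, le_abs_self W', abs_nonneg W]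

lemma finite_Lab (α : ℝ) (β : Fin e → ℝ) : (C.Lab α β).Finite := by
  obtain ⟨l₀, l₁, h0, h1, h2⟩ := C.len_bounds
  obtain ⟨V, hV, h⟩ := C.K_box (|α| + |l₁| + ‖β‖)
  refine ((finite_univ (α := A)).prod hV).subset ?_
  rintro _ ⟨y, ⟨a1, a2, a3⟩, rfl⟩
  refine ⟨trivial, h y (abs_le.2 ⟨?_, ?_⟩) ?_⟩
  · linarith [neg_abs_le α, le_abs_self l₁, h2 (y.1.1 0), norm_nonneg β]
  · linarith [le_abs_self α, abs_nonneg l₁, norm_nonneg β]
  · rw [a1]
    linarith [abs_nonneg α, abs_nonneg l₁]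

end Cover

end Pool.Agent.MP_4168de_an.G

end

section

/-! Statements that remove the minimality hypothesis. -/

namespace Pool.Agent.MP_4168de_an.G

open Set Filter Topology Shift Matrix MeasureTheory

/-- The limit set of a fixed point of a primitive substitution is a minimal subshift. -/
def LimitStmt : Prop :=
  ∀ (A : Type) [Fintype A] [DecidableEq A] [TopologicalSpace A] [DiscreteTopology A]
    (ℓ : A → ℝ) (c : ℝ) (σ : RSub ℓ c) (M : Matrix A A ℤ) (x₀ : ℤ → A) (t₀ : ℝ) (m : ℤ) (N : ℕ),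
    (∀ a, 0 < ℓ a) → 1 < c → HasMat σ M → (∀ a b, 0 < (M ^ N) a b) → σ.S x₀ = sh m x₀ →
    c * t₀ = t₀ - pos ℓ x₀ m →
    ∃ (D : Shift A) (τ : DSub D ℓ c), τ.toRSub = σ ∧ D.X ⊆ orb x₀ ∧
      (∀ a, ∃ x : D.X, x.1 0 = a) ∧ ∀ x ∈ orb x₀, x ∈ D.X ∨ ∃ n, x = sh n x₀

/-- The orbit of a nonperiodic tiling is null for every invariant probability measure. -/
def OrbitStmt : Prop :=
  ∀ (A : Type) [Finite A] (ℓ : A → ℝ) (x₀ : ℤ → A) (t₀ : ℝ) (μ : Measure (Patch A))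
    [IsProbabilityMeasure μ], (∀ a, 0 < ℓ a) →
    (∀ t, translate t (θ ℓ x₀ t₀) = θ ℓ x₀ t₀ → t = 0) →
    (∀ t, MeasurePreserving (translate t) μ μ) → μ (range (θ ℓ x₀)) = 0

/-- From the Cech rank of a larger tiling space to the rank of locally constant functions. -/
def Cech2Stmt : Prop :=
  ∀ (A : Type) [TopologicalSpace A] [DiscreteTopology A] [Finite A] (D : Shift A) (ℓ : A → ℝ)
    (l₁ : ℝ) (X₀ : Set (ℤ → A)) (Ω : Set (Patch A)) (d : ℕ), (∀ a, 0 < ℓ a) → (∀ a, ℓ a ≤ l₁) →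
    D.X ⊆ X₀ → Ω = (fun q : (ℤ → A) × ℝ => θ ℓ q.1 q.2) '' (X₀ ×ˢ Icc 0 l₁) → cechRank Ω = d →
    RankAt D d

end Pool.Agent.MP_4168de_an.G

end

section

/-! Consequences of the linear data. -/

namespace Pool.Agent.MP_4168de_an.G

open Set Filter Topology Matrix

section

variable {d e : ℕ} {B : Matrix (Fin d) (Fin d) ℤ} {u : Fin d → ℝ} {c : ℝ}

theorem cast_Lin2 (B : Matrix (Fin d) (Fin d) ℤ) (y : Fin d → ℝ) :
    (fun i => ((B.map (Int.cast : ℤ → ℝ) *ᵥ y) i : ℂ)) =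
      B.map (Int.cast : ℤ → ℂ) *ᵥ fun i => (y i : ℂ) := by
  funext i
  simp [Matrix.mulVec, dotProduct]

theorem toR_Lin2 (B : Matrix (Fin d) (Fin d) ℤ) (v : Fin d → ℤ) :
    toR (B *ᵥ v) = B.map (Int.cast : ℤ → ℝ) *ᵥ toR v := by
  funext i
  simp [toR, Matrix.mulVec, dotProduct]

theorem phiB_Lin2 (L : LinData B u c e) (j : Fin e) (y : Fin d → ℝ) :
    (L.φ j ⬝ᵥ fun i => ((B.map (Int.cast : ℤ → ℝ) *ᵥ y) i : ℂ)) =
      L.lam j * (L.φ j ⬝ᵥ fun i => (y i : ℂ)) := by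
  rw [cast_Lin2, dotProduct_mulVec, L.φB, smul_dotProduct, smul_eq_mul]

theorem sep_Lin2 (L : LinData B u c e) (y : Fin d → ℝ) (h0 : u ⬝ᵥ y = 0)
    (h : ∀ j, (L.φ j ⬝ᵥ fun i => (y i : ℂ)) = 0) : y = 0 := by
  have h1 : ((fun i => (u i : ℂ)) ⬝ᵥ fun i => (y i : ℂ)) = ((u ⬝ᵥ y : ℝ) : ℂ) := by
    simp [dotProduct]
  have h2 := L.sep (fun i => (y i : ℂ)) (by rw [h1, h0, Complex.ofReal_zero]) h
  funext i
  have := congrFun h2 i
  simpa using this

theorem eig_Lin2 (L : LinData B u c e) (j : Fin e) (y : Fin d → ℝ) (t : ℝ) (ht : 1 ≤ t)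
    (h : B.map (Int.cast : ℤ → ℝ) *ᵥ y = t • y) : (L.φ j ⬝ᵥ fun i => (y i : ℂ)) = 0 := by
  have h1 := phiB_Lin2 L j y
  have h2 : (L.φ j ⬝ᵥ fun i => ((t • y) i : ℂ)) = t * (L.φ j ⬝ᵥ fun i => (y i : ℂ)) := by
    simp only [dotProduct, Pi.smul_apply, smul_eq_mul, Complex.ofReal_mul, Finset.mul_sum]
    exact Finset.sum_congr rfl fun i _ => by ring
  rw [h, h2] at h1
  by_contra hne
  have h3 : (t : ℂ) = L.lam j := mul_right_cancel₀ hne h1
  have h4 := L.lam_lt j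
  rw [← h3, Complex.norm_real, Real.norm_eq_abs, abs_of_pos (by linarith)] at h4
  linarith

theorem uB_Lin2 (hu : u ᵥ* B.map (Int.cast : ℤ → ℝ) = c • u) (y : Fin d → ℝ) :
    u ⬝ᵥ (B.map (Int.cast : ℤ → ℝ) *ᵥ y) = c * (u ⬝ᵥ y) := by
  rw [dotProduct_mulVec, hu, smul_dotProduct, smul_eq_mul]

theorem uPsi_Lin2 (L : LinData B u c e) (p : ℝ × (Fin e → ℝ)) : u ⬝ᵥ L.Ψ p = p.1 := by
  rw [← L.fst_symm, ContinuousLinearEquiv.symm_apply_apply]

theorem bound_Lin2 (L : LinData B u c e) (hc : 1 < c)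
    (hu : u ᵥ* B.map (Int.cast : ℤ → ℝ) = c • u) : ∃ K : ℝ, 0 ≤ K ∧
    ∀ y : Fin d → ℝ, ‖(L.Ψ.symm y).2‖ ≤ K * ∑ j, ‖L.φ j ⬝ᵥ fun i => (y i : ℂ)‖ := by
  have e0 : B.map (Int.cast : ℤ → ℝ) *ᵥ L.Ψ (1, 0) = c • L.Ψ (1, 0) := by
    apply L.Ψ.symm.injective
    refine Prod.ext ?_ ?_
    · rw [L.fst_symm, uB_Lin2 hu, uPsi_Lin2]
      simp
    · rw [L.snd_B]
      simp
  let F0 : (Fin d → ℝ) →ₗ[ℝ] (Fin e → ℂ) :=
    { toFun := fun y j => L.φ j ⬝ᵥ fun i => (y i : ℂ)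
      map_add' := fun y z => by
        funext j
        simp [dotProduct, mul_add, Finset.sum_add_distrib]
      map_smul' := fun t y => by
        funext j
        simp only [dotProduct, Pi.smul_apply, smul_eq_mul, Complex.ofReal_mul, RingHom.id_apply,
          Complex.real_smul, Finset.mul_sum]
        exact Finset.sum_congr rfl fun i _ => by ring }
  let F : (Fin e → ℝ) →ₗ[ℝ] (Fin e → ℂ) :=
    F0 ∘ₗ (L.Ψ.toLinearEquiv : (ℝ × (Fin e → ℝ)) →ₗ[ℝ] (Fin d → ℝ)) ∘ₗ LinearMap.inr ℝ ℝ (Fin e → ℝ)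
  have hF : ∀ β, F β = F0 (L.Ψ (0, β)) := fun β => rfl
  have hker : LinearMap.ker F = ⊥ := by
    rw [LinearMap.ker_eq_bot']
    intro β hβ
    have h1 := sep_Lin2 L (L.Ψ (0, β)) (uPsi_Lin2 L _) fun j => congrFun hβ j
    have h2 : ((0, β) : ℝ × (Fin e → ℝ)) = 0 := L.Ψ.injective (by rw [h1, map_zero])
    exact congrArg Prod.snd h2
  obtain ⟨K, -, hK⟩ := F.exists_antilipschitzWith hker
  refine ⟨K, K.2, fun y => ?_⟩
  have h0 : F0 (L.Ψ (1, 0)) = 0 := funext fun j => eig_Lin2 L j _ c hc.le e0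
  have h1 : F (L.Ψ.symm y).2 = F0 y := by
    have h2 : y = (L.Ψ.symm y).1 • L.Ψ (1, 0) + L.Ψ (0, (L.Ψ.symm y).2) := by
      rw [← map_smul, ← map_add]
      simp
    conv_rhs => rw [h2, map_add, map_smul, h0, smul_zero, zero_add]
    exact hF _
  refine (ZeroHomClass.bound_of_antilipschitz F hK _).trans
    (mul_le_mul_of_nonneg_left ?_ K.2)
  rw [h1]
  refine (pi_norm_le_iff_of_nonneg (Finset.sum_nonneg fun j _ => norm_nonneg _)).2 fun j => ?_
  exact Finset.single_le_sum (f := fun j => ‖L.φ j ⬝ᵥ fun i => (y i : ℂ)‖)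
    (fun j _ => norm_nonneg _) (Finset.mem_univ j)

theorem surj_Lin2 (L : LinData B u c e) (hu : u ᵥ* B.map (Int.cast : ℤ → ℝ) = c • u)
    (k : Fin e → ℝ) : ∃ m, L.B' m - m = k := by
  let T : (Fin e → ℝ) →ₗ[ℝ] (Fin e → ℝ) :=
    (L.B'.toLinearEquiv : (Fin e → ℝ) →ₗ[ℝ] (Fin e → ℝ)) - LinearMap.id
  have hT : ∀ m, T m = L.B' m - m := fun m => rfl
  have hinj : Function.Injective T := by
    rw [← LinearMap.ker_eq_bot, LinearMap.ker_eq_bot']
    intro m hm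
    rw [hT, sub_eq_zero] at hm
    have e0 : B.map (Int.cast : ℤ → ℝ) *ᵥ L.Ψ (0, m) = (1 : ℝ) • L.Ψ (0, m) := by
      apply L.Ψ.symm.injective
      refine Prod.ext ?_ ?_
      · rw [L.fst_symm, uB_Lin2 hu, uPsi_Lin2]
        simp
      · rw [L.snd_B]
        simp [hm]
    have h1 := sep_Lin2 L (L.Ψ (0, m)) (uPsi_Lin2 L _) fun j => eig_Lin2 L j _ 1 le_rfl e0
    have h2 : ((0, m) : ℝ × (Fin e → ℝ)) = 0 := L.Ψ.injective (by rw [h1, map_zero])
    exact congrArg Prod.snd h2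
  exact LinearMap.injective_iff_surjective.1 hinj k

theorem approx_Lin2 (L : LinData B u c e) (k : ℕ) : ∀ β : Fin e → ℝ,
    ∃ (v : Fin d → ℤ) (z : Fin d → ℝ), β - (L.Ψ.symm (toR v)).2 = (L.Ψ.symm z).2 ∧
      ∀ j, ‖L.φ j ⬝ᵥ fun i => (z i : ℂ)‖ ≤ ‖L.lam j‖ ^ k * ∑ i, ‖L.φ j i‖ := by
  induction k with
  | zero =>
    intro β
    refine ⟨fun i => ⌊L.Ψ (0, β) i⌋, L.Ψ (0, β) - toR fun i => ⌊L.Ψ (0, β) i⌋, by simp,
      fun j => ?_⟩
    rw [pow_zero, one_mul]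
    refine (norm_sum_le _ _).trans (Finset.sum_le_sum fun i _ => ?_)
    rw [norm_mul, Complex.norm_real, Real.norm_eq_abs]
    refine mul_le_of_le_one_right (norm_nonneg _) ?_
    change |Int.fract (L.Ψ (0, β) i)| ≤ 1
    rw [abs_of_nonneg (Int.fract_nonneg _)]
    exact (Int.fract_lt_one _).le
  | succ k ih =>
    intro β
    obtain ⟨v, z, h1, h2⟩ := ih (L.B'.symm β)
    refine ⟨B *ᵥ v, B.map (Int.cast : ℤ → ℝ) *ᵥ z, ?_, fun j => ?_⟩
    · rw [toR_Lin2, L.snd_B, L.snd_B, ← h1, map_sub, ContinuousLinearEquiv.apply_symm_apply]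
    · rw [phiB_Lin2, norm_mul, pow_succ', mul_assoc]
      exact mul_le_mul_of_nonneg_left (h2 j) (norm_nonneg _)

end

theorem lin2_stmt : Lin2Stmt := by
  intro d e B u c L hc _ hu
  obtain ⟨K, hK0, hK⟩ := bound_Lin2 L hc hu
  refine ⟨⟨K, hK⟩, surj_Lin2 L hu, Metric.denseRange_iff.2 fun β ε hε => ?_⟩
  have t : Tendsto (fun k : ℕ => K * ∑ j, ‖L.lam j‖ ^ k * ∑ i, ‖L.φ j i‖) atTop
      (𝓝 (K * ∑ j : Fin e, 0 * ∑ i, ‖L.φ j i‖)) :=
    (tendsto_finsetSum _ fun j _ =>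
      (tendsto_pow_atTop_nhds_zero_of_lt_one (norm_nonneg _) (L.lam_lt j)).mul_const _).const_mul K
  simp only [zero_mul, Finset.sum_const_zero, mul_zero] at t
  obtain ⟨k, hk⟩ := (t.eventually (gt_mem_nhds hε)).exists
  obtain ⟨v, z, h1, h2⟩ := approx_Lin2 L k β
  refine ⟨v, ?_⟩
  rw [dist_eq_norm, h1]
  exact ((hK z).trans (mul_le_mul_of_nonneg_left (Finset.sum_le_sum fun j _ => h2 j) hK0)).trans_lt
    hk

end Pool.Agent.MP_4168de_an.G

end

section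

/-! Coboundaries that depend on the first letter only. -/

namespace Pool.Agent.MP_4168de_an.G

open Set Filter Topology Shift Matrix

theorem key_Cob {A : Type} [Fintype A] [DecidableEq A] [TopologicalSpace A] {D : Shift A}
    {ℓ : A → ℝ} {c : ℝ} (σ : DSub D ℓ c) {M : Matrix A A ℤ} (V : Vert D)
    (occ : ∀ a, ∃ x : D.X, x.1 0 = a) (hM : HasMat σ.toRSub M) (g : A → ℚ) (h : D.X → ℚ)
    (e : ∀ x : D.X, g (x.1 0) = h (D.τ 1 x) - h x)
    (hl : ∀ x y : D.X, x.1 0 = y.1 0 → h (σ.T x) = h (σ.T y)) :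
    ∃ H : A → ℚ, ∀ a, (g ᵥ* (Int.castRingHom ℚ).mapMatrix M) a = H (V.en a) - H (V.st a) := by
  choose z hz using occ
  have h1 : ∀ x : D.X, (g ᵥ* (Int.castRingHom ℚ).mapMatrix M) (x.1 0) =
      h (σ.T (D.τ 1 x)) - h (σ.T x) := by
    intro x
    rw [← σ.star_tel, ← funext e]
    have := hM.isum_eq g x.1
    simp only [DSub.star, bs, τ_val, sh_apply, zero_add, DSub.T_val, this]
    simp [vecMul, dotProduct, mul_comm]
  obtain ⟨H, a1, a2⟩ := V.univ ℚ (fun a => h (σ.T (z a)))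
    (fun a => h (σ.T (z a)) + (g ᵥ* (Int.castRingHom ℚ).mapMatrix M) a) fun x => by
      rw [h1, hl _ x (hz _), hl (z (x.1 1)) (D.τ 1 x) (by simp [hz]), add_sub_cancel]
  exact ⟨H, fun a => by rw [a1, a2, add_sub_cancel_left]⟩

theorem lin_Cob {A : Type} [Fintype A] [DecidableEq A] (N : Matrix A A ℚ) (hN : N.det ≠ 0)
    (Φ : Submodule ℚ (A → ℚ)) (h : ∀ g ∈ Φ, g ᵥ* N ∈ Φ) (k : ℕ) :
    ∀ g, g ᵥ* N ^ k ∈ Φ → g ∈ Φ := by
  have hi : Function.Injective N.vecMulLinear :=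
    vecMul_injective_of_isUnit ((isUnit_iff_isUnit_det N).2 hN.isUnit)
  have h1 : Φ.map N.vecMulLinear = Φ :=
    Submodule.eq_of_le_of_finrank_eq (by rintro _ ⟨g, hg, rfl⟩; exact h g hg)
      (Submodule.equivMapOfInjective _ hi Φ).finrank_eq.symm
  induction k with
  | zero => intro g hg; simpa using hg
  | succ k ih =>
    intro g hg
    rw [pow_succ', ← vecMul_vecMul] at hg
    have h2 := ih _ hg
    rw [← h1] at h2
    obtain ⟨g', h3, h4⟩ := h2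
    exact hi h4 ▸ h3

theorem cob_stmt (hM : MatStmt) : CobStmt := by
  intro A _ _ _ _ D ℓ c σ M V occ hr hm hdet g hg
  obtain ⟨h, hlc, e⟩ := hg
  obtain ⟨R, hR⟩ := win_of_lc hlc
  let Φ : Submodule ℚ (A → ℚ) :=
    LinearMap.range (LinearMap.funLeft ℚ ℚ V.en - LinearMap.funLeft ℚ ℚ V.st)
  have hΦ : ∀ f, f ∈ Φ ↔ ∃ H : A → ℚ, ∀ a, f a = H (V.en a) - H (V.st a) := fun f =>
    exists_congr fun H => ⟨fun x a => (congrFun x a).symm, fun x => (funext x).symm⟩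
  have h1 : ∀ x y : D.X, (∀ i : ℤ, 0 ≤ i → i ≤ 2 * R → x.1 i = y.1 i) → h x = h y := by
    intro x y hxy
    have e' : ∀ y, h (D.τ 1 y) = h y + g (y.1 0) := fun y => (eq_sub_iff_add_eq'.1 (e y)).symm
    have a1 := hR (D.τ R x) (D.τ R y) fun i hi => by
      have := abs_le.1 hi
      exact hxy _ (by omega) (by omega)
    have a2 : bs (fun y : D.X => g (y.1 0)) x R = bs (fun y : D.X => g (y.1 0)) y R :=
      isum_congr fun i b1 b2 => congrArg g (hxy _ (by omega) (by omega))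
    rw [bs_of_eq e', bs_of_eq e', a2] at a1
    exact add_right_cancel a1
  refine (hΦ g).1 (lin_Cob ((Int.castRingHom ℚ).mapMatrix M) ?_ Φ (fun f hf => ?_) (2 * R) g ?_)
  · rw [← RingHom.map_det]
    simpa using hdet
  · obtain ⟨H, hH⟩ := (hΦ f).1 hf
    refine (hΦ _).2 (key_Cob σ V occ hm f (fun x => H (V.st (x.1 0))) (fun x => ?_)
      fun x y hxy => ?_)
    · rw [hH, V.st_en]; simp
    · exact congrArg (fun a => H (V.st a)) (σ.loc _ _ hxy 0 le_rfl (by have := hr x.1; omega))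
  · rw [← map_pow]
    refine (hΦ _).2 (key_Cob (σ.pow (2 * R)) V occ ((hM A ℓ c).2.1 _ M _ hm) g h e
      fun x y hxy => h1 _ _ fun i b1 b2 => (σ.pow (2 * R)).loc _ _ hxy i b1 ?_)
    have a1 := pow_r_ge σ hr (2 * R) x.1
    have a2 : ((2 * R : ℕ) : ℤ) < 2 ^ (2 * R) := by exact_mod_cast Nat.lt_two_pow_self
    omega

end Pool.Agent.MP_4168de_an.G

end

section

/-! From the Cech rank to the rank of locally constant functions modulo coboundaries. -/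

namespace Pool.Agent.MP_4168de_an

open Set Filter Topology Shift

lemma exists_of_mem_cechB {X : Type} [TopologicalSpace X] {c : X → X → ℚ} (h : c ∈ cechB X) :
    ∃ U : X → Set X, (∀ x, IsOpen (U x) ∧ x ∈ U x) ∧
      ∃ b : X → ℚ, ∀ x y, (U x ∩ U y).Nonempty → c x y = b y - b x := by
  induction h using Submodule.span_induction with
  | mem c hc => exact hc
  | zero => exact ⟨fun _ => univ, fun _ => ⟨isOpen_univ, trivial⟩, 0, by simp⟩
  | add c c' _ _ h h' =>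
    obtain ⟨U, a1, b, a2⟩ := h
    obtain ⟨U', b1, b', b2⟩ := h'
    refine ⟨fun x => U x ∩ U' x, fun x => ⟨(a1 x).1.inter (b1 x).1, (a1 x).2, (b1 x).2⟩, b + b',
      fun x y ⟨z, hz⟩ => ?_⟩
    simp only [Pi.add_apply, a2 x y ⟨z, hz.1.1, hz.2.1⟩, b2 x y ⟨z, hz.1.2, hz.2.2⟩]
    ring
  | smul q c _ h =>
    obtain ⟨U, a1, b, a2⟩ := h
    refine ⟨U, a1, q • b, fun x y hz => ?_⟩
    simp only [Pi.smul_apply, a2 x y hz, smul_sub]

variable {A : Type} [TopologicalSpace A] [DiscreteTopology A] [Finite A] {D : Shift A}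
  {ℓ : A → ℝ}

omit [DiscreteTopology A] in
lemma θ_mem (hℓ : ∀ a, 0 < ℓ a) {l₁ : ℝ} (h2 : ∀ a, ℓ a ≤ l₁) (x : D.X) (t : ℝ) :
    θ ℓ x.1 t ∈ (fun q : (ℤ → A) × ℝ => θ ℓ q.1 q.2) '' (D.X ×ˢ Icc 0 l₁) := by
  obtain ⟨n, hn⟩ := exists_rep hℓ h2 x.1 t
  exact ⟨(sh n x.1, _), ⟨D.inv n _ x.2, hn⟩, θ_sh _ _ _⟩

theorem rankLe (hℓ : ∀ a, 0 < ℓ a) {l₁ : ℝ} (h2 : ∀ a, ℓ a ≤ l₁) {Ω : Set (Patch A)}
    (hΩ : Ω = (fun q : (ℤ → A) × ℝ => θ ℓ q.1 q.2) '' (D.X ×ˢ Icc 0 l₁))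
    (hr : cechRank Ω = 2) : RankLe D := by
  classical
  have := D.nonempty_alph
  obtain ⟨l₀, -, h0, h1, -⟩ := exists_len_bounds hℓ
  have rep : ∀ T : Ω, ∃ (x : D.X) (t : ℝ), t ∈ Icc 0 l₁ ∧ θ ℓ x.1 t = T := fun T => by
    obtain ⟨q, hq, e⟩ := hΩ.subset T.2
    exact ⟨⟨q.1, hq.1⟩, q.2, hq.2, e⟩
  choose x t ht hx using rep
  let k : Ω → Ω → ℤ := fun T T' =>
    Classical.epsilon fun k => |pos ℓ (x T').1 k - t T' + t T| < l₀ / 2
  have hk : ∀ T T' j, |pos ℓ (x T').1 j - t T' + t T| < l₀ / 2 → k T T' = j := fun T T' j h => by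
    have a1 := abs_lt.1 (Classical.epsilon_spec
      (p := fun k => |pos ℓ (x T').1 k - t T' + t T| < l₀ / 2) ⟨j, h⟩)
    have a2 := abs_lt.1 h
    exact pos_near_unique h0 h1 (x := (x T').1) (abs_lt.2 ⟨by linarith, by linarith⟩)
  let co : (D.X → ℚ) → Ω → Ω → ℚ := fun g T T' => bs g (x T') (k T T')
  have hZ : ∀ g, IsLocallyConstant g → co g ∈ cechZ Ω := by
    intro g hg
    obtain ⟨Rg, hRg⟩ := win_of_lc hg
    obtain ⟨K, hK⟩ := exists_nat_ge ((l₁ + l₀) / l₀)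
    rw [div_le_iff₀' h0] at hK
    obtain ⟨ε, e0, e1, e2⟩ := exists_eps (l₁ * (K + Rg : ℕ) + l₁) (l₀ / 4) (by linarith)
    have hU : ∀ T : Ω, ∃ U : Set Ω, U ⊆ {W | Close ε T.1 W.1} ∧ IsOpen U ∧ T ∈ U := fun T =>
      mem_nhds_iff.1 (continuous_subtype_val.continuousAt ((nhds_basis T.1).mem_of_mem e0))
    choose U U1 U2 U3 using hU
    refine Submodule.subset_span ⟨U, fun T => ⟨U2 T, U3 T⟩, ?_⟩
    rintro T₁ T₂ T₃ ⟨W, ⟨w1, w2⟩, w3⟩
    have near : ∀ T, W ∈ U T → ∃ j, (∀ i : ℤ, |i| ≤ (K + Rg : ℕ) → (x W).1 (i + j) = (x T).1 i) ∧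
        |pos ℓ (x W).1 j - t W + t T| < ε := fun T hT => by
      have a1 : Close ε (θ ℓ (x T).1 (t T)) (θ ℓ (x W).1 (t W)) := by
        rw [hx, hx]; exact U1 T hT
      exact a1.win hℓ h2 (by rw [abs_of_nonneg (ht T).1]; linarith [(ht T).2])
    choose! j j1 j2 using near
    have val : ∀ T T', W ∈ U T → W ∈ U T' →
        co g T T' = bs g (x W) (j T) - bs g (x W) (j T') := by
      intro T T' hT hT'
      have a1 := abs_lt.1 (j2 T hT)
      have a2 := abs_lt.1 (j2 T' hT')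
      have a3 : |j T - j T'| ≤ K := by
        have b1 := le_abs_pos_sub h1 (x W).1 (j T) (j T')
        have b2 : |pos ℓ (x W).1 (j T) - pos ℓ (x W).1 (j T')| ≤ l₀ * K :=
          abs_le.2 ⟨by linarith [(ht T).2, (ht T').1], by linarith [(ht T).1, (ht T').2]⟩
        have b3 := le_of_mul_le_mul_left (b1.trans b2) h0
        exact_mod_cast b3
      rw [abs_le] at a3
      have a4 := pos_add ℓ (x W).1 (j T') (j T - j T')
      rw [add_sub_cancel, pos_congr ℓ (x := sh (j T') (x W).1) (y := (x T').1) (n := j T - j T')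
        fun i a b => j1 T' hT' i (by rw [abs_le]; omega)] at a4
      have a5 := bs_add_index g (x W) (j T') (j T - j T')
      rw [add_sub_cancel] at a5
      simp only [co, hk T T' (j T - j T') (abs_lt.2 ⟨by linarith, by linarith⟩), a5,
        add_sub_cancel_left]
      refine isum_congr fun i a b => hRg _ _ fun n hn => ?_
      rw [abs_le] at hn
      exact (j1 T' hT' (n + i) (by rw [abs_le]; omega)).symm
    rw [val _ _ w2 w3, val _ _ w1 w3, val _ _ w1 w2]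
    ring
  intro g hg
  have dep : ¬ LinearIndependent ℚ fun i => (⟨(cechB Ω).mkQ (co (g i)), _, hZ _ (hg i), rfl⟩ :
      (cechZ Ω).map (cechB Ω).mkQ) := fun h => by
    have a1 := h.cardinal_le_rank
    rw [show Module.rank ℚ ((cechZ Ω).map (cechB Ω).mkQ) = 2 from hr] at a1
    simp only [Cardinal.mk_fin] at a1
    norm_cast at a1
  obtain ⟨q, hq, i₀, hi₀⟩ := Fintype.not_linearIndependent_iff.1 dep
  refine ⟨q, fun h => hi₀ (congrFun h i₀), ?_⟩
  set G : D.X → ℚ := fun x => ∑ i, q i * g i x with hG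
  have lG : IsLocallyConstant G := by
    simp only [hG, Fin.sum_univ_three]
    exact (((hg 0).comp (q 0 * ·)).add ((hg 1).comp (q 1 * ·))).add ((hg 2).comp (q 2 * ·))
  have hB : co G ∈ cechB Ω := by
    have a1 := congrArg Subtype.val hq
    simp only [Submodule.coe_sum, Submodule.coe_smul, ← map_smul, ← map_sum,
      ZeroMemClass.coe_zero] at a1
    rw [Submodule.mkQ_apply, Submodule.Quotient.mk_eq_zero] at a1
    have a2 : co G = ∑ i, q i • co (g i) := by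
      ext T T'
      have e : ∀ i, bs (fun x => q i * g i x) (x T') (k T T') = q i * bs (g i) (x T') (k T T') :=
        fun i => (map_bs (AddMonoidHom.mulLeft (q i)) _ _ _).symm
      simp only [co, hG, Fin.sum_univ_three, bs_add, e, Pi.add_apply, Pi.smul_apply, smul_eq_mul]
    rwa [a2]
  obtain ⟨U, hU, b, hb⟩ := exists_of_mem_cechB hB
  let P : D.X × ℝ → Ω := fun r => ⟨θ ℓ r.1.1 r.2, hΩ.superset (θ_mem hℓ h2 r.1 r.2)⟩
  have cP : Continuous P :=
    ((continuous_θ hℓ).comp (f := fun r : D.X × ℝ => (r.1.1, r.2)) (by fun_prop)).subtype_mk _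
  choose m m1 m2 using fun r => θ_eq hℓ (hx (P r))
  have m1' : ∀ r, x (P r) = D.τ (m r) r.1 := fun r => Subtype.ext (m1 r)
  let H : D.X × ℝ → ℚ := fun r => b (P r) + bs G r.1 (m r)
  have lH : IsLocallyConstant H := by
    refine (IsLocallyConstant.iff_eventually_eq _).2 fun r => ?_
    filter_upwards [cP.continuousAt.eventually ((hU (P r)).1.mem_nhds (hU (P r)).2),
      (continuous_fst.tendsto r).eventually ((lc_bs lG (m r)).eventually_eq r.1),
      (continuous_fst.tendsto r).eventually (win_nhds' r.1 (m r).natAbs),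
      (by fun_prop : Continuous fun s : D.X × ℝ => |r.2 - s.2|).continuousAt.eventually_lt
        continuousAt_const (show |r.2 - r.2| < l₀ / 2 by simpa)] with s a1 a2 a3 a4
    have a5 := hb (P r) (P s) ⟨P s, a1, (hU _).2⟩
    have a6 := pos_add ℓ s.1.1 (m s) (m r - m s)
    rw [add_sub_cancel, ← m1, pos_congr ℓ (y := r.1.1) fun i a b =>
      a3 i (by rw [abs_le]; omega)] at a6
    have a7 := bs_add_index G s.1 (m s) (m r - m s)
    rw [add_sub_cancel, ← m1'] at a7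
    simp only [co, hk (P r) (P s) (m r - m s) (by
      rwa [show pos ℓ (x (P s)).1 (m r - m s) - t (P s) + t (P r) = r.2 - s.2 by
        linarith [m2 r, m2 s]])] at a5
    simp only [H]
    linarith
  refine ⟨fun y => -H (y, 0), (lH.comp_continuous (.prodMk_left 0)).neg, fun y => ?_⟩
  have a1 : H (y, ℓ (y.1 0)) = H (y, 0) :=
    (lH.comp_continuous (.prodMk_right y)).apply_eq_of_preconnectedSpace _ _
  have a2 : P (D.τ 1 y, 0) = P (y, ℓ (y.1 0)) := Subtype.ext (by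
    have := θ_sh (ℓ := ℓ) y.1 (ℓ (y.1 0)) 1
    simpa [pos, P] using this)
  have a3 : m (y, ℓ (y.1 0)) = 1 + m (D.τ 1 y, 0) := (pos_strictMono hℓ y.1).injective (by
    have b1 := m2 (y, ℓ (y.1 0))
    have b2 := m2 (D.τ 1 y, 0)
    rw [a2, b1] at b2
    rw [pos_add]
    simp only [τ_val, pos, isum_one] at b2 ⊢
    linarith)
  simp only [H, a3, bs_add_index, bs_one, ← a2] at a1 ⊢
  linarith

end Pool.Agent.MP_4168de_an

end

section

/-! Powers of Pisot numbers. -/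

namespace Pool.Agent.MP_4168de_an.G

open IntermediateField Polynomial

theorem pisot_stmt : PisotStmt := by
  intro c d k h hk
  have hi : IsIntegral ℚ c := h.int.tower_top
  have : FiniteDimensional ℚ ℚ⟮c⟯ := adjoin.finiteDimensional hi
  let x := AdjoinSimple.gen ℚ c
  have e1 : minpoly ℚ (x ^ k) = minpoly ℚ (c ^ k) := by
    rw [← minpoly.algebraMap_eq (algebraMap ℚ⟮c⟯ ℝ).injective, map_pow,
      AdjoinSimple.algebraMap_gen]
  have h1 : ∀ ψ : ℚ⟮c⟯ →ₐ[ℚ] ℂ, ψ x ≠ c → ‖ψ (x ^ k)‖ < 1 := fun ψ hψ => by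
    rw [map_pow, norm_pow]
    refine pow_lt_one₀ (norm_nonneg _) (h.conj _ ?_ hψ) hk.ne'
    rw [mem_aroots, aeval_algHom_apply]
    exact ⟨minpoly.ne_zero hi, (congrArg ψ (aeval_gen_minpoly ℚ c)).trans (map_zero ψ)⟩
  have h2 : 1 < c ^ k := one_lt_pow₀ h.one_lt hk.ne'
  refine ⟨h2, h.int.pow k, fun z hz hne => ?_, ?_⟩
  · have : z ∈ (minpoly ℚ (x ^ k)).rootSet ℂ := by
      rw [e1, mem_rootSet]
      exact mem_aroots.1 hz
    rw [← Algebra.IsAlgebraic.range_eval_eq_rootSet_minpoly] at this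
    obtain ⟨ψ, rfl⟩ := this
    exact h1 ψ fun e => hne (by simp [e])
  · let φ : ℚ⟮c⟯ →ₐ[ℚ] ℂ := (IsScalarTower.toAlgHom ℚ ℝ ℂ).comp ℚ⟮c⟯.val
    have hφ : φ x = c := rfl
    rw [← e1, ← h.deg, ← adjoin.finrank hi, ← Field.primitive_element_iff_minpoly_natDegree_eq,
      Field.primitive_element_iff_algHom_eq_of_eval ℚ ℂ (fun _ => IsAlgClosed.splits _) _ φ]
    intro ψ hψ
    have h3 : ψ x = c := by
      by_contra e
      have := h1 ψ e
      rw [← hψ, map_pow, hφ, ← Complex.ofReal_pow, Complex.norm_real, Real.norm_eq_abs] at this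
      linarith [le_abs_self (c ^ k)]
    refine adjoin_algHom_ext ℚ ?_
    rintro _ rfl
    exact h3.symm

end Pool.Agent.MP_4168de_an.G

end
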