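import Pool.Agent.Mg.F4168de.G51c807
import Pool.Agent.Mg.F4168de.Gfd1a75
import Pool.Agent.Mg.F4168de.G289263

section

/-! Counting lattice points between two cuts. -/

namespace Pool.Agent.MP_4168de_an

open Finset

lemma lattice_count {b₁ b₂ e f ε : ℝ} (hb : 0 < b₂) (he : 0 < e) {a F : ℤ × ℤ → ℝ}
    (ha : ∀ q : ℤ × ℤ, (q.1 : ℝ) = e * a q + f * (b₁ * q.1 + b₂ * q.2))
    (hF : ∀ q, 0 ≤ F q ∧ F q ≤ 1) (h1 : ∀ q : ℤ × ℤ, ε ≤ b₁ * q.1 + b₂ * q.2 → F q = 1)
    (h0 : ∀ q : ℤ × ℤ, b₁ * q.1 + b₂ * q.2 ≤ -ε → F q = 0) (v : ℤ × ℤ) (t : ℝ) :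
    ∃ C : ℝ, ∀ L : ℝ, 0 ≤ L → ∀ S : Finset (ℤ × ℤ),
      (∀ q, q ∈ S ↔ t - L ≤ a q ∧ a q < t ∧ F q - F (q - v) ≠ 0) →
      |∑ q ∈ S, (F q - F (q - v)) - L * (e * (v.2 + v.1 * (b₁ / b₂)))| ≤ C := by
  classical
  set c := ε + |b₁ * v.1 + b₂ * v.2| with hc
  have hv := abs_le.1 (le_refl |b₁ * v.1 + b₂ * v.2|)
  have hv0 := abs_nonneg (b₁ * v.1 + b₂ * v.2)
  have hg : ∀ q : ℤ × ℤ, F q - F (q - v) ≠ 0 → |b₁ * q.1 + b₂ * q.2| < c := by
    intro q hq
    by_contra hh
    apply hq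
    rcases le_abs'.1 (not_lt.1 hh) with h | h
    · rw [h0 q (by linarith), h0 (q - v) (by simp only [Prod.fst_sub, Prod.snd_sub]; push_cast
                                             linarith), sub_self]
    · rw [h1 q (by linarith), h1 (q - v) (by simp only [Prod.fst_sub, Prod.snd_sub]; push_cast
                                             linarith), sub_self]
  have hg1 : ∀ q : ℤ × ℤ, |F q - F (q - v)| ≤ 1 := fun q => by
    rw [abs_le]; constructor <;> linarith [hF q, hF (q - v)]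
  obtain ⟨J, hJ⟩ := exists_nat_ge (|c| / b₂ + 1)
  have hJ' : |c| + b₂ ≤ b₂ * J := by
    have := mul_le_mul_of_nonneg_left hJ hb.le
    rwa [mul_add, mul_div_cancel₀ _ hb.ne', mul_one] at this
  have hcc := le_abs_self c
  let l : ℤ → ℤ := fun k => ⌊-(k * (b₁ / b₂))⌋
  have hl : ∀ k : ℤ, -b₂ < b₁ * k + b₂ * l k ∧ b₁ * k + b₂ * l k ≤ 0 := by
    intro k
    have e1 : b₁ * k = b₂ * (k * (b₁ / b₂)) := by field_simp
    have e2 := Int.floor_le (-(k * (b₁ / b₂)))
    have e3 := Int.lt_floor_add_one (-(k * (b₁ / b₂)))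
    rw [e1]
    constructor <;> nlinarith
  let P : ℤ → ℤ → ℝ := fun k n => isum (fun j => F (k, j)) n
  have low : ∀ k p p' : ℤ, b₁ * k + b₂ * p ≤ -ε → b₁ * k + b₂ * p' ≤ -ε → P k p = P k p' := by
    intro k p p' hp hp'
    wlog h : p ≤ p' generalizing p p'
    · exact (this p' p hp' hp (by omega)).symm
    rw [eq_comm, ← sub_eq_zero, ← sum_Ico_eq_isum _ h]
    refine sum_eq_zero fun j hj => h0 _ ?_
    have : (j : ℝ) ≤ p' := by exact_mod_cast (mem_Ico.1 hj).2.le
    nlinarith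
  have high : ∀ k p p' : ℤ, ε ≤ b₁ * k + b₂ * p → ε ≤ b₁ * k + b₂ * p' →
      P k p - p = P k p' - p' := by
    intro k p p' hp hp'
    wlog h : p ≤ p' generalizing p p'
    · exact (this p' p hp' hp (by omega)).symm
    have e1 : P k p' - P k p = ∑ j ∈ Ico p p', (1 : ℝ) := by
      rw [← sum_Ico_eq_isum _ h]
      refine sum_congr rfl fun j hj => h1 _ ?_
      have : (p : ℝ) ≤ j := by exact_mod_cast (mem_Ico.1 hj).1
      nlinarith
    have e2 : (((p' - p).toNat : ℤ) : ℝ) = p' - p := by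
      rw [Int.toNat_of_nonneg (by omega)]; push_cast; ring
    rw [sum_const, Int.card_Ico, nsmul_eq_mul, mul_one] at e1
    rw [Int.cast_natCast] at e2
    linarith
  let Φ : ℤ → ℝ := fun k => P k (l k + J) - P k (l k - J) - (l k + J) - k * (b₁ / b₂)
  have hΦ : ∀ k, |Φ k| ≤ J + 1 := by
    intro k
    have e1 := isum_sub_le (f := fun j => F (k, j)) (fun j => (hF _).2) (m := l k - J)
      (n := l k + J) (by omega)
    have e2 := isum_sub_ge (f := fun j => F (k, j)) (fun j => (hF _).1) (m := l k - J)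
      (n := l k + J) (by omega)
    have e3 := Int.floor_le (-(k * (b₁ / b₂)))
    have e4 := Int.lt_floor_add_one (-(k * (b₁ / b₂)))
    push_cast at e1 e2
    simp only [Φ, P, l] at *
    rw [abs_le]
    constructor <;> linarith
  let G : ℤ → ℝ := fun k => ∑ j ∈ Ico (l k - J) (l k + J), (F (k, j) - F ((k, j) - v))
  have hG : ∀ k, G k = Φ k - Φ (k - v.1) + (v.2 + v.1 * (b₁ / b₂)) := by
    intro k
    have e1 : ∑ j ∈ Ico (l k - J) (l k + J), F ((k, j) - v) =
        P (k - v.1) (l k + J - v.2) - P (k - v.1) (l k - J - v.2) := by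
      rw [← sum_Ico_eq_isum _ (by omega)]
      refine sum_bij' (fun j _ => j - v.2) (fun j _ => j + v.2) ?_ ?_ ?_ ?_ ?_
      · intro j hj; rw [mem_Ico] at *; omega
      · intro j hj; rw [mem_Ico] at *; omega
      · intro j _; simp
      · intro j _; simp
      · intro j _; rfl
    have a1 := hl k
    have a2 := hl (k - v.1)
    have e2 := low (k - v.1) (l k - J - v.2) (l (k - v.1) - J) (by push_cast; linarith)
      (by push_cast at a2 ⊢; linarith)
    have e3 := high (k - v.1) (l k + J - v.2) (l (k - v.1) + J) (by push_cast; linarith)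
      (by push_cast at a2 ⊢; linarith)
    simp only [G, Φ]
    rw [sum_sub_distrib, e1, sum_Ico_eq_isum _ (by omega), e2]
    push_cast at e3 ⊢
    simp only [P] at e3 ⊢
    linarith
  have hGb : ∀ (k : ℤ) (g : ℤ → ℝ), (∀ j, |g j| ≤ 1) →
      |∑ j ∈ Ico (l k - J) (l k + J), g j| ≤ 2 * J := by
    intro k g hg
    refine (abs_sum_le_sum_abs _ _).trans ((sum_le_card_nsmul _ _ 1 fun j _ => hg j).trans ?_)
    rw [Int.card_Ico, show l k + J - (l k - J) = ((2 * J : ℕ) : ℤ) by push_cast; ring,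
      Int.toNat_natCast]
    simp
  obtain ⟨m, hm⟩ := exists_nat_ge (|f| * |c| + 1)
  set κ := (v.2 : ℝ) + v.1 * (b₁ / b₂)
  refine ⟨4 * m * (4 * J) + 2 * ((J + 1) * |(v.1 : ℝ)|) + |κ|, fun L hL S hS => ?_⟩
  set k₀ := ⌈e * (t - L)⌉ with hk₀
  set k₁ := ⌈e * t⌉ with hk₁
  have hk : k₀ ≤ k₁ := Int.ceil_le_ceil (by nlinarith)
  have c1 := Int.le_ceil (e * (t - L))
  have c2 := Int.ceil_lt_add_one (e * (t - L))
  have c3 := Int.le_ceil (e * t)
  have c4 := Int.ceil_lt_add_one (e * t)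
  rw [← hk₀] at c1 c2
  rw [← hk₁] at c3 c4
  have hnear : ∀ q : ℤ × ℤ, F q - F (q - v) ≠ 0 → |(q.1 : ℝ) - e * a q| ≤ m - 1 := by
    intro q hq
    have : (q.1 : ℝ) - e * a q = f * (b₁ * q.1 + b₂ * q.2) := by linarith [ha q]
    rw [this, abs_mul]
    have := mul_le_mul_of_nonneg_left ((hg q hq).le.trans hcc) (abs_nonneg f)
    linarith
  let H : ℤ → ℝ := fun k => ∑ j ∈ Ico (l k - J) (l k + J),
    if t - L ≤ a (k, j) ∧ a (k, j) < t then F (k, j) - F ((k, j) - v) else 0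
  have s1 : ∑ q ∈ S, (F q - F (q - v)) = ∑ k ∈ Ico (k₀ - m) (k₁ + m), H k := by
    simp only [H]
    rw [sum_sigma']
    symm
    refine sum_bij_ne_zero (fun x _ _ => (x.1, x.2)) ?_ ?_ ?_ ?_
    · intro x _ hx
      rw [hS]
      split_ifs at hx with h
      · exact ⟨h.1, h.2, hx⟩
      · exact absurd rfl hx
    · rintro ⟨x1, x2⟩ _ _ ⟨y1, y2⟩ _ _ h
      simp only [Prod.mk.injEq] at h
      obtain ⟨rfl, rfl⟩ := h
      rfl
    · rintro ⟨k, j⟩ hq hq'
      obtain ⟨q1, q2, q3⟩ := (hS _).1 hq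
      refine ⟨⟨k, j⟩, ?_, by rwa [if_pos ⟨q1, q2⟩], rfl⟩
      have a1 := abs_le.1 (hnear _ q3)
      have a2 := abs_lt.1 (hg _ q3)
      have a3 := hl k
      have a4 := mul_le_mul_of_nonneg_left q1 he.le
      have a5 := mul_lt_mul_of_pos_left q2 he
      simp only [mem_sigma, mem_Ico] at *
      refine ⟨⟨?_, ?_⟩, ?_, ?_⟩
      · have : (k₀ : ℝ) - m ≤ k := by linarith
        exact_mod_cast this
      · have : (k : ℝ) < k₁ + m := by linarith
        exact_mod_cast this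
      · have : (l k : ℝ) - J ≤ j := by nlinarith
        exact_mod_cast this
      · have : (j : ℝ) < l k + J := by nlinarith
        exact_mod_cast this
    · intro x _ hx
      split_ifs at hx ⊢ with h
      · rfl
      · exact absurd rfl hx
  have s2 : ∑ k ∈ Ico k₀ k₁, G k = ∑ k ∈ Ico (k₀ - m) (k₁ + m), if k ∈ Ico k₀ k₁ then G k else 0 := by
    rw [← sum_filter]
    congr 1
    ext k
    simp only [mem_filter, mem_Ico]
    omega
  have s3 : |∑ k ∈ Ico (k₀ - m) (k₁ + m), (H k - if k ∈ Ico k₀ k₁ then G k else 0)| ≤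
      4 * m * (4 * J) := by
    rw [← sum_subset (s₁ := Ico (k₀ - m) (k₀ + m) ∪ Ico (k₁ - m) (k₁ + m))]
    · refine (abs_sum_le_sum_abs _ _).trans 
        ((sum_le_card_nsmul _ _ (4 * J : ℝ) fun k _ => ?_).trans ?_)
      · have a1 : |H k| ≤ 2 * J := hGb k _ fun j => by
          split_ifs
          · exact hg1 _
          · simp
        have a2 : |G k| ≤ 2 * J := hGb k _ fun j => hg1 _
        have a3 : (0 : ℝ) ≤ J := Nat.cast_nonneg J
        refine (abs_sub _ _).trans ?_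
        split_ifs
        · linarith
        · rw [abs_zero]; linarith
      · rw [nsmul_eq_mul]
        refine mul_le_mul_of_nonneg_right ?_ (by positivity)
        have := card_union_le (Ico (k₀ - m) (k₀ + m)) (Ico (k₁ - m) (k₁ + m))
        rw [Int.card_Ico, Int.card_Ico] at this
        have e1 : (k₀ + m - (k₀ - m)).toNat + (k₁ + m - (k₁ - m)).toNat = 4 * m := by omega
        rw [e1] at this
        exact_mod_cast this
    · intro k hk'
      simp only [mem_union, mem_Ico] at *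
      omega
    · intro k hk1 hk2
      simp only [mem_union, mem_Ico] at hk1 hk2
      rw [if_pos (mem_Ico.2 (by omega)), sub_eq_zero]
      refine sum_congr rfl fun j _ => ?_
      by_cases hq : F (k, j) - F ((k, j) - v) = 0
      · simp [hq]
      · have a1 := abs_le.1 (hnear _ hq)
        have a2 : (k₀ : ℝ) + m ≤ k := by exact_mod_cast (by omega : k₀ + m ≤ k)
        have a3 : (k : ℝ) + 1 ≤ k₁ - m := by exact_mod_cast (by omega : k + 1 ≤ k₁ - m)
        refine if_pos ⟨le_of_mul_le_mul_left ?_ he, lt_of_mul_lt_mul_left ?_ he.le⟩ <;>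
          simp only at a1 <;> linarith
  have s4 : ∑ k ∈ Ico k₀ k₁, G k = (isum Φ k₁ - isum Φ (k₁ - v.1)) -
      (isum Φ k₀ - isum Φ (k₀ - v.1)) + ((k₁ : ℝ) - k₀) * κ := by
    have e1 : ∑ k ∈ Ico k₀ k₁, Φ (k - v.1) = isum Φ (k₁ - v.1) - isum Φ (k₀ - v.1) := by
      rw [← sum_Ico_eq_isum _ (by omega)]
      refine sum_bij' (fun j _ => j - v.1) (fun j _ => j + v.1) ?_ ?_ ?_ ?_ ?_
      · intro j hj; rw [mem_Ico] at *; omega
      · intro j hj; rw [mem_Ico] at *; omega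
      · intro j _; simp
      · intro j _; simp
      · intro j _; rfl
    have e2 : (((k₁ - k₀).toNat : ℤ) : ℝ) = k₁ - k₀ := by
      rw [Int.toNat_of_nonneg (by omega)]; push_cast; ring
    rw [Int.cast_natCast] at e2
    simp only [hG]
    rw [sum_add_distrib, sum_sub_distrib, e1, sum_Ico_eq_isum _ hk, sum_const, Int.card_Ico,
      nsmul_eq_mul, e2]
    ring
  have s5 : ∀ k : ℤ, |isum Φ k - isum Φ (k - v.1)| ≤ (J + 1) * |(v.1 : ℝ)| := fun k => by
    have := abs_isum_sub_le hΦ (k - v.1) k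
    push_cast at this
    rwa [sub_sub_cancel] at this
  have s6 : |((k₁ : ℝ) - k₀ - L * e) * κ| ≤ |κ| := by
    rw [abs_mul]
    refine mul_le_of_le_one_left (abs_nonneg _) (abs_le.2 ⟨by linarith, by linarith⟩)
  rw [sum_sub_distrib, ← s1, ← s2, s4] at s3
  have a1 := abs_le.1 s3
  have a2 := abs_le.1 (s5 k₀)
  have a3 := abs_le.1 (s5 k₁)
  have a4 := abs_le.1 s6
  rw [abs_le]
  constructor <;> linarith

end Pool.Agent.MP_4168de_an

end

section

/-! The coincidence rank is one. -/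

namespace Pool.Agent.MP_4168de_an

open Set Filter Topology Shift

variable {A : Type} [TopologicalSpace A] {D : Shift A} {ℓ : A → ℝ} {c : ℝ} {σ : DSub D ℓ c}

namespace Lift

variable (L : Lift σ)

lemma b_eq_zero {v : Γ} (h : L.u' 0 * v 0 + L.u' 1 * v 1 = 0) : v = 0 :=
  L.b_inj (by rw [L.b_eq, h, map_zero])

lemma u'_ne : L.u' 1 ≠ 0 := fun h => by
  have := congrFun (L.b_eq_zero (v := ![0, 1]) (by simp [h])) 1
  simp at this

lemma e_ne : L.e 0 ≠ 0 := fun h => by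
  have h1 := L.u'e
  have h2 := L.ue
  rw [h] at h1 h2
  have h3 : L.e 1 = 0 := by simpa [L.u'_ne] using h1
  simp [h3] at h2

lemma e_irr {m n : ℤ} (h : m * L.e 0 + n * L.e 1 = 0) : m = 0 ∧ n = 0 := by
  have := L.b_eq_zero (v := ![n, -m]) (by
    apply mul_left_cancel₀ L.e_ne
    simp only [Matrix.cons_val_zero, Matrix.cons_val_one]
    push_cast
    linear_combination (n : ℝ) * L.u'e - L.u' 1 * h)
  exact ⟨by simpa using congrFun this 1, by simpa using congrFun this 0⟩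

lemma dense_b : Dense (range L.b) := by
  rcases AddSubgroup.dense_or_cyclic L.b.range with h | ⟨a, h⟩
  · exact h
  · exfalso
    have h1 : L.b ![1, 0] ∈ AddSubgroup.closure {a} := h ▸ ⟨_, rfl⟩
    have h2 : L.b ![0, 1] ∈ AddSubgroup.closure {a} := h ▸ ⟨_, rfl⟩
    obtain ⟨j, hj⟩ := AddSubgroup.mem_closure_singleton.1 h1
    obtain ⟨k, hk⟩ := AddSubgroup.mem_closure_singleton.1 h2
    simp only [L.b_eq, Matrix.cons_val_zero, Matrix.cons_val_one, zsmul_eq_mul] at hj hk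
    push_cast at hj hk
    have := L.b_eq_zero (v := ![k, -j]) (by
      simp only [Matrix.cons_val_zero, Matrix.cons_val_one]
      push_cast
      linear_combination -(k : ℝ) * hj + j * hk)
    have h3 : k = 0 := by simpa using congrFun this 0
    rw [h3] at hk
    exact L.u'_ne (by simpa using hk.symm)

lemma exists_near {m : ℕ} (hm : 0 < m) (x : ℝ) {ρ : ℝ} (hρ : 0 < ρ) :
    ∃ v : Γ, |L.b ((m : ℤ) • v) - x| < ρ := by
  have hm' : (0 : ℝ) < m := by exact_mod_cast hm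
  obtain ⟨_, ⟨v, rfl⟩, hv⟩ := Metric.mem_closure_iff.1 (L.dense_b (x / m)) (ρ / m) (by positivity)
  refine ⟨v, ?_⟩
  rw [Real.dist_eq, abs_sub_comm, lt_div_iff₀ hm'] at hv
  have : L.b ((m : ℤ) • v) - x = (L.b v - x / m) * m := by
    rw [map_zsmul, zsmul_eq_mul]; push_cast; field_simp
  rwa [this, abs_mul, abs_of_pos hm']

lemma lattice {F : Γ → ℝ} {ε : ℝ} (hF : ∀ q, 0 ≤ F q ∧ F q ≤ 1) (h1 : ∀ q, ε ≤ L.b q → F q = 1)
    (h0 : ∀ q, L.b q ≤ -ε → F q = 0) (v : Γ) (t : ℝ) :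
    ∃ s : ℤ, s * s = 1 ∧ ∃ C : ℝ, ∀ R : ℝ, 0 ≤ R → ∀ S : Finset Γ,
      (∀ q, q ∈ S ↔ t - R ≤ L.a q ∧ L.a q < t ∧ F q - F (q - v) ≠ 0) →
      |∑ q ∈ S, (F q - F (q - v)) - R * (s * (L.e 0 * v 1 - L.e 1 * v 0))| ≤ C := by
  classical
  have sg : ∀ x : ℝ, x ≠ 0 → ∃ s : ℤ, s * s = 1 ∧ 0 < s * x := fun x hx => by
    rcases hx.lt_or_gt with h | h
    · exact ⟨-1, by norm_num, by simpa using h⟩
    · exact ⟨1, by norm_num, by simpa using h⟩
  obtain ⟨s₀, a0, b0⟩ := sg _ L.e_ne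
  obtain ⟨s₁, a1, b1⟩ := sg _ L.u'_ne
  have a0' : (s₀ : ℝ) * s₀ = 1 := by exact_mod_cast a0
  have a1' : (s₁ : ℝ) * s₁ = 1 := by exact_mod_cast a1
  let φ : ℤ × ℤ ≃ Γ :=
    { toFun := fun q => ![s₀ * q.1, s₁ * q.2]
      invFun := fun q => (s₀ * q 0, s₁ * q 1)
      left_inv := fun q => by simp [← mul_assoc, a0, a1]
      right_inv := fun q => by
        ext i
        fin_cases i <;> simp [← mul_assoc, a0, a1] }
  have φ0 : ∀ q, φ q 0 = s₀ * q.1 := fun _ => rfl
  have φ1 : ∀ q, φ q 1 = s₁ * q.2 := fun _ => rfl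
  have hb : ∀ q, L.b (φ q) = s₀ * L.u' 0 * q.1 + s₁ * L.u' 1 * q.2 := fun q => by
    rw [L.b_eq, φ0, φ1]; push_cast; ring
  have hsub : ∀ q, φ (q - φ.symm v) = φ q - v := fun q => by
    ext i
    fin_cases i <;> simp [φ, mul_sub, ← mul_assoc, a0, a1]
  obtain ⟨C, hC⟩ := lattice_count (b₁ := s₀ * L.u' 0) (f := s₀ * L.e' 0) (ε := ε) b1 b0
    (a := fun q => L.a (φ q)) (F := fun q => F (φ q)) (fun q => by
      have := L.dec (fun i => φ q i) 0
      rw [← L.a_eq, ← L.b_eq, hb, φ0] at this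
      push_cast at this
      linear_combination s₀ * this - q.1 * a0') (fun q => hF _)
    (fun q h => h1 _ (by rwa [hb])) (fun q h => h0 _ (by rwa [hb])) (φ.symm v) t
  refine ⟨s₀ * s₁, by linear_combination s₁ * s₁ * a0 + a1, C, fun R hR S hS => ?_⟩
  have := hC R hR (S.map φ.symm.toEmbedding) fun q => by
    rw [Finset.mem_map_equiv, Equiv.symm_symm, hS, hsub]
  rw [Finset.sum_map] at this
  simp only [Equiv.coe_toEmbedding, hsub, Equiv.apply_symm_apply] at this
  convert this using 4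
  have h2 := L.u'_ne
  have h3 : (s₁ : ℝ) ≠ 0 := fun h => by simp [h] at a1'
  change _ = s₀ * L.e 0 * (((s₁ * v 1 : ℤ) : ℝ) + ((s₀ * v 0 : ℤ) : ℝ) * _)
  push_cast
  field_simp
  linear_combination (-(s₀ : ℝ) * v 0 * L.u' 1 * L.e 1) * a1' - s₀ * v 0 * L.u'e -
    s₀ * v 0 * L.e 0 * L.u' 0 * a0'

lemma K_tr (α β : ℝ) (v : Γ) : (L.K (α + L.a v) (β + L.b v)).encard ≤ (L.K α β).encard := by
  refine encard_le_encard_of_injOn (f := fun y => (y.1, y.2 + -v)) (fun y hy => ?_) ?_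
  · simpa using L.tr_mem_K hy (-v)
  · intro y _ y' _ h
    simp only [Prod.mk.injEq, add_left_inj] at h
    exact Prod.ext h.1 h.2

variable [Finite A] [DiscreteTopology A] (hℓ : ∀ a, 0 < ℓ a) {L} (Q : L.Box)

/-- The number of tiles over the box. -/
noncomputable def Box.m : ℕ := (L.Lab Q.α Q.β).ncard

/-- Generic internal coordinates. -/
def Box.Gen (β : ℝ) : Prop := ∀ α, (L.K α β).encard ≤ Q.m

include hℓ

omit [DiscreteTopology A] in
lemma Box.Gen.tr {β : ℝ} (h : Q.Gen β) (v : Γ) : Q.Gen (β + L.b v) := fun α =>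
  (L.encard_K_le hℓ _ _ _).trans ((L.K_tr α β v).trans (h α))

omit [Finite A] [DiscreteTopology A] in
lemma Box.Gen.inj {β : ℝ} (h : Q.Gen β) {y y' : D.X × Γ} (h1 : L.z y = β) (h2 : L.z y' = β)
    (h3 : L.lab y = L.lab y') : y = y' := by
  have hf : (L.K (L.p y) β).Finite := finite_of_encard_le_coe (h _)
  have h4 : (L.K (L.p y) β).ncard ≤ Q.m := by
    have := h (L.p y)
    rw [← hf.cast_ncard_eq] at this
    exact_mod_cast this
  have h5 := injOn_of_ncard_image_eq (f := L.lab)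
    (le_antisymm (ncard_image_le hf) (h4.trans (Q.least _ _))) hf
  have h6 : L.p y = L.p y' := congrArg Prod.snd h3
  exact h5 ⟨h1, le_rfl, by linarith [hℓ (y.1.1 0)]⟩ ⟨h2, h6.ge, by linarith [hℓ (y'.1.1 0)]⟩ h3

omit [Finite A] [DiscreteTopology A] hℓ in
lemma Box.Gen.ncard {β : ℝ} (h : Q.Gen β) (α : ℝ) : (L.K α β).ncard = Q.m := by
  have hf : (L.K α β).Finite := finite_of_encard_le_coe (h _)
  refine le_antisymm ?_ ((Q.least α β).trans (ncard_image_le hf))
  have := h α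
  rw [← hf.cast_ncard_eq] at this
  exact_mod_cast this

/-- Birkhoff sums of a locally constant integer function grow linearly in the position. -/
lemma bs_slope {γ : D.X → ℤ} (hγ : IsLocallyConstant γ) : ∃ (n : Γ) (C : ℝ), ∀ (y : D.X × Γ)
    (α α' : ℝ) (i j : ℤ), L.s i y ∈ L.K α (L.z y) → L.s j y ∈ L.K α' (L.z y) →
      |((bs γ y.1 (j + 1) - bs γ y.1 (i + 1) : ℤ) : ℝ) -
        (α' - α) * (n 0 * L.e 0 + n 1 * L.e 1)| ≤ C := by
  have := D.nonempty_alph
  obtain ⟨l₀, l₁, h0, h1, h2⟩ := exists_len_bounds hℓ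
  obtain ⟨n, h, lh, eh⟩ := L.gen γ hγ
  set κ : ℝ := n 0 * L.e 0 + n 1 * L.e 1 with hκ
  set κ' : ℝ := n 0 * L.e' 0 + n 1 * L.e' 1 with hκ'
  let k : D.X → ℝ := fun x => h x - κ * L.w x - κ' * L.M x
  have ck : Continuous k := by
    have a1 := (lh.comp (Int.cast : ℤ → ℝ)).continuous
    have a2 := L.lcw.continuous
    have a3 := L.contM
    exact (a1.sub (continuous_const.mul a2)).sub (continuous_const.mul a3)
  obtain ⟨K, hK0, hK⟩ := exists_abs_le ck
  have e1 : ∀ x, (γ x : ℝ) = κ * ℓ (x.1 0) + (k (D.τ 1 x) - k x) := fun x => by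
    have a1 : (γ x : ℝ) - (n 0 * L.δ x 0 + n 1 * L.δ x 1) = h (D.τ 1 x) - h x := by
      have := eh x
      simp only [Fin.sum_univ_two] at this
      exact_mod_cast this
    have a2 := L.dec (fun i => L.δ x i) 0
    have a3 := L.dec (fun i => L.δ x i) 1
    rw [← L.a_eq, ← L.b_eq] at a2 a3
    simp only [k]
    linear_combination a1 + n 0 * a2 + n 1 * a3 + κ * L.hw x + κ' * L.hM x
  have e2 : ∀ x i, ((bs γ x i : ℤ) : ℝ) = κ * pos ℓ x.1 i + (k (D.τ i x) - k x) := fun x i => by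
    refine (map_bs (Int.castAddHom ℝ) γ x i).trans ?_
    simp only [Int.coe_castAddHom, e1]
    rw [bs_add, bs_tel, ← bs_len]
    congr 1
    exact (map_bs (AddMonoidHom.mulLeft κ) _ x i).symm
  refine ⟨n, l₁ * |κ| + 2 * K, fun y α α' i j hi hj => ?_⟩
  obtain ⟨-, a1, a2⟩ := L.mem_K_s.1 hi
  obtain ⟨-, a3, a4⟩ := L.mem_K_s.1 hj
  have a5 := pos_succ ℓ y.1.1 i
  have a6 := pos_succ ℓ y.1.1 j
  have a7 : |(pos ℓ y.1.1 (j + 1) - pos ℓ y.1.1 (i + 1) - (α' - α)) * κ| ≤ l₁ * |κ| := by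
    rw [abs_mul]
    refine mul_le_mul_of_nonneg_right (abs_le.2 ⟨?_, ?_⟩) (abs_nonneg _) <;>
      linarith [h2 (y.1.1 i), h2 (y.1.1 j)]
  push_cast
  rw [e2, e2, ← hκ]
  have b1 := abs_le.1 a7
  have b2 := abs_le.1 (hK (D.τ (i + 1) y.1))
  have b3 := abs_le.1 (hK (D.τ (j + 1) y.1))
  rw [abs_le]
  constructor <;> linarith

/-- A return to the same sheet has its lattice vector in `m Γ`. -/
lemma Box.return_dvd {y₁ : D.X × Γ} {v : Γ} {n : ℤ} (hg : Q.Gen (L.z y₁))
    (hl : L.lab y₁ ∈ L.Lab Q.α Q.β) (hr : L.lab (L.s n (y₁.1, y₁.2 + v)) = L.lab y₁)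
    (h1 : |L.z y₁ - Q.β| < Q.ρ) (h2 : |L.z y₁ + L.b v - Q.β| < Q.ρ) (i : Fin 2) :
    (Q.m : ℤ) ∣ v i := by
  classical
  set β₁ := L.z y₁ with hβ₁
  set y₂ := L.s n (y₁.1, y₁.2 + v) with hy₂
  have z2 : L.z y₂ = β₁ + L.b v := by
    rw [hy₂, z_s, hβ₁]; simp only [z, map_add]; ring
  let ω : D.X → Γ := fun x => Function.invFun L.a (L.p y₁ - L.w x)
  have lω : IsLocallyConstant ω := L.lcw.comp fun r => Function.invFun L.a (L.p y₁ - r)
  let C : Set D.X := {x | L.lab (x, ω x) = L.lab y₁}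
  have hC : IsClopen C :=
    ((lc_letter 0).prodMk (L.lcw.add (lω.comp L.a))).isClopen_fiber (L.lab y₁)
  have memC : ∀ y, L.lab y = L.lab y₁ → y.1 ∈ C ∧ ω y.1 = y.2 := fun y hy => by
    have e1 : L.p y = L.p y₁ := congrArg Prod.snd hy
    have e2 : ω y.1 = y.2 := by
      simp only [ω]
      rw [← e1]
      simp only [p, add_sub_cancel_left]
      exact Function.leftInverse_invFun L.a_inj _
    exact ⟨by simp only [C, mem_ofPred_eq, e2, hy], e2⟩
  let ζ : D.X → ℝ := fun x => L.z (x, ω x)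
  have cζ : Continuous ζ := L.contM.add (lω.comp L.b).continuous
  have uniq : ∀ u : Γ, ∀ x ∈ C, ∀ x' ∈ C, ζ x = β₁ + L.b u → ζ x' = β₁ + L.b u → x = x' :=
    fun u x hx x' hx' e e' =>
      congrArg Prod.fst (Box.Gen.inj hℓ Q (hg.tr hℓ Q u) e e' (hx.trans hx'.symm))
  let back : D.X → D.X × Γ := fun x => (D.τ (-n) x, ω x + bs L.δ x (-n) - v)
  have zback : ∀ x, L.z (back x) = ζ x - L.b v := fun x => by
    rw [show ζ x = L.z (L.s (-n) (x, ω x)) from (L.z_s _ _).symm]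
    simp only [z, back, s, map_sub]; ring
  let Nb : Set D.X := {x | L.lab (back x) = L.lab y₁}
  have hNb : IsClopen Nb :=
    (((lc_letter 0).comp_continuous (D.continuous_τ (-n))).prodMk
      ((L.lcw.comp_continuous (D.continuous_τ (-n))).add
        (((lω.add (lc_bs L.lcδ (-n))).comp (· - v)).comp L.a))).isClopen_fiber (L.lab y₁)
  have m2 := memC y₂ hr
  have x2Nb : y₂.1 ∈ Nb := by
    have e : L.s (-n) y₂ = (y₁.1, y₁.2 + v) := by rw [hy₂, s_s, add_neg_cancel, s_zero]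
    have : back y₂.1 = y₁ := by
      simp only [s, Prod.mk.injEq] at e
      simp only [back, m2.2, e.1, e.2, add_sub_cancel_right]
    simp only [Nb, mem_ofPred_eq, this]
  have hne : ∀ x ∈ C \ Nb, ζ x ≠ β₁ + L.b v := fun x hx e =>
    hx.2 (uniq v x hx.1 y₂.1 m2.1 e (by simp only [ζ, m2.2, z2]) ▸ x2Nb)
  obtain ⟨ε₀, p0, h0⟩ : ∃ ε₀ : ℝ, 0 < ε₀ ∧ ∀ x ∈ C \ Nb, ε₀ ≤ |ζ x - (β₁ + L.b v)| :=
    (hC.diff hNb).isClosed.isCompact.exists_forall_le'
      (f := fun x => |ζ x - (β₁ + L.b v)|) (by fun_prop)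
      fun x hx => abs_pos.2 (sub_ne_zero.2 (hne x hx))
  obtain ⟨ε, p1, e0, e1, e2⟩ : ∃ ε : ℝ, 0 < ε ∧ ε ≤ ε₀ ∧ ε ≤ Q.ρ - |β₁ - Q.β| ∧
      ε ≤ Q.ρ - |β₁ + L.b v - Q.β| :=
    ⟨min ε₀ (min (Q.ρ - |β₁ - Q.β|) (Q.ρ - |β₁ + L.b v - Q.β|)),
      lt_min p0 (lt_min (by linarith) (by linarith)), min_le_left _ _,
      (min_le_right _ _).trans (min_le_left _ _), (min_le_right _ _).trans (min_le_right _ _)⟩
  obtain ⟨E₁, hE₁, in1, out1⟩ := exists_clopen_of_closed_subset_open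
    (Z := {x | β₁ + ε ≤ ζ x}) (U := {x | β₁ - ε < ζ x}) (isClosed_le continuous_const cζ)
    (isOpen_lt continuous_const cζ) fun x hx => by
      simp only [mem_ofPred_eq] at *; linarith
  let E₂ : Set D.X := (C ∩ Nb ∩ D.τ (-n) ⁻¹' E₁) ∪ ((C \ Nb) ∩ {x | β₁ + L.b v < ζ x})
  have hE₂ : IsClopen E₂ := by
    refine ((hC.inter hNb).inter (hE₁.preimage (D.continuous_τ _))).union ⟨?_, ?_⟩
    · have : (C \ Nb) ∩ {x | β₁ + L.b v < ζ x} = (C \ Nb) ∩ {x | β₁ + L.b v ≤ ζ x} := by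
        ext x
        exact and_congr_right fun hx => ⟨fun h => le_of_lt (a := β₁ + L.b v) h,
          fun h => lt_of_le_of_ne h (hne x hx).symm⟩
      rw [this]
      exact (hC.diff hNb).isClosed.inter (isClosed_le continuous_const cζ)
    · exact (hC.diff hNb).isOpen.inter (isOpen_lt continuous_const cζ)
  have lind : ∀ (E : Set D.X) [DecidablePred (· ∈ E)], IsClopen E →
      IsLocallyConstant fun x => if x ∈ E then (1 : ℤ) else 0 :=
    fun E _ hE => (IsLocallyConstant.iff_eventually_eq _).2 fun x => by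
      by_cases hx : x ∈ E
      · filter_upwards [hE.isOpen.mem_nhds hx] with y hy
        simp [hx, hy]
      · filter_upwards [hE.compl.isOpen.mem_nhds hx] with y hy
        simp [hx, show y ∉ E from hy]
  let γ : D.X → ℤ := fun x => (if x ∈ C ∩ E₁ then 1 else 0) - (if x ∈ E₂ then 1 else 0)
  have lγ : IsLocallyConstant γ := (lind _ (hC.inter hE₁)).sub (lind _ hE₂)
  let F : Γ → ℝ := fun u => if (∃ x ∈ C, ζ x = β₁ + L.b u ∧ x ∈ E₁) ∨
    (¬(∃ x ∈ C, ζ x = β₁ + L.b u) ∧ 0 < L.b u) then 1 else 0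
  have F01 : ∀ u, 0 ≤ F u ∧ F u ≤ 1 := fun u => by
    simp only [F]; split_ifs <;> norm_num
  have F1 : ∀ u, ε ≤ L.b u → F u = 1 := fun u hu => by
    refine if_pos ?_
    by_cases h : ∃ x ∈ C, ζ x = β₁ + L.b u
    · obtain ⟨x, hx, e⟩ := h
      exact Or.inl ⟨x, hx, e, in1 (by simp only [mem_ofPred_eq]; linarith)⟩
    · exact Or.inr ⟨h, by linarith⟩
  have F0 : ∀ u, L.b u ≤ -ε → F u = 0 := fun u hu => by
    refine if_neg ?_
    rintro (⟨x, -, e, hx⟩ | ⟨-, h⟩)
    · have := out1 hx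
      simp only [mem_ofPred_eq] at this
      linarith
    · linarith
  have FE : ∀ u, ∀ x ∈ C, ζ x = β₁ + L.b u → F u = if x ∈ E₁ then 1 else 0 := by
    intro u x hx e
    refine if_congr ⟨?_, fun h => Or.inl ⟨x, hx, e, h⟩⟩ rfl rfl
    rintro (⟨x', a, b, d⟩ | ⟨a, -⟩)
    · exact uniq u x' a x hx b e ▸ d
    · exact absurd ⟨x, hx, e⟩ a
  have hγ : ∀ u, ∀ x ∈ C, ζ x = β₁ + L.b u → (γ x : ℝ) = F u - F (u - v) := by
    intro u x hx e
    have a1 : F (u - v) = if x ∈ E₂ then 1 else 0 := by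
      by_cases hn : x ∈ Nb
      · obtain ⟨b1, b2⟩ := memC _ hn
        rw [FE (u - v) (D.τ (-n) x) b1 (by
          have := zback x
          rw [e] at this
          simp only [ζ, map_sub]
          rw [b2]
          linear_combination this)]
        refine if_congr ?_ rfl rfl
        simp only [E₂, mem_union, mem_inter_iff, mem_preimage, Set.mem_sdiff, hx, hn]
        simp
      · have b1 := e0.trans (h0 x ⟨hx, hn⟩)
        rw [e] at b1
        have b2 : x ∈ E₂ ↔ β₁ + L.b v < β₁ + L.b u := by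
          simp only [E₂, mem_union, mem_inter_iff, Set.mem_sdiff, hx, hn, mem_ofPred_eq, e]
          simp
        rcases le_abs'.1 b1 with b3 | b3
        · rw [F0 _ (by rw [map_sub]; linarith), if_neg (by rw [b2]; linarith)]
        · rw [F1 _ (by rw [map_sub]; linarith), if_pos (by rw [b2]; linarith)]
    rw [a1, FE u x hx e]
    simp only [γ, mem_inter_iff, hx, true_and]
    push_cast
    rfl
  have γC : ∀ x, γ x ≠ 0 → x ∈ C := fun x hx => by
    by_contra h
    apply hx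
    simp [γ, E₂, h]
  have hex : ∀ u, F u - F (u - v) ≠ 0 → ∃ x ∈ C, ζ x = β₁ + L.b u := by
    intro u hu
    have a1 : |β₁ + L.b u - Q.β| < Q.ρ := by
      by_contra hh
      apply hu
      have b1 := abs_le.1 (le_refl |β₁ - Q.β|)
      have b2 := abs_le.1 (le_refl |β₁ + L.b v - Q.β|)
      rcases le_abs'.1 (not_lt.1 hh) with b3 | b3
      · rw [F0 _ (by linarith), F0 _ (by rw [map_sub]; linarith), sub_self]
      · rw [F1 _ (by linarith), F1 _ (by rw [map_sub]; linarith), sub_self]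
    rw [← Q.const Q.α _ (by simpa using Q.ρ_pos) a1] at hl
    obtain ⟨y, hy, e⟩ := hl
    obtain ⟨b1, b2⟩ := memC y e
    exact ⟨y.1, b1, by simp only [ζ, b2]; exact hy.1⟩
  obtain ⟨s, hs, C₁, hC₁⟩ := L.lattice F01 F1 F0 v (L.p y₁)
  obtain ⟨nn, C₂, hC₂⟩ := bs_slope (L := L) hℓ lγ
  have hf : (L.K 0 β₁).Finite := finite_of_encard_le_coe (hg _)
  have hcard : hf.toFinset.card = Q.m := by
    rw [← ncard_eq_toFinset_card _ hf, hg.ncard Q]
  have main : ∀ R : ℝ, 0 ≤ R → |R * (Q.m * (nn 0 * L.e 0 + nn 1 * L.e 1) -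
      s * (L.e 0 * v 1 - L.e 1 * v 0))| ≤ C₁ + Q.m * C₂ := by
    intro R hR
    choose j hj using fun y => L.exists_K hℓ y R
    have hj0 : ∀ y ∈ hf.toFinset, 0 ≤ j y := fun y hy => by
      have a1 := (L.mem_K_s.1 (hj y)).2.2
      have a2 := (hf.mem_toFinset.1 hy).2.1
      have := (pos_strictMono hℓ y.1.1).lt_iff_lt.1
        (show pos ℓ y.1.1 0 < pos ℓ y.1.1 (j y + 1) by rw [pos_zero]; linarith)
      omega
    have rng : ∀ y ∈ hf.toFinset, ∀ k, k ∈ Finset.Ico (0 + 1) (j y + 1) ↔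
        0 < L.p (L.s k y) ∧ L.p (L.s k y) ≤ R := by
      intro y hy k
      obtain ⟨-, a1, a2⟩ := L.mem_K_s.1 (hj y)
      obtain ⟨-, a3, a4⟩ := L.mem_K_s.1 (show L.s 0 y ∈ L.K 0 β₁ by
        simpa using hf.mem_toFinset.1 hy)
      have sm := pos_strictMono hℓ y.1.1
      rw [Finset.mem_Ico, p_s]
      constructor
      · rintro ⟨b1, b2⟩
        exact ⟨by linarith [sm.monotone b1], by linarith [sm.monotone (show k ≤ j y by omega)]⟩
      · rintro ⟨b1, b2⟩
        have := sm.lt_iff_lt.1 (show pos ℓ y.1.1 0 < pos ℓ y.1.1 k by linarith)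
        exact ⟨by omega, sm.lt_iff_lt.1 (by linarith)⟩
    let P := (hf.toFinset.sigma fun y => Finset.Ico (0 + 1) (j y + 1)).filter
      fun x => γ (D.τ x.2 x.1.1) ≠ 0
    let φ : (Σ _ : D.X × Γ, ℤ) → Γ := fun x => ω (D.τ x.2 x.1.1) - (L.s x.2 x.1).2
    have hP : ∀ x ∈ P, x.1 ∈ hf.toFinset ∧ x.2 ∈ Finset.Ico (0 + 1) (j x.1 + 1) ∧
        D.τ x.2 x.1.1 ∈ C ∧ ζ (D.τ x.2 x.1.1) = β₁ + L.b (φ x) ∧
        L.a (φ x) = L.p y₁ - L.p (L.s x.2 x.1) := by
      intro x hx
      obtain ⟨a1, a2⟩ := Finset.mem_filter.1 hx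
      obtain ⟨a3, a4⟩ := Finset.mem_sigma.1 a1
      have a5 := γC _ a2
      refine ⟨a3, a4, a5, ?_, ?_⟩
      · rw [← (hf.mem_toFinset.1 a3).1, ← L.z_s x.2]
        simp only [ζ, φ, z, map_sub, Lift.s]
        ring
      · have : L.p (D.τ x.2 x.1.1, ω (D.τ x.2 x.1.1)) = L.p y₁ := congrArg Prod.snd a5
        rw [← this]
        simp only [φ, p, map_sub, Lift.s]
        ring
    have hinj : InjOn φ P := by
      rintro ⟨y, k⟩ hx ⟨y', k'⟩ hx' e
      obtain ⟨a1, -, a3, a4, -⟩ := hP _ hx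
      obtain ⟨b1, -, b3, b4, -⟩ := hP _ hx'
      have a5 := hf.mem_toFinset.1 a1
      have b5 := hf.mem_toFinset.1 b1
      have c1 : L.s k y = L.s k' y' := L.eq_of_fst (uniq _ _ a3 _ b3 a4 (e ▸ b4))
        (by rw [z_s, z_s, a5.1, b5.1])
      have c2 : y' = L.s (k + -k') y := by
        have := congrArg (L.s (-k')) c1
        rw [s_s, s_s, add_neg_cancel, s_zero] at this
        exact this.symm
      have c3 := L.K_unique hℓ (y := y) (m := 0) (by simpa using a5) (c2 ▸ b5)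
      rw [← c3, s_zero] at c2
      obtain rfl : k = k' := by omega
      rw [c2]
    have hS : ∀ q, q ∈ P.image φ ↔
        L.p y₁ - R ≤ L.a q ∧ L.a q < L.p y₁ ∧ F q - F (q - v) ≠ 0 := by
      intro q
      rw [Finset.mem_image]
      constructor
      · rintro ⟨x, hx, rfl⟩
        obtain ⟨a1, a2, a3, a4, a5⟩ := hP _ hx
        obtain ⟨a6, a7⟩ := (rng _ a1 _).1 a2
        refine ⟨by linarith, by linarith, ?_⟩
        rw [← hγ _ _ a3 a4]
        exact_mod_cast (Finset.mem_filter.1 hx).2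
      · rintro ⟨a1, a2, a3⟩
        obtain ⟨x, hx, e⟩ := hex q a3
        obtain ⟨k, hk⟩ := L.exists_K hℓ (x, ω x - q) 0
        have z1 : L.z (x, ω x - q) = β₁ := by
          simp only [ζ, z, map_sub] at e ⊢
          linarith
        rw [z1] at hk
        have s1 : L.s (-k) (L.s k (x, ω x - q)) = (x, ω x - q) := by
          rw [s_s, add_neg_cancel, s_zero]
        have s2 : D.τ (-k) (L.s k (x, ω x - q)).1 = x := congrArg Prod.fst s1
        have p2 : L.p (x, ω x) = L.p y₁ := congrArg Prod.snd hx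
        have p3 : L.p (x, ω x - q) = L.p y₁ - L.a q := by
          rw [← p2]; simp only [p, map_sub]; ring
        refine ⟨⟨L.s k (x, ω x - q), -k⟩, Finset.mem_filter.2 ⟨Finset.mem_sigma.2
          ⟨hf.mem_toFinset.2 hk, (rng _ (hf.mem_toFinset.2 hk) _).2 ?_⟩, ?_⟩, ?_⟩
        · rw [s1, p3]
          exact ⟨by linarith, by linarith⟩
        · simp only [s2]
          rw [← hγ q x hx e] at a3
          exact_mod_cast a3
        · simp only [φ, s1, s2, sub_sub_cancel]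
    have t1 := hC₁ R hR _ hS
    rw [Finset.sum_image hinj] at t1
    have t2 : ∑ x ∈ P, (F (φ x) - F (φ x - v)) =
        ∑ y ∈ hf.toFinset, ((bs γ y.1 (j y + 1) - bs γ y.1 (0 + 1) : ℤ) : ℝ) := by
      rw [Finset.sum_congr rfl fun x hx => (hγ _ _ (hP x hx).2.2.1 (hP x hx).2.2.2.1).symm,
        ← Int.cast_sum, ← Int.cast_sum, Finset.sum_filter_ne_zero, Finset.sum_sigma]
      congr 1
      exact Finset.sum_congr rfl fun y hy =>
        sum_Ico_eq_isum (fun k => γ (D.τ k y.1)) (by have := hj0 y hy; omega)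
    have t3 : |∑ y ∈ hf.toFinset, (((bs γ y.1 (j y + 1) - bs γ y.1 (0 + 1) : ℤ) : ℝ) -
        (R - 0) * (nn 0 * L.e 0 + nn 1 * L.e 1))| ≤ Q.m * C₂ := by
      refine (Finset.abs_sum_le_sum_abs _ _).trans
        ((Finset.sum_le_card_nsmul _ _ C₂ fun y hy => ?_).trans (by rw [hcard, nsmul_eq_mul]))
      have a1 := hf.mem_toFinset.1 hy
      exact hC₂ y 0 R 0 (j y) (by rw [s_zero, a1.1]; exact a1) (hj y)
    rw [Finset.sum_sub_distrib, ← t2, Finset.sum_const, hcard, nsmul_eq_mul] at t3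
    have a1 := abs_le.1 t1
    have a2 := abs_le.1 t3
    rw [abs_le]
    constructor <;> linarith
  have zero : Q.m * (nn 0 * L.e 0 + nn 1 * L.e 1) - s * (L.e 0 * v 1 - L.e 1 * v 0) = 0 := by
    by_contra hh
    have a1 := abs_pos.2 hh
    have a2 := main ((|C₁ + Q.m * C₂| + 1) / |_|) (div_nonneg (by positivity) a1.le)
    rw [abs_mul, abs_of_nonneg (div_nonneg (by positivity) a1.le),
      div_mul_cancel₀ _ a1.ne'] at a2
    linarith [le_abs_self (C₁ + Q.m * C₂)]
  obtain ⟨f1, f2⟩ := L.e_irr (m := Q.m * nn 0 - s * v 1) (n := Q.m * nn 1 + s * v 0)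
    (by push_cast; linear_combination zero)
  fin_cases i
  · exact ⟨-(s * nn 1), by
      change v 0 = _
      linear_combination s * f2 - v 0 * hs⟩
  · exact ⟨s * nn 0, by
      change v 1 = _
      linear_combination -s * f1 - v 1 * hs⟩

omit [DiscreteTopology A] in
lemma exists_tr_K (y : D.X × Γ) (v : Γ) (α : ℝ) :
    ∃ n, L.s n (y.1, y.2 + v) ∈ L.K α (L.z y + L.b v) := by
  have := L.exists_K hℓ (y.1, y.2 + v) α
  rwa [show L.z (y.1, y.2 + v) = L.z y + L.b v by simp only [z, map_add]; ring] at this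

/-- If some internal coordinate is generic, there is one tile over the box. -/
theorem Box.m_eq_one {β : ℝ} (hg : Q.Gen β) : Q.m = 1 := by
  classical
  obtain ⟨x₀⟩ : Nonempty D.X := inferInstance
  have hm : 0 < Q.m := by
    obtain ⟨v, hv⟩ := L.exists_near one_pos (Q.β - L.z (x₀, 0)) Q.ρ_pos
    obtain ⟨n, hn⟩ := exists_tr_K (L := L) hℓ (x₀, 0) (((1 : ℕ) : ℤ) • v) Q.α
    refine (ncard_pos (L.finite_Lab hℓ _ _)).2 ?_
    rw [← Q.const Q.α (L.z (x₀, 0) + L.b (((1 : ℕ) : ℤ) • v)) (by simpa using Q.ρ_pos)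
      (by rwa [add_comm, add_sub_assoc, ← neg_sub, ← sub_eq_add_neg])]
    exact ⟨_, _, hn, rfl⟩
  obtain ⟨y, hy⟩ : (L.K Q.α β).Nonempty := by
    rw [← ncard_pos (finite_of_encard_le_coe (hg _)), hg.ncard Q]
    exact hm
  let r : Fin Q.m × Fin Q.m → Γ := fun q => ![q.1, q.2]
  choose u hu using fun q => L.exists_near hm (Q.β - β - L.b (r q)) Q.ρ_pos
  let v : Fin Q.m × Fin Q.m → Γ := fun q => r q + (Q.m : ℤ) • u q
  have hv : ∀ q, |β + L.b (v q) - Q.β| < Q.ρ := fun q => by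
    convert hu q using 2
    simp only [v, map_add]
    ring
  choose n hn using fun q => exists_tr_K (L := L) hℓ y (v q) Q.α
  rw [hy.1] at hn
  have hl : ∀ q, L.lab (L.s (n q) (y.1, y.2 + v q)) ∈ L.Lab Q.α Q.β := fun q => by
    rw [← Q.const Q.α _ (by simpa using Q.ρ_pos) (hv q)]
    exact ⟨_, hn q, rfl⟩
  have hinj : Function.Injective fun q => L.lab (L.s (n q) (y.1, y.2 + v q)) := by
    intro q q' e
    have key := Q.return_dvd hℓ (y₁ := L.s (n q) (y.1, y.2 + v q)) (v := v q' - v q)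
      (n := n q' - n q) (by rw [(hn q).1]; exact hg.tr hℓ Q _) (hl q) (by
        refine Eq.trans (congrArg L.lab ?_) e.symm
        have : ((L.s (n q) (y.1, y.2 + v q)).1, (L.s (n q) (y.1, y.2 + v q)).2 + (v q' - v q)) =
            L.s (n q) (y.1, y.2 + v q') := by
          simp only [s]
          congr 1
          abel
        rw [this, s_s, add_sub_cancel]) (by rw [(hn q).1]; exact hv q)
      (by rw [(hn q).1, map_sub]; convert hv q' using 2; ring)
    have fin : ∀ a b : Fin Q.m, (Q.m : ℤ) ∣ (b : ℤ) - a → a = b := fun a b h => by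
      have := Int.eq_zero_of_abs_lt_dvd h (by have := a.2; have := b.2; rw [abs_lt]; omega)
      exact Fin.ext (by omega)
    have k0 := key 0
    have k1 := key 1
    simp only [v, r, Pi.sub_apply, Pi.add_apply, Pi.smul_apply, smul_eq_mul,
      Matrix.cons_val_zero, Matrix.cons_val_one] at k0 k1
    refine Prod.ext (fin _ _ ?_) (fin _ _ ?_)
    · obtain ⟨d, hd⟩ := k0
      exact ⟨d - u q' 0 + u q 0, by linear_combination hd⟩
    · obtain ⟨d, hd⟩ := k1
      exact ⟨d - u q' 1 + u q 1, by linear_combination hd⟩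
  have := ncard_le_ncard_of_injOn (s := univ) _ (fun q _ => hl q) hinj.injOn
    (L.finite_Lab hℓ _ _)
  rw [ncard_univ, Nat.card_prod, Nat.card_eq_fintype_card, Fintype.card_fin] at this
  change Q.m * Q.m ≤ Q.m at this
  nlinarith

end Lift

end Pool.Agent.MP_4168de_an

end

section

/-! Almost every fibre of the torus parametrisation is a single point. -/

namespace Pool.Agent.MP_4168de_an

open Set Filter Topology MeasureTheory

/-- The two-dimensional torus. -/
abbrev Tor := UnitAddTorus (Fin 2)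

lemma haar_of_dense {ν : Measure Tor} [IsProbabilityMeasure ν] {S : Set Tor} (hS : Dense S)
    (h : ∀ g ∈ S, MeasurePreserving (g + ·) ν ν) : ν.IsAddHaarMeasure := by
  have : ν.IsAddLeftInvariant := by
    refine ⟨fun g => ext_of_forall_integral_eq_of_IsFiniteMeasure fun f => ?_⟩
    have e : ∀ g : Tor, ∫ x, f x ∂(ν.map (g + ·)) = ∫ x, f (g + x) ∂ν := fun g =>
      integral_map (measurable_const_add g).aemeasurable f.continuous.aestronglyMeasurable
    have c : Continuous fun g : Tor => ∫ x, f (g + x) ∂ν :=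
      continuous_of_dominated (bound := fun _ => ‖f‖)
        (fun g => (by fun_prop : Continuous fun x => f (g + x)).aestronglyMeasurable)
        (fun g => Eventually.of_forall fun x => f.norm_coe_le_norm _) (integrable_const _)
        (Eventually.of_forall fun x => by fun_prop)
    rw [e]
    refine congrFun (c.ext_on hS continuous_const fun g hg => ?_) g
    simp only [← e, (h g hg).map_eq]
  exact { toIsOpenPosMeasure :=
    isOpenPosMeasure_of_addLeftInvariant_of_compact univ isCompact_univ (by simp) }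

lemma aeconst_of_dense {G : Type*} [AddCommGroup G] [TopologicalSpace G]
    [IsTopologicalAddGroup G] [T2Space G] [SecondCountableTopology G] [MeasurableSpace G]
    [BorelSpace G] {ν : Measure G} [IsFiniteMeasure ν] [ν.InnerRegular] [ν.IsAddLeftInvariant]
    {s : Set G} (hs : MeasurableSet s) (hd : Dense {g | (g + ·) ⁻¹' s = s}) :
    EventuallyConst s (ae ν) :=
  aeconst_of_dense_setOfPred_preimage_vadd_eq (M := G) hs.nullMeasurableSet hd

variable {A : Type} [TopologicalSpace A] {D : Shift A} {ℓ : A → ℝ} {c : ℝ} {σ : DSub D ℓ c}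

namespace Lift

variable (L : Lift σ)

/-- The torus point with the given coordinates. -/
noncomputable def E (α β : ℝ) : Tor := fun i => ((α * L.e i + β * L.e' i : ℝ) : UnitAddCircle)

lemma E_add (α β α' β' : ℝ) : L.E (α + α') (β + β') = L.E α β + L.E α' β' := by
  ext i
  simp only [E, Pi.add_apply, ← AddCircle.coe_add]
  congr 1
  ring

lemma continuous_E : Continuous fun q : ℝ × ℝ => L.E q.1 q.2 :=
  continuous_pi fun i => (AddCircle.continuous_mk' 1).comp (by fun_prop)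

lemma E_lat (v : Γ) : L.E (L.a v) (L.b v) = 0 := by
  ext i
  have := L.dec (fun i => v i) i
  rw [← L.a_eq, ← L.b_eq] at this
  simp only [E, ← this, Pi.zero_apply]
  exact (AddCircle.coe_eq_zero_iff _).2 ⟨v i, by simp⟩

lemma E_tr (α β : ℝ) (v : Γ) : L.E (α + L.a v) (β + L.b v) = L.E α β := by
  rw [E_add, E_lat, add_zero]

lemma E_eq {α β α' β' : ℝ} (h : L.E α β = L.E α' β') :
    ∃ v, α' = α + L.a v ∧ β' = β + L.b v := by
  have h1 : ∀ i, ∃ n : ℤ, (n : ℝ) = (α' - α) * L.e i + (β' - β) * L.e' i := fun i => by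
    have h2 := congrFun h i
    simp only [E] at h2
    rw [eq_comm, ← sub_eq_zero, ← AddCircle.coe_sub, AddCircle.coe_eq_zero_iff] at h2
    obtain ⟨n, hn⟩ := h2
    exact ⟨n, by simp only [zsmul_eq_mul, mul_one] at hn; linarith⟩
  choose v hv using h1
  refine ⟨v, ?_, ?_⟩
  · rw [L.a_eq, hv, hv]
    linear_combination -(α' - α) * L.ue - (β' - β) * L.ue'
  · rw [L.b_eq, hv, hv]
    linear_combination -(α' - α) * L.u'e - (β' - β) * L.u'e'

lemma E_lift (y : Fin 2 → ℝ) : L.E (L.u 0 * y 0 + L.u 1 * y 1) (L.u' 0 * y 0 + L.u' 1 * y 1) =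
    fun i => (y i : UnitAddCircle) := by
  ext i
  simp only [E, ← L.dec]

lemma E_surj (g : Tor) : ∃ α β, L.E α β = g := by
  choose y hy using fun i => QuotientAddGroup.mk_surjective (g i)
  exact ⟨_, _, (L.E_lift y).trans (funext hy)⟩

lemma isOpenMap_E : IsOpenMap fun q : ℝ × ℝ => L.E q.1 q.2 := by
  intro U hU
  have h1 : IsOpenMap (Pi.map fun (_ : Fin 2) (r : ℝ) => (r : UnitAddCircle)) :=
    IsOpenMap.piMap (fun _ => QuotientAddGroup.isOpenMap_coe)
      (Eventually.of_forall fun _ => QuotientAddGroup.mk_surjective)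
  have h2 := h1 _ (hU.preimage (f := fun y : Fin 2 → ℝ =>
    (L.u 0 * y 0 + L.u 1 * y 1, L.u' 0 * y 0 + L.u' 1 * y 1)) (by fun_prop))
  convert h2 using 1
  ext g
  constructor
  · rintro ⟨q, hq, rfl⟩
    refine ⟨fun i => q.1 * L.e i + q.2 * L.e' i, ?_, rfl⟩
    have : (L.u 0 * (q.1 * L.e 0 + q.2 * L.e' 0) + L.u 1 * (q.1 * L.e 1 + q.2 * L.e' 1),
        L.u' 0 * (q.1 * L.e 0 + q.2 * L.e' 0) + L.u' 1 * (q.1 * L.e 1 + q.2 * L.e' 1)) = q :=
      Prod.ext (by linear_combination q.1 * L.ue + q.2 * L.ue')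
        (by linear_combination q.1 * L.u'e + q.2 * L.u'e')
    simpa only [mem_preimage, this] using hq
  · rintro ⟨y, hy, rfl⟩
    exact ⟨_, hy, L.E_lift y⟩

lemma dense_line : DenseRange fun t : ℝ => L.E t 0 := by
  have h1 : DenseRange fun q : ℝ × ℝ => L.E q.1 q.2 :=
    Function.Surjective.denseRange fun g => by
      obtain ⟨α, β, h⟩ := L.E_surj g
      exact ⟨(α, β), h⟩
  refine (h1.comp (denseRange_id.prodMap (f := id) L.dense_b) L.continuous_E).mono ?_
  rintro _ ⟨⟨t, v⟩, rfl⟩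
  refine ⟨t - L.a v, ?_⟩
  simpa using (L.E_tr (t - L.a v) 0 v).symm

/-- The torus endomorphism of an integer matrix. -/
def hom (C : Matrix (Fin 2) (Fin 2) ℤ) : Tor →+ Tor where
  toFun g := fun i => C i 0 • g 0 + C i 1 • g 1
  map_zero' := by ext i; simp
  map_add' := fun g h => by ext i; simp only [Pi.add_apply, smul_add]; abel

lemma hom_E (hc : c ≠ 0) (α β : ℝ) : hom L.C (L.E α β) = L.E (α / c) (β / L.c') := by
  ext i
  simp only [hom, E, AddMonoidHom.coe_mk, ZeroHom.coe_mk, ← AddCircle.coe_zsmul,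
    ← AddCircle.coe_add, zsmul_eq_mul]
  congr 1
  have := L.c'_ne
  rw [← L.Ce i, ← L.Ce' i]
  field_simp
  ring

lemma hom_surj : Function.Surjective (hom L.C) := fun g => ⟨hom L.B g, by
  ext i
  have h := fun j => congrFun (congrFun L.CB i) j
  simp only [Matrix.mul_apply, Fin.sum_univ_two] at h
  have e : hom L.C (hom L.B g) i = (L.C i 0 * L.B 0 0 + L.C i 1 * L.B 1 0) • g 0 +
      (L.C i 0 * L.B 0 1 + L.C i 1 * L.B 1 1) • g 1 := by
    simp only [hom, AddMonoidHom.coe_mk, ZeroHom.coe_mk]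
    module
  rw [e, h, h]
  fin_cases i <;> simp [Matrix.one_apply]⟩

theorem ae_subsingleton [Finite A] [DiscreteTopology A] (hℓ : ∀ a, 0 < ℓ a) (hc : 1 < c)
    (ν : Measure Tor) [IsProbabilityMeasure ν] (h : ∀ t, MeasurePreserving (L.E t 0 + ·) ν ν) :
    ∀ᵐ g ∂ν, ∀ α β, L.E α β = g → (L.K α β).Subsingleton := by
  have := haar_of_dense L.dense_line (by rintro _ ⟨t, rfl⟩; exact h t)
  obtain ⟨Q⟩ := L.exists_box hℓ
  have hC : Continuous (hom L.C) := continuous_pi fun i => by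
    simp only [hom, AddMonoidHom.coe_mk, ZeroHom.coe_mk]
    fun_prop
  have mp : MeasurePreserving (hom L.C) ν ν :=
    AddMonoidHom.measurePreserving hC L.hom_surj rfl
  let U : Set Tor := (fun q : ℝ × ℝ => L.E q.1 q.2) '' Metric.ball (Q.α, Q.β) Q.ρ
  have hU : IsOpen U := L.isOpenMap_E _ Metric.isOpen_ball
  let G : Set Tor := {g | ∃ᶠ k in atTop, (hom L.C)^[k] g ∈ U}
  have mG : MeasurableSet G := by
    simp only [G, frequently_atTop, ofPred_forall, ofPred_exists]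
    refine MeasurableSet.iInter fun n => MeasurableSet.iUnion fun k => ?_
    exact (MeasurableSet.const _).inter (hU.preimage (hC.iterate k)).measurableSet
  have pG : ν G ≠ 0 := fun h0 => by
    have h1 := mp.conservative.measure_inter_frequently_image_mem_eq
      hU.measurableSet.nullMeasurableSet
    exact hU.measure_ne_zero ν ((Metric.nonempty_ball.2 Q.ρ_pos).image _)
      (h1 ▸ measure_mono_null inter_subset_right h0)
  have gen : ∀ α β, L.E α β ∈ G → Q.Gen β := by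
    intro α β hG α'
    refine (L.encard_K_le hℓ α' α β).trans (Q.encard_le hℓ hc (Frequently.mono hG fun k hk => ?_))
    have e : (hom L.C)^[k] (L.E α β) = L.E (α / c ^ k) (β / L.c' ^ k) := by
      clear hk
      induction k with
      | zero => simp
      | succ k ih =>
        rw [Function.iterate_succ_apply', ih, L.hom_E (by linarith), div_div, div_div, pow_succ,
          pow_succ]
    obtain ⟨q, h1, h2⟩ := hk
    obtain ⟨v, h3, h4⟩ := L.E_eq (e.symm.trans h2.symm)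
    rw [Metric.mem_ball, Prod.dist_eq, max_lt_iff, Real.dist_eq, Real.dist_eq, h3, h4] at h1
    exact ⟨v, h1⟩
  let G' : Set Tor := ⋃ q : ℚ, (L.E q 0 + ·) ⁻¹' G
  have mG' : MeasurableSet G' :=
    MeasurableSet.iUnion fun q => mG.preimage (measurable_const_add _)
  have dq : DenseRange fun q : ℚ => L.E q 0 :=
    L.dense_line.comp Rat.denseRange_cast (L.continuous_E.comp (.prodMk_left 0))
  have ec : EventuallyConst G' (ae ν) := by
    refine aeconst_of_dense mG' (dq.mono ?_)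
    rintro _ ⟨r, rfl⟩
    ext g
    simp only [G', mem_preimage, mem_iUnion, ← add_assoc, ← E_add, add_zero]
    exact ⟨fun ⟨q, hq⟩ => ⟨q + r, by simpa using hq⟩, fun ⟨q, hq⟩ => ⟨q - r, by simpa using hq⟩⟩
  have full : ∀ᵐ g ∂ν, g ∈ G' := by
    refine (eventuallyConst_set.1 ec).resolve_right fun h0 => pG ?_
    refine measure_mono_null (fun g hg => ?_) (measure_eq_zero_iff_ae_notMem.2 h0)
    refine mem_iUnion.2 ⟨0, ?_⟩
    have := L.E_lat 0
    simp only [map_zero] at this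
    simpa [this] using hg
  filter_upwards [full] with g hg α β e
  obtain ⟨q, hq⟩ := mem_iUnion.1 hg
  rw [mem_preimage, ← e, ← E_add, zero_add] at hq
  have h1 := gen _ _ hq
  have h2 := h1 α
  rw [Q.m_eq_one hℓ h1] at h2
  exact encard_le_one_iff_subsingleton.1 (by exact_mod_cast h2)

end Lift

end Pool.Agent.MP_4168de_an

end

section

/-! Pure point spectrum from the torus parametrisation. -/

namespace Pool.Agent.MP_4168de_an

open Set Filter Topology Shift MeasureTheory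

instance {A : Type} : BorelSpace (Patch A) := ⟨rfl⟩

variable {A : Type} [TopologicalSpace A] [DiscreteTopology A] [Finite A] {D : Shift A}
  {ℓ : A → ℝ} {c : ℝ} {σ : DSub D ℓ c}

theorem Lift.pure_point (L : Lift σ) (hℓ : ∀ a, 0 < ℓ a) (hc : 1 < c) {l₁ : ℝ}
    (h2 : ∀ a, ℓ a ≤ l₁) {Ω : Set (Patch A)}
    (hΩ : Ω = (fun q : (ℤ → A) × ℝ => θ ℓ q.1 q.2) '' (D.X ×ˢ Icc 0 l₁))
    (μ : Measure (Patch A)) [IsProbabilityMeasure μ] (hμ : μ Ωᶜ = 0)
    (hinv : ∀ t, MeasurePreserving (translate t) μ μ) :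
    (Submodule.span ℂ {f : Lp ℂ 2 μ | ∃ α : ℝ, ∀ t : ℝ, ∀ᵐ T ∂μ,
      f (translate t T) = Complex.exp (2 * Real.pi * Complex.I * α * t) * f T}).topologicalClosure
      = ⊤ := by
  classical
  let Θ : D.X × ℝ → Patch A := fun r => θ ℓ r.1.1 r.2
  let P : D.X × ℝ → Tor := fun r => L.E (L.w r.1 + r.2) (L.M r.1)
  let S : Set (D.X × ℝ) := univ ×ˢ Icc 0 l₁
  have cS : IsCompact S := isCompact_univ.prod isCompact_Icc
  have cΘ : Continuous Θ :=
    (continuous_θ hℓ).comp (f := fun r : D.X × ℝ => (r.1.1, r.2)) (by fun_prop)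
  have cP : Continuous P := by
    have a1 := L.lcw.continuous
    have a2 := L.contM
    exact L.continuous_E.comp (f := fun r : D.X × ℝ => (L.w r.1 + r.2, L.M r.1)) (by fun_prop)
  have Pτ : ∀ x t n, P (D.τ n x, t - pos ℓ x.1 n) = P (x, t) := fun x t n => by
    simp only [P]
    rw [← L.E_tr _ _ (bs L.δ x n), L.M_τ]
    congr 1
    linarith [L.w_τ x n]
  have PΘ : ∀ r r', Θ r = Θ r' → P r = P r' := fun r r' h => by
    obtain ⟨m, a1, a2⟩ := θ_eq hℓ h
    rw [← Pτ r'.1 r'.2 m, ← a2, show D.τ m r'.1 = r.1 from Subtype.ext a1.symm]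
  have inS : ∀ r, ∃ s ∈ S, Θ s = Θ r := fun r => by
    obtain ⟨q, hq, e⟩ := θ_mem hℓ h2 r.1 r.2
    exact ⟨(⟨q.1, hq.1⟩, q.2), ⟨trivial, hq.2⟩, e⟩
  have aeΩ : ∀ᵐ T ∂μ, ∃ r, Θ r = T := by
    filter_upwards [mem_ae_iff.2 hμ] with T hT
    obtain ⟨q, hq, e⟩ := hΩ.subset hT
    exact ⟨(⟨q.1, hq.1⟩, q.2), e⟩
  have clΘ : ∀ F, IsClosed F → MeasurableSet (Θ '' (S ∩ F)) := fun F hF =>
    (isClosed_of_compact hℓ ((cS.inter_right hF).image cΘ)
      (by rintro _ ⟨r, -, rfl⟩; exact ⟨_, _, rfl⟩)).measurableSet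
  have clP : ∀ F, IsClosed F → MeasurableSet (P '' (S ∩ F)) := fun F hF =>
    ((cS.inter_right hF).image cP).measurableSet
  let π : Patch A → Tor := fun T => if h : ∃ r, Θ r = T then P h.choose else 0
  have hπ : ∀ r, π (Θ r) = P r := fun r => by
    have h : ∃ s, Θ s = Θ r := ⟨r, rfl⟩
    simp only [π, dif_pos h]
    exact PΘ _ _ h.choose_spec
  have mπ : Measurable π := measurable_of_isClosed fun F hF => by
    have : π ⁻¹' F = Θ '' (S ∩ P ⁻¹' F) ∪ ((Θ '' (S ∩ univ))ᶜ ∩ {_T | (0 : Tor) ∈ F}) := by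
      ext T
      by_cases h : ∃ r, Θ r = T
      · obtain ⟨r, rfl⟩ := h
        obtain ⟨s, a1, a2⟩ := inS r
        refine ⟨fun h => Or.inl ⟨s, ⟨a1, ?_⟩, a2⟩, ?_⟩
        · rwa [mem_preimage, ← hπ, a2]
        · rintro (⟨s', b1, b2⟩ | h)
          · rw [mem_preimage, ← b2, hπ]
            exact b1.2
          · exact absurd ⟨s, ⟨a1, trivial⟩, a2⟩ h.1
      · rw [mem_preimage, show π T = 0 from dif_neg h]
        exact ⟨fun h' => Or.inr ⟨fun ⟨r, _, e⟩ => h ⟨r, e⟩, h'⟩,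
          fun h' => h'.elim (fun ⟨r, _, e⟩ => absurd ⟨r, e⟩ h) fun h' => h'.2⟩
    rw [this]
    exact (clΘ _ (hF.preimage cP)).union
      ((clΘ _ isClosed_univ).compl.inter (MeasurableSet.const _))
  have eqv : ∀ t, ∀ᵐ T ∂μ, π (translate t T) = L.E (-t) 0 + π T := fun t => by
    filter_upwards [aeΩ] with _ ⟨r, hr⟩
    rw [← hr, show translate t (Θ r) = Θ (r.1, r.2 - t) from translate_θ _ _ _, hπ, hπ,
      ← L.E_add, zero_add]
    simp only [P]
    congr 1
    ring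
  let ν : Measure Tor := μ.map π
  have : IsProbabilityMeasure ν := Measure.isProbabilityMeasure_map mπ.aemeasurable
  have mp : MeasurePreserving π μ ν := ⟨mπ, rfl⟩
  have inv : ∀ t, MeasurePreserving (L.E t 0 + ·) ν ν := fun t => by
    refine ⟨measurable_const_add _, ?_⟩
    rw [Measure.map_map (measurable_const_add _) mπ, ← (mp.comp (hinv (-t))).map_eq]
    refine Measure.map_congr ?_
    filter_upwards [eqv (-t)] with T hT
    simp [hT]
  obtain ⟨N, N1, N2, N3⟩ := exists_measurable_superset_of_null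
    (ae_iff.1 (L.ae_subsingleton hℓ hc ν inv))
  have inj : ∀ r r', P r ∉ N → P r = P r' → Θ r = Θ r' := by
    rintro ⟨x, t⟩ ⟨x', t'⟩ h e
    have a1 := not_not.1 (fun h' => h (N1 h')) _ _ rfl
    obtain ⟨v, b1, b2⟩ := L.E_eq e.symm
    obtain ⟨n, hn⟩ := L.exists_K hℓ (x, 0) (L.w x + t)
    obtain ⟨n', hn'⟩ := L.exists_K hℓ (x', v) (L.w x + t)
    simp only [Lift.z, map_zero, add_zero] at hn hn' b1 b2
    rw [← b2] at hn'
    have a2 := a1 hn hn'
    have a3 := congrArg L.p a2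
    have a4 : sh n x.1 = sh n' x'.1 := congrArg (fun y => y.1.1) a2
    rw [L.p_s, L.p_s] at a3
    simp only [Lift.p, map_zero] at a3
    simp only [Θ]
    rw [← θ_sh x.1 t n, ← θ_sh x'.1 t' n', a4]
    congr 1
    linarith
  let κ : Tor → Patch A := fun g => if h : g ∉ N ∧ ∃ r, P r = g then Θ h.2.choose else ⟨∅⟩
  have hκ : ∀ r, P r ∉ N → κ (P r) = Θ r := fun r hr => by
    have h : P r ∉ N ∧ ∃ s, P s = P r := ⟨hr, r, rfl⟩
    simp only [κ, dif_pos h]
    exact (inj _ _ hr h.2.choose_spec.symm).symm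
  have mκ : Measurable κ := measurable_of_isClosed fun F hF => by
    have : κ ⁻¹' F = (Nᶜ ∩ P '' (S ∩ Θ ⁻¹' F)) ∪
        ((Nᶜ ∩ P '' (S ∩ univ))ᶜ ∩ {_g | (⟨∅⟩ : Patch A) ∈ F}) := by
      ext g
      by_cases h : g ∉ N ∧ ∃ r, P r = g
      · obtain ⟨h, r, rfl⟩ := h
        obtain ⟨s, a1, a2⟩ := inS r
        rw [mem_preimage, hκ r h]
        refine ⟨fun h' => Or.inl ⟨h, s, ⟨a1, ?_⟩, PΘ _ _ a2⟩, ?_⟩
        · rwa [mem_preimage, a2]
        · rintro (⟨-, s', b1, b2⟩ | h')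
          · rw [inj _ _ h b2.symm]
            exact b1.2
          · exact absurd ⟨h, s, ⟨a1, trivial⟩, PΘ _ _ a2⟩ h'.1
      · rw [mem_preimage, show κ g = ⟨∅⟩ from dif_neg h]
        exact ⟨fun h' => Or.inr ⟨fun ⟨a, r, _, e⟩ => h ⟨a, r, e⟩, h'⟩,
          fun h' => h'.elim (fun ⟨a, r, _, e⟩ => absurd ⟨a, r, e⟩ h) fun h' => h'.2⟩
    rw [this]
    exact (N2.compl.inter (clP _ (hF.preimage cΘ))).union
      ((N2.compl.inter (clP _ isClosed_univ)).compl.inter (MeasurableSet.const _))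
  have κπ : ∀ᵐ T ∂μ, κ (π T) = T := by
    filter_upwards [aeΩ, mp.quasiMeasurePreserving.ae (measure_eq_zero_iff_ae_notMem.1 N3)]
      with _ ⟨r, hr⟩ h
    subst hr
    rw [hπ] at h ⊢
    exact hκ r h
  have mq : MeasurePreserving κ ν μ := ⟨mκ, by
    rw [Measure.map_map mκ mπ, Measure.map_congr (f := κ ∘ π) (g := id) κπ, Measure.map_id]⟩
  let J := (Lp.compMeasurePreservingₗᵢ (E := ℂ) (p := 2) ℂ π mp).toContinuousLinearMap
  have hJ : ∀ g, J g =ᵐ[μ] g ∘ π := fun g => Lp.coeFn_compMeasurePreserving g mp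
  have sJ : Function.Surjective J := fun f => ⟨Lp.compMeasurePreserving κ mq f, Lp.ext (by
    filter_upwards [hJ (Lp.compMeasurePreserving κ mq f), κπ,
      mp.quasiMeasurePreserving.ae_eq_comp (Lp.coeFn_compMeasurePreserving f mq)] with T a1 a2 a3
    rw [a1, a3]
    simp only [Function.comp_apply, a2])⟩
  have dense := sJ.denseRange.topologicalClosure_map_submodule
    ((ContinuousMap.toLp_denseRange ℂ ν ℂ (p := 2) (by simp)).topologicalClosure_map_submodule
      UnitAddTorus.span_mFourier_closure_eq_top)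
  rw [eq_top_iff, ← dense]
  refine Submodule.topologicalClosure_mono ?_
  rw [Submodule.map_span, Submodule.map_span]
  refine Submodule.span_mono ?_
  rintro _ ⟨_, ⟨_, ⟨n, rfl⟩, rfl⟩, rfl⟩
  refine ⟨-(n 0 * L.e 0 + n 1 * L.e 1), fun t => ?_⟩
  have a1 : ∀ᵐ T ∂μ, J (ContinuousMap.toLp 2 ν ℂ (UnitAddTorus.mFourier n)) T =
      UnitAddTorus.mFourier n (π T) :=
    (hJ _).trans (mp.quasiMeasurePreserving.ae_eq_comp (ContinuousMap.coeFn_toLp ν _))
  filter_upwards [a1, (hinv t).quasiMeasurePreserving.ae a1, eqv t] with T b1 b2 b3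
  refine b2.trans (Eq.trans ?_ (congrArg _ b1.symm))
  simp only [b3, UnitAddTorus.mFourier, ContinuousMap.coe_mk, Fin.prod_univ_two, Pi.add_apply,
    fourier_apply, smul_add, AddCircle.toCircle_add, Circle.coe_mul, Lift.E]
  simp only [← fourier_apply, fourier_coe_apply]
  rw [mul_mul_mul_comm, ← Complex.exp_add]
  congr 2
  push_cast
  ring

end Pool.Agent.MP_4168de_an

end

section

/-! The orbit of a nonperiodic tiling is a null set. -/

namespace Pool.Agent.MP_4168de_an.G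

open MeasureTheory Set

theorem translate_translate_Orbit {A : Type} (s t : ℝ) (T : Patch A) :
    translate s (translate t T) = translate (s + t) T := by
  simp only [translate, mem_ofPred_eq, sub_sub]

theorem translate_zero_Orbit {A : Type} (T : Patch A) : translate 0 T = T := by
  simp [translate]

theorem orbit_stmt : OrbitStmt := by
  intro A _ ℓ x₀ t₀ μ _ hℓ hnp hinv
  let : TopologicalSpace A := ⊥
  have : DiscreteTopology A := ⟨rfl⟩
  have hcont : Continuous (θ ℓ x₀) :=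
    (continuous_θ hℓ).comp (continuous_const.prodMk continuous_id)
  have hmeas : ∀ r : ℝ, MeasurableSet (θ ℓ x₀ '' Icc r (r + 1)) := fun r =>
    (isClosed_of_compact hℓ (isCompact_Icc.image hcont)
      (by rintro _ ⟨t, -, rfl⟩; exact ⟨_, _, rfl⟩)).measurableSet
  have hpre : ∀ r : ℝ, translate r ⁻¹' (θ ℓ x₀ '' Icc 0 (0 + 1)) = θ ℓ x₀ '' Icc r (r + 1) := by
    intro r
    ext T
    constructor
    · rintro ⟨t, ht, e⟩
      refine ⟨t + r, ⟨by linarith [ht.1], by linarith [ht.2]⟩, ?_⟩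
      have := congrArg (translate (-r)) e
      rw [translate_translate_Orbit, neg_add_cancel, translate_zero_Orbit, translate_θ,
        sub_neg_eq_add] at this
      exact this
    · rintro ⟨t, ht, rfl⟩
      exact ⟨t - r, ⟨by linarith [ht.1], by linarith [ht.2]⟩, (translate_θ _ _ _).symm⟩
  have hsame : ∀ r : ℝ, μ (θ ℓ x₀ '' Icc r (r + 1)) = μ (θ ℓ x₀ '' Icc 0 (0 + 1)) := fun r => by
    rw [← hpre r]
    exact (hinv r).measure_preimage (hmeas 0).nullMeasurableSet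
  have hinj : Function.Injective (θ ℓ x₀) := by
    intro t t' e
    have h1 := congrArg (translate (t - t₀)) e
    rw [translate_θ, translate_θ, sub_sub_cancel] at h1
    have h2 := hnp (t - t') (by
      rw [translate_θ]
      conv_rhs => rw [h1]
      congr 1
      ring)
    linarith
  have h0 : μ (θ ℓ x₀ '' Icc 0 (0 + 1)) = 0 := by
    by_contra hne
    have hd : Pairwise (Function.onFun Disjoint
        fun n : ℕ => θ ℓ x₀ '' Icc (2 * (n : ℝ)) (2 * (n : ℝ) + 1)) := by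
      intro m n hmn
      refine (disjoint_image_iff hinj).2 (disjoint_left.2 fun t h1 h2 => ?_)
      rcases lt_or_gt_of_ne hmn with h | h
      · have : (m : ℝ) + 1 ≤ n := by exact_mod_cast h
        linarith [h1.2, h2.1]
      · have : (n : ℝ) + 1 ≤ m := by exact_mod_cast h
        linarith [h1.1, h2.2]
    have h1 := measure_iUnion (μ := μ) hd fun n => hmeas _
    simp only [hsame] at h1
    rw [ENNReal.tsum_const_eq_top_of_ne_zero hne] at h1
    exact measure_ne_top μ _ h1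
  refine measure_mono_null (t := ⋃ n : ℤ, θ ℓ x₀ '' Icc (n : ℝ) (n + 1)) ?_
    (measure_iUnion_null fun n => (hsame n).trans h0)
  rintro _ ⟨t, rfl⟩
  exact mem_iUnion.2 ⟨⌊t⌋, t, ⟨Int.floor_le t, (Int.lt_floor_add_one t).le⟩, rfl⟩

end Pool.Agent.MP_4168de_an.G

end

section

/-! Pure point spectrum from the torus parametrisation of the cover. -/

namespace Pool.Agent.MP_4168de_an.G

open Set Filter Topology Shift MeasureTheory

theorem spec_stmt (hT : TorStmt) (hA : AeStmt) : SpecStmt := by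
  intro A _ _ _ _ D ℓ c σ d e C Q hQ l₁ Ω h2 hΩ μ _ hμ hinv
  obtain ⟨E_add, E_cont, -, E_tr, E_eq, -, -⟩ := hT A D ℓ c σ d e C
  have hae := hA A D ℓ c σ d e C Q hQ
  have hℓ := C.ℓ_pos
  unfold PurePoint DenseSpan eigenfunctions
  classical
  let Θ : D.X × ℝ → Patch A := fun r => θ ℓ r.1.1 r.2
  let W : D.X → ℝ := fun x => C.w (C.st (x.1 0))
  let P : D.X × ℝ → UnitAddTorus (Fin d) := fun r => C.Et (W r.1 + r.2) (C.M r.1)
  let S : Set (D.X × ℝ) := univ ×ˢ Icc 0 l₁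
  have cS : IsCompact S := isCompact_univ.prod isCompact_Icc
  have cΘ : Continuous Θ :=
    (continuous_θ hℓ).comp (f := fun r : D.X × ℝ => (r.1.1, r.2)) (by fun_prop)
  have cP : Continuous P := by
    have a1 : Continuous W := ((lc_letter 0).comp fun a => C.w (C.st a)).continuous
    have a2 := C.contM
    exact E_cont.comp (f := fun r : D.X × ℝ => (W r.1 + r.2, C.M r.1)) (by fun_prop)
  have Pτ : ∀ x t n, P (D.τ n x, t - pos ℓ x.1 n) = P (x, t) := fun x t n => by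
    simp only [P]
    rw [← E_tr _ _ (bs (fun x => C.δ (x.1 0)) x n), C.M_τ]
    congr 1
    have := C.w_τ x n
    simp only [W, τ_val, sh_apply, zero_add]
    linarith
  have PΘ : ∀ r r', Θ r = Θ r' → P r = P r' := fun r r' h => by
    obtain ⟨m, a1, a2⟩ := θ_eq hℓ h
    rw [← Pτ r'.1 r'.2 m, ← a2, show D.τ m r'.1 = r.1 from Subtype.ext a1.symm]
  have inS : ∀ r, ∃ s ∈ S, Θ s = Θ r := fun r => by
    obtain ⟨q, hq, e⟩ := θ_mem hℓ h2 r.1 r.2
    exact ⟨(⟨q.1, hq.1⟩, q.2), ⟨trivial, hq.2⟩, e⟩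
  have aeΩ : ∀ᵐ T ∂μ, ∃ r, Θ r = T := by
    filter_upwards [mem_ae_iff.2 hμ] with T hT
    obtain ⟨q, hq, e⟩ := hΩ.subset hT
    exact ⟨(⟨q.1, hq.1⟩, q.2), e⟩
  have clΘ : ∀ F, IsClosed F → MeasurableSet (Θ '' (S ∩ F)) := fun F hF =>
    (isClosed_of_compact hℓ ((cS.inter_right hF).image cΘ)
      (by rintro _ ⟨r, -, rfl⟩; exact ⟨_, _, rfl⟩)).measurableSet
  have clP : ∀ F, IsClosed F → MeasurableSet (P '' (S ∩ F)) := fun F hF =>
    ((cS.inter_right hF).image cP).measurableSet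
  let π : Patch A → UnitAddTorus (Fin d) := fun T => if h : ∃ r, Θ r = T then P h.choose else 0
  have hπ : ∀ r, π (Θ r) = P r := fun r => by
    have h : ∃ s, Θ s = Θ r := ⟨r, rfl⟩
    simp only [π, dif_pos h]
    exact PΘ _ _ h.choose_spec
  have mπ : Measurable π := measurable_of_isClosed fun F hF => by
    have : π ⁻¹' F = Θ '' (S ∩ P ⁻¹' F) ∪ ((Θ '' (S ∩ univ))ᶜ ∩ {_T | (0 : UnitAddTorus (Fin d)) ∈ F}) := by
      ext T
      by_cases h : ∃ r, Θ r = T
      · obtain ⟨r, rfl⟩ := h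
        obtain ⟨s, a1, a2⟩ := inS r
        refine ⟨fun h => Or.inl ⟨s, ⟨a1, ?_⟩, a2⟩, ?_⟩
        · rwa [mem_preimage, ← hπ, a2]
        · rintro (⟨s', b1, b2⟩ | h)
          · rw [mem_preimage, ← b2, hπ]
            exact b1.2
          · exact absurd ⟨s, ⟨a1, trivial⟩, a2⟩ h.1
      · rw [mem_preimage, show π T = 0 from dif_neg h]
        exact ⟨fun h' => Or.inr ⟨fun ⟨r, _, e⟩ => h ⟨r, e⟩, h'⟩,
          fun h' => h'.elim (fun ⟨r, _, e⟩ => absurd ⟨r, e⟩ h) fun h' => h'.2⟩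
    rw [this]
    exact (clΘ _ (hF.preimage cP)).union
      ((clΘ _ isClosed_univ).compl.inter (MeasurableSet.const _))
  have eqv : ∀ t, ∀ᵐ T ∂μ, π (translate t T) = C.Et (-t) 0 + π T := fun t => by
    filter_upwards [aeΩ] with _ ⟨r, hr⟩
    rw [← hr, show translate t (Θ r) = Θ (r.1, r.2 - t) from translate_θ _ _ _, hπ, hπ,
      ← E_add, zero_add]
    simp only [P]
    congr 1
    ring
  let ν : Measure (UnitAddTorus (Fin d)) := μ.map π
  have : IsProbabilityMeasure ν := Measure.isProbabilityMeasure_map mπ.aemeasurable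
  have mp : MeasurePreserving π μ ν := ⟨mπ, rfl⟩
  have inv : ∀ t, MeasurePreserving (C.Et t 0 + ·) ν ν := fun t => by
    refine ⟨measurable_const_add _, ?_⟩
    rw [Measure.map_map (measurable_const_add _) mπ, ← (mp.comp (hinv (-t))).map_eq]
    refine Measure.map_congr ?_
    filter_upwards [eqv (-t)] with T hT
    simp [hT]
  obtain ⟨N, N1, N2, N3⟩ := exists_measurable_superset_of_null
    (ae_iff.1 (hae ν inv))
  have inj : ∀ r r', P r ∉ N → P r = P r' → Θ r = Θ r' := by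
    rintro ⟨x, t⟩ ⟨x', t'⟩ h e'
    have a1 := not_not.1 (fun h' => h (N1 h')) _ _ rfl
    obtain ⟨v, b1, b2⟩ := E_eq _ _ _ _ e'.symm
    obtain ⟨n, hn⟩ := C.exists_K (x, 0) (W x + t)
    obtain ⟨n', hn'⟩ := C.exists_K (x', v) (W x + t)
    simp only [Cover.z, map_zero, add_zero] at hn hn' b1 b2
    rw [← b2] at hn'
    have a2 := a1 hn hn'
    have a3 := congrArg C.p a2
    have a4 : sh n x.1 = sh n' x'.1 := congrArg (fun y => y.1.1) a2
    rw [C.p_s, C.p_s] at a3
    simp only [Cover.p, Cover.tm, Cover.lab, map_zero] at a3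
    simp only [W] at b1
    simp only [Θ]
    rw [← θ_sh x.1 t n, ← θ_sh x'.1 t' n', a4]
    congr 1
    linarith
  let κ : UnitAddTorus (Fin d) → Patch A := fun g => if h : g ∉ N ∧ ∃ r, P r = g then Θ h.2.choose else ⟨∅⟩
  have hκ : ∀ r, P r ∉ N → κ (P r) = Θ r := fun r hr => by
    have h : P r ∉ N ∧ ∃ s, P s = P r := ⟨hr, r, rfl⟩
    simp only [κ, dif_pos h]
    exact (inj _ _ hr h.2.choose_spec.symm).symm
  have mκ : Measurable κ := measurable_of_isClosed fun F hF => by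
    have : κ ⁻¹' F = (Nᶜ ∩ P '' (S ∩ Θ ⁻¹' F)) ∪
        ((Nᶜ ∩ P '' (S ∩ univ))ᶜ ∩ {_g | (⟨∅⟩ : Patch A) ∈ F}) := by
      ext g
      by_cases h : g ∉ N ∧ ∃ r, P r = g
      · obtain ⟨h, r, rfl⟩ := h
        obtain ⟨s, a1, a2⟩ := inS r
        rw [mem_preimage, hκ r h]
        refine ⟨fun h' => Or.inl ⟨h, s, ⟨a1, ?_⟩, PΘ _ _ a2⟩, ?_⟩
        · rwa [mem_preimage, a2]
        · rintro (⟨-, s', b1, b2⟩ | h')
          · rw [inj _ _ h b2.symm]
            exact b1.2
          · exact absurd ⟨h, s, ⟨a1, trivial⟩, PΘ _ _ a2⟩ h'.1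
      · rw [mem_preimage, show κ g = ⟨∅⟩ from dif_neg h]
        exact ⟨fun h' => Or.inr ⟨fun ⟨a, r, _, e⟩ => h ⟨a, r, e⟩, h'⟩,
          fun h' => h'.elim (fun ⟨a, r, _, e⟩ => absurd ⟨a, r, e⟩ h) fun h' => h'.2⟩
    rw [this]
    exact (N2.compl.inter (clP _ (hF.preimage cΘ))).union
      ((N2.compl.inter (clP _ isClosed_univ)).compl.inter (MeasurableSet.const _))
  have κπ : ∀ᵐ T ∂μ, κ (π T) = T := by
    filter_upwards [aeΩ, mp.quasiMeasurePreserving.ae (measure_eq_zero_iff_ae_notMem.1 N3)]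
      with _ ⟨r, hr⟩ h
    subst hr
    rw [hπ] at h ⊢
    exact hκ r h
  have mq : MeasurePreserving κ ν μ := ⟨mκ, by
    rw [Measure.map_map mκ mπ, Measure.map_congr (f := κ ∘ π) (g := id) κπ, Measure.map_id]⟩
  let J := (Lp.compMeasurePreservingₗᵢ (E := ℂ) (p := 2) ℂ π mp).toContinuousLinearMap
  have hJ : ∀ g, J g =ᵐ[μ] g ∘ π := fun g => Lp.coeFn_compMeasurePreserving g mp
  have sJ : Function.Surjective J := fun f => ⟨Lp.compMeasurePreserving κ mq f, Lp.ext (by
    filter_upwards [hJ (Lp.compMeasurePreserving κ mq f), κπ,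
      mp.quasiMeasurePreserving.ae_eq_comp (Lp.coeFn_compMeasurePreserving f mq)] with T a1 a2 a3
    rw [a1, a3]
    simp only [Function.comp_apply, a2])⟩
  have dense := sJ.denseRange.topologicalClosure_map_submodule
    ((ContinuousMap.toLp_denseRange ℂ ν ℂ (p := 2) (by simp)).topologicalClosure_map_submodule
      UnitAddTorus.span_mFourier_closure_eq_top)
  rw [eq_top_iff, ← dense]
  refine Submodule.topologicalClosure_mono ?_
  rw [Submodule.map_span, Submodule.map_span]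
  refine Submodule.span_mono ?_
  rintro _ ⟨_, ⟨_, ⟨n, rfl⟩, rfl⟩, rfl⟩
  refine ⟨-∑ i, n i * C.L.Ψ (1, 0) i, fun t => ?_⟩
  have a1 : ∀ᵐ T ∂μ, J (ContinuousMap.toLp 2 ν ℂ (UnitAddTorus.mFourier n)) T =
      UnitAddTorus.mFourier n (π T) :=
    (hJ _).trans (mp.quasiMeasurePreserving.ae_eq_comp (ContinuousMap.coeFn_toLp ν _))
  filter_upwards [a1, (hinv t).quasiMeasurePreserving.ae a1, eqv t] with T b1 b2 b3
  refine b2.trans (Eq.trans ?_ (congrArg _ b1.symm))
  have b4 : C.L.Ψ (-t, 0) = (-t) • C.L.Ψ (1, 0) := by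
    rw [← map_smul]
    simp
  simp only [b3, UnitAddTorus.mFourier, ContinuousMap.coe_mk, Pi.add_apply,
    fourier_apply, smul_add, AddCircle.toCircle_add, Circle.coe_mul, Cover.Et,
    Finset.prod_mul_distrib]
  simp only [← fourier_apply, fourier_coe_apply]
  rw [← Complex.exp_sum, b4]
  congr 2
  push_cast
  simp only [Pi.smul_apply, smul_eq_mul, Finset.mul_sum, Finset.sum_mul, mul_neg, neg_mul,
    ← Finset.sum_neg_distrib]
  refine Finset.sum_congr rfl fun i _ => ?_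
  push_cast
  ring

end Pool.Agent.MP_4168de_an.G

end
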