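import Pool.Agent.Mg.F4168de.G899879
import Pool.Agent.Mg.F4168de.G7a03ca

section

/-! The class dies after inflation. -/

namespace Pool.Agent.MP_4168de_an.G

open Set

section aux

variable {d : ℕ} {A : Type}

/-- The submodule of chains that are in `N` modulo `r`. -/
def modR_Kill (N : Submodule (Rg d) (A → Rg d)) (r : ℤ) : Submodule (Rg d) (A → Rg d) where
  carrier := {y | ∃ g, y - r • g ∈ N}
  add_mem' := by
    rintro a b ⟨g, hg⟩ ⟨g', hg'⟩
    refine ⟨g + g', ?_⟩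
    have := N.add_mem hg hg'
    rwa [show a - r • g + (b - r • g') = a + b - r • (g + g') by rw [smul_add]; abel] at this
  zero_mem' := ⟨0, by simp⟩
  smul_mem' := by
    rintro P a ⟨g, hg⟩
    refine ⟨P • g, ?_⟩
    have := N.smul_mem P hg
    rwa [smul_sub, smul_comm P r g] at this

lemma le_modR_Kill (N : Submodule (Rg d) (A → Rg d)) (r : ℤ) : N ≤ modR_Kill N r :=
  fun y hy => ⟨0, by simpa using hy⟩

lemma smul_modR_Kill (N : Submodule (Rg d) (A → Rg d)) (r : ℤ) (g : A → Rg d) :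
    r • g ∈ modR_Kill N r := ⟨g, by simp⟩

lemma map_pow_Kill {ν : Rg d →+* Rg d} (hν : ∀ P, aug (ν P) = aug P) (j : ℕ) {P : Rg d}
    (hP : P ∈ II d ^ j) : ν P ∈ II d ^ j := by
  have h1 : (II d).map ν ≤ II d := Ideal.map_le_iff_le_comap.2 fun Q hQ =>
    mem_II.2 ((hν Q).trans (mem_II.1 hQ))
  have h2 : (II d ^ j).map ν ≤ II d ^ j := by
    rw [Ideal.map_pow]
    exact Ideal.pow_right_mono h1 j
  exact h2 (Ideal.mem_map_of_mem ν hP)

lemma step_Kill {N Z : Submodule (Rg d) (A → Rg d)} {F : (A → Rg d) →+ (A → Rg d)}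
    {ν : Rg d →+* Rg d} {r : ℤ} (hν : ∀ P, aug (ν P) = aug P)
    (hF : ∀ (P : Rg d) z, F (P • z) = ν P • F z) (hN : ∀ z ∈ N, F z ∈ N)
    (hZ : ∀ z ∈ Z, r • F z ∈ N ⊔ II d • Z) (j : ℕ) {y : A → Rg d} (hy : y ∈ N ⊔ II d ^ j • Z) :
    r • F y ∈ N ⊔ II d ^ (j + 1) • Z := by
  obtain ⟨n, hn, y', hy', rfl⟩ := Submodule.mem_sup.1 hy
  rw [map_add, smul_add]
  refine Submodule.add_mem _ (Submodule.mem_sup_left (zsmul_mem (hN n hn) r)) ?_
  refine Submodule.smul_induction_on hy' (fun P hP z hz => ?_) fun a b ha hb => ?_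
  · obtain ⟨n', hn', y'', hy'', e⟩ := Submodule.mem_sup.1 (hZ z hz)
    rw [hF, smul_comm, ← e, smul_add]
    refine Submodule.add_mem_sup (N.smul_mem _ hn') ?_
    rw [pow_succ, Submodule.mul_smul]
    exact Submodule.smul_mem_smul (map_pow_Kill hν j hP) hy''
  · rw [map_add, smul_add]
    exact Submodule.add_mem _ ha hb

lemma tot_smul_Kill [Fintype A] (P : Rg d) (y : A → Rg d) : tot (P • y) = aug P * tot y := by
  simp [tot, Finset.mul_sum]

lemma tot_sub_Kill [Fintype A] (x y : A → Rg d) : tot (x - y) = tot x - tot y := by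
  simp [tot, Finset.sum_sub_distrib]

lemma tot_zsmul_Kill [Fintype A] (r : ℤ) (y : A → Rg d) : tot (r • y) = r * tot y := by
  simp [tot, Finset.mul_sum]

lemma tot_single_Kill [Fintype A] [DecidableEq A] (p : A) :
    tot (Pi.single p 1 : A → Rg d) = 1 := by
  rw [tot, Finset.sum_eq_single p]
  · simp
  · intro b _ hb
    simp [Pi.single_eq_of_ne hb]
  · simp

end aux

theorem kill_stmt (hC : CycStmt) (hS : SymStmt) (hA : ArStmt) : KillStmt := by
  intro A _ d bd Vx N v E μ G n₀ hcon hv hr hμ haug hE hN hZ hsat hnil hG1 hG0 hGb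
  classical
  let F : ℕ → (A → Rg d) →+ (A → Rg d) := fun k => AddMonoidHom.mk' E^[k] (iterate_map_add E k)
  have F0 : ∀ z, F 0 z = z := fun z => rfl
  have FS : ∀ k z, F (k + 1) z = E (F k z) := fun k z => Function.iterate_succ_apply' E k z
  have FA : ∀ k l z, F (k + l) z = F k (F l z) := fun k l z => Function.iterate_add_apply E k l z
  have mS : ∀ k P, (μ ^ (k + 1)) P = μ ((μ ^ k) P) := fun k P => by rw [pow_succ']; rfl
  have kaug : ∀ k P, aug ((μ ^ k) P) = aug P := fun k P => by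
    induction k with
    | zero => rfl
    | succ k ih => rw [mS, haug, ih]
  have kE : ∀ k (P : Rg d) z, F k (P • z) = (μ ^ k) P • F k z := fun k P z => by
    induction k with
    | zero => rfl
    | succ k ih => rw [FS, FS, mS, ih, hE]
  have kN : ∀ k, ∀ z ∈ N, F k z ∈ N := fun k z hz => by
    induction k with
    | zero => exact hz
    | succ k ih => rw [FS]; exact hN _ ih
  have kZ : ∀ k z, bd z = 0 → bd (F k z) = 0 := fun k z hz => by
    induction k with
    | zero => exact hz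
    | succ k ih => rw [FS]; exact hZ _ ih
  have kbij : ∀ k : ℕ, Function.Bijective ⇑(μ ^ k : Rg d →+* Rg d) := fun k => by
    rw [RingHom.coe_pow]
    exact hμ.iterate k
  have cross : ∀ {a b : Rg d} {x y : A → Rg d}, (a, x) ∈ G → (b, y) ∈ G → a • y - b • x ∈ N :=
    fun {a b x y} hx hy => hG0 _ (by
      have := G.sub_mem (G.smul_mem a hy) (G.smul_mem b hx)
      rwa [Prod.smul_mk, Prod.smul_mk, Prod.mk_sub_mk, smul_eq_mul, smul_eq_mul, mul_comm a b,
        sub_self] at this)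
  choose cc hcc using fun i : Fin d => hG1 (tt i) (tt_mem i)
  have s1 : ∀ z ∈ LinearMap.ker bd, tot v • F n₀ z ∈ N ⊔ II d • LinearMap.ker bd := fun z hz =>
    hC A d bd Vx N v cc hcon hv (fun i => hGb _ _ (hcc i)) (fun i j => cross (hcc i) (hcc j)) _
      (kZ n₀ z hz) (hnil z hz)
  have s2 : ∀ j, ∀ z ∈ LinearMap.ker bd,
      tot v ^ j • F (n₀ * j) z ∈ N ⊔ II d ^ j • LinearMap.ker bd := fun j z hz => by
    induction j with
    | zero =>
      rw [pow_zero, pow_zero, one_smul, one_smul, mul_zero, F0]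
      exact Submodule.mem_sup_right hz
    | succ j ih =>
      have := step_Kill (kaug n₀) (kE n₀) (kN n₀) s1 j ih
      rwa [map_zsmul, smul_smul, ← pow_succ', ← FA, show n₀ + n₀ * j = n₀ * (j + 1) by ring] at this
  obtain ⟨j, hj⟩ := hA A d (modR_Kill N (tot v))
  obtain ⟨j', hj'⟩ := hS A d N hsat j
  have s3 : ∀ z, bd z = 0 → F (n₀ * j') z ∈ N ⊔ II d ^ j • ⊤ := fun z hz =>
    hj' _ _ (pow_ne_zero j' hr)
      (sup_le_sup_left (Submodule.smul_mono le_rfl le_top) N (s2 j' z hz))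
  generalize n₀ * j' = k at s3
  obtain ⟨p, hp⟩ : ∃ p, v p ≠ 0 := by
    by_contra hc
    push Not at hc
    exact hr (by simp [tot, hc])
  have hpV : p ∈ Vx := by
    by_contra hc
    exact hp (hv p hc)
  have hv0 : ∀ q ∉ Vx, (Pi.single p 1 : A → Rg d) q = 0 := fun q hq =>
    Pi.single_eq_of_ne (fun h : q = p => hq (by rw [h]; exact hpV)) _
  obtain ⟨c0, hc0⟩ := hcon.2 (v - tot v • (Pi.single p 1 : A → Rg d))
    (fun q hq => by rw [Pi.sub_apply, Pi.smul_apply, hv q hq, hv0 q hq, smul_zero, sub_zero])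
    (by rw [tot_sub_Kill, tot_zsmul_Kill, tot_single_Kill, mul_one, sub_self])
  choose b hb using fun i : Fin d => (kbij k).2 (tt i)
  have hbI : ∀ i, b i ∈ II d := fun i => mem_II.2 (by
    rw [← kaug k, hb]
    exact mem_II.1 (tt_mem i))
  choose c hc using fun i : Fin d => hG1 (b i) (hbI i)
  choose g hg using fun i : Fin d => hcon.2 (b i • (Pi.single p 1 : A → Rg d))
    (fun q hq => by rw [Pi.smul_apply, hv0 q hq, smul_zero])
    (by rw [tot_smul_Kill, mem_II.1 (hbI i), zero_mul])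
  have cyc : ∀ i, bd (c i + b i • c0 + tot v • g i) = 0 := fun i => by
    rw [map_add, map_add, map_smul, map_zsmul, hGb _ _ (hc i), hc0, hg, smul_sub,
      smul_comm (b i) (tot v)]
    abel
  obtain ⟨w, hw⟩ := hj (fun i => F k (c i) + tt i • F k c0) (fun i l => by
      refine le_modR_Kill N _ ?_
      have := kN k _ (cross (hc l) (hc i))
      rw [map_sub, kE, kE, hb, hb] at this
      rwa [smul_add, smul_add, smul_comm (tt l) (tt i), add_sub_add_right_eq_sub])
    (fun i => by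
      have h1 := sup_le_sup_right (le_modR_Kill N (tot v)) _ (s3 _ (cyc i))
      rw [map_add, map_add, kE, hb, map_zsmul] at h1
      have h2 := Submodule.sub_mem _ h1
        (Submodule.mem_sup_left (smul_modR_Kill N (tot v) (F k (g i))))
      rwa [add_sub_cancel_right] at h2)
  refine ⟨k, w - F k c0, fun t ht z hz => ?_⟩
  obtain ⟨a, ha⟩ := exists_of_mem_II (mem_II.2 ((kaug k t).trans (mem_II.1 ht)))
  choose a' ha' using fun i : Fin d => (kbij k).2 (a i)
  have ht' : t = ∑ i, a' i * b i := (kbij k).1 (by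
    rw [← ha, map_sum]
    exact Finset.sum_congr rfl fun i _ => by rw [map_mul, ha', hb])
  have h1 : z - ∑ i, a' i • c i ∈ N := hG0 _ (by
    have := G.sub_mem hz (G.sum_mem fun i (_ : i ∈ Finset.univ) => G.smul_mem (a' i) (hc i))
    rwa [show (t, z) - ∑ i, a' i • (b i, c i) = (0, z - ∑ i, a' i • c i) by
      ext1
      · simp [Prod.fst_sum, ht']
      · simp [Prod.snd_sum]] at this)
  have h2 := kN k _ h1
  rw [map_sub, map_sum] at h2
  simp only [kE, ha'] at h2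
  have h3 := (modR_Kill N (tot v)).add_mem (le_modR_Kill N _ h2)
    ((modR_Kill N (tot v)).sum_mem fun i (_ : i ∈ Finset.univ) =>
      (modR_Kill N (tot v)).smul_mem (a i) (hw i))
  have e : F k z - ∑ i, a i • F k (c i) + ∑ i, a i • (F k (c i) + tt i • F k c0 - tt i • w) =
      F k z - (μ ^ k) t • (w - F k c0) := by
    rw [← ha, Finset.sum_smul, sub_add, ← Finset.sum_sub_distrib]
    congr 1
    refine Finset.sum_congr rfl fun i _ => ?_
    rw [mul_smul, ← smul_sub, smul_sub (tt i)]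
    congr 1
    abel
  rw [e, RingHom.coe_pow] at h3
  exact h3

end Pool.Agent.MP_4168de_an.G

end

section

/-! The graph data for a singular matrix. -/

namespace Pool.Agent.MP_4168de_an.G

open Set Filter Topology Shift Matrix

theorem graph2_stmt (hV : VertStmt) (hC : Cob2Stmt) (hD : DetStmt) (hQ : QuotStmt) :
    Graph2Stmt := by
  intro A _ _ _ _ D ℓ c σ M d' hℓ hP hu occ hr hM hrk
  have hc := hP.one_lt
  obtain ⟨V⟩ := hV A D occ
  obtain ⟨f, hf⟩ := exists_f_Graph σ V occ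
  obtain ⟨x₀⟩ : Nonempty D.X := inferInstance
  obtain ⟨n, hn, hn0⟩ := exists_n_Graph V.st occ x₀
  have se : ∀ x : D.X, V.en (x.1 0) = V.st ((D.τ 1 x).1 0) := fun x => by simp [V.st_en]
  obtain ⟨bd, hbd⟩ : ∃ bd : (A → ℤ) →ₗ[ℤ] (A → ℤ), ∀ a, bd (Pi.single a 1) =
      Pi.single (V.en a) 1 - Pi.single (V.st a) 1 := ⟨_, comb_Graph _⟩
  obtain ⟨Pl, hPl⟩ : ∃ Pl : (A → ℤ) →ₗ[ℤ] (A → ℤ), ∀ p, Pl (Pi.single p 1) =
      bs (fun y : D.X => Pi.single (y.1 0) 1) x₀ (n p) := ⟨_, comb_Graph _⟩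
  obtain ⟨Fl, hFl⟩ : ∃ Fl : (A → ℤ) →ₗ[ℤ] (A → ℤ), ∀ p, Fl (Pi.single p 1) =
      Pi.single (f p) 1 := ⟨_, comb_Graph _⟩
  obtain ⟨L, hL⟩ : ∃ L : (A → ℤ) →ₗ[ℤ] ℝ, ∀ a, L (Pi.single a 1) = ℓ a := ⟨_, comb_Graph _⟩
  have h1 : ∀ a, bd (Pl (Pi.single (V.st a) 1)) =
      Pi.single (V.st a) 1 - Pi.single (V.st (x₀.1 0)) 1 := fun a => by
    rw [hPl, map_bs]
    simp only [hbd, se]
    rw [bs_tel (fun y : D.X => (Pi.single (V.st (y.1 0)) 1 : A → ℤ))]
    simp only [τ_val, sh_apply, zero_add, hn]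
  have h2 : Pl (Pi.single (V.st (x₀.1 0)) 1) = 0 := by rw [hPl, hn0, bs_zero]
  obtain ⟨d₀, co, em, ce, be, ec⟩ := core_Graph bd Pl (ext_Graph (bd ∘ₗ Pl ∘ₗ bd) bd fun a => by
    obtain ⟨x, rfl⟩ := occ a
    simp only [LinearMap.comp_apply]
    rw [hbd, se, map_sub, map_sub, h1, h1, sub_sub_sub_cancel_right])
  have ec' : ∀ v, bd v = 0 → em (co v) = v := fun v hv => by rw [ec, hv, map_zero, sub_zero]
  have h3 : ∀ v, bd (M *ᵥ v) = Fl (bd v) := ext_Graph (bd ∘ₗ M.mulVecLin) (Fl ∘ₗ bd) fun a => by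
    obtain ⟨x, rfl⟩ := occ a
    simp only [LinearMap.comp_apply, mulVecLin_apply]
    rw [star_Graph hM]
    simp only [hbd, se]
    rw [σ.star_tel (fun y : D.X => (Pi.single (V.st (y.1 0)) 1 : A → ℤ)), map_sub, hFl, hFl, hf,
      hf]
  have h4 : ∀ v, L (M *ᵥ v) = c * L v := ext_Graph (L ∘ₗ M.mulVecLin) (c • L) fun a => by
    obtain ⟨x, rfl⟩ := occ a
    simp only [LinearMap.comp_apply, mulVecLin_apply, LinearMap.smul_apply, smul_eq_mul]
    rw [star_Graph hM]
    simp only [hL]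
    exact σ.star_len x
  have h7 : ∀ z, bd (M *ᵥ em z) = 0 := fun z => by rw [h3, be, map_zero]
  obtain ⟨B₀, hB₀⟩ : ∃ B₀ : Lat d₀ →ₗ[ℤ] Lat d₀, ∀ z, B₀ z = co (M *ᵥ em z) :=
    ⟨co ∘ₗ M.mulVecLin ∘ₗ em, fun _ => rfl⟩
  obtain ⟨d, N, pr, sc, ps, pk, pb⟩ := hQ d₀ B₀
  have k1 : ∀ (k : ℕ) z, (M ^ k) *ᵥ em z = em ((B₀ ^ k) z) := fun k => by
    induction k with
    | zero => simp
    | succ k ih =>
      intro z
      rw [pow_succ, ← mulVec_mulVec, ← ec' _ (h7 z), ← hB₀, ih, pow_succ, Module.End.mul_apply]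
  have k2 : ∀ z, pr (z - sc (pr z)) = 0 := fun z => by rw [map_sub, ps, sub_self]
  have k3 : ∀ z, pr (B₀ (sc (pr z))) = pr (B₀ z) := fun z => by
    rw [eq_comm, ← sub_eq_zero, ← map_sub, ← map_sub, pk, ← Module.End.mul_apply, ← pow_succ,
      pow_succ', Module.End.mul_apply, (pk _).1 (k2 z), map_zero]
  have k4 : ∀ z, L (em (sc (pr z))) = L (em z) := fun z => by
    have a1 : ∀ (k : ℕ) v, L ((M ^ k) *ᵥ v) = c ^ k * L v := fun k => by
      induction k with
      | zero => simp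
      | succ k ih => intro v; rw [pow_succ, ← mulVec_mulVec, ih, h4, pow_succ, mul_assoc]
    have a2 := a1 N (em (z - sc (pr z)))
    rw [k1, (pk _).1 (k2 z), map_zero, map_zero, map_sub, map_sub] at a2
    linarith [(mul_eq_zero.1 a2.symm).resolve_left (by positivity)]
  obtain ⟨B, h6⟩ : ∃ B : Matrix (Fin d) (Fin d) ℤ, ∀ z, B *ᵥ z = pr (B₀ (sc z)) :=
    ⟨LinearMap.toMatrix' (pr ∘ₗ B₀ ∘ₗ sc), fun z => LinearMap.toMatrix'_mulVec _ z⟩
  have k5 : ∀ (k : ℕ) z, (B ^ k) *ᵥ pr z = pr ((B₀ ^ k) z) := fun k => by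
    induction k with
    | zero => simp
    | succ k ih =>
      intro z
      rw [pow_succ, ← mulVec_mulVec, h6, k3, ih, pow_succ, Module.End.mul_apply]
  have k6 : B.det ≠ 0 := fun h => by
    obtain ⟨z, a1, a2⟩ := Matrix.exists_mulVec_eq_zero_iff.2 h
    rw [h6] at a2
    exact a1 ((ps z).symm.trans (pb _ a2))
  have h5 : ∀ z : Lat d, (fun i => L (em (sc (Pi.single i 1)))) ⬝ᵥ toR z = L (em (sc z)) :=
    fun z => by
      rw [show L (em (sc z)) = (L ∘ₗ em ∘ₗ sc) z from rfl, lin_Graph]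
      simp only [dotProduct, toR, LinearMap.comp_apply, zsmul_eq_mul, mul_comm]
  have hw : ∀ (k : ℝ) a, L (Pl (Pi.single (V.en a) 1)) + k
      + (fun i => L (em (sc (Pi.single i 1)))) ⬝ᵥ toR (pr (co (Pi.single a 1)))
      = L (Pl (Pi.single (V.st a) 1)) + k + ℓ a := fun k a => by
    rw [h5, k4, ec, hbd, map_sub, map_sub, map_sub, hL]
    ring
  have hd : d ≤ d' := by
    by_contra hd
    have hd' : d' + 1 ≤ d := by omega
    obtain ⟨q, hq, hcob⟩ := hrk (fun i x => (pr (co (Pi.single (x.1 0) 1)) (Fin.castLE hd' i) : ℚ))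
      fun i => (lc_letter 0).comp fun a => (pr (co (Pi.single a 1)) (Fin.castLE hd' i) : ℚ)
    obtain ⟨k, h, hh⟩ := hC A D ℓ c σ M V occ hr hM
      (fun a => ∑ i, q i * (pr (co (Pi.single a 1)) (Fin.castLE hd' i) : ℚ)) hcob
    refine hq (funext fun j => ?_)
    obtain ⟨φ, hφ⟩ : ∃ φ : Lat d →ₗ[ℤ] ℚ, ∀ z, φ z = ∑ i, q i * (z (Fin.castLE hd' i) : ℚ) :=
      ⟨Fintype.linearCombination ℤ q ∘ₗ LinearMap.funLeft ℤ ℤ (Fin.castLE hd'), fun z => by
        simp only [LinearMap.comp_apply, Fintype.linearCombination_apply, LinearMap.funLeft_apply,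
          zsmul_eq_mul, mul_comm]⟩
    have a1 := ext_Graph (φ ∘ₗ pr ∘ₗ co ∘ₗ (M ^ k).mulVecLin)
      (Fintype.linearCombination ℤ h ∘ₗ bd) (fun a => by
        simp only [LinearMap.comp_apply, mulVecLin_apply]
        rw [hbd, map_sub, comb_Graph, comb_Graph, ← hh,
          show φ (pr (co ((M ^ k) *ᵥ Pi.single a 1))) = (φ ∘ₗ pr ∘ₗ co) ((M ^ k) *ᵥ Pi.single a 1)
            from rfl, lin_Graph]
        simp only [LinearMap.comp_apply, hφ, mulVec_single_one, col_apply, zsmul_eq_mul, mul_comm])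
      (em (sc ((B ^ k).adjugate *ᵥ Pi.single (Fin.castLE hd' j) 1)))
    simp only [LinearMap.comp_apply, mulVecLin_apply] at a1
    rw [be, map_zero, k1, ce, ← k5, ps, mulVec_mulVec, mul_adjugate, smul_mulVec, one_mulVec,
      map_smul, hφ, det_pow] at a1
    simpa [Pi.single_apply, k6] using a1
  have hu0 : (fun i => L (em (sc (Pi.single i 1)))) ≠ 0 := fun h0 => by
    refine not_cob_len (D := D) hℓ ⟨fun x => L (Pl (Pi.single (V.st (x.1 0)) 1)),
      (lc_letter 0).comp fun a => L (Pl (Pi.single (V.st a) 1)), fun x => ?_⟩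
    have := hw 0 (x.1 0)
    rw [h0, zero_dotProduct, se] at this
    linarith
  have huB : (fun i => L (em (sc (Pi.single i 1)))) ᵥ* B.map (Int.cast : ℤ → ℝ) =
      c • fun i => L (em (sc (Pi.single i 1))) := funext fun j => by
    have := h5 (B *ᵥ Pi.single j 1)
    rw [h6, k4, hB₀, ec' _ (h7 _), h4, ← hB₀, ← h6, mulVec_single_one] at this
    exact this
  refine ⟨d, hd, ⟨{ V with
    δ := fun a => pr (co (Pi.single a 1))
    κ := fun p => pr (co (M *ᵥ Pl (Pi.single p 1)))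
    f := f
    w := fun p => L (Pl (Pi.single p 1)) + L (Pl (Pi.single (f (V.st (x₀.1 0))) 1)) / (c - 1)
    B := B
    u := fun i => L (em (sc (Pi.single i 1)))
    detB := hD d d' B _ c hP hd hu hu0 huB
    u_ne := hu0
    uB := huB
    hw := hw _
    hf := hf
    hκ := fun x => ?_
    wT := fun x => ?_
    nil := fun M' hM' => ⟨N, fun v v1 v2 b => ?_⟩
    span_δ := eq_top_iff.2 fun z _ => ?_
    base := ⟨x₀, fun a => ⟨n (V.st a), hn a, ?_⟩⟩ }⟩⟩
  · have a1 := star_Graph hM (pr ∘ₗ co) x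
    simp only [LinearMap.comp_apply] at a1
    rw [← a1, h6, k3, hB₀, ec, hbd, map_sub, mulVec_sub, mulVec_sub, map_sub, map_sub, map_sub,
      map_sub]
    abel
  · have h9 : c - 1 ≠ 0 := by linarith
    rw [h5, k4, ec, h3, h1, map_sub, map_sub, map_sub, map_sub, hFl, hFl, h4, hf]
    field_simp
    ring
  · rw [hM'.unique hM]
    have key : ∀ a, (M ^ N) b a =
        ∑ i, ((M ^ N) *ᵥ em (sc (Pi.single i 1))) b * pr (co (Pi.single a 1)) i
        + ∑ p, ((M ^ N) *ᵥ Pl (Pi.single p 1)) b * inc V.st V.en p a := fun a => by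
      have a1 : (M ^ N) *ᵥ Pi.single a 1 =
          ((M ^ N).mulVecLin ∘ₗ em ∘ₗ sc) (pr (co (Pi.single a 1))) +
          ((M ^ N).mulVecLin ∘ₗ Pl) (bd (Pi.single a 1)) := by
        have a2 := k1 N (co (Pi.single a 1) - sc (pr (co (Pi.single a 1))))
        rw [(pk _).1 (k2 _), map_zero, map_sub, ec, mulVec_sub, mulVec_sub, sub_sub,
          sub_eq_zero] at a2
        rw [a2, add_comm]
        rfl
      have a3 := congrFun a1 b
      rw [lin_Graph (_ ∘ₗ em ∘ₗ sc), lin_Graph (_ ∘ₗ Pl), hbd, mulVec_single_one, col_apply] at a3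
      rw [a3]
      simp only [inc, Pi.single_apply, eq_comm, mul_comm, Pi.add_apply, Finset.sum_apply,
        Pi.smul_apply, smul_eq_mul, Pi.sub_apply, LinearMap.comp_apply, mulVecLin_apply]
    simp only [key]
    push_cast
    simp only [add_mul, Finset.sum_add_distrib, Finset.sum_mul, mul_assoc]
    rw [Finset.sum_comm, Finset.sum_comm (f := fun a p => _ * ((inc V.st V.en p a : ℂ) * v a))]
    simp only [← Finset.mul_sum, v1, v2, mul_zero, Finset.sum_const_zero, add_zero]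
  · rw [← ps z, ← ce (sc z), show pr (co (em (sc z))) = (pr ∘ₗ co) (em (sc z)) from rfl, lin_Graph]
    exact AddSubgroup.sum_mem _ fun a _ =>
      AddSubgroup.zsmul_mem _ (AddSubgroup.subset_closure (mem_range_self a)) _
  · rw [← map_bs pr, ← map_bs co, ← hPl, ← ce (co _), ec, h1, map_sub Pl, h2, sub_zero, sub_self,
      map_zero, map_zero]

end Pool.Agent.MP_4168de_an.G

end
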