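import Pool.Agent.Mg.F4168de.G899879
import Pool.Agent.Mg.F4168de.G289263
import Pool.Agent.Mg.F4168de.Gfd1a75
import Pool.Agent.Mg.F4168de.Ge26b92
import Pool.Agent.Mg.F4168de.Gbb6edf
import Pool.Agent.Mg.F4168de.G7a03ca

section

/-! Koszul relations. -/

namespace Pool.Agent.MP_4168de_an.G

open Set

variable {d : ℕ}

/-- The map that kills the first `n` coordinates. -/
def pi_Kos (d n : ℕ) : Lat d →+ Lat d where
  toFun v := fun l => if l.val < n then 0 else v l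
  map_zero' := by ext l; simp
  map_add' v w := by
    ext l
    by_cases h : l.val < n <;> simp [h]

/-- The ideal generated by the first `n` generators. -/
def J_Kos (d n : ℕ) : Ideal (Rg d) where
  carrier := {x | ∃ b : Fin d → Rg d, (∀ l, n ≤ l.val → b l = 0) ∧ x = ∑ l, tt l * b l}
  zero_mem' := ⟨0, fun _ _ => rfl, by simp⟩
  add_mem' := by
    rintro _ _ ⟨b, hb, rfl⟩ ⟨c, hc, rfl⟩
    exact ⟨b + c, fun l hl => by simp [hb l hl, hc l hl],
      by simp [mul_add, Finset.sum_add_distrib]⟩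
  smul_mem' := by
    rintro r _ ⟨b, hb, rfl⟩
    refine ⟨fun l => r * b l, fun l hl => by simp [hb l hl], ?_⟩
    rw [smul_eq_mul, Finset.mul_sum]
    exact Finset.sum_congr rfl fun l _ => by ring

lemma tt_mem_Kos {n : ℕ} {l : Fin d} (hl : l.val < n) : tt l ∈ J_Kos d n := by
  refine ⟨Pi.single l 1, fun k hk => Pi.single_eq_of_ne (by rintro rfl; omega) _, ?_⟩
  rw [Finset.sum_eq_single l (fun k _ hk => by simp [Pi.single_eq_of_ne hk]) (by simp)]
  simp

/-- The vectors whose monomial is one modulo an ideal. -/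
def sub_Kos (J : Ideal (Rg d)) : AddSubgroup (Lat d) where
  carrier := {v | mono v - 1 ∈ J}
  zero_mem' := by simp
  add_mem' := by
    intro v w hv hw
    have := J.add_mem (J.mul_mem_left (mono w) hv) hw
    rwa [show mono w * (mono v - 1) + (mono w - 1) = mono (v + w) - 1 by
      rw [mono_add]; ring] at this
  neg_mem' := by
    intro v hv
    have := J.neg_mem (J.mul_mem_left (mono (-v)) hv)
    rwa [mul_sub, ← mono_add, neg_add_cancel, mono_zero, mul_one, neg_sub] at this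

lemma mono_mem_Kos {n : ℕ} (v : Lat d) : mono (v - pi_Kos d n v) - 1 ∈ J_Kos d n := by
  change v - pi_Kos d n v ∈ sub_Kos (J_Kos d n)
  rw [← Finset.univ_sum_single (v - pi_Kos d n v)]
  refine AddSubgroup.sum_mem _ fun l _ => ?_
  by_cases h : l.val < n
  · rw [show (Pi.single l ((v - pi_Kos d n v) l) : Lat d) =
      (v - pi_Kos d n v) l • Pi.single l 1 by simp [← Pi.single_smul]]
    exact AddSubgroup.zsmul_mem _ (tt_mem_Kos h) _
  · have : (v - pi_Kos d n v) l = 0 := by simp [pi_Kos, h]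
    rw [this, Pi.single_zero]
    exact AddSubgroup.zero_mem _

lemma sub_mu_Kos {n : ℕ} (P : Rg d) : P - mu (pi_Kos d n) P ∈ J_Kos d n := by
  induction P using AddMonoidAlgebra.induction_linear with
  | zero => simp
  | add f g hf hg =>
    have := (J_Kos d n).add_mem hf hg
    rwa [show f - mu (pi_Kos d n) f + (g - mu (pi_Kos d n) g) =
      f + g - mu (pi_Kos d n) (f + g) by rw [map_add]; ring] at this
  | single v m =>
    have := (J_Kos d n).mul_mem_left ((m : Rg d) * mono (pi_Kos d n v)) (mono_mem_Kos (n := n) v)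
    rw [mul_assoc, mul_sub, ← mono_add, add_sub_cancel, mul_one, mul_sub, ← zsmul_eq_mul,
      ← zsmul_eq_mul] at this
    simpa [mono] using this

lemma mu_tt_lt_Kos {n : ℕ} {l : Fin d} (hl : l.val < n) : mu (pi_Kos d n) (tt l) = 0 := by
  have : pi_Kos d n (Pi.single l 1) = 0 := by
    ext k
    by_cases h : k.val < n
    · simp [pi_Kos, h]
    · have hk : k ≠ l := by rintro rfl; exact h hl
      simp [pi_Kos, Pi.single_eq_of_ne hk]
  simp [tt, this]

lemma mu_tt_self_Kos (i : Fin d) : mu (pi_Kos d i.val) (tt i) = tt i := by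
  have : pi_Kos d i.val (Pi.single i 1) = Pi.single i 1 := by
    ext k
    by_cases h : k.val < i.val
    · have hk : k ≠ i := by rintro rfl; omega
      simp [pi_Kos, Pi.single_eq_of_ne hk]
    · exact if_neg h
  simp [tt, this]

lemma mu_eq_zero_Kos {n : ℕ} {x : Rg d} (hx : x ∈ J_Kos d n) : mu (pi_Kos d n) x = 0 := by
  obtain ⟨b, hb, rfl⟩ := hx
  rw [map_sum]
  refine Finset.sum_eq_zero fun l _ => ?_
  by_cases h : l.val < n
  · rw [map_mul, mu_tt_lt_Kos h, zero_mul]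
  · rw [hb l (not_lt.1 h), mul_zero, map_zero]

lemma tt_ne_zero_Kos (i : Fin d) : tt i ≠ 0 := by
  intro h
  have h1 : (mono (Pi.single i 1) : Rg d) = mono 0 := by
    rw [mono_zero]; exact sub_eq_zero.1 h
  have h2 : (Pi.single i 1 : Lat d) = 0 :=
    AddMonoidAlgebra.single_left_injective one_ne_zero h1
  simpa using congrFun h2 i

lemma regular_Kos (i : Fin d) {x : Rg d} (h : tt i * x ∈ J_Kos d i.val) : x ∈ J_Kos d i.val := by
  have h1 := mu_eq_zero_Kos h
  rw [map_mul, mu_tt_self_Kos, mul_eq_zero] at h1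
  have h2 := sub_mu_Kos (n := i.val) x
  rwa [h1.resolve_left (tt_ne_zero_Kos i), sub_zero] at h2

lemma main_Kos (n : ℕ) : ∀ a : Fin d → Rg d, (∀ l, n ≤ l.val → a l = 0) → ∑ i, tt i * a i = 0 →
    ∃ w : Fin d → Fin d → Rg d, ∀ i, a i = ∑ j, tt j * (w i j - w j i) := by
  induction n with
  | zero => exact fun a ha _ => ⟨0, fun i => by simp [ha i (Nat.zero_le _)]⟩
  | succ n ih =>
    intro a ha h0
    by_cases hn : n < d
    swap
    · exact ih a (fun l hl => absurd l.2 (by omega)) h0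
    set i : Fin d := ⟨n, hn⟩ with hi
    have h1 : tt i * a i ∈ J_Kos d i.val := by
      refine ⟨fun l => (if l = i then a i else 0) - a l, fun l hl => ?_, ?_⟩
      · by_cases h : l = i
        · simp [h]
        · have : l.val ≠ n := fun h' => h (Fin.ext h')
          have hl' : n ≤ l.val := hl
          simp [h, ha l (by omega)]
      · simp [mul_sub, Finset.sum_sub_distrib, h0]
    obtain ⟨b, hb, hab⟩ := regular_Kos i h1
    obtain ⟨w, hw⟩ := ih (fun l => a l - (if l = i then a i else 0) + tt i * b l)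
      (fun l hl => by
        by_cases h : l = i
        · simp [h, hb i le_rfl]
        · have : l.val ≠ n := fun h' => h (Fin.ext h')
          simp [h, ha l (by omega), hb l hl])
      (by
        have : ∑ l, tt l * (tt i * b l) = tt i * a i := by
          rw [hab, Finset.mul_sum]
          exact Finset.sum_congr rfl fun l _ => by ring
        simp [mul_add, mul_sub, Finset.sum_add_distrib, Finset.sum_sub_distrib, h0, this])
    refine ⟨fun p q => w p q + if p = i then b q else 0, fun l => ?_⟩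
    have h2 : ∑ j, tt j * ((if l = i then b j else 0) - if j = i then b l else 0) =
        (if l = i then a i else 0) - tt i * b l := by
      simp only [mul_sub, Finset.sum_sub_distrib]
      congr 1
      · by_cases h : l = i
        · simp [h, ← hab]
        · simp [h]
      · simp
    have h3 : ∀ j, tt j * ((w l j + if l = i then b j else 0) - (w j l + if j = i then b l else 0)) =
        tt j * (w l j - w j l) +
          tt j * ((if l = i then b j else 0) - if j = i then b l else 0) := fun j => by ring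
    simp only [h3, Finset.sum_add_distrib, h2, ← hw l]
    ring

theorem kos_stmt : KosStmt := fun d a h => main_Kos d a (fun l hl => absurd l.2 (by omega)) h

end Pool.Agent.MP_4168de_an.G

end

section

/-! No torsion modulo powers of the augmentation ideal. -/

namespace Pool.Agent.MP_4168de_an.G

open Set MvPolynomial

/-- The truncated polynomial ring. -/
abbrev Tr_Tors (d j : ℕ) := MvPolynomial (Fin d) ℤ ⧸ idealOfVars (Fin d) ℤ ^ j

lemma nil_Tors (d j : ℕ) (i : Fin d) :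
    IsNilpotent (Ideal.Quotient.mk (idealOfVars (Fin d) ℤ ^ j) (X i)) :=
  ⟨j, by
    rw [← map_pow, Ideal.Quotient.eq_zero_iff_mem]
    exact Ideal.pow_mem_pow (Ideal.subset_span (mem_range_self i)) j⟩

/-- The unit `1 + X i` of the truncated ring. -/
noncomputable def un_Tors (d j : ℕ) (i : Fin d) : (Tr_Tors d j)ˣ :=
  (nil_Tors d j i).isUnit_one_add.unit

/-- The character of the lattice. -/
noncomputable def ch_Tors (d j : ℕ) : Multiplicative (Lat d) →* (Tr_Tors d j)ˣ where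
  toFun v := ∏ i, un_Tors d j i ^ (v.toAdd i)
  map_one' := by simp
  map_mul' v w := by simp [zpow_add, Finset.prod_mul_distrib]

/-- The map from the group ring to the truncated ring. -/
noncomputable def psi_Tors (d j : ℕ) : Rg d →+* Tr_Tors d j :=
  (AddMonoidAlgebra.lift ℤ (Tr_Tors d j) (Lat d)
    ((Units.coeHom _).comp (ch_Tors d j))).toRingHom

lemma psi_mono_Tors (d j : ℕ) (v : Lat d) :
    psi_Tors d j (mono v) = ((∏ i, un_Tors d j i ^ (v i) : (Tr_Tors d j)ˣ) : Tr_Tors d j) := by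
  simp [psi_Tors, mono, ch_Tors]

lemma psi_tt_Tors (d j : ℕ) (i : Fin d) :
    psi_Tors d j (tt i) = Ideal.Quotient.mk _ (X i) := by
  rw [tt, map_sub, psi_mono_Tors, map_one, Finset.prod_eq_single i]
  · simp [un_Tors]
  · intro l _ hl
    simp [Pi.single_eq_of_ne hl]
  · simp

/-- The map back to the quotient of the group ring. -/
noncomputable def phi_Tors (d j : ℕ) : Tr_Tors d j →+* Rg d ⧸ II d ^ j :=
  Ideal.quotientMap (II d ^ j) (aeval (R := ℤ) (tt : Fin d → Rg d)).toRingHom (by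
    rw [← Ideal.map_le_iff_le_comap, Ideal.map_pow]
    refine Ideal.pow_right_mono ?_ j
    rw [idealOfVars, Ideal.map_span, Ideal.span_le]
    rintro _ ⟨_, ⟨i, rfl⟩, rfl⟩
    simpa using tt_mem i)

lemma phi_psi_Tors (d j : ℕ) (P : Rg d) :
    phi_Tors d j (psi_Tors d j P) = Ideal.Quotient.mk _ P := by
  have h0 : ∀ i : Fin d, phi_Tors d j (psi_Tors d j (mono (Pi.single i 1))) =
      Ideal.Quotient.mk _ (mono (Pi.single i 1)) := fun i => by
    have : (mono (Pi.single i 1) : Rg d) = tt i + 1 := by simp [tt]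
    rw [this, map_add, map_add, map_add, psi_tt_Tors, map_one, map_one, map_one]
    simp [phi_Tors, Ideal.quotientMap_mk]
  have h1 : ∀ v : Lat d, phi_Tors d j (psi_Tors d j (mono v)) = Ideal.Quotient.mk _ (mono v) :=
    fun v => by
    have h2 : v ∈ AddSubgroup.closure (range fun i : Fin d => (Pi.single i 1 : Lat d)) :=
      closure_single ▸ AddSubgroup.mem_top v
    induction h2 using AddSubgroup.closure_induction with
    | mem v hv =>
      obtain ⟨i, rfl⟩ := hv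
      exact h0 i
    | zero => simp
    | add v w _ _ hv hw => rw [mono_add, map_mul, map_mul, map_mul, hv, hw]
    | neg v _ hv =>
      have e1 : mono (-v) * mono v = (1 : Rg d) := by rw [← mono_add, neg_add_cancel, mono_zero]
      have e2 : phi_Tors d j (psi_Tors d j (mono (-v))) * Ideal.Quotient.mk _ (mono v) = 1 := by
        rw [← hv, ← map_mul, ← map_mul, e1, map_one, map_one]
      have e3 : Ideal.Quotient.mk (II d ^ j) (mono v) * Ideal.Quotient.mk _ (mono (-v)) = 1 := by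
        rw [← map_mul, mul_comm, e1, map_one]
      calc _ = phi_Tors d j (psi_Tors d j (mono (-v))) * (Ideal.Quotient.mk (II d ^ j) (mono v) *
            Ideal.Quotient.mk _ (mono (-v))) := by rw [e3, mul_one]
        _ = _ := by rw [← mul_assoc, e2, one_mul]
  induction P using AddMonoidAlgebra.induction_linear with
  | zero => simp
  | add f g hf hg => simp only [map_add, hf, hg]
  | single v n =>
    have : (AddMonoidAlgebra.single v n : Rg d) = n • mono v := by simp [mono]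
    rw [this, map_zsmul, map_zsmul, map_zsmul, h1]

lemma psi_zero_Tors (d j : ℕ) {P : Rg d} (h : P ∈ II d ^ j) : psi_Tors d j P = 0 := by
  have h1 : (II d).map (psi_Tors d j) ≤ (idealOfVars (Fin d) ℤ).map (Ideal.Quotient.mk _) := by
    rw [II_eq, Ideal.map_span, Ideal.span_le]
    rintro _ ⟨_, ⟨i, rfl⟩, rfl⟩
    rw [psi_tt_Tors]
    exact Ideal.mem_map_of_mem _ (Ideal.subset_span (mem_range_self i))
  have h2 := Ideal.mem_map_of_mem (psi_Tors d j) h
  rw [Ideal.map_pow] at h2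
  have h3 := Ideal.pow_right_mono h1 j h2
  rw [← Ideal.map_pow, Ideal.map_quotient_self] at h3
  simpa using h3

theorem tors_stmt : TorsStmt := by
  intro d j n P hn h
  have h1 := psi_zero_Tors d j h
  rw [map_zsmul] at h1
  obtain ⟨f, hf⟩ := Ideal.Quotient.mk_surjective (psi_Tors d j P)
  rw [← hf, ← map_zsmul, Ideal.Quotient.eq_zero_iff_mem, mem_pow_idealOfVars_iff'] at h1
  have h2 : f ∈ idealOfVars (Fin d) ℤ ^ j := by
    rw [mem_pow_idealOfVars_iff']
    intro x hx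
    have := h1 x hx
    rw [coeff_smul, smul_eq_mul] at this
    exact (mul_eq_zero.1 this).resolve_left hn
  rw [← Ideal.Quotient.eq_zero_iff_mem, hf] at h2
  rw [← Ideal.Quotient.eq_zero_iff_mem, ← phi_psi_Tors, h2, map_zero]

end Pool.Agent.MP_4168de_an.G

end

section

/-! Koszul cycles fill the cycles of augmentation zero. -/

namespace Pool.Agent.MP_4168de_an.G

open Set

theorem cyc_stmt (hK : KosStmt) : CycStmt := by
  intro A _ d bd S N v c ⟨h1, h2⟩ h3 h5 h6 z hz hz'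
  classical
  obtain ⟨r, h4⟩ : ∃ r, ∑ p, aug (v p) = r := ⟨_, rfl⟩
  rw [tot, h4]
  choose g' hg' using fun a => exists_of_mem_II (mem_II.2 (hz' a))
  obtain ⟨g, hg⟩ : ∃ g : Fin d → A → Rg d, z = ∑ i, tt i • g i :=
    ⟨fun i a => g' a i, funext fun a => by simpa [mul_comm] using (hg' a).symm⟩
  choose w' hw' using fun p => hK d (fun i => bd (g i) p) (by
    have := congrFun hz p
    simpa [hg] using this)
  obtain ⟨w, hw, hw0⟩ : ∃ w : Fin d → Fin d → A → Rg d,
      (∀ i, bd (g i) = ∑ j, tt j • (w i j - w j i)) ∧ ∀ i j, ∀ p ∉ S, w i j p = 0 :=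
    ⟨fun i j p => if p ∈ S then w' p i j else 0, fun i => funext fun p => by
      by_cases hp : p ∈ S
      · simpa [hp] using hw' p i
      · simp [hp, h1 _ p hp], fun i j p hp => if_neg hp⟩
  obtain ⟨ε, hε⟩ : ∃ ε : Fin d → Fin d → ℤ, ∀ i j, ε i j = ∑ p, aug (w i j p) := ⟨_, fun _ _ => rfl⟩
  choose m hm using fun i j => h2 (r • w i j - ε i j • v)
    (fun p hp => by simp [hw0 i j p hp, h3 p hp])
    (by simp [tot, Finset.sum_sub_distrib, ← Finset.mul_sum, h4, ← hε]; ring)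
  have anti : ∀ f : Fin d → Fin d → A → Rg d, ∑ i, ∑ j, (f i j - f j i) = 0 := fun f => by
    simp only [Finset.sum_sub_distrib]
    rw [Finset.sum_comm, sub_self]
  refine Submodule.mem_sup.2 ⟨-∑ i, ∑ j, ε i j • (tt i • c j - tt j • c i),
    neg_mem (sum_mem fun i _ => sum_mem fun j _ => zsmul_mem (h6 i j) _),
    ∑ i, tt i • (r • g i + ∑ j, ((ε i j - ε j i) • c j - tt j • (m i j - m j i))),
    sum_mem fun i _ => Submodule.smul_mem_smul (tt_mem i) ?_, ?_⟩
  · simp only [LinearMap.mem_ker, map_add, map_sum, map_sub, map_zsmul, map_smul, hw, hm, h5,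
      Finset.smul_sum, ← Finset.sum_add_distrib]
    exact Finset.sum_eq_zero fun j _ => by module
  · have a1 := anti fun i j => ε j i • tt i • c j - tt i • tt j • m j i
    simp only [hg, smul_add, Finset.smul_sum, Finset.sum_add_distrib, smul_comm r]
    rw [neg_add_eq_sub, add_sub_assoc, add_eq_left, ← neg_zero, ← a1]
    simp only [← Finset.sum_sub_distrib, ← Finset.sum_neg_distrib]
    exact Finset.sum_congr rfl fun i _ => Finset.sum_congr rfl fun j _ => by module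

end Pool.Agent.MP_4168de_an.G

end

section

/-! The class of a stack does not vanish. -/

namespace Pool.Agent.MP_4168de_an.G

open Set Filter Topology Shift Matrix

variable {A : Type} [Fintype A] [DecidableEq A] [TopologicalSpace A] {D : Shift A} {ℓ : A → ℝ}
  {c : ℝ} {σ : DSub D ℓ c} {d e : ℕ}

lemma iter_smul_Fin (C : Cover σ d e) (k : ℕ) (P : Rg d) (z : A → Rg d) :
    C.E^[k] (P • z) = (mu C.Bz)^[k] P • C.E^[k] z := by
  induction k with
  | zero => rfl
  | succ k ih => simp only [Function.iterate_succ_apply', ih, C.E_smul]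

lemma iter_mu_Fin (B : Lat d →+ Lat d) (k : ℕ) (v : Lat d) :
    (mu B)^[k] (mono v - 1) = mono (B^[k] v) - 1 := by
  induction k with
  | zero => rfl
  | succ k ih => simp only [Function.iterate_succ_apply', ih, map_sub, mu_mono, map_one]

lemma lower_Fin (C : Cover σ d e) (y : D.X × Lat d) {m n : ℤ} (h : m ≤ n) {z : A → Rg d}
    (hz : ∀ i, m ≤ i → i < n → co (Cover.lab (C.s i y)) z ≠ 0) :
    C.p (C.s n y) - C.p (C.s m y) ≤ len ℓ z := by
  refine le_trans ?_ (sum_le_len_One C.ℓ_pos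
    ((Finset.Ico m n).image fun j => Cover.lab (C.s j y)) z)
  rw [Finset.sum_image fun i _ j _ hij => C.lab_s_inj y hij, C.p_s, C.p_s, add_sub_add_left_eq_sub,
    pos, pos, ← sum_Ico_eq_isum _ h]
  refine Finset.sum_le_sum fun j hj => ?_
  have h1 : (1 : ℝ) ≤ |((co (Cover.lab (C.s j y)) z : ℤ) : ℝ)| := by
    exact_mod_cast Int.one_le_abs (hz j (Finset.mem_Ico.1 hj).1 (Finset.mem_Ico.1 hj).2)
  have h2 : (Cover.lab (C.s j y)).1 = y.1.1 j := C.s_letter j y
  rw [h2]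
  exact le_mul_of_one_le_left (C.ℓ_pos _).le h1

theorem fin_stmt : FinStmt := by
  intro A _ _ _ _ D ℓ c σ d e C r β u k w hu hr hall
  obtain ⟨-, -, -, -, -, n1, -, n3, -⟩ := null_stmt A D ℓ c σ d e C
  have hc : ∀ k : ℕ, 0 < c ^ k := fun k => pow_pos (by linarith [C.one_lt]) k
  obtain ⟨t₀, t₁, hw⟩ := loc_Null C w
  obtain ⟨T₀, hT₀⟩ := (finite_range fun i => C.p (u i)).bddBelow
  obtain ⟨T₁, hT₁⟩ := (finite_range fun i => C.p (u i)).bddAbove
  let i₀ : Fin r := ⟨0, by omega⟩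
  obtain ⟨n₀, hn₀⟩ := (C.p_s_atTop (u i₀) (max T₁ (t₁ / c ^ k))).exists
  obtain ⟨L, hL⟩ := rec_Box C 1 one_pos
  obtain ⟨v, hv, -⟩ := hL (C.p (C.s (n₀ + 1) (u i₀)) - min T₀ (t₀ / c ^ k) + L) 0
  have hτ : C.p (C.s (n₀ + 1) (u i₀)) ≤ min T₀ (t₀ / c ^ k) + C.a v := by
    linarith [(abs_le.1 hv).1]
  obtain ⟨z, g, ⟨-, hg⟩, hn'⟩ := hall v
  obtain ⟨m, ⟨⟨n, hn, hl⟩, hm0⟩, hm⟩ := (((hg (C.p (C.s (n₀ + 1) (u i₀)))).and
    (eventually_ge_atTop 0)).and (eventually_all.2 fun i =>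
      C.p_s_atTop (u i) (C.p (C.s (n₀ + 1) (u i₀))))).exists
  have hnk : C.Null (C.E^[k] n) := Function.Iterate.rec C.Null hn n3 k
  have hnull := n1 _ _ hn' hnk
  let F : ℕ → (A → Rg d) →+ (A → Rg d) := fun k =>
    AddMonoidHom.mk' C.E^[k] (iterate_map_add C.E k)
  have hF : ∀ k z, C.E^[k] z = F k z := fun _ _ => rfl
  have key : ∀ j : ℕ, c ^ k * ℓ ((u i₀).1.1 n₀) ≤ len ℓ (C.E^[j]
      (C.E^[k] z - (mu C.Bz)^[k] (mono v - 1) • w - (r : ℤ) • g + C.E^[k] n)) / c ^ j := fun j => by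
    have hs := C.p_s_strictMono (C.S^[j + k] (u i₀))
    have a1 := C.p_ix (j + k) n₀ (u i₀)
    have a2 := C.p_ix (j + k) (n₀ + 1) (u i₀)
    rw [le_div_iff₀ (hc j)]
    refine le_trans (le_of_eq ?_) (lower_Fin C (C.S^[j + k] (u i₀)) (m := C.ix (u i₀) n₀ (j + k))
      (n := C.ix (u i₀) (n₀ + 1) (j + k)) (hs.le_iff_le.1 (by
        simp only [a1, a2]
        exact mul_le_mul_of_nonneg_left ((C.p_s_strictMono _).monotone (by omega)) (hc _).le))
      fun i b1 b2 => ?_)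
    · rw [a1, a2, C.p_s_succ, pow_add]
      ring
    have b3 : c ^ (j + k) * C.p (C.s n₀ (u i₀)) ≤ C.tm (Cover.lab (C.s i (C.S^[j + k] (u i₀)))) :=
      a1 ▸ hs.monotone b1
    have b4 : C.tm (Cover.lab (C.s i (C.S^[j + k] (u i₀)))) <
        c ^ (j + k) * C.p (C.s (n₀ + 1) (u i₀)) := a2 ▸ hs b2
    have b5 : C.On (C.S^[j + k] (u i₀)) (Cover.lab (C.s i (C.S^[j + k] (u i₀)))) := ⟨i, rfl⟩
    generalize Cover.lab (C.s i (C.S^[j + k] (u i₀))) = t at b3 b4 b5
    have z0 : ∀ {τ : ℝ} {y : A → Rg d}, C.Late τ y →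
        c ^ (j + k) * C.p (C.s (n₀ + 1) (u i₀)) ≤ τ → co t y = 0 := fun h1 h2 => by
      by_contra h3
      linarith [h1 t h3]
    have hτ' := mul_le_mul_of_nonneg_left hτ (hc (j + k)).le
    have c1 := z0 (hl.iter (j + k)) le_rfl
    have c2 : co t (mono (C.Bz^[j + k] v) • C.E^[j + k] (∑ i, C.ch (u i) m)) = 0 := by
      refine z0 (((Cover.late_sum (τ := T₀) fun i _ => ?_).iter (j + k)).mono_smul _) ?_
      · have := (Cover.late_ch (C := C) (u i) hm0).le (τ' := T₀) (by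
          rw [C.s_zero]; exact hT₀ ⟨i, rfl⟩)
        rwa [C.ch_zero, sub_zero] at this
      · rw [a_iter_Null]
        nlinarith [min_le_left T₀ (t₀ / c ^ k), hc (j + k)]
    have c3 : co t (mono (C.Bz^[j + k] v) • C.E^[j] w) = 0 := by
      refine z0 (Cover.Late.mono_smul (τ := c ^ j * t₀) (fun t h => (hw j t h).1) _) ?_
      have h1 : c ^ j * t₀ = c ^ (j + k) * (t₀ / c ^ k) := by
        rw [pow_add]
        field_simp [(hc k).ne']
      rw [a_iter_Null, h1]
      nlinarith [min_le_right T₀ (t₀ / c ^ k), hc (j + k)]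
    have c4 : co t (C.E^[j] w) = 0 := by
      by_contra h
      have h1 : c ^ j * t₁ = c ^ (j + k) * (t₁ / c ^ k) := by
        rw [pow_add]
        field_simp [(hc k).ne']
      have h2 := mul_le_mul_of_nonneg_left ((le_max_right _ _).trans hn₀) (hc (j + k)).le
      linarith [(hw j t h).2]
    have c5 : co t (C.E^[j + k] (∑ i, C.ch (u i) m)) = 1 := by
      rw [hF, map_sum, map_sum, Finset.sum_eq_single i₀ (fun i _ hi => ?_) (by simp)]
      · have h1 := C.co_piece (j + k) (u i₀) hm0 t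
        rw [C.ch_zero, sub_zero, C.s_zero] at h1
        refine h1.trans (if_pos ⟨b5, le_trans (mul_le_mul_of_nonneg_left ?_ (hc _).le) b3,
          b4.trans_le (mul_le_mul_of_nonneg_left (hm i₀) (hc _).le)⟩)
        exact (hT₁ ⟨i₀, rfl⟩).trans ((le_max_left _ _).trans hn₀)
      · have h1 := C.co_piece (j + k) (u i) hm0 t
        rw [C.ch_zero, sub_zero] at h1
        exact h1.trans (if_neg fun h => hu.2 i i₀ hi _ t h.1 b5)
    rw [iterate_map_sub, iterate_map_sub, iter_smul_Fin, iter_mu_Fin, sub_smul, one_smul, map_sub,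
      map_sub, map_sub, c2, c5] at c1
    rw [iterate_map_add, iterate_map_sub, iterate_map_sub, iter_smul_Fin,
      ← Function.iterate_add_apply, ← Function.iterate_add_apply, ← Function.iterate_add_apply,
      iter_mu_Fin, sub_smul, one_smul, iterate_map_zsmul, map_add, map_sub, map_sub, map_sub, c3,
      c4, map_zsmul, smul_eq_mul]
    intro h
    have h1 : (r : ℤ) * -co t (C.E^[j] g) = 1 := by linarith
    have h2 := Int.eq_one_of_mul_eq_one_right (by omega) h1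
    omega
  have h1 := ge_of_tendsto' hnull key
  have h2 := mul_pos (hc k) (C.ℓ_pos ((u i₀).1.1 n₀))
  linarith

end Pool.Agent.MP_4168de_an.G

end

section

/-! The limit set of a fixed point of a primitive substitution. -/

namespace Pool.Agent.MP_4168de_an.G

open Set Filter Topology Shift Matrix

variable {A : Type} [TopologicalSpace A] {ℓ : A → ℝ} {c : ℝ}

/-- The limit set of the orbit. -/
def lim_Limit (x₀ : ℤ → A) : Set (ℤ → A) := {y | MapClusterPt y cofinite fun n => sh n x₀}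

lemma map_Limit {x₀ : ℤ → A} {F : (ℤ → A) → ℤ → A} (hF : Continuous F) {f : ℤ → ℤ}
    (hf : Function.Injective f) (h : ∀ n, F (sh n x₀) = sh (f n) x₀) :
    ∀ y ∈ lim_Limit x₀, F y ∈ lim_Limit x₀ := by
  intro y hy
  have h1 := MapClusterPt.continuousAt_comp (f := F) hF.continuousAt hy
  have h2 : (F ∘ fun n => sh n x₀) = (fun n => sh n x₀) ∘ f := funext h
  rw [h2] at h1
  exact h1.of_comp hf.tendsto_cofinite

lemma inv_Limit (x₀ : ℤ → A) (k : ℤ) : ∀ y ∈ lim_Limit x₀, sh k y ∈ lim_Limit x₀ :=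
  map_Limit (continuous_sh k) (f := fun n => n + k) (add_left_injective k) fun _ => sh_sh _ _ _

lemma sub_Limit (x₀ : ℤ → A) : lim_Limit x₀ ⊆ orb x₀ := fun y hy => by
  rw [orb, mem_closure_iff_clusterPt]
  exact ClusterPt.mono hy (le_principal_iff.2 range_mem_map)

lemma or_Limit [T1Space A] (x₀ : ℤ → A) : ∀ x ∈ orb x₀, x ∈ lim_Limit x₀ ∨ ∃ n, x = sh n x₀ := by
  intro x hx
  by_contra h
  push Not at h
  obtain ⟨h1, h2⟩ := h
  simp only [lim_Limit, mem_ofPred_eq, mapClusterPt_iff_frequently, not_forall, not_frequently,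
    eventually_cofinite, not_not] at h1
  obtain ⟨s, hs, hf⟩ := h1
  have h3 := (hf.image fun n => sh n x₀).isClosed.isOpen_compl.mem_nhds (x := x)
    (by rintro ⟨n, -, e⟩; exact h2 n e.symm)
  obtain ⟨_, ⟨a, b⟩, n, rfl⟩ := mem_closure_iff_nhds.1 hx _ (inter_mem hs h3)
  exact b ⟨n, a, rfl⟩

variable [DiscreteTopology A]

lemma win_Limit {x₀ y : ℤ → A} (hy : y ∈ lim_Limit x₀) (R K : ℕ) :
    ∃ n : ℤ, (K : ℤ) < |n| ∧ ∀ i : ℤ, |i| ≤ R → x₀ (i + n) = y i := by
  have h1 := mapClusterPt_iff_frequently.1 hy _ (win_nhds y R)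
  have h2 : ∀ᶠ n : ℤ in cofinite, (K : ℤ) < |n| := by
    rw [eventually_cofinite]
    refine (finite_Icc (-(K : ℤ)) K).subset fun n hn => ?_
    exact abs_le.1 (not_lt.1 hn)
  obtain ⟨n, a, b⟩ := (h1.and_eventually h2).exists
  exact ⟨n, b, a⟩

lemma surj_Limit [Finite A] (σ : RSub ℓ c) {x₀ : ℤ → A} {m : ℤ} (h : σ.S x₀ = sh m x₀) :
    ∀ x ∈ lim_Limit x₀, ∃ y ∈ lim_Limit x₀, ∃ n, x = sh n (σ.S y) := by
  intro x hx
  obtain ⟨ρ, hρ⟩ := (finite_range fun a : A => σ.r fun _ => a).bddAbove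
  have hr : ∀ z, σ.r z ≤ ρ := fun z => by
    rw [σ.r_loc z (fun _ => z 0) rfl]
    exact hρ ⟨_, rfl⟩
  choose g g1 g2 using fun j : ℤ =>
    exists_idx_int (fun n => σ.cc_strictMono x₀ (lt_add_one n)) (j - m)
  obtain ⟨U, hU, hl⟩ := mapClusterPt_iff_ultrafilter.1 hx
  have hq : ∀ j, j - m - σ.cc x₀ (g j) ∈ Icc 0 ρ := fun j => by
    have a1 := g1 j
    have a2 := g2 j
    have a3 := hr (sh (g j) x₀)
    rw [σ.cc_succ] at a2
    exact ⟨by omega, by omega⟩
  obtain ⟨q, -, hq'⟩ := (U.map fun j => j - m - σ.cc x₀ (g j)).eq_pure_of_finite_mem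
    (finite_Icc 0 ρ) (Ultrafilter.mem_map.2 (univ_mem' hq))
  have hq2 : ∀ᶠ j in (U : Filter ℤ), j - m - σ.cc x₀ (g j) = q := by
    have : {q} ∈ U.map fun j => j - m - σ.cc x₀ (g j) := by rw [hq']; rfl
    exact Ultrafilter.mem_map.1 this
  have hg : Tendsto g cofinite cofinite := Tendsto.cofinite_of_finite_preimage_singleton fun b => by
    refine (finite_Icc (σ.cc x₀ b + m) (σ.cc x₀ (b + 1) + m)).subset fun j hj => ?_
    have a1 := g1 j
    have a2 := g2 j
    rw [show g j = b from hj] at a1 a2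
    exact ⟨by omega, by omega⟩
  obtain ⟨y, -, hy⟩ := isCompact_univ.ultrafilter_le_nhds (U.map fun j => sh (g j) x₀) (by simp)
  have hy' : Tendsto (fun j => sh (g j) x₀) U (𝓝 y) := hy
  refine ⟨y, ?_, q, ?_⟩
  · exact MapClusterPt.of_comp (φ := g) (hg.mono_left hU) hy'.mapClusterPt
  · have h1 := (((continuous_sh q).comp σ.continuous_S).tendsto y).comp hy'
    refine tendsto_nhds_unique hl (h1.congr' (hq2.mono fun j hj => ?_))
    simp only [Function.comp_apply]
    rw [σ.S_sh, h, sh_sh, sh_sh]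
    congr 1
    omega

lemma surj_pow_Limit [Finite A] (σ : RSub ℓ c) {x₀ : ℤ → A} {m : ℤ} (h : σ.S x₀ = sh m x₀)
    (k : ℕ) : ∀ x ∈ lim_Limit x₀, ∃ y ∈ lim_Limit x₀, ∃ n, x = sh n ((σ.pow k).S y) := by
  rw [RSub.pow_S]
  induction k with
  | zero => exact fun x hx => ⟨x, hx, 0, by simp⟩
  | succ k ih =>
    intro x hx
    obtain ⟨y, hy, n, rfl⟩ := surj_Limit σ h x hx
    obtain ⟨z, hz, m, rfl⟩ := ih y hy
    refine ⟨z, hz, σ.cc (σ.S^[k] z) m + n, ?_⟩
    rw [σ.S_sh, sh_sh, Function.iterate_succ_apply']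

omit [TopologicalSpace A] [DiscreteTopology A] in
lemma fix_pow_Limit (σ : RSub ℓ c) {x₀ : ℤ → A} {m : ℤ} {t₀ : ℝ} (h : σ.S x₀ = sh m x₀)
    (ht : c * t₀ = t₀ - pos ℓ x₀ m) (j : ℕ) :
    ∃ m', (σ.pow j).S x₀ = sh m' x₀ ∧ c ^ j * t₀ = t₀ - pos ℓ x₀ m' := by
  rw [RSub.pow_S]
  induction j with
  | zero => exact ⟨0, by simp, by simp⟩
  | succ j ih =>
    obtain ⟨m', h1, h2⟩ := ih
    refine ⟨m + σ.cc x₀ m', ?_, ?_⟩
    · rw [Function.iterate_succ_apply', h1, σ.S_sh, h, sh_sh]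
    · rw [pos_add, ← h, σ.pos_S]
      linear_combination c * h2 + ht

omit [TopologicalSpace A] [DiscreteTopology A] in
lemma block_Limit (hℓ : ∀ a, 0 < ℓ a) (hc : 1 < c) (σ : RSub ℓ c) {x₀ : ℤ → A} {m : ℤ} {t₀ : ℝ}
    (h : σ.S x₀ = sh m x₀) (ht : c * t₀ = t₀ - pos ℓ x₀ m) {i₀ : ℤ} (h0 : pos ℓ x₀ i₀ ≤ t₀)
    (h1 : t₀ < pos ℓ x₀ (i₀ + 1)) {a b : ℤ} (hab : i₀ < a ∨ b < i₀) :
    ∃ j i m', (σ.pow j).S x₀ = sh m' x₀ ∧ m' + (σ.pow j).cc x₀ i ≤ a ∧
      b < m' + (σ.pow j).cc x₀ (i + 1) := by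
  have sm := pos_strictMono hℓ x₀
  have key : ∀ j m' i, (σ.pow j).S x₀ = sh m' x₀ → c ^ j * t₀ = t₀ - pos ℓ x₀ m' →
      pos ℓ x₀ (m' + (σ.pow j).cc x₀ i) - t₀ = c ^ j * (pos ℓ x₀ i - t₀) := by
    intro j m' i e1 e2
    rw [pos_add, ← e1, (σ.pow j).pos_S]
    linarith
  have big := tendsto_pow_atTop_atTop_of_one_lt hc
  rcases hab with hab | hab
  · obtain ⟨j, hj⟩ := ((big.atTop_mul_const (sub_pos.2 h1)).eventually_gt_atTop
      (pos ℓ x₀ b - t₀)).exists
    obtain ⟨m', e1, e2⟩ := fix_pow_Limit σ h ht j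
    refine ⟨j, i₀, m', e1, sm.le_iff_le.1 ?_, sm.lt_iff_lt.1 ?_⟩
    · have a1 := key j m' i₀ e1 e2
      have a2 : c ^ j * (pos ℓ x₀ i₀ - t₀) ≤ 0 :=
        mul_nonpos_of_nonneg_of_nonpos (by positivity) (by linarith)
      have a3 := sm.monotone (show i₀ + 1 ≤ a by omega)
      linarith
    · linarith [key j m' (i₀ + 1) e1 e2]
  · obtain ⟨i₁, b1, b2⟩ : ∃ i₁, pos ℓ x₀ i₁ < t₀ ∧ t₀ ≤ pos ℓ x₀ (i₁ + 1) := by
      rcases h0.eq_or_lt with e | e
      · refine ⟨i₀ - 1, ?_, by rw [sub_add_cancel, e]⟩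
        rw [← e]
        exact sm (by omega)
      · exact ⟨i₀, e, h1.le⟩
    obtain ⟨j, hj⟩ := ((big.atTop_mul_const (sub_pos.2 b1)).eventually_gt_atTop
      (t₀ - pos ℓ x₀ a)).exists
    obtain ⟨m', e1, e2⟩ := fix_pow_Limit σ h ht j
    refine ⟨j, i₁, m', e1, sm.le_iff_le.1 ?_, sm.lt_iff_lt.1 ?_⟩
    · linarith [key j m' i₁ e1 e2]
    · have a1 := key j m' (i₁ + 1) e1 e2
      have a2 : 0 ≤ c ^ j * (pos ℓ x₀ (i₁ + 1) - t₀) := mul_nonneg (by positivity) (by linarith)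
      have a3 := sm hab
      linarith

theorem limit_stmt (hM : MatStmt) : LimitStmt := by
  intro A _ _ _ _ ℓ c σ M x₀ t₀ m N hℓ hc hMat hpos h ht
  have hN := (hM A ℓ c).2.1 σ M N hMat
  have occ : ∀ x ∈ lim_Limit x₀, ∀ a, ∃ i, x i = a := by
    intro x hx a
    obtain ⟨y, -, n, rfl⟩ := surj_pow_Limit σ h N x hx
    by_contra hh
    push Not at hh
    have h1 := hN y a
    have h2 : (fun i => if (σ.pow N).S y i = a then (1 : ℤ) else 0) = fun _ => 0 := by
      funext i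
      have := hh (i - n)
      rw [sh_apply, sub_add_cancel] at this
      simp [this]
    rw [h2] at h1
    have h3 := hpos a (y 0)
    simp [isum] at h1
    omega
  have : Nonempty A := ⟨x₀ 0⟩
  obtain ⟨l₀, -, hl₀, hl, -⟩ := exists_len_bounds hℓ
  obtain ⟨i₀, h0, h1⟩ := exists_idx (p := pos ℓ x₀) hl₀
    (fun n => by rw [pos_succ]; linarith [hl (x₀ n)]) t₀
  have hne : (lim_Limit x₀).Nonempty :=
    exists_clusterPt_of_compactSpace (map (fun n => sh n x₀) cofinite)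
  have hmin : ∀ x ∈ lim_Limit x₀, ∀ y ∈ lim_Limit x₀, ∀ R : ℕ,
      ∃ n, ∀ i : ℤ, |i| ≤ R → x (i + n) = y i := by
    intro x hx y hy R
    obtain ⟨n, hn, hw⟩ := win_Limit hy R (R + i₀.natAbs)
    obtain ⟨j, i, m', e1, e2, e3⟩ := block_Limit hℓ hc σ h ht h0 h1 (a := n - R) (b := n + R)
      (by rcases abs_cases n with ⟨e, _⟩ | ⟨e, _⟩ <;> omega)
    obtain ⟨x', hx', q, rfl⟩ := surj_pow_Limit σ h j x hx
    obtain ⟨i', hi'⟩ := occ x' hx' (x₀ i)
    refine ⟨n - (m' + (σ.pow j).cc x₀ i) + (σ.pow j).cc x' i' - q, fun u hu => ?_⟩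
    rw [RSub.cc_succ] at e3
    have hu' := abs_le.1 hu
    have e4 := (σ.pow j).loc (sh i x₀) (sh i' x') (by simp [hi'])
      (u + n - (m' + (σ.pow j).cc x₀ i)) (by omega) (by omega)
    rw [RSub.S_sh, RSub.S_sh, e1, sh_sh, sh_apply, sh_apply, sub_add_cancel, hw u hu] at e4
    rw [e4, sh_apply]
    congr 1
    ring
  let D : Shift A := ⟨lim_Limit x₀, isClosed_setOfPred_clusterPt, inv_Limit x₀, hne, hmin⟩
  refine ⟨D, ⟨σ, map_Limit σ.continuous_S (f := fun n => m + σ.cc x₀ n)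
    ((add_right_injective m).comp (σ.cc_strictMono x₀).injective) fun n => ?_,
    surj_Limit σ h⟩, rfl, sub_Limit x₀, fun a => ?_, or_Limit x₀⟩
  · rw [σ.S_sh, h, sh_sh]
  · obtain ⟨x, hx⟩ := hne
    obtain ⟨i, hi⟩ := occ x hx a
    exact ⟨⟨sh i x, inv_Limit x₀ i x hx⟩, by simpa using hi⟩

end Pool.Agent.MP_4168de_an.G

end

section

/-! The matrix of a substitution and the vertices of the graph. -/

namespace Pool.Agent.MP_4168de_an.G

open Set Filter Topology Shift Matrix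

section

variable {A : Type} {ℓ : A → ℝ} {c : ℝ}

lemma isum_cc_Mat {G : Type} [AddCommGroup G] (σ : RSub ℓ c) (g : A → G) (y : ℤ → A) (n : ℤ) :
    isum (fun i => g (σ.S y i)) (σ.cc y n) =
      isum (fun i => isum (fun j => g (σ.S (sh i y) j)) (σ.r (sh i y))) n :=
  eq_isum (F := fun n => isum (fun i => g (σ.S y i)) (σ.cc y n)) (by simp)
    (fun n => by simp only [σ.cc_succ, isum_add_index, σ.S_sh, sh_apply, add_comm]) n

lemma count_img_Mat [DecidableEq A] {σ : A → List A} (hσ : ∀ a, σ a ≠ []) (x : ℤ → A) (b : A)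
    {j : ℕ} (h : j ≤ (σ (x 0)).length) :
    isum (fun i => if img σ x i = b then (1 : ℤ) else 0) j = ((σ (x 0)).take j).count b := by
  induction j with
  | zero => simp
  | succ j ih =>
    rw [Nat.cast_succ, isum_succ, ih (by omega), img_zero hσ x h,
      List.take_succ_eq_append_getElem h, List.count_append, List.count_singleton]
    simp

variable [Fintype A] [DecidableEq A]

lemma pow_Mat {σ : RSub ℓ c} {M : Matrix A A ℤ} (h : HasMat σ M) (k : ℕ) :
    HasMat (σ.pow k) (M ^ k) := by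
  induction k with
  | zero =>
    intro x b
    change isum (fun i => if x i = b then (1 : ℤ) else 0) 1 = _
    rw [isum_one, pow_zero, Matrix.one_apply]
    simp only [eq_comm]
  | succ k ih =>
    intro x b
    change isum (fun i => if σ.S ((σ.pow k).S x) i = b then (1 : ℤ) else 0)
      (σ.cc ((σ.pow k).S x) ((σ.pow k).r x)) = _
    rw [isum_cc_Mat σ (fun a => if a = b then (1 : ℤ) else 0)]
    simp only [h _ b, sh_apply, zero_add]
    rw [ih.isum_eq (fun a => M b a), pow_succ', Matrix.mul_apply]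
    simp only [smul_eq_mul, mul_comm]

lemma pos_pow_Mat [Nonempty A] {P : Matrix A A ℤ} (h : ∀ i j, 0 < P i j) (k : ℕ) (i j : A) :
    0 < (P ^ (k + 1)) i j := by
  induction k generalizing i j with
  | zero => simpa using h i j
  | succ k ih =>
    rw [pow_succ, Matrix.mul_apply]
    exact Finset.sum_pos (fun t _ => mul_pos (ih i t) (h t j)) Finset.univ_nonempty

omit [Fintype A] [DecidableEq A] in
lemma iter_Mat (τ : RSub ℓ c) {x₀ : ℤ → A} {m : ℤ} (h : τ.S x₀ = sh m x₀) (j : ℕ) :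
    ∃ m', τ.S^[j] x₀ = sh m' x₀ := by
  induction j with
  | zero => exact ⟨0, by simp⟩
  | succ j ih =>
    obtain ⟨m', hm⟩ := ih
    exact ⟨_, by rw [Function.iterate_succ_apply', hm, τ.S_sh, h, sh_sh]⟩

lemma occ_Mat {σ : RSub ℓ c} {M : Matrix A A ℤ} {k : ℕ} {x₀ : ℤ → A} {m : ℤ} (h : HasMat σ M)
    (hM : M.IsPrimitive) (hk : 0 < k) (hx : (σ.pow k).S x₀ = sh m x₀) (a : A) :
    ∃ n, x₀ n = a := by
  have : Nonempty A := ⟨a⟩
  obtain ⟨N, -, hN⟩ := hM.exists_pos_pow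
  obtain ⟨k, rfl⟩ := Nat.exists_eq_succ_of_ne_zero hk.ne'
  obtain ⟨m', hm⟩ := iter_Mat _ hx N
  rw [RSub.pow_S, ← Function.iterate_mul, ← RSub.pow_S] at hm
  have h1 := pow_Mat h (k.succ * N) x₀ a
  have h2 := pos_pow_Mat hN k a (x₀ 0)
  rw [← pow_mul, mul_comm, ← h1, hm] at h2
  by_contra h3
  push Not at h3
  simp [isum, h3] at h2

end

theorem mat_stmt : MatStmt ∧ VertStmt := by
  refine ⟨fun A _ _ ℓ c => ⟨fun σ hσ h M hM x b => ?_, fun σ M k h => pow_Mat h k,
    fun σ M k x₀ m h hM hk hx => occ_Mat h hM hk hx⟩, fun A _ D hD => ?_⟩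
  · have h1 := count_img_Mat hσ x b le_rfl
    rw [List.take_length, ← hM] at h1
    exact h1
  · let r : A ⊕ A → A ⊕ A → Prop := fun p q =>
      ∃ x : D.X, p = Sum.inr (x.1 0) ∧ q = Sum.inl (x.1 1)
    have h1 : ∀ q : Quot r, ∃ b, Quot.mk r (Sum.inl b) = q := by
      rintro ⟨b | a⟩
      · exact ⟨b, rfl⟩
      · obtain ⟨x, rfl⟩ := hD a
        exact ⟨x.1 1, (Quot.sound ⟨x, rfl, rfl⟩).symm⟩
    choose rep hrep using h1
    refine ⟨⟨fun a => rep (Quot.mk r (Sum.inl a)), fun a => rep (Quot.mk r (Sum.inr a)),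
      fun x => congrArg rep (Quot.sound ⟨x, rfl, rfl⟩), fun G h₀ h₁ h => ?_⟩⟩
    let H : Quot r → G := Quot.lift (Sum.elim h₀ h₁) (by
      rintro _ _ ⟨x, rfl, rfl⟩
      exact h x)
    exact ⟨h₀, fun a => congrArg H (hrep (Quot.mk r (Sum.inl a))),
      fun a => congrArg H (hrep (Quot.mk r (Sum.inr a)))⟩

end Pool.Agent.MP_4168de_an.G

end

section

/-! Existence of stacks. -/

namespace Pool.Agent.MP_4168de_an.G

open Set Filter Topology Shift Cover

section

variable {A : Type} [Fintype A] [DecidableEq A] [TopologicalSpace A] [DiscreteTopology A]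
  {D : Shift A} {ℓ : A → ℝ} {c : ℝ} {σ : DSub D ℓ c} {d e : ℕ} {C : Cover σ d e}

lemma enum_Stack (Q : C.Box) : ∃ u : Fin Q.m → D.X × Lat d, (∀ i, C.z (u i) = Q.β) ∧
    ∀ t ∈ C.Lab Q.α Q.β, ∃ i, lab (u i) = t := by
  have : Finite (C.Lab Q.α Q.β) := C.finite_Lab _ _
  let f : C.Lab Q.α Q.β ≃ Fin Q.m := Finite.equivFinOfCardEq (Nat.card_coe_set_eq _)
  choose u hu hl using fun i => (f.symm i).2
  exact ⟨u, fun i => (hu i).1, fun t ht => ⟨f ⟨t, ht⟩, by rw [hl, f.symm_apply_apply]⟩⟩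

omit [DiscreteTopology A] in
lemma sep_Stack (Q : C.Box) {u : Fin Q.m → D.X × Lat d}
    (hu : ∀ t ∈ C.Lab Q.α Q.β, ∃ i, lab (u i) = t) (k : ℕ) {α : ℝ} (hα : |α - Q.α| < Q.ρ)
    {i j : Fin Q.m} {t : A × Lat d} (h1 : C.tm t ≤ c ^ k * α) (h2 : c ^ k * α < C.tm t + ℓ t.1)
    (hi : C.On (C.S^[k] (u i)) t) (hj : C.On (C.S^[k] (u j)) t) : i = j := by
  have hc : 0 < c ^ k := pow_pos (by linarith [C.one_lt]) k
  choose n hn using fun i => C.exists_K (C.S^[k] (u i)) (c ^ k * α)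
  have un : ∀ i t, C.tm t ≤ c ^ k * α → c ^ k * α < C.tm t + ℓ t.1 → C.On (C.S^[k] (u i)) t →
      t = lab (C.s (n i) (C.S^[k] (u i))) := by
    rintro i t a1 a2 ⟨m, rfl⟩
    rw [C.K_unique (hn i) (n := m) ⟨C.z_s _ _, a1, a2⟩]
  have sub : C.Lab (c ^ k * α) (C.L.B'^[k] Q.β) ⊆
      (fun i => lab (C.s (n i) (C.S^[k] (u i)))) '' univ := by
    rintro _ ⟨y, ⟨a0, a1, a2⟩, rfl⟩
    obtain ⟨y₀, m₀, e₀⟩ := C.desub_iter k y
    obtain ⟨n₀, b⟩ := C.exists_K y₀ α
    have b0 : C.z y₀ = Q.β := C.L.B'.injective.iterate k (by rw [← a0, e₀, z_s, z_iter])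
    obtain ⟨i, hi⟩ := hu (lab (C.s n₀ y₀)) (by
      rw [← Q.const α Q.β hα (by simpa using Q.ρ_pos), ← b0]
      exact ⟨_, b, rfl⟩)
    have on : C.On (C.S^[k] (C.s n₀ y₀)) (lab y) := by
      rw [iter_s, on_s]
      exact ⟨m₀, by rw [e₀]⟩
    refine ⟨i, trivial, (un i _ a1 a2 (C.on_loc hi.symm on ?_ (a1.trans_lt
      (mul_lt_mul_of_pos_left b.2.2 hc)))).symm⟩
    obtain ⟨m, hm⟩ := on
    have mono := (C.p_s_strictMono (C.S^[k] (C.s n₀ y₀))).monotone
    have e1 : C.p (C.s m (C.S^[k] (C.s n₀ y₀))) = C.p y := congrArg C.tm hm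
    have e2 : (C.S^[k] (C.s n₀ y₀)).1.1 m = y.1.1 0 := by
      rw [← C.s_letter]
      exact congrArg Prod.fst hm
    by_cases h0 : 0 ≤ m
    · have := mono h0
      simp only [s_zero, p_iter, e1] at this
      exact this
    · have := mono (show m + 1 ≤ 0 by omega)
      simp only [s_zero, p_iter, p_s_succ, e1, e2] at this
      linarith [mul_le_mul_of_nonneg_left b.2.1 hc.le]
  have inj : InjOn (fun i => lab (C.s (n i) (C.S^[k] (u i)))) univ := by
    refine injOn_of_ncard_image_eq (le_antisymm (ncard_image_le finite_univ) ?_) finite_univ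
    rw [ncard_univ, Nat.card_fin]
    exact (Q.least _ _).trans (ncard_le_ncard sub (finite_univ.image _))
  exact inj trivial trivial ((un i t h1 h2 hi).symm.trans (un j t h1 h2 hj))

omit [DiscreteTopology A] in
lemma a_iter_Stack (j : ℕ) (v : Lat d) : C.a (C.Bz^[j] v) = c ^ j * C.a v := by
  induction j with
  | zero => simp
  | succ j ih => rw [Function.iterate_succ_apply', a_Bz, ih, pow_succ', mul_assoc]

lemma approx_Stack (hR : ∀ ρ : ℝ, 0 < ρ → ∃ L : ℝ, ∀ t β, ∃ v,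
    |C.a v - t| ≤ L ∧ ‖C.b v - β‖ < ρ) (Q : C.Box) (β : Fin e → ℝ) {l₁ : ℝ} (hl : ∀ a, ℓ a ≤ l₁)
    (N : ℕ) : ∃ y : Fin Q.m → D.X × Lat d,
      (∀ i, ‖C.z (y i) - β‖ < 1 / ((N : ℝ) + 1) ∧ |C.p (y i)| ≤ l₁) ∧
      ∀ j i i' t, |C.tm t| < c ^ j * N → C.On (C.S^[j] (y i)) t → C.On (C.S^[j] (y i')) t →
        i = i' := by
  obtain ⟨u, hz, hu⟩ := enum_Stack Q
  obtain ⟨L, hL⟩ := hR (1 / ((N : ℝ) + 1)) (by positivity)
  obtain ⟨k, hk⟩ := pow_unbounded_of_one_lt ((L + N) / Q.ρ) C.one_lt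
  rw [div_lt_iff₀ Q.ρ_pos] at hk
  obtain ⟨v, h1, h2⟩ := hL (-(c ^ k * Q.α)) (β - C.L.B'^[k] Q.β)
  choose n hn using fun i => C.exists_K (tr v (C.S^[k] (u i))) 0
  refine ⟨fun i => C.s (n i) (tr v (C.S^[k] (u i))), fun i => ⟨?_, ?_⟩,
    fun j i i' t ht hi hi' => ?_⟩
  · rw [z_s, z_tr, z_iter, hz]
    convert h2 using 2
    abel
  · rw [abs_of_nonpos (hn i).2.1]
    linarith [(hn i).2.2, hl ((C.s (n i) (tr v (C.S^[k] (u i)))).1.1 0)]
  · have hc : 0 < c := by linarith [C.one_lt]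
    have on : ∀ i, C.On (C.S^[j] (C.s (n i) (tr v (C.S^[k] (u i))))) t →
        C.On (C.S^[j + k] (u i)) (t.1, t.2 - C.Bz^[j] v) := fun i h => by
      rw [iter_s, on_s, iter_tr, ← Function.iterate_add_apply] at h
      refine (C.on_tr (v := C.Bz^[j] v)).1 ?_
      simpa only [sub_add_cancel] using h
    have e : C.tm (t.1, t.2 - C.Bz^[j] v) = C.tm t - c ^ j * C.a v := by
      simp only [tm, map_sub, a_iter_Stack]
      ring
    have e' : c ^ (j + k) * ((C.tm t - c ^ j * C.a v) / c ^ (j + k)) = C.tm t - c ^ j * C.a v :=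
      mul_div_cancel₀ _ (by positivity)
    refine sep_Stack Q hu (j + k) (α := (C.tm t - c ^ j * C.a v) / c ^ (j + k)) ?_
      (by rw [e, e']) (by rw [e, e']; linarith [C.ℓ_pos t.1]) (on i hi) (on i' hi')
    rw [div_sub' (by positivity), abs_div, abs_of_pos (by positivity : 0 < c ^ (j + k)),
      div_lt_iff₀ (by positivity),
      show C.tm t - c ^ j * C.a v - c ^ (j + k) * Q.α =
        C.tm t - c ^ j * (C.a v - -(c ^ k * Q.α)) by ring]
    refine (abs_sub _ _).trans_lt ?_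
    rw [abs_mul, abs_of_pos (pow_pos hc j), pow_add]
    nlinarith [mul_le_mul_of_nonneg_left h1 (pow_pos hc j).le,
      mul_lt_mul_of_pos_left hk (pow_pos hc j)]

end

theorem stack_stmt (hR : RecStmt) : StackStmt := by
  intro A _ _ _ _ D ℓ c σ d e C Q β
  obtain ⟨_, l₁, -, -, hl⟩ := C.len_bounds
  choose Y h1 h2 using approx_Stack (hR A D ℓ c σ d e C) Q β hl
  obtain ⟨V, hV, hb⟩ := C.K_box (|l₁| + (‖β‖ + 1))
  have hK : IsCompact (univ.pi fun _ : Fin Q.m => (univ : Set D.X) ×ˢ V) :=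
    isCompact_univ_pi fun _ => isCompact_univ.prod hV.isCompact
  obtain ⟨y, -, φ, hφ, hy⟩ := hK.tendsto_subseq (x := Y) fun N i _ => ⟨trivial, hb _ (by
    linarith [(h1 N i).2, le_abs_self l₁, norm_nonneg β]) (by
    have a1 : (1 : ℝ) / ((N : ℝ) + 1) ≤ 1 := by
      rw [div_le_one (by positivity)]
      linarith [N.cast_nonneg (α := ℝ)]
    linarith [(h1 N i).1, abs_nonneg l₁, norm_sub_norm_le (C.z (Y N i)) β])⟩
  refine ⟨y, fun i => ?_, fun i i' hne k t ⟨m, hm⟩ ⟨m', hm'⟩ => hne ?_⟩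
  · refine tendsto_nhds_unique (((C.continuous_z.comp (continuous_apply i)).tendsto y).comp hy)
      (tendsto_iff_norm_sub_tendsto_zero.2 (squeeze_zero (fun _ => norm_nonneg _)
        (fun n => (h1 (φ n) i).1.le)
        (tendsto_one_div_add_atTop_nhds_zero_nat.comp hφ.tendsto_atTop)))
  · have ev : ∀ i m, lab (C.s m (C.S^[k] (y i))) = t →
        ∀ᶠ n in atTop, C.On (C.S^[k] (Y (φ n) i)) t := fun i m h => by
      have := ((continuous_lab.comp ((C.continuous_s m).comp ((C.continuous_S.iterate k).comp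
        (continuous_apply i)))).tendsto y).comp hy
      rw [nhds_discrete, tendsto_pure] at this
      exact this.mono fun n hn => ⟨m, hn.trans h⟩
    obtain ⟨n, a1, a2, a3⟩ := ((ev i m hm).and ((ev i' m' hm').and
      ((tendsto_natCast_atTop_atTop.comp hφ.tendsto_atTop).eventually_gt_atTop |C.tm t|))).exists
    exact h2 (φ n) k i i' t (a3.trans_le (le_mul_of_one_le_left (Nat.cast_nonneg _)
      (one_le_pow₀ C.one_lt.le))) a1 a2

end Pool.Agent.MP_4168de_an.G

end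

section

/-! The torus parametrisation and its generic fibres. -/

namespace Pool.Agent.MP_4168de_an.G

open Set Filter Topology Shift Matrix

variable {A : Type} [Fintype A] [DecidableEq A] [TopologicalSpace A]
  {D : Shift A} {ℓ : A → ℝ} {c : ℝ} {σ : DSub D ℓ c} {d e : ℕ} (C : Cover σ d e)

theorem Et_add_Fibre (α : ℝ) (β : Fin e → ℝ) (α' : ℝ) (β' : Fin e → ℝ) :
    C.Et (α + α') (β + β') = C.Et α β + C.Et α' β' := by
  ext i
  simp only [Cover.Et, Pi.add_apply, ← AddCircle.coe_add]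
  rw [← Prod.mk_add_mk, map_add, Pi.add_apply]

theorem Et_cont_Fibre : Continuous fun q : ℝ × (Fin e → ℝ) => C.Et q.1 q.2 :=
  continuous_pi fun i => (AddCircle.continuous_mk' 1).comp
    ((continuous_apply i).comp C.L.Ψ.continuous)

theorem Et_open_Fibre : IsOpenMap fun q : ℝ × (Fin e → ℝ) => C.Et q.1 q.2 := by
  have h1 : IsOpenMap (Pi.map fun (_ : Fin d) (r : ℝ) => (r : UnitAddCircle)) :=
    IsOpenMap.piMap (fun _ => QuotientAddGroup.isOpenMap_coe)
      (Eventually.of_forall fun _ => QuotientAddGroup.mk_surjective)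
  exact h1.comp C.L.Ψ.toHomeomorph.isOpenMap

theorem Et_lat_Fibre (v : Lat d) : C.Et (C.a v) (C.b v) = 0 := by
  ext i
  simp only [Cover.Et, C.Ψ_ab, Pi.zero_apply]
  exact (AddCircle.coe_eq_zero_iff _).2 ⟨v i, by simp [toR]⟩

theorem Et_tr_Fibre (α : ℝ) (β : Fin e → ℝ) (v : Lat d) :
    C.Et (α + C.a v) (β + C.b v) = C.Et α β := by
  rw [Et_add_Fibre, Et_lat_Fibre, add_zero]

theorem Et_eq_Fibre {α : ℝ} {β : Fin e → ℝ} {α' : ℝ} {β' : Fin e → ℝ}
    (h : C.Et α β = C.Et α' β') : ∃ v, α' = α + C.a v ∧ β' = β + C.b v := by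
  have h1 : ∀ i, ∃ n : ℤ, (n : ℝ) = C.L.Ψ (α', β') i - C.L.Ψ (α, β) i := fun i => by
    have h2 := congrFun h i
    simp only [Cover.Et] at h2
    rw [eq_comm, ← sub_eq_zero, ← AddCircle.coe_sub, AddCircle.coe_eq_zero_iff] at h2
    obtain ⟨n, hn⟩ := h2
    exact ⟨n, by simpa only [zsmul_eq_mul, mul_one] using hn⟩
  choose v hv using h1
  have h2 : C.L.Ψ (α', β') = C.L.Ψ ((α, β) + (C.a v, C.b v)) := by
    rw [map_add, C.Ψ_ab]
    ext i
    simp only [Pi.add_apply, toR, hv]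
    ring
  have h3 := C.L.Ψ.injective h2
  exact ⟨v, congrArg Prod.fst h3, congrArg Prod.snd h3⟩

theorem Et_surj_Fibre (g : UnitAddTorus (Fin d)) : ∃ α β, C.Et α β = g := by
  choose y hy using fun i => QuotientAddGroup.mk_surjective (g i)
  refine ⟨(C.L.Ψ.symm y).1, (C.L.Ψ.symm y).2, funext fun i => ?_⟩
  simp only [Cover.Et, Prod.mk.eta, ContinuousLinearEquiv.apply_symm_apply]
  exact hy i

theorem Et_dense_Fibre : DenseRange fun t : ℝ => C.Et t 0 := by
  have h1 : DenseRange fun q : ℝ × (Fin e → ℝ) => C.Et q.1 q.2 :=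
    Function.Surjective.denseRange fun g => by
      obtain ⟨α, β, h⟩ := Et_surj_Fibre C g
      exact ⟨(α, β), h⟩
  refine (h1.comp (denseRange_id.prodMap (f := id) C.dense_b) (Et_cont_Fibre C)).mono ?_
  rintro _ ⟨⟨t, v⟩, rfl⟩
  refine ⟨t - C.a v, ?_⟩
  simpa using (Et_tr_Fibre C (t - C.a v) 0 v).symm

theorem pre_Fibre (k : ℕ) (α : ℝ) (y : D.X × Lat d) :
    ∃ u ∈ C.K α (C.L.B'.symm^[k] (C.z y)), ∀ t, C.On (C.S^[k] u) t ↔ C.On y t := by
  obtain ⟨y₁, n, rfl⟩ := C.desub_iter k y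
  obtain ⟨m, hm⟩ := C.exists_K y₁ α
  have h : Function.LeftInverse C.L.B'.symm C.L.B' := C.L.B'.symm_apply_apply
  refine ⟨C.s m y₁, ?_, fun t => by rw [C.iter_s, C.on_s, C.on_s]⟩
  rwa [C.z_s, C.z_iter, h.iterate k]

theorem on_all_Fibre (Q : C.Box) (hm : Q.m = 1) {α : ℝ} {β : Fin e → ℝ}
    (h : ∃ᶠ k in atTop, ∃ v, |α / c ^ k + C.a v - Q.α| < Q.ρ ∧
      ‖C.L.B'.symm^[k] β + C.b v - Q.β‖ < Q.ρ) {y y' : D.X × Lat d} (hy : C.z y = β)
    (hy' : C.z y' = β) {t : A × Lat d} (ht : C.On y t) : C.On y' t := by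
  have h0 : ∀ᶠ k : ℕ in atTop, |C.tm t - α| < c ^ k * Q.ρ :=
    ((tendsto_pow_atTop_atTop_of_one_lt C.one_lt).atTop_mul_const Q.ρ_pos).eventually_gt_atTop _
  obtain ⟨k, ⟨v, h1, h2⟩, h3⟩ := (h.and_eventually h0).exists
  obtain ⟨u, hu, a1⟩ := pre_Fibre C k (α / c ^ k) y
  obtain ⟨u', hu', a2⟩ := pre_Fibre C k (α / c ^ k) y'
  rw [hy] at hu
  rw [hy'] at hu'
  have b1 : Cover.lab (Cover.tr v u) ∈ C.Lab Q.α Q.β :=
    Q.const _ _ h1 h2 ▸ ⟨_, C.tr_mem_K hu v, rfl⟩
  have b2 : Cover.lab (Cover.tr v u') ∈ C.Lab Q.α Q.β :=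
    Q.const _ _ h1 h2 ▸ ⟨_, C.tr_mem_K hu' v, rfl⟩
  obtain ⟨t₀, ht₀⟩ := ncard_eq_one.1 hm
  have b3 : Cover.lab u = Cover.lab u' := by
    rw [ht₀] at b1 b2
    have := b1.trans b2.symm
    simpa [Cover.lab, Cover.tr] using this
  obtain ⟨b4, b5⟩ := Q.inner _ b1
  change C.p (Cover.tr v u) + _ ≤ _ at b4
  change _ ≤ C.p (Cover.tr v u) + ℓ (u.1.1 0) at b5
  rw [C.p_tr] at b4 b5
  have hc : 0 < c ^ k := pow_pos (by linarith [C.one_lt]) k
  have e1 : α = c ^ k * (α / c ^ k) := by field_simp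
  obtain ⟨c1, c2⟩ := abs_lt.1 h1
  obtain ⟨c3, c4⟩ := abs_lt.1 h3
  have d1 : c ^ k * (C.p u + Q.ρ) ≤ c ^ k * (α / c ^ k) :=
    mul_le_mul_of_nonneg_left (by linarith) hc.le
  have d2 : c ^ k * (α / c ^ k + Q.ρ) ≤ c ^ k * (C.p u + ℓ (u.1.1 0)) :=
    mul_le_mul_of_nonneg_left (by linarith) hc.le
  rw [mul_add, ← e1] at d1 d2
  exact (a2 t).1 (C.on_loc b3 ((a1 t).2 ht) (by linarith) (by linarith))

theorem eq_of_on_Fibre {α : ℝ} {β : Fin e → ℝ} {y y' : D.X × Lat d} (hy : y ∈ C.K α β)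
    (hy' : y' ∈ C.K α β) (h : ∀ t, C.On y t → C.On y' t) : y = y' := by
  have key : ∀ i j, Cover.lab (C.s i y') = Cover.lab (C.s j y) →
      C.p (C.s i y') = C.p (C.s j y) ∧ C.p (C.s (i + 1) y') = C.p (C.s (j + 1) y) := by
    intro i j hij
    have k1 : C.p (C.s i y') = C.p (C.s j y) := congrArg C.tm hij
    have k2 : (C.s i y').1.1 0 = (C.s j y).1.1 0 := congrArg Prod.fst hij
    rw [C.s_letter, C.s_letter] at k2
    exact ⟨k1, by rw [C.p_s_succ, C.p_s_succ, k1, k2]⟩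
  have all : ∀ i, Cover.lab (C.s i y') = Cover.lab (C.s i y) := by
    intro i
    induction i using Int.induction_on with
    | zero =>
      obtain ⟨n, hn⟩ := h _ ⟨0, rfl⟩
      obtain ⟨k1, k2⟩ := key _ _ hn
      have k3 : C.s 0 y ∈ C.K α β := by rwa [C.s_zero]
      have k4 : C.s n y' ∈ C.K α β := by
        rw [C.mem_K_s, k1, k2]
        exact ⟨hy'.1, (C.mem_K_s.1 k3).2⟩
      have k5 : n = 0 := C.K_unique k4 (by rwa [C.s_zero])
      rwa [k5] at hn
    | succ i ih =>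
      obtain ⟨n, hn⟩ := h _ ⟨i + 1, rfl⟩
      have k1 : n = i + 1 :=
        (C.p_s_strictMono y').injective ((key _ _ hn).1.trans (key _ _ ih).2.symm)
      rwa [k1] at hn
    | pred i ih =>
      obtain ⟨n, hn⟩ := h _ ⟨-i - 1, rfl⟩
      have k0 := (key _ _ hn).2
      rw [sub_add_cancel] at k0
      have k1 : n + 1 = -i := (C.p_s_strictMono y').injective (k0.trans (key _ _ ih).1.symm)
      rwa [show n = -i - 1 by omega] at hn
  refine Prod.ext (Subtype.ext (funext fun i => ?_)) ?_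
  · have k2 : (C.s i y').1.1 0 = (C.s i y).1.1 0 := congrArg Prod.fst (all i)
    rw [C.s_letter, C.s_letter] at k2
    exact k2.symm
  · have k2 := all 0
    rw [C.s_zero, C.s_zero] at k2
    exact (congrArg (Prod.snd : A × Lat d → Lat d) k2).symm

theorem fibre_stmt : TorStmt ∧ FibreStmt := by
  constructor
  · intro A _ _ _ _ D ℓ c σ d e C
    exact ⟨Et_add_Fibre C, Et_cont_Fibre C, Et_open_Fibre C, Et_tr_Fibre C,
      fun _ _ _ _ h => Et_eq_Fibre C h, Et_surj_Fibre C, Et_dense_Fibre C⟩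
  · intro A _ _ _ _ D ℓ c σ d e C Q hm α β h α' y hy y' hy'
    exact eq_of_on_Fibre C hy hy' fun t ht => on_all_Fibre C Q hm h hy.1 hy'.1 ht

end Pool.Agent.MP_4168de_an.G

end

section

/-! All statements for the unit case together. -/

namespace Pool.Agent.MP_4168de_an.G

open MeasureTheory Polynomial

theorem one2_all : One2Stmt :=
  one2_stmt (stack_stmt box_stmt.2.1) null_stmt good_stmt (near_stmt box_stmt.2.1 box_stmt.2.2)
    contr_stmt nil_stmt isConn_stmt fin_stmt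
    (kill_stmt (cyc_stmt kos_stmt) (sym_stmt emb_stmt tors_stmt) ar_stmt)

theorem graph2_all : Graph2Stmt := graph2_stmt mat_stmt.2 (cob2_stmt mat_stmt.1) det_stmt quot_stmt

lemma unit_of_det {A : Type} [Fintype A] [DecidableEq A] {M : Matrix A A ℤ} {c : ℝ} {ℓ : A → ℝ}
    (hℓ : ℓ ≠ 0) (heig : ∀ j, ∑ i, ℓ i * M i j = c * ℓ j) (h : IsUnit M.det) :
    IsIntegral ℤ c⁻¹ := by
  refine unit_Lin M.charpoly M.charpoly_monic ?_ ?_
  · rw [Matrix.det_eq_sign_charpoly_coeff] at h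
    exact isUnit_of_mul_isUnit_right h
  · rw [← eval_map_algebraMap, ← Matrix.charpoly_map, Matrix.eval_charpoly,
      ← Matrix.exists_vecMul_eq_zero_iff]
    refine ⟨ℓ, hℓ, funext fun j => ?_⟩
    rw [Matrix.vecMul_sub]
    simp only [Matrix.scalar_apply, Pi.sub_apply, Matrix.vecMul_diagonal]
    simp only [Matrix.vecMul, dotProduct, Matrix.map_apply, eq_intCast, heig]
    simp [mul_comm]

theorem unit_main (n : ℕ) (σ : Fin n → List (Fin n)) (M : Matrix (Fin n) (Fin n) ℤ)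
    (hM : ∀ i j, M i j = (σ j).count i) (hprim : M.IsPrimitive)
    (c : ℝ) (hc : 1 < c) (ℓ : Fin n → ℝ) (hℓ : ∀ i, 0 < ℓ i)
    (heig : ∀ j, ∑ i, ℓ i * M i j = c * ℓ j)
    (hint : IsIntegral ℤ c) (hpisot : ∀ z ∈ (minpoly ℚ c).aroots ℂ, z ≠ c → ‖z‖ < 1)
    (hunit : M.det = 1 ∨ M.det = -1 ∨ IsIntegral ℤ c⁻¹)
    (T₀ : Patch (Fin n)) (htil : IsTiling ℓ T₀) (hfix : ∃ k, 0 < k ∧ (inflate σ ℓ c)^[k] T₀ = T₀)
    (hnp : ∀ t, translate t T₀ = T₀ → t = 0)
    (hrank : cechRank (hull T₀) = (minpoly ℚ c).natDegree)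
    (μ : Measure (Patch (Fin n))) [IsProbabilityMeasure μ] (hμ : μ (hull T₀)ᶜ = 0)
    (hinv : ∀ t, MeasurePreserving (translate t) μ μ) : PurePoint μ := by
  have hℓ0 : ℓ ≠ 0 := fun h => by
    obtain ⟨x, -⟩ := htil
    exact (hℓ (x 0)).ne' (congrFun h _)
  have hu : IsIntegral ℤ c⁻¹ := by
    rcases or_assoc.2 hunit with h | h
    exacts [unit_of_det hℓ0 heig (Int.isUnit_iff.2 h), h]
  refine glue3 pisot_stmt lin_stmt cech2_stmt mat_stmt.1 graph2_all (cover_stmt lin2_stmt)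
    box_stmt.1 one2_all (spec_stmt fibre_stmt.1 (ae_stmt fibre_stmt.1 fibre_stmt.2))
    (limit_stmt mat_stmt.1) orbit_stmt σ M hM hprim ⟨hc, hint, hpisot, rfl⟩ hu hℓ (fun j => ?_)
    htil hfix hnp hrank μ hμ hinv
  rw [← heig, Finset.sum_list_map_count, Finset.sum_subset (Finset.subset_univ _)]
  · simp [hM, mul_comm]
  · intro i _ hi
    simp [List.count_eq_zero_of_not_mem (fun h => hi (List.mem_toFinset.2 h))]

end Pool.Agent.MP_4168de_an.G

end
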