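import Pool.Agent.Mg.F4168de.Gfd1a75
import Pool.Agent.Mg.F4168de.G289263
import Pool.Agent.Mg.F4168de.G15a95f
import Pool.Agent.Mg.F4168de.G7a03ca

section

/-! The augmentation ideal and the algebraic statements for the unit case. -/

namespace Pool.Agent.MP_4168de_an.G

open Set

variable {d : ℕ}

/-- The standard generators of the augmentation ideal. -/
noncomputable def tt (i : Fin d) : Rg d := mono (Pi.single i 1) - 1

/-- The augmentation ideal. -/
noncomputable def II (d : ℕ) : Ideal (Rg d) := RingHom.ker (aug : Rg d →+* ℤ)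

/-- The sum of all coefficients of a chain. -/
noncomputable def tot {A : Type} [Fintype A] (y : A → Rg d) : ℤ := ∑ p, aug (y p)

instance noeth_Rg : IsNoetherianRing (Rg d) := Algebra.FiniteType.isNoetherianRing ℤ (Rg d)

lemma mem_II {P : Rg d} : P ∈ II d ↔ aug P = 0 := RingHom.mem_ker

lemma mono_sub_mem (v : Lat d) : mono v - 1 ∈ II d := by simp [mem_II]

lemma tt_mem (i : Fin d) : tt i ∈ II d := mono_sub_mem _

lemma aug_mu (B : Lat d →+ Lat d) (P : Rg d) : aug (mu B P) = aug P := by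
  induction P using AddMonoidAlgebra.induction_linear with
  | zero => simp
  | add f g hf hg => simp only [map_add, hf, hg]
  | single v n => simp

lemma mu_bijective {B : Lat d →+ Lat d} (hB : Function.Bijective B) :
    Function.Bijective (mu B) := by
  refine ⟨mu_injective hB.1, fun P => ?_⟩
  induction P using AddMonoidAlgebra.induction_linear with
  | zero => exact ⟨0, map_zero _⟩
  | add f g hf hg =>
    obtain ⟨f, rfl⟩ := hf
    obtain ⟨g, rfl⟩ := hg
    exact ⟨f + g, map_add _ _ _⟩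
  | single v n =>
    obtain ⟨v, rfl⟩ := hB.2 v
    exact ⟨_, mu_single _ _ _⟩

/-- An ideal that contains `mono v - 1` for a generating set of vectors contains the augmentation
ideal. -/
lemma II_le {S : Set (Lat d)} (hS : AddSubgroup.closure S = ⊤) {J : Ideal (Rg d)}
    (h : ∀ v ∈ S, mono v - 1 ∈ J) : II d ≤ J := by
  have h1 : ∀ v : Lat d, mono v - 1 ∈ J := fun v => by
    have h2 : v ∈ AddSubgroup.closure S := hS ▸ AddSubgroup.mem_top v
    induction h2 using AddSubgroup.closure_induction with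
    | mem v hv => exact h v hv
    | zero => simp
    | add v w _ _ hv hw =>
      have := J.add_mem (J.mul_mem_left (mono w) hv) hw
      rwa [show mono w * (mono v - 1) + (mono w - 1) = mono (v + w) - 1 by
        rw [mono_add]; ring] at this
    | neg v _ hv =>
      have := J.neg_mem (J.mul_mem_left (mono (-v)) hv)
      rwa [mul_sub, ← mono_add, neg_add_cancel, mono_zero, mul_one, neg_sub] at this
  have h2 : ∀ P : Rg d, P - (aug P : ℤ) ∈ J := fun P => by
    induction P using AddMonoidAlgebra.induction_linear with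
    | zero => simp
    | add f g hf hg =>
      have := J.add_mem hf hg
      rwa [show f - (aug f : ℤ) + (g - (aug g : ℤ)) = f + g - (aug (f + g) : ℤ) by
        rw [map_add]; push_cast; ring] at this
    | single v n =>
      have := J.mul_mem_left (n : Rg d) (h1 v)
      rwa [show (n : Rg d) * (mono v - 1) = AddMonoidAlgebra.single v n -
        (aug (AddMonoidAlgebra.single v n) : ℤ) by
          rw [aug_single, mul_sub, mul_one, ← zsmul_eq_mul]; simp [mono]] at this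
  intro P hP
  simpa [mem_II.1 hP] using h2 P

lemma closure_single : AddSubgroup.closure (range fun i : Fin d => (Pi.single i 1 : Lat d)) = ⊤ :=
  eq_top_iff.2 fun v _ => by
    rw [← Finset.univ_sum_single v]
    refine AddSubgroup.sum_mem _ fun i _ => ?_
    rw [show (Pi.single i (v i) : Lat d) = v i • Pi.single i 1 by simp [← Pi.single_smul]]
    exact AddSubgroup.zsmul_mem _ (AddSubgroup.subset_closure (mem_range_self i)) _

lemma II_eq : II d = Ideal.span (range tt) :=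
  le_antisymm (II_le closure_single (by
    rintro _ ⟨i, rfl⟩
    exact Ideal.subset_span ⟨i, rfl⟩)) (Ideal.span_le.2 (by
    rintro _ ⟨i, rfl⟩
    exact tt_mem i))

lemma exists_of_mem_II {P : Rg d} (h : P ∈ II d) : ∃ a : Fin d → Rg d, ∑ i, a i * tt i = P := by
  rw [II_eq] at h
  exact Ideal.mem_span_range_iff_exists_fun.1 h

/-- Every relation between the generators is a Koszul relation. -/
def KosStmt : Prop :=
  ∀ (d : ℕ) (a : Fin d → Rg d), ∑ i, tt i * a i = 0 →
    ∃ w : Fin d → Fin d → Rg d, ∀ i, a i = ∑ j, tt j * (w i j - w j i)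

/-- The quotients by the powers of the augmentation ideal have no torsion. -/
def TorsStmt : Prop :=
  ∀ (d j : ℕ) (n : ℤ) (P : Rg d), n ≠ 0 → n • P ∈ II d ^ j → P ∈ II d ^ j

/-- A saturated submodule is the kernel of an endomorphism. -/
def EmbStmt : Prop :=
  ∀ (R A : Type) [CommRing R] [IsDomain R] [IsNoetherianRing R] [Fintype A]
    (N : Submodule R (A → R)), (∀ (P : R) z, P ≠ 0 → P • z ∈ N → z ∈ N) →
    ∃ Ψ : (A → R) →ₗ[R] (A → R), LinearMap.ker Ψ = N

/-- Integer multiples can be removed modulo a saturated submodule. -/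
def SymStmt : Prop :=
  ∀ (A : Type) [Fintype A] (d : ℕ) (N : Submodule (Rg d) (A → Rg d)),
    (∀ (P : Rg d) z, P ≠ 0 → P • z ∈ N → z ∈ N) → ∀ j : ℕ, ∃ j' : ℕ, ∀ (n : ℤ) (y : A → Rg d),
      n ≠ 0 → n • y ∈ N ⊔ II d ^ j' • ⊤ → y ∈ N ⊔ II d ^ j • ⊤

/-- A cocycle with values in a high power of the augmentation ideal is a coboundary. -/
def ArStmt : Prop :=
  ∀ (A : Type) [Fintype A] (d : ℕ) (Q : Submodule (Rg d) (A → Rg d)), ∃ j : ℕ,
    ∀ x : Fin d → A → Rg d, (∀ i l, tt l • x i - tt i • x l ∈ Q) →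
      (∀ i, x i ∈ Q ⊔ II d ^ j • ⊤) → ∃ w, ∀ i, x i - tt i • w ∈ Q

/-- The boundary map of a connected cover with vertex set `Vx`. -/
def IsConn {A : Type} [Fintype A] (bd : (A → Rg d) →ₗ[Rg d] (A → Rg d)) (Vx : Set A) : Prop :=
  (∀ z p, p ∉ Vx → bd z p = 0) ∧ ∀ y : A → Rg d, (∀ p ∉ Vx, y p = 0) → tot y = 0 → ∃ z, bd z = y

/-- The Koszul cycles of the family `cc` fill the cycles of augmentation zero. -/
def CycStmt : Prop :=
  ∀ (A : Type) [Fintype A] (d : ℕ) (bd : (A → Rg d) →ₗ[Rg d] (A → Rg d)) (Vx : Set A)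
    (N : Submodule (Rg d) (A → Rg d)) (v : A → Rg d) (cc : Fin d → A → Rg d),
    IsConn bd Vx → (∀ p ∉ Vx, v p = 0) → (∀ i, bd (cc i) = -(tt i • v)) →
    (∀ i j, tt i • cc j - tt j • cc i ∈ N) →
    ∀ z, bd z = 0 → (∀ x, aug (z x) = 0) → tot v • z ∈ N ⊔ II d • LinearMap.ker bd

/-- After inflation the class of the module `G` vanishes modulo `tot v`. -/
def KillStmt : Prop :=
  ∀ (A : Type) [Fintype A] (d : ℕ) (bd : (A → Rg d) →ₗ[Rg d] (A → Rg d)) (Vx : Set A)
    (N : Submodule (Rg d) (A → Rg d)) (v : A → Rg d) (E : (A → Rg d) →+ (A → Rg d))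
    (μ : Rg d →+* Rg d) (G : Submodule (Rg d) (Rg d × (A → Rg d))) (n₀ : ℕ),
    IsConn bd Vx → (∀ p ∉ Vx, v p = 0) → tot v ≠ 0 → Function.Bijective μ →
    (∀ P, aug (μ P) = aug P) → (∀ (P : Rg d) z, E (P • z) = μ P • E z) → (∀ z ∈ N, E z ∈ N) →
    (∀ z, bd z = 0 → bd (E z) = 0) → (∀ (P : Rg d) z, P ≠ 0 → P • z ∈ N → z ∈ N) →
    (∀ z, bd z = 0 → ∀ x, aug (E^[n₀] z x) = 0) → (∀ t ∈ II d, ∃ z, (t, z) ∈ G) →
    (∀ z, (0, z) ∈ G → z ∈ N) → (∀ P z, (P, z) ∈ G → bd z = -(P • v)) →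
    ∃ (k : ℕ) (w : A → Rg d), ∀ t ∈ II d, ∀ z, (t, z) ∈ G →
      ∃ g, E^[k] z - μ^[k] t • w - tot v • g ∈ N

end Pool.Agent.MP_4168de_an.G

end

section

/-! Chains that start late, the module of a stack, null differences of agreeing families. -/

namespace Pool.Agent.MP_4168de_an.G

open Set Filter Topology Shift Matrix

variable {A : Type} [Fintype A] [DecidableEq A] [TopologicalSpace A] {D : Shift A} {ℓ : A → ℝ}
  {c : ℝ} {σ : DSub D ℓ c} {d e : ℕ}

namespace Cover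

variable (C : Cover σ d e)

/-- All tiles of the chain start at time `τ` or later. -/
def Late (τ : ℝ) (z : A → Rg d) : Prop := ∀ t, co t z ≠ 0 → τ ≤ C.tm t

/-- The chain `z` represents `P` times the forward half of the family `u`, up to null chains. -/
def Good {r : ℕ} (u : Fin r → D.X × Lat d) (P : Rg d) (z : A → Rg d) : Prop :=
  C.bd z = -(P • ∑ i, C.vtx (u i)) ∧
    ∀ τ, ∀ᶠ m : ℤ in atTop, ∃ n, C.Null n ∧ C.Late τ (P • ∑ i, C.ch (u i) m - z - n)

variable {C}

lemma late_zero (τ : ℝ) : C.Late τ 0 := fun _ h => absurd (map_zero _) h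

lemma Late.le {τ τ' : ℝ} {z : A → Rg d} (h : C.Late τ z) (h' : τ' ≤ τ) : C.Late τ' z :=
  fun t ht => h'.trans (h t ht)

lemma Late.add {τ : ℝ} {z z' : A → Rg d} (h : C.Late τ z) (h' : C.Late τ z') :
    C.Late τ (z + z') := fun t ht => by
  by_cases h1 : co t z = 0
  · exact h' t fun h2 => ht (by rw [map_add, h1, h2, add_zero])
  · exact h t h1

lemma Late.neg {τ : ℝ} {z : A → Rg d} (h : C.Late τ z) : C.Late τ (-z) :=
  fun t ht => h t fun h2 => ht (by rw [map_neg, h2, neg_zero])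

lemma Late.sub {τ : ℝ} {z z' : A → Rg d} (h : C.Late τ z) (h' : C.Late τ z') :
    C.Late τ (z - z') := by
  rw [sub_eq_add_neg]
  exact h.add h'.neg

lemma Late.zsmul {τ : ℝ} {z : A → Rg d} (h : C.Late τ z) (n : ℤ) : C.Late τ (n • z) :=
  fun t ht => h t fun h2 => ht (by rw [map_zsmul, h2, smul_zero])

lemma late_sum {τ : ℝ} {ι : Type} {s : Finset ι} {z : ι → A → Rg d}
    (h : ∀ i ∈ s, C.Late τ (z i)) : C.Late τ (∑ i ∈ s, z i) :=
  Finset.sum_induction z (C.Late τ) (fun _ _ => Late.add) (late_zero τ) h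

lemma tm_add (t : A × Lat d) (v : Lat d) : C.tm (t.1, t.2 + v) = C.tm t + C.a v := by
  simp only [tm, map_add, add_assoc]

lemma Late.mono_smul {τ : ℝ} {z : A → Rg d} (h : C.Late τ z) (v : Lat d) :
    C.Late (τ + C.a v) (mono v • z) := fun t ht => by
  have e1 : t = ((t.1, t.2 - v).1, (t.1, t.2 - v).2 + v) := by simp
  rw [e1, co_mono_smul] at ht
  rw [e1, tm_add]
  linarith [h _ ht]

lemma late_smul (C : Cover σ d e) (P : Rg d) : ∃ R : ℝ, ∀ τ z, C.Late τ z →
    C.Late (τ - R) (P • z) := by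
  refine ⟨∑ v ∈ P.coeff.support, |C.a v|, fun τ z h => ?_⟩
  conv => enter [3]; rw [poly_Null P, Finset.sum_smul]
  refine late_sum fun v hv => ?_
  rw [smul_assoc]
  refine ((h.mono_smul v).zsmul _).le ?_
  linarith [Finset.single_le_sum (f := fun v => |C.a v|) (fun _ _ => abs_nonneg _) hv,
    neg_abs_le (C.a v)]

lemma Late.iter {τ : ℝ} {z : A → Rg d} (h : C.Late τ z) (k : ℕ) :
    C.Late (c ^ k * τ) (C.E^[k] z) := by
  let F : (A → Rg d) →+ (A → Rg d) := AddMonoidHom.mk' C.E^[k] (iterate_map_add C.E k)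
  change C.Late _ (F z)
  rw [dec_Null z, map_sum]
  refine late_sum fun t ht => ?_
  rw [map_zsmul]
  refine Late.zsmul (fun t' ht' => ?_) _
  obtain ⟨y, rfl⟩ := C.exists_lab t
  have h1 := C.co_piece k y (m := 0) (n := 1) zero_le_one t'
  rw [C.ch_one, C.ch_zero, sub_zero, s_zero] at h1
  have h2 : c ^ k * C.p y ≤ C.tm t' := by
    by_contra h3
    exact ht' (h1.trans (if_neg fun x => h3 x.2.1))
  exact (mul_le_mul_of_nonneg_left (h _ (by simpa using ht))
    (pow_nonneg (by linarith [C.one_lt]) k)).trans h2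

lemma late_ch (y : D.X × Lat d) {m n : ℤ} (h : m ≤ n) :
    C.Late (C.p (C.s m y)) (C.ch y n - C.ch y m) := fun t ht => by
  have h1 := C.co_piece 0 y h t
  by_contra h3
  exact ht (h1.trans (if_neg fun x => h3 (by simpa using x.2.1)))

lemma p_s_atTop (C : Cover σ d e) (y : D.X × Lat d) (τ : ℝ) :
    ∀ᶠ m : ℤ in atTop, τ ≤ C.p (C.s m y) := by
  obtain ⟨n, hn⟩ := C.exists_K y τ
  filter_upwards [eventually_ge_atTop (n + 1)] with m hm
  exact (C.mem_K_s.1 hn).2.2.le.trans ((C.p_s_strictMono y).monotone hm)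

/-- The difference of two families that agree at relatively dense times is null. -/
theorem agree_null [DiscreteTopology A] {m : ℕ} {y y' : Fin m → D.X × Lat d} {L : ℝ}
    (box : ∀ (k : ℕ) (s : ℝ), ∃ α, |α - s| ≤ L ∧
      C.Ag_Nonzero (fun i => C.S^[k] (y i)) (fun i => C.S^[k] (y' i)) α)
    {t₁ t₂ : ℝ} (h12 : t₁ ≤ t₂) (g1 : C.Ag_Nonzero y y' t₁) (g2 : C.Ag_Nonzero y y' t₂) :
    C.Null (C.W_Nonzero y y' t₁ t₂) := by
  classical
  have hE := lenE_Null C
  obtain ⟨l₀, l₁, h0, h1, h2⟩ := C.len_bounds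
  have c1 := C.one_lt
  have c0 : 0 < c := by linarith
  obtain ⟨a₀⟩ := D.nonempty_alph
  have hEk : ∀ (k : ℕ) z, len ℓ (C.E^[k] z) ≤ c ^ k * len ℓ z := fun k z => by
    induction k with
    | zero => simp
    | succ k ih =>
      rw [Function.iterate_succ_apply', pow_succ', mul_assoc]
      exact (hE _).trans (mul_le_mul_of_nonneg_left ih c0.le)
  obtain ⟨j, hj⟩ := pow_unbounded_of_one_lt (2 * (L + l₁) / l₀) c1
  rw [div_lt_iff₀ h0] at hj
  have l1 : 0 < l₁ := by linarith [h1 a₀, h2 a₀]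
  have cj := pow_pos c0 j
  refine tendsto_zero_Nonzero (θ := 1 - l₀ / l₁ / c ^ j) (j := j) (fun k => ?_) (fun k => ?_)
    (by have : 0 < l₀ / l₁ / c ^ j := by positivity
        linarith) fun k => ?_
  · refine div_nonneg (Finset.sum_nonneg fun x _ => Finset.sum_nonneg fun v _ => ?_) (by positivity)
    exact mul_nonneg (abs_nonneg _) (C.ℓ_pos x).le
  · rw [Function.iterate_succ_apply', div_le_div_iff₀ (by positivity) (by positivity), pow_succ]
    nlinarith [hE (C.E^[k] (C.W_Nonzero y y' t₁ t₂)), pow_pos c0 k]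
  · let F : (A → Rg d) →+ (A → Rg d) := AddMonoidHom.mk' C.E^[j] (iterate_map_add C.E j)
    have b1 := contract_Nonzero h0 h1 h2 F (hEk j) (C.E^[k] (C.W_Nonzero y y' t₁ t₂)) fun t => by
      obtain ⟨u, rfl⟩ := C.exists_lab t
      obtain ⟨α, b2, b3⟩ := box (j + k) (c ^ j * (C.p u + ℓ (u.1.1 0) / 2))
      obtain ⟨b4, b5⟩ := C.ed_cov_Nonzero (C.S^[j] u) α
      refine ⟨C.ed_Nonzero (C.S^[j] u) α, ?_, ?_⟩
      · have b6 := C.co_piece j u (m := 0) (n := 0 + 1) (by omega) (C.ed_Nonzero (C.S^[j] u) α)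
        rw [abs_le] at b2
        have b7 := mul_le_mul_of_nonneg_left (h1 (u.1.1 0)) cj.le
        have b8 := h2 (C.ed_Nonzero (C.S^[j] u) α).1
        rw [Cover.p_s_succ, Cover.s_zero, if_pos ⟨⟨_, rfl⟩, by linarith, by linarith⟩] at b6
        change co _ (C.E^[j] _) = 1
        simpa [Cover.ch_one] using b6
      · change co _ (C.E^[j] _) = 0
        rw [← Function.iterate_add_apply, (Cover.iter_W_Nonzero g1 g2 (j + k)).2.2]
        exact Cover.co_W_Nonzero (mul_le_mul_of_nonneg_left h12 (by positivity)) b3 b4 b5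
    change len ℓ (C.E^[j] _) ≤ _ at b1
    rw [← Function.iterate_add_apply, add_comm j k] at b1
    rw [div_le_iff₀ (by positivity)]
    refine b1.trans (le_of_eq ?_)
    rw [pow_add]
    field_simp

end Cover

end Pool.Agent.MP_4168de_an.G

end

section

/-! The dynamical statements for the unit case and their assembly. -/

namespace Pool.Agent.MP_4168de_an.G

open Set Filter Topology Shift Matrix MeasureTheory

/-- The good pairs form a submodule whose vertical part is null. -/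
def GoodStmt : Prop := AllCovers fun {A} _ _ _ _ {_ _ _ _ d _} C => ∀ (r : ℕ) (u : Fin r → _),
  ∃ G : Submodule (Rg d) (Rg d × (A → Rg d)), (∀ P z, (P, z) ∈ G ↔ C.Good u P z) ∧
    ∀ z, C.Good u 0 z → C.Null z

/-- Translation by a vector with small internal orbit gives a good pair. -/
def NearStmt : Prop := AllCovers fun C => ∀ (Q : C.Box) β (u : Fin Q.m → _), C.Stack β u →
  ∀ v, (∀ k, ‖C.b (C.Bz^[k] v)‖ < Q.ρ / 2) → ∃ z, C.Good u (mono v - 1) z

/-- The internal coordinate contracts. -/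
def ContrStmt : Prop := AllCovers fun C => ∀ v, Tendsto (fun k => C.b (C.Bz^[k] v)) atTop (𝓝 0)

/-- Inflated cycles have augmentation zero. -/
def NilStmt : Prop := AllCovers fun C => ∃ n₀ : ℕ, ∀ z, C.bd z = 0 → ∀ x, aug (C.E^[n₀] z x) = 0

/-- The cover is connected. -/
def IsConnStmt : Prop := AllCovers fun C => IsConn C.bd (range C.st)

/-- The class of a stack of two or more strands does not vanish. -/
def FinStmt : Prop := AllCovers fun C => ∀ (r : ℕ) β (u : Fin r → _) (k : ℕ) w, C.Stack β u →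
  2 ≤ r → ¬ ∀ v, ∃ z g, C.Good u (mono v - 1) z ∧
    C.Null (C.E^[k] z - (mu C.Bz)^[k] (mono v - 1) • w - (r : ℤ) • g)

/-- There is one tile over the box. -/
def One2Stmt : Prop := AllCovers fun C => ∀ Q : C.Box, Q.m = 1

/-- A function of the first letter that is a coboundary becomes a coboundary on the graph. -/
def Cob2Stmt : Prop :=
  ∀ (A : Type) [Fintype A] [DecidableEq A] [TopologicalSpace A] [DiscreteTopology A]
    (D : Shift A) (ℓ : A → ℝ) (c : ℝ) (σ : DSub D ℓ c) (M : Matrix A A ℤ) (V : Vert D),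
    (∀ a, ∃ x : D.X, x.1 0 = a) → (∀ x, 2 ≤ σ.r x) → HasMat σ.toRSub M →
    ∀ g : A → ℚ, (Cob fun x : D.X => g (x.1 0)) → ∃ (k : ℕ) (h : A → ℚ), ∀ a,
      ∑ b, g b * ((M ^ k) b a : ℚ) = h (V.en a) - h (V.st a)

/-- A small integer matrix with a unit eigenvalue of large degree is unimodular. -/
def DetStmt : Prop :=
  ∀ (d d' : ℕ) (B : Matrix (Fin d) (Fin d) ℤ) (u : Fin d → ℝ) (c : ℝ), IsPisot c d' → d ≤ d' →
    IsIntegral ℤ c⁻¹ → u ≠ 0 → u ᵥ* B.map (Int.cast : ℤ → ℝ) = c • u → IsUnit B.det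

/-- The quotient of a lattice by the nilpotent part of an endomorphism. -/
def QuotStmt : Prop :=
  ∀ (d₀ : ℕ) (B₀ : Lat d₀ →ₗ[ℤ] Lat d₀), ∃ (d N : ℕ) (pr : Lat d₀ →ₗ[ℤ] Lat d)
    (sc : Lat d →ₗ[ℤ] Lat d₀), (∀ z, pr (sc z) = z) ∧ (∀ v, pr v = 0 ↔ (B₀ ^ N) v = 0) ∧
    ∀ v, pr (B₀ v) = 0 → pr v = 0

/-- Existence of the graph data. -/
def Graph2Stmt : Prop :=
  ∀ (A : Type) [Fintype A] [DecidableEq A] [TopologicalSpace A] [DiscreteTopology A]
    (D : Shift A) (ℓ : A → ℝ) (c : ℝ) (σ : DSub D ℓ c) (M : Matrix A A ℤ) (d' : ℕ),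
    (∀ a, 0 < ℓ a) → IsPisot c d' → IsIntegral ℤ c⁻¹ → (∀ a, ∃ x : D.X, x.1 0 = a) →
    (∀ x, 2 ≤ σ.r x) → HasMat σ.toRSub M → RankAt D d' → ∃ d, d ≤ d' ∧ Nonempty (GraphData σ d)

theorem one2_stmt (hS : StackStmt) (hN : NullStmt) (hG : GoodStmt) (hR : NearStmt)
    (hC : ContrStmt) (hL : NilStmt) (hI : IsConnStmt) (hF : FinStmt) (hK : KillStmt) :
    One2Stmt := by
  intro A _ _ _ _ D ℓ c σ d e C Q
  obtain ⟨-, -, -, -, n0, n1, n2, n3, n4⟩ := hN A D ℓ c σ d e C
  obtain ⟨u, hu⟩ := hS A D ℓ c σ d e C Q 0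
  obtain ⟨G, g1, g2⟩ := hG A D ℓ c σ d e C _ u
  obtain ⟨n₀, hn₀⟩ := hL A D ℓ c σ d e C
  let N : Submodule (Rg d) (A → Rg d) :=
    { carrier := {z | C.Null z}
      zero_mem' := n0
      add_mem' := fun a b => n1 _ _ a b
      smul_mem' := fun P z a => n2 _ _ a }
  have hm := Q.m_pos
  have htot : tot (∑ i, C.vtx (u i)) = Q.m := by
    have h1 : ∀ y, ∑ p, aug (C.vtx y p) = 1 := fun y => by
      rw [Finset.sum_eq_single (C.st (y.1.1 0)) (fun p _ hp => by simp [Cover.vtx, tile, hp])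
        (by simp)]
      simp [Cover.vtx, tile]
    simp only [tot, Finset.sum_apply, map_sum]
    rw [Finset.sum_comm]
    simp [h1]
  obtain ⟨k₀, hk₀⟩ : ∃ k₀, ∀ k ≥ k₀, ∀ i, ‖C.b (C.Bz^[k] (Pi.single i 1))‖ < Q.ρ / 2 :=
    eventually_atTop.1 (eventually_all.2 fun i =>
      (tendsto_zero_iff_norm_tendsto_zero.1 (hC A D ℓ c σ d e C _)).eventually_lt_const
        (half_pos Q.ρ_pos))
  have hall : ∀ t ∈ II d, ∃ z, (t, z) ∈ G := fun t ht => by
    let F : Lat d →+ Lat d := AddMonoidHom.mk' C.Bz^[k₀] (iterate_map_add C.Bz k₀)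
    have h1 : AddSubgroup.closure (F '' range fun i => (Pi.single i 1 : Lat d)) = ⊤ := by
      rw [← AddMonoidHom.map_closure, closure_single]
      exact AddSubgroup.map_top_of_surjective F (C.Bz_bij.2.iterate k₀)
    obtain ⟨⟨_, z⟩, h2, rfl⟩ := II_le (J := G.map (LinearMap.fst _ _ _)) h1 (by
      rintro _ ⟨_, ⟨i, rfl⟩, rfl⟩
      obtain ⟨z, hz⟩ := hR A D ℓ c σ d e C Q 0 u hu (F (Pi.single i 1)) fun k => by
        change ‖C.b (C.Bz^[k] (C.Bz^[k₀] _))‖ < _
        rw [← Function.iterate_add_apply]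
        exact hk₀ _ (by omega) i
      exact ⟨_, (g1 _ _).2 hz, rfl⟩) ht
    exact ⟨z, h2⟩
  obtain ⟨k, w, hw⟩ := hK A d C.bd (range C.st) N (∑ i, C.vtx (u i)) C.E (mu C.Bz) G n₀
    (hI A D ℓ c σ d e C) (fun p hp => by
      rw [Finset.sum_apply]
      exact Finset.sum_eq_zero fun i _ => Pi.single_eq_of_ne (fun h => hp ⟨_, h.symm⟩) _)
    (by rw [htot]; exact_mod_cast hm.ne') (mu_bijective C.Bz_bij) (aug_mu _) C.E_smul n3
    (fun z => C.bd_E) n4 hn₀ hall (fun z hz => g2 z ((g1 _ _).1 hz))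
    fun P z hz => ((g1 _ _).1 hz).1
  by_contra hne
  refine hF A D ℓ c σ d e C _ 0 u k w hu (by omega) fun v => ?_
  obtain ⟨z, hz⟩ := hall _ (mono_sub_mem v)
  obtain ⟨g, hg⟩ := hw _ (mono_sub_mem v) z hz
  exact ⟨z, g, (g1 _ _).1 hz, htot ▸ hg⟩

end Pool.Agent.MP_4168de_an.G

end

section

/-! The theorem for unit dilatations from the statements. -/

namespace Pool.Agent.MP_4168de_an.G

open Set Filter Topology MeasureTheory

theorem glue3 (hP : PisotStmt) (hL : LinStmt) (hC : Cech2Stmt) (hM : MatStmt) (hG : Graph2Stmt)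
    (hV : CoverStmt) (hB : BoxStmt) (hO : One2Stmt) (hS : SpecStmt)
    (hX : LimitStmt) (hN : OrbitStmt)
    {A : Type} [Fintype A] [DecidableEq A] (σ : A → List A) (M : Matrix A A ℤ)
    (hσM : ∀ i j, M i j = (σ j).count i) (hprim : M.IsPrimitive)
    {c : ℝ} {d : ℕ} (hc : IsPisot c d) (hu : IsIntegral ℤ c⁻¹) {ℓ : A → ℝ}
    (hℓ : ∀ i, 0 < ℓ i) (heig : ∀ a, ((σ a).map ℓ).sum = c * ℓ a) {T₀ : Patch A}
    (htil : IsTiling ℓ T₀) (hfix : ∃ k, 0 < k ∧ (inflate σ ℓ c)^[k] T₀ = T₀)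
    (hnp : ∀ t, translate t T₀ = T₀ → t = 0) (hrank : cechRank (hull T₀) = d)
    (μ : Measure (Patch A)) [IsProbabilityMeasure μ] (hμ : μ (hull T₀)ᶜ = 0)
    (hinv : ∀ t, MeasurePreserving (translate t) μ μ) : PurePoint μ := by
  let : TopologicalSpace A := ⊥
  have : DiscreteTopology A := ⟨rfl⟩
  have hc1 := hc.one_lt
  obtain ⟨x₀, t₀, rfl⟩ := htil.exists_θ
  have : Nonempty A := ⟨x₀ 0⟩
  obtain ⟨l₀, l₁, h0, h1, h2⟩ := exists_len_bounds hℓ
  have hσ : ∀ a, σ a ≠ [] := fun a h => by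
    have := heig a
    rw [h] at this
    exact (mul_pos (by linarith) (hℓ a)).ne this
  obtain ⟨k, hk, hfix⟩ := hfix
  rw [inflate_iterate σ hσ heig] at hfix
  obtain ⟨m, hm, hm'⟩ := θ_eq hℓ hfix
  obtain ⟨m1, m2, -⟩ := hM A ℓ c
  have hm1 := m2 _ M k (m1 σ hσ heig M hσM)
  have hck : 1 < c ^ k := one_lt_pow₀ hc1 hk.ne'
  obtain ⟨N, -, hN'⟩ := hprim.exists_pos_pow
  obtain ⟨D, τ, hτ, hD, occ, hdec⟩ := hX A ℓ _ _ _ x₀ t₀ m N hℓ hck hm1 (by
    obtain ⟨k', rfl⟩ := Nat.exists_eq_succ_of_ne_zero hk.ne'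
    rw [← pow_mul, mul_comm, pow_mul]
    exact pow_entries_pos hN' k') hm hm'
  have hm2 : HasMat τ.toRSub (M ^ k) := hτ ▸ hm1
  obtain ⟨j, hj⟩ := pow_unbounded_of_one_lt (l₁ / l₀) hck
  have hl : 0 < l₁ := (hℓ _).trans_le (h2 (x₀ 0))
  have hj1 : 1 < (c ^ k) ^ j :=
    lt_of_le_of_lt ((one_le_div h0).2 ((h1 _).trans (h2 (x₀ 0)))) hj
  have hj0 : 0 < j := Nat.pos_of_ne_zero fun h => by simp [h] at hj1
  rw [div_lt_iff₀ h0] at hj
  have hr : ∀ x, 2 ≤ (τ.pow j).r x := fun x => by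
    have a1 := (τ.pow j).r_ge (by linarith) h1 h2 x
    have a2 : (1 : ℝ) < (τ.pow j).r x := lt_of_mul_lt_mul_left (by linarith) hl.le
    have a3 : 1 < (τ.pow j).r x := by exact_mod_cast a2
    omega
  have hm3 : HasMat (τ.pow j).toRSub ((M ^ k) ^ j) := (hM A ℓ _).2.1 _ _ j hm2
  have hΩ := hull_eq hℓ h2 x₀ t₀
  obtain ⟨d', hd', ⟨G⟩⟩ := hG A D ℓ _ (τ.pow j) _ d hℓ (hP _ _ j (hP c d k hc hk) hj0)
    (by rw [← inv_pow, ← inv_pow]; exact (hu.pow k).pow j) occ hr hm3
    (hC A D ℓ l₁ _ _ d hℓ h2 hD hΩ hrank)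
  obtain ⟨e, ⟨L⟩⟩ := hL d' d G.B G.u _ (hP _ _ j (hP c d k hc hk) hj0) hd' G.detB G.u_ne G.uB
  obtain ⟨C⟩ := hV A D ℓ _ _ _ d' e G L hℓ hj1 occ hr hm3
  obtain ⟨Q⟩ := hB A D ℓ _ _ d' e C
  refine hS A D ℓ _ _ d' e C Q (hO A D ℓ _ _ d' e C Q) l₁ _ h2 rfl μ
    (measure_mono_null (fun T hT => ?_) (measure_union_null hμ (hN A ℓ x₀ t₀ μ hℓ hnp hinv))) hinv
  by_cases h : T ∈ hull (θ ℓ x₀ t₀)
  · rw [hΩ] at h
    obtain ⟨⟨x, t⟩, ⟨a1, a2⟩, rfl⟩ := h
    rcases hdec x a1 with a3 | ⟨n, rfl⟩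
    · exact absurd ⟨(x, t), ⟨a3, a2⟩, rfl⟩ hT
    · exact Or.inr ⟨t + pos ℓ x₀ n, by rw [← θ_sh x₀ _ n, add_sub_cancel_right]⟩
  · exact Or.inl h

end Pool.Agent.MP_4168de_an.G

end

section

/-! Saturated submodules are kernels. -/

namespace Pool.Agent.MP_4168de_an.G

open Set

theorem emb_stmt : EmbStmt := by
  intro R ι _ _ _ _ N h
  classical
  obtain ⟨T, h1, h2⟩ := exists_maximal_linearIndepOn R fun i => N.mkQ (Pi.single i 1)
  let W := Submodule.span R (Set.range fun i : T => N.mkQ (Pi.single i.1 1))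
  have h3 : ∀ i, ∃ a : R, a ≠ 0 ∧ a • N.mkQ (Pi.single i 1) ∈ W := fun i => by
    by_cases hi : i ∈ T
    · exact ⟨1, one_ne_zero, W.smul_mem _ (Submodule.subset_span ⟨⟨i, hi⟩, rfl⟩)⟩
    · simpa only [Set.image_eq_range] using h2 i hi
  choose a ha ha' using h3
  have h4 : ∀ y, ((∏ i, a i) • N.mkQ) y ∈ W := fun y => by
    rw [← Finset.univ_sum_single y, map_sum]
    refine sum_mem fun i _ => ?_
    rw [show (Pi.single i (y i) : ι → R) = y i • Pi.single i 1 by
      rw [← Pi.single_smul', smul_eq_mul, mul_one], map_smul, LinearMap.smul_apply,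
      ← Finset.prod_erase_mul _ _ (Finset.mem_univ i), mul_smul]
    exact W.smul_mem _ (W.smul_mem _ (ha' i))
  refine ⟨Function.ExtendByZero.linearMap R (Subtype.val : T → ι) ∘ₗ
    (Module.Basis.span h1).equivFun.toLinearMap ∘ₗ LinearMap.codRestrict W _ h4, ?_⟩
  rw [LinearMap.ker_comp_of_ker_eq_bot _ (LinearMap.ker_eq_bot.2
    (Function.extend_injective Subtype.val_injective _)), LinearEquiv.ker_comp,
    LinearMap.ker_codRestrict]
  ext y
  rw [LinearMap.mem_ker, LinearMap.smul_apply, ← map_smul]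
  exact (Submodule.Quotient.mk_eq_zero N).trans
    ⟨h _ _ (Finset.prod_ne_zero_iff.2 fun i _ => ha i), N.smul_mem _⟩

end Pool.Agent.MP_4168de_an.G

end

section

/-! Removal of integer multiples. -/

namespace Pool.Agent.MP_4168de_an.G

open Set

lemma map_mem_Sym {R M M' : Type} [CommRing R] [AddCommGroup M] [Module R M] [AddCommGroup M']
    [Module R M'] (f : M →ₗ[R] M') {J : Ideal R} {x : M} (h : x ∈ J • (⊤ : Submodule R M)) :
    f x ∈ J • (⊤ : Submodule R M') := by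
  have := Submodule.mem_map_of_mem (f := f) h
  rw [Submodule.map_smul''] at this
  exact Submodule.smul_mono le_rfl le_top this

lemma pi_mem_Sym {R M ι : Type} [CommRing R] [AddCommGroup M] [Module R M] [Fintype ι]
    {J : Ideal R} {x : ι → M} (h : ∀ i, x i ∈ J • (⊤ : Submodule R M)) :
    x ∈ J • (⊤ : Submodule R (ι → M)) := by
  classical
  rw [← Finset.univ_sum_single x]
  exact sum_mem fun i _ => map_mem_Sym (LinearMap.single R (fun _ => M) i) (h i)

theorem sym_stmt (hE : EmbStmt) (hT : TorsStmt) : SymStmt := by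
  intro A _ d N h j
  obtain ⟨Ψ, rfl⟩ := hE _ A N h
  obtain ⟨k, hk⟩ := (II d).exists_pow_inf_eq_pow_smul (LinearMap.range Ψ)
  refine ⟨j + k, fun n y hn hy => ?_⟩
  obtain ⟨z, hz, u, hu, e⟩ := Submodule.mem_sup.1 hy
  have h1 := map_mem_Sym Ψ hu
  rw [eq_sub_of_add_eq' e, map_sub, LinearMap.mem_ker.1 hz, sub_zero, map_zsmul] at h1
  have h2 : Ψ y ∈ II d ^ (j + k) • ⊤ ⊓ LinearMap.range Ψ :=
    ⟨pi_mem_Sym fun i => by
      have := map_mem_Sym (LinearMap.proj i) h1
      rw [smul_eq_mul, Ideal.mul_top] at this ⊢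
      exact hT d _ n _ hn this, y, rfl⟩
  rw [hk _ (by omega), Nat.add_sub_cancel] at h2
  have h3 := Submodule.smul_mono le_rfl inf_le_right h2
  rw [LinearMap.range_eq_map, ← Submodule.map_smul''] at h3
  obtain ⟨x, hx, e'⟩ := h3
  exact Submodule.mem_sup.2 ⟨y - x, by rw [LinearMap.mem_ker, map_sub, e', sub_self], x, hx,
    by simp⟩

end Pool.Agent.MP_4168de_an.G

end

section

/-! Deep cocycles are coboundaries. -/

namespace Pool.Agent.MP_4168de_an.G

open Set

lemma map_mem_Ar {R M M' : Type} [CommRing R] [AddCommGroup M] [Module R M] [AddCommGroup M']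
    [Module R M'] (f : M →ₗ[R] M') {J : Ideal R} {x : M} (h : x ∈ J • (⊤ : Submodule R M)) :
    f x ∈ J • (⊤ : Submodule R M') := by
  have := Submodule.mem_map_of_mem (f := f) h
  rw [Submodule.map_smul''] at this
  exact Submodule.smul_mono le_rfl le_top this

theorem ar_stmt : ArStmt := by
  intro A _ d W
  classical
  let H : Submodule (Rg d) (Fin d → (A → Rg d) ⧸ W) :=
    { carrier := {x | ∀ i j, tt j • x i = tt i • x j}
      zero_mem' := by simp
      add_mem' := fun a b i j => by simp [a i j, b i j]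
      smul_mem' := fun P x a i j => by simp [smul_comm _ P, a i j] }
  obtain ⟨j, hj⟩ := (II d).exists_pow_inf_eq_pow_smul H
  refine ⟨j + 1, fun x h1 h2 => ?_⟩
  have h8 : (fun i => W.mkQ (x i)) ∈ II d ^ (j + 1) • ⊤ ⊓ H := by
    refine ⟨?_, fun i l => ?_⟩
    · rw [← Finset.univ_sum_single fun i => W.mkQ (x i)]
      refine sum_mem fun i _ => map_mem_Ar (LinearMap.single (Rg d) (fun _ => _ ⧸ W) i) ?_
      obtain ⟨y, hy, u, hu, e⟩ := Submodule.mem_sup.1 (h2 i)
      rw [← e, map_add, W.mkQ_apply y, (Submodule.Quotient.mk_eq_zero W).2 hy, zero_add]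
      exact map_mem_Ar _ hu
    · exact (Submodule.Quotient.eq W).2 (h1 i l)
  rw [hj _ (by omega), Nat.add_sub_cancel_left, pow_one] at h8
  obtain ⟨w', hw'⟩ : ∃ w', ∀ i, W.mkQ (x i) = tt i • w' :=
    Submodule.smul_induction_on (p := fun x => ∃ w', ∀ i, x i = tt i • w') h8
      (fun P hP x hx => by
        obtain ⟨a, rfl⟩ := exists_of_mem_II hP
        refine ⟨∑ l, a l • x l, fun i => ?_⟩
        rw [Pi.smul_apply, Finset.sum_smul, Finset.smul_sum]
        exact Finset.sum_congr rfl fun l _ => by rw [mul_smul, hx.2 i l, smul_comm])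
      fun x y ⟨u, hu⟩ ⟨u', hu'⟩ => ⟨u + u', fun i => by simp [hu, hu']⟩
  obtain ⟨w, rfl⟩ := W.mkQ_surjective w'
  exact ⟨w, fun i => (Submodule.Quotient.eq W).1 (hw' i)⟩

end Pool.Agent.MP_4168de_an.G

end

section

/-! The module of good pairs. -/

namespace Pool.Agent.MP_4168de_an.G

open Set Filter Topology Shift Matrix

theorem good_stmt : GoodStmt := by
  intro A _ _ _ _ D ℓ c σ d e C r u
  obtain ⟨-, -, -, -, n0, n1, n2, -, -⟩ := null_stmt A D ℓ c σ d e C
  have hc : ∀ k : ℕ, 0 < c ^ k := fun k => pow_pos (by linarith [C.one_lt]) k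
  refine ⟨{ carrier := {x | C.Good u x.1 x.2}
            zero_mem' := ⟨by simp, fun τ => .of_forall fun m => ⟨0, n0, ?_⟩⟩
            add_mem' := ?_
            smul_mem' := ?_ }, fun P z => Iff.rfl, fun z h => ?_⟩
  · rintro ⟨P, z⟩ ⟨P', z'⟩ ⟨a1, a2⟩ ⟨b1, b2⟩
    refine ⟨?_, fun τ => ?_⟩
    · dsimp only at a1 b1
      simp only [Prod.fst_add, Prod.snd_add, map_add, a1, b1, add_smul, neg_add]
    · filter_upwards [a2 τ, b2 τ] with m ⟨n, a3, a4⟩ ⟨n', b3, b4⟩
      refine ⟨n + n', n1 _ _ a3 b3, ?_⟩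
      have h := a4.add b4
      rwa [show ∀ x : A → Rg d, P • x - z - n + (P' • x - z' - n') =
        (P + P') • x - (z + z') - (n + n') from fun x => by rw [add_smul]; abel] at h
  · simpa using Cover.late_zero τ
  · rintro Q ⟨P, z⟩ ⟨a1, a2⟩
    obtain ⟨R, hR⟩ := C.late_smul Q
    refine ⟨?_, fun τ => ?_⟩
    · dsimp only at a1
      simp only [Prod.smul_fst, Prod.smul_snd, map_smul, a1, smul_neg, smul_assoc]
    · filter_upwards [a2 (τ + R)] with m ⟨n, a3, a4⟩
      refine ⟨Q • n, n2 _ _ a3, ?_⟩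
      have h := hR _ _ a4
      rwa [add_sub_cancel_right, smul_sub, smul_sub, ← smul_assoc] at h
  · obtain ⟨t₀, t₁, hl⟩ := loc_Null C z
    obtain ⟨m, n, a3, a4⟩ := (h.2 t₁).exists
    have h0 : ∀ t : A × Lat d, 0 ≤ ℓ t.1 := fun t => (C.ℓ_pos _).le
    refine squeeze_zero (fun k => div_nonneg (by rw [len_Null]; exact nonneg_Null h0 _) (hc k).le)
      (fun k => div_le_div_of_nonneg_right ?_ (hc k).le) a3
    rw [len_Null, len_Null]
    refine (summ_Null _ _).tsum_le_tsum (fun t => mul_le_mul_of_nonneg_right ?_ (h0 t))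
      (summ_Null _ _)
    by_cases h1 : co t (C.E^[k] z) = 0
    · simp [h1]
    · have h2 : co t (C.E^[k] ((0 : Rg d) • ∑ i, C.ch (u i) m - z - n)) = 0 := by
        by_contra h3
        exact absurd (hl k t h1).2 (not_lt.2 (a4.iter k t h3))
      rw [zero_smul, zero_sub, iterate_map_sub, iterate_map_neg, map_sub, map_neg,
        sub_eq_zero] at h2
      rw [← h2, Int.cast_neg, abs_neg]

end Pool.Agent.MP_4168de_an.G

end

section

/-! Good pairs from nearby stacks. -/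

namespace Pool.Agent.MP_4168de_an.G

open Set Filter Topology Shift Matrix

theorem near_stmt (hR : RecStmt) (hA : AgreeStmt) : NearStmt := by
  intro A _ _ _ _ D ℓ c σ d e C Q β u hu v hv
  obtain ⟨L, hL⟩ := hR A D ℓ c σ d e C (Q.ρ / 2) (half_pos Q.ρ_pos)
  obtain ⟨l₀, l₁, -, -, h2⟩ := C.len_bounds
  obtain ⟨u', hu'⟩ : ∃ u' : Fin Q.m → _, u' = fun i => Cover.tr v (u i) := ⟨_, rfl⟩
  have lab : ∀ α β β' w, |α + C.a w - Q.α| < Q.ρ → ‖β + C.b w - Q.β‖ < Q.ρ →
      ‖β' + C.b w - Q.β‖ < Q.ρ → C.Lab α β ⊆ C.Lab α β' := by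
    rintro α β β' w a1 a2 a3 _ ⟨x, hx, rfl⟩
    have a4 : Cover.lab (Cover.tr w x) ∈ C.Lab (α + C.a w) (β + C.b w) :=
      ⟨_, C.tr_mem_K hx w, rfl⟩
    rw [Q.const _ _ a1 a2, ← Q.const _ _ a1 a3] at a4
    obtain ⟨x', hx', e⟩ := a4
    have a5 := C.tr_mem_K hx' (-w)
    rw [map_neg, map_neg, add_neg_cancel_right, add_neg_cancel_right] at a5
    refine ⟨_, a5, ?_⟩
    simp only [Cover.lab, Cover.tr, Prod.mk.injEq] at e ⊢
    exact ⟨e.1, by rw [e.2, add_neg_cancel_right]⟩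
  have box : ∀ (k : ℕ) (s : ℝ), ∃ α, |α - s| ≤ L ∧
      C.Ag_Nonzero (fun i => C.S^[k] (u' i)) (fun i => C.S^[k] (u i)) α := fun k s => by
    obtain ⟨w, a1, a2⟩ := hL (Q.α - s) (Q.β - C.L.B'^[k] β)
    have a3 := hu.iter_Nonzero k
    have a4 : C.Stack (C.L.B'^[k] β + C.b (C.Bz^[k] v)) fun i => C.S^[k] (u' i) := by
      simp only [hu', C.iter_tr]
      exact ⟨fun i => by rw [C.z_tr, a3.1 i], fun i j h => (a3.2 i j h).tr _⟩
    have a5 : |Q.α - C.a w + C.a w - Q.α| < Q.ρ := by simpa using Q.ρ_pos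
    have a6 : ‖C.L.B'^[k] β + C.b w - Q.β‖ < Q.ρ / 2 := by
      rwa [show C.L.B'^[k] β + C.b w - Q.β = C.b w - (Q.β - C.L.B'^[k] β) by abel]
    have a7 := a6.trans (half_lt_self Q.ρ_pos)
    refine ⟨Q.α - C.a w, ?_, Cover.ag_of_Nonzero a4 fun t ht =>
      hA A D ℓ c σ d e C Q _ _ a3 _ w a5 a7 t (lab _ _ _ w a5 ?_ a7 ht)⟩
    · rw [abs_sub_comm] at a1
      rwa [sub_right_comm]
    · rw [show C.L.B'^[k] β + C.b (C.Bz^[k] v) + C.b w - Q.β =
        C.L.B'^[k] β + C.b w - Q.β + C.b (C.Bz^[k] v) by abel]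
      linarith [norm_add_le (C.L.B'^[k] β + C.b w - Q.β) (C.b (C.Bz^[k] v)), hv k]
  obtain ⟨t₁, -, g1⟩ := box 0 0
  simp only [Function.iterate_zero, id_eq] at g1
  refine ⟨∑ i, C.H_Nonzero (u' i) t₁ - ∑ i, C.H_Nonzero (u i) t₁, ?_, fun τ => ?_⟩
  · have key := g1.sum_eq (fun u => C.vtx (C.s (C.ix_Nonzero u t₁) u)) fun _ _ h =>
      congrArg (fun t : A × Lat d => tile (C.st t.1, t.2)) h
    have a1 : ∀ i, C.vtx (u' i) = mono v • C.vtx (u i) := fun i => by
      rw [hu']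
      exact tile_add _ _ _
    simp only [Cover.H_Nonzero, map_sub, map_sum, C.bd_ch, Finset.sum_sub_distrib, key, a1,
      ← Finset.smul_sum, sub_smul, one_smul]
    abel
  obtain ⟨t₂, a2, g2⟩ := box 0 (max t₁ (τ + l₁) + L)
  simp only [Function.iterate_zero, id_eq] at g2
  have a3 : max t₁ (τ + l₁) ≤ t₂ := by linarith [(abs_le.1 a2).1]
  have late : ∀ y, ∀ᶠ m : ℤ in atTop, C.Late τ (C.ch y m - C.H_Nonzero y t₂) := fun y => by
    filter_upwards [eventually_ge_atTop (C.ix_Nonzero y t₂)] with m hm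
    refine (Cover.late_ch y hm).le ?_
    have b1 := (C.ix_spec_Nonzero y t₂).2
    rw [C.p_s_succ] at b1
    linarith [h2 (y.1.1 (C.ix_Nonzero y t₂)), le_max_right t₁ (τ + l₁)]
  filter_upwards [eventually_all.2 fun i => late (u' i), eventually_all.2 fun i => late (u i)]
    with m b1 b2
  refine ⟨_, Cover.agree_null box ((le_max_left _ _).trans a3) g1 g2, ?_⟩
  have b3 := (Cover.late_sum (s := Finset.univ) fun i _ => b1 i).sub
    (Cover.late_sum (s := Finset.univ) fun i _ => b2 i)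
  have b4 : ∀ i, C.ch (u' i) m = mono v • C.ch (u i) m := fun i => by rw [hu', C.ch_tr]
  refine (congrArg (C.Late τ) ?_).mp b3
  simp only [Cover.W_Nonzero, Finset.sum_sub_distrib, b4, ← Finset.smul_sum, sub_smul, one_smul]
  abel

end Pool.Agent.MP_4168de_an.G

end

section

/-! Contraction and connectedness. -/

namespace Pool.Agent.MP_4168de_an.G

open Set Filter Topology Shift Matrix

theorem contr_stmt : ContrStmt := by
  intro A _ _ _ _ D ℓ c σ d e C v
  obtain ⟨K, -, hK⟩ := bound_Lin2 C.L C.one_lt C.uB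
  have h1 : ∀ j k, (C.L.φ j ⬝ᵥ fun i => (toR (C.Bz^[k] v) i : ℂ)) =
      C.L.lam j ^ k * (C.L.φ j ⬝ᵥ fun i => (toR v i : ℂ)) := fun j k => by
    induction k with
    | zero => simp
    | succ k ih =>
      rw [Function.iterate_succ_apply', pow_succ', mul_assoc, ← ih, ← phiB_Lin2, ← toR_mulVec]
      rfl
  refine squeeze_zero_norm (fun k => hK (toR (C.Bz^[k] v))) ?_
  simp only [h1]
  have h2 := (tendsto_finsetSum Finset.univ fun j _ =>
    ((tendsto_pow_atTop_nhds_zero_of_norm_lt_one (C.L.lam_lt j)).mul_const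
      (C.L.φ j ⬝ᵥ fun i => (toR v i : ℂ))).norm).const_mul K
  simpa using h2

theorem isConn_stmt : IsConnStmt := by
  intro A _ _ _ _ D ℓ c σ d e C
  refine ⟨fun z p hp => Finset.sum_eq_zero fun x _ => ?_, fun y h1 h2 => ?_⟩
  · obtain ⟨u, rfl⟩ := C.occ x
    have a1 : C.en (u.1 0) ≠ p := fun h => hp ⟨_, (C.st_en u).symm.trans h⟩
    have a2 : C.st (u.1 0) ≠ p := fun h => hp ⟨_, h⟩
    simp [bdM, a1, a2]
  · obtain ⟨a₀⟩ := D.nonempty_alph
    let T : (A → Rg d) →+ ℤ :=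
      { toFun := tot
        map_zero' := by simp [tot]
        map_add' := fun _ _ => by simp [tot, Finset.sum_add_distrib] }
    have h3 : ∀ t, T (tile t) = 1 := fun t => by
      change ∑ p, aug (tile t p) = 1
      rw [← map_sum]
      simp [tile]
    have h4 : T y = ∑ t ∈ (fin_Null y).toFinset, co t y := by
      conv_lhs => rw [dec_Null y, map_sum]
      simp only [map_zsmul, h3, smul_eq_mul, mul_one]
    have h5 : y - T y • tile (C.st a₀, 0) ∈ LinearMap.range C.bd := by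
      rw [h4, Finset.sum_smul]
      conv => enter [2, 1]; rw [dec_Null y]
      rw [← Finset.sum_sub_distrib]
      refine sum_mem fun t ht => ?_
      obtain ⟨a, ha⟩ : t.1 ∈ range C.st := by
        by_contra h
        simp [co_apply, h1 _ h] at ht
      rw [← smul_sub, show t = (C.st a, t.2) by rw [ha]]
      exact zsmul_mem (show _ ∈ LinearMap.range C.bd from conn_ex_One C a a₀ t.2) _
    rwa [show T y = 0 from h2, zero_smul, sub_zero] at h5

end Pool.Agent.MP_4168de_an.G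

end

section

/-! Inflated cycles have augmentation zero. -/

namespace Pool.Agent.MP_4168de_an.G

open Set Filter Topology Shift Matrix

lemma aug_Nil {A : Type} [Fintype A] [DecidableEq A] {d : ℕ} {st en : A → A} {δ : A → Lat d}
    {z : A → Rg d} (hz : bdM st en δ *ᵥ z = 0) :
    (∀ p, ∑ a, inc st en p a * aug (z a) = 0) ∧ ∑ a, aug (z a) • δ a = 0 := by
  constructor
  · intro p
    have := congrArg aug (congrFun hz p)
    simpa [Matrix.mulVec, dotProduct, bdM, inc, apply_ite aug] using this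
  · let D : Rg d →+ Lat d := (Finsupp.liftAddHom fun v => zmultiplesHom (Lat d) v).comp
      AddMonoidAlgebra.coeffAddEquiv.toAddMonoidHom
    have h1 : ∀ v n, D (AddMonoidAlgebra.single v n) = n • v := fun v n => by simp [D]
    have h2 : ∀ v P, D ((mono v - 1) * P) = aug P • v := fun v P => by
      induction P using AddMonoidAlgebra.induction_linear with
      | zero => simp
      | add f g hf hg => rw [mul_add, map_add, hf, hg, map_add, add_smul]
      | single w n =>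
        rw [sub_mul, one_mul, mono, AddMonoidAlgebra.single_mul_single, map_sub, h1, h1]
        simp
    have h3 : ∑ a, (mono (δ a) - 1) * z a = 0 := by
      have := Finset.sum_eq_zero (s := Finset.univ) fun p _ => congrFun hz p
      simp only [Matrix.mulVec, dotProduct] at this
      rw [Finset.sum_comm] at this
      simpa [← Finset.sum_mul, bdM] using this
    simpa [h2] using congrArg D h3

theorem nil_stmt : NilStmt := by
  intro A _ _ _ _ D ℓ c σ d e C
  obtain ⟨N, hN⟩ := C.nil C.Mx C.hasMat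
  have h1 : ∀ k z, (fun x => aug (C.E^[k] z x)) = C.Mx ^ k *ᵥ fun x => aug (z x) := fun k z => by
    induction k with
    | zero => simp
    | succ k ih =>
      rw [Function.iterate_succ_apply', pow_succ', ← Matrix.mulVec_mulVec, ← ih]
      funext b
      simp [C.E_apply, Matrix.mulVec, dotProduct, C.aug_J, aug_mu]
  refine ⟨N, fun z hz x => ?_⟩
  obtain ⟨a1, a2⟩ := aug_Nil hz
  have a3 := hN (fun a => aug (z a)) (fun p => by exact_mod_cast a1 p) (fun i => by
    have := congrFun a2 i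
    simp only [Finset.sum_apply, Pi.smul_apply, smul_eq_mul, mul_comm (aug _)] at this
    exact_mod_cast this) x
  rw [congrFun (h1 N z) x]
  exact_mod_cast a3

end Pool.Agent.MP_4168de_an.G

end

section

/-! Coboundaries and the determinant. -/

namespace Pool.Agent.MP_4168de_an.G

open Set Filter Topology Shift Matrix

theorem cob2_stmt (hM : MatStmt) : Cob2Stmt := by
  intro A _ _ _ _ D ℓ c σ M V occ hr hm g hg
  obtain ⟨h, hlc, e⟩ := hg
  obtain ⟨R, hR⟩ := win_of_lc hlc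
  have h1 : ∀ x y : D.X, (∀ i : ℤ, 0 ≤ i → i ≤ 2 * R → x.1 i = y.1 i) → h x = h y := by
    intro x y hxy
    have e' : ∀ y, h (D.τ 1 y) = h y + g (y.1 0) := fun y => (eq_sub_iff_add_eq'.1 (e y)).symm
    have a1 := hR (D.τ R x) (D.τ R y) fun i hi => by
      have := abs_le.1 hi
      exact hxy _ (by omega) (by omega)
    have a2 : bs (fun y : D.X => g (y.1 0)) x R = bs (fun y : D.X => g (y.1 0)) y R :=
      isum_congr fun i b1 b2 => congrArg g (hxy _ (by omega) (by omega))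
    rw [bs_of_eq e', bs_of_eq e', a2] at a1
    exact add_right_cancel a1
  obtain ⟨H, hH⟩ := key_Cob (σ.pow (2 * R)) V occ ((hM A ℓ c).2.1 _ M _ hm) g h e
    fun x y hxy => h1 _ _ fun i b1 b2 => (σ.pow (2 * R)).loc _ _ hxy i b1 (by
      have a1 := pow_r_ge σ hr (2 * R) x.1
      have a2 : ((2 * R : ℕ) : ℤ) < 2 ^ (2 * R) := by exact_mod_cast Nat.lt_two_pow_self
      omega)
  exact ⟨2 * R, H, hH⟩

open Polynomial in
theorem det_stmt : DetStmt := by
  intro d d' B u c hc hd ⟨p, h1, h2⟩ hu huB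
  have r1 := (left_Lin _ c).1 ⟨u, hu, huB⟩
  have hmap : (B.map (Int.cast : ℤ → ℝ)).charpoly = B.charpoly.map (algebraMap ℤ ℝ) :=
    Matrix.charpoly_map B (algebraMap ℤ ℝ)
  rw [hmap, IsRoot.def, eval_map_algebraMap] at r1
  have hmin : B.charpoly = minpoly ℤ c := by
    refine eq_of_monic_of_dvd_of_natDegree_le (minpoly.monic hc.int) (Matrix.charpoly_monic _)
      (minpoly.isIntegrallyClosed_dvd hc.int r1) ?_
    rw [Matrix.charpoly_natDegree_eq_dim, Fintype.card_fin,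
      ← (minpoly.monic hc.int).natDegree_map (algebraMap ℤ ℚ),
      ← minpoly.isIntegrallyClosed_eq_field_fractions' ℚ hc.int, hc.deg]
    exact hd
  have := invertibleOfNonzero (inv_ne_zero (by linarith [hc.one_lt] : c ≠ 0))
  have h3 := (eval₂_reverse_eq_zero_iff (algebraMap ℤ ℝ) c⁻¹ p).2 h2
  rw [invOf_eq_inv, inv_inv] at h3
  obtain ⟨q, hq⟩ := minpoly.isIntegrallyClosed_dvd hc.int (p := p.reverse) h3
  have h4 := congrArg (fun f => coeff f 0) hq
  simp only [coeff_zero_reverse, h1.leadingCoeff, mul_coeff_zero] at h4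
  rw [Matrix.det_eq_sign_charpoly_coeff, hmin]
  exact (isUnit_neg_one.pow _).mul (IsUnit.of_mul_eq_one _ h4.symm)

end Pool.Agent.MP_4168de_an.G

end

section

/-! The quotient by the nilpotent part. -/

namespace Pool.Agent.MP_4168de_an.G

open Set Filter Topology Shift Matrix

theorem quot_stmt : QuotStmt := by
  intro d₀ B₀
  obtain ⟨N, hN⟩ := (monotone_stabilizes_iff_noetherian (R := ℤ) (M := Lat d₀)).2 inferInstance
    B₀.iterateKer
  obtain ⟨d, b⟩ := Submodule.basisOfPid (Pi.basisFun ℤ (Fin d₀)) (LinearMap.range (B₀ ^ N))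
  let pr : Lat d₀ →ₗ[ℤ] Lat d := b.equivFun.toLinearMap ∘ₗ (B₀ ^ N).rangeRestrict
  have hs : Function.Surjective pr :=
    b.equivFun.surjective.comp (LinearMap.surjective_rangeRestrict _)
  obtain ⟨sc, hsc⟩ := Module.projective_lifting_property pr LinearMap.id hs
  have hk : ∀ v, pr v = 0 ↔ (B₀ ^ N) v = 0 := by
    intro v
    show b.equivFun ((B₀ ^ N).rangeRestrict v) = 0 ↔ _
    rw [LinearEquiv.map_eq_zero_iff, Subtype.ext_iff]
    rfl
  refine ⟨d, N, pr, sc, fun z => LinearMap.congr_fun hsc z, hk, fun v hv => ?_⟩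
  rw [hk] at hv ⊢
  have h1 : v ∈ B₀.iterateKer (N + 1) := by
    show v ∈ LinearMap.ker (B₀ ^ (N + 1))
    rw [LinearMap.mem_ker, pow_succ]
    exact hv
  rw [← hN (N + 1) (Nat.le_succ N)] at h1
  exact h1

end Pool.Agent.MP_4168de_an.G

end
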